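import Mathlib

/-!
# Almost all supports: determinants
-/

namespace Pool.Agent.Lib.MP_bbe012_lc.PG

open Finset

/-- Proof: `(∏ i, D i) * det M` is the determinant of an integral matrix (`Matrix.det_mul_column`/`det_mul_row`: multiply the row `i` by `D i`), so it is a non zero integer, of absolute
value at least `1`, and `∏ i, D i ≤ X ^ card n`. -/
theorem det_lower {n : Type} [Fintype n] [DecidableEq n] (M : Matrix n n ℚ) (D : n → ℕ) (X : ℕ)
    (hD : ∀ i, 1 ≤ D i ∧ D i ≤ X) (hint : ∀ i j, ∃ z : ℤ, (D i : ℚ) * M i j = z) (hdet : M.det ≠ 0) :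
    1 ≤ |M.det| * (X : ℚ) ^ Fintype.card n := by
  choose N hN using hint
  have h1 : (Matrix.of fun i j => (D i : ℚ) * M i j).det = (∏ i, (D i : ℚ)) * M.det :=
    Matrix.det_mul_column _ _
  have h2 : (Matrix.of fun i j => (D i : ℚ) * M i j) = (Matrix.of N).map (fun x : ℤ => (x : ℚ)) := by
    ext i j
    simp only [Matrix.of_apply, Matrix.map_apply]
    exact hN i j
  have h3 : ((Matrix.of N).det : ℚ) = (∏ i, (D i : ℚ)) * M.det := by
    rw [← h1, h2, Int.cast_det]
  have hpos : 0 < ∏ i, (D i : ℚ) := Finset.prod_pos fun i _ => by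
    have := (hD i).1
    exact_mod_cast this
  have h4 : (Matrix.of N).det ≠ 0 := by
    intro h0
    rw [h0, Int.cast_zero] at h3
    rcases mul_eq_zero.1 h3.symm with h5 | h5
    · exact hpos.ne' h5
    · exact hdet h5
  have h5 : (1 : ℚ) ≤ |((Matrix.of N).det : ℚ)| := by
    have h6 : (1 : ℤ) ≤ |(Matrix.of N).det| := Int.one_le_abs h4
    have h7 : ((1 : ℤ) : ℚ) ≤ ((|(Matrix.of N).det| : ℤ) : ℚ) := by exact_mod_cast h6
    rw [Int.cast_abs] at h7
    simpa using h7
  rw [h3, abs_mul, abs_of_pos hpos] at h5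
  have h6 : ∏ i, (D i : ℚ) ≤ (X : ℚ) ^ Fintype.card n := by
    calc ∏ i, (D i : ℚ) ≤ ∏ _i : n, (X : ℚ) := by
          refine Finset.prod_le_prod (fun i _ => Nat.cast_nonneg _) fun i _ => ?_
          exact_mod_cast (hD i).2
      _ = (X : ℚ) ^ Fintype.card n := by
          rw [Finset.prod_const, Finset.card_univ]
  calc (1 : ℚ) ≤ (∏ i, (D i : ℚ)) * |M.det| := h5
    _ ≤ (X : ℚ) ^ Fintype.card n * |M.det| := mul_le_mul_of_nonneg_right h6 (abs_nonneg _)
    _ = |M.det| * (X : ℚ) ^ Fintype.card n := mul_comm _ _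

/-- Either the vectors `v s` are orthogonal to some non zero vector, or some of them have a non zero determinant.

Proof. If the span of the `v s` is not the whole space, there is a non zero linear functional which vanishes on it (`Submodule.exists_le_ker_of_lt_top` or the dual basis; every functional on `n → ℝ` is
`x ↦ ∑ j, x j * P j`); normalise `P` by its largest `|P j|`. Otherwise the `v s` contain a basis (`exists_linearIndependent`, `Basis`): `card n` of them are linearly independent, so the determinant of the matrix with these rows is non zero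
(`Matrix.linearIndependent_rows_iff_isUnit` ...). -/
theorem exists_normal {S n : Type} [Fintype n] [DecidableEq n] [Nonempty n] (v : S → n → ℝ) :
    (∃ P : n → ℝ, (∀ j, |P j| ≤ 1) ∧ (∃ j, |P j| = 1) ∧ ∀ s, ∑ j, P j * v s j = 0) ∨
      ∃ f : n → S, (Matrix.of fun i => v (f i)).det ≠ 0 := by
  by_cases hW : Submodule.span ℝ (Set.range v) = ⊤
  · right
    obtain ⟨κ, a, -, ha2, ha3⟩ := exists_linearIndependent' ℝ v
    rw [hW] at ha2
    let b : Module.Basis κ ℝ (n → ℝ) := Module.Basis.mk ha3 (le_of_eq ha2.symm)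
    let e : n ≃ κ := (Pi.basisFun ℝ n).indexEquiv b
    refine ⟨fun i => a (e i), ?_⟩
    have h1 : LinearIndependent ℝ (Matrix.of fun i => v (a (e i))).row := by
      have h2 : LinearIndependent ℝ ((v ∘ a) ∘ e) := ha3.comp e e.injective
      exact h2
    rw [Matrix.linearIndependent_rows_iff_isUnit] at h1
    exact ((Matrix.isUnit_iff_isUnit_det _).1 h1).ne_zero
  · left
    obtain ⟨f, hf0, hf⟩ := Submodule.exists_le_ker_of_lt_top _ (lt_top_iff_ne_top.2 hW)
    have hfx : ∀ x : n → ℝ, f x = ∑ j, x j * f (Pi.single j 1) := by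
      intro x
      have h1 := LinearMap.pi_apply_eq_sum_univ f x
      rw [h1]
      refine Finset.sum_congr rfl fun j _ => ?_
      rw [smul_eq_mul]
      congr 2
      funext k
      rw [Pi.single_apply]
      by_cases h : j = k
      · rw [if_pos h, if_pos h.symm]
      · rw [if_neg h, if_neg (fun h' => h h'.symm)]
    obtain ⟨j0, hj0⟩ := Finite.exists_max (fun j : n => |f (Pi.single j 1)|)
    have hpos : 0 < |f (Pi.single j0 1)| := by
      rcases (abs_nonneg (f (Pi.single j0 1))).lt_or_eq with h | h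
      · exact h
      · exfalso
        apply hf0
        ext x
        have h2 : ∀ j, f (Pi.single j 1) = 0 := by
          intro j
          have h3 := hj0 j
          rw [← h] at h3
          exact abs_eq_zero.1 (le_antisymm h3 (abs_nonneg _))
        simp [h2]
    refine ⟨fun j => f (Pi.single j 1) / |f (Pi.single j0 1)|, fun j => ?_, ⟨j0, ?_⟩, fun s => ?_⟩
    · rw [abs_div, abs_abs, div_le_one hpos]
      exact hj0 j
    · rw [abs_div, abs_abs, div_self hpos.ne']
    · have h1 : f (v s) = 0 := LinearMap.mem_ker.1 (hf (Submodule.subset_span ⟨s, rfl⟩))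
      rw [hfx] at h1
      have h2 : ∑ j, f (Pi.single j 1) / |f (Pi.single j0 1)| * v s j =
          (∑ j, v s j * f (Pi.single j 1)) / |f (Pi.single j0 1)| := by
        rw [Finset.sum_div]
        refine Finset.sum_congr rfl fun j _ => ?_
        ring
      rw [h2, h1, zero_div]

/-- Proof. Let `Z` be the matrix with `Z i j = Y i e` if `j = I e` (for `j` in the range of `I`), and `Z i j = 1` if `i = j`, `0` otherwise, for `j` not in the range of `I`. Then `|det Z| = |det (Y.submatrix I id)| ≥ c` (block triangular after reindexing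
`n ≃ range I ⊕ complement`: `Matrix.det_reindex_self`, `Matrix.det_fromBlocks_zero₁₂` or `zero₂₁`). The entries of `V Z` in the column `I e` are at most `A ε` in absolute value (they are the entries of `V Y`), those of the other columns are at most `A`. By the Leibniz formula (`Matrix.det_apply`)
`|det (V Z)| ≤ (card n)! ∏ j, (bound of the column j) = (card n)! A ^ card n ε ^ card E`. -/
theorem det_le_of_cols {n E : Type} [Fintype n] [DecidableEq n] [Fintype E] [DecidableEq E] (V : Matrix n n ℝ)
    (Y : Matrix n E ℝ) (I : E ↪ n) (c A ε : ℝ) (hc : 0 < c) (hI : c ≤ |(Y.submatrix I id).det|) (hA : 0 ≤ A)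
    (hε : 0 ≤ ε) (hV : ∀ i j, |V i j| ≤ A) (hVY : ∀ i e, |(V * Y) i e| ≤ A * ε) :
    |V.det| * c ≤ (Fintype.card n).factorial * A ^ Fintype.card n * ε ^ Fintype.card E := by
  classical
  let σ : E ⊕ {j : n // ¬ j ∈ Set.range I} ≃ n :=
    (Equiv.sumCongr (Equiv.ofInjective I I.injective) (Equiv.refl _)).trans
      (Equiv.sumCompl (fun j : n => j ∈ Set.range I))
  have hσl : ∀ e : E, σ (Sum.inl e) = I e := fun e => rfl
  have hσr : ∀ j : {j : n // ¬ j ∈ Set.range I}, σ (Sum.inr j) = j.1 := fun j => rfl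
  let F : Matrix (E ⊕ {j : n // ¬ j ∈ Set.range I}) (E ⊕ {j : n // ¬ j ∈ Set.range I}) ℝ :=
    Matrix.fromBlocks (Y.submatrix I id) 0
      (Y.submatrix (fun j : {j : n // ¬ j ∈ Set.range I} => j.1) id) 1
  have hF : F.det = (Y.submatrix I id).det := by
    rw [Matrix.det_fromBlocks_zero₁₂, Matrix.det_one, mul_one]
  have hFl : ∀ z e, F z (Sum.inl e) = Y (σ z) e := by
    intro z e
    rcases z with z | z
    · rfl
    · rfl
  let W := V.submatrix σ σ * F
  have hW : W.det = V.det * (Y.submatrix I id).det := by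
    rw [Matrix.det_mul, Matrix.det_submatrix_equiv_self, hF]
  have hWl : ∀ x e, W x (Sum.inl e) = (V * Y) (σ x) e := by
    intro x e
    show (V.submatrix σ σ * F) x (Sum.inl e) = (V * Y) (σ x) e
    rw [Matrix.mul_apply, Matrix.mul_apply, ← Equiv.sum_comp σ]
    refine Finset.sum_congr rfl fun z _ => ?_
    rw [hFl, Matrix.submatrix_apply]
  have hWr : ∀ x j, W x (Sum.inr j) = V (σ x) (σ (Sum.inr j)) := by
    intro x j
    show (V.submatrix σ σ * F) x (Sum.inr j) = _
    rw [Matrix.mul_apply, Fintype.sum_sum_type]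
    have h1 : ∀ e : E, F (Sum.inl e) (Sum.inr j) = 0 := fun e => rfl
    have h2 : ∀ k, F (Sum.inr k) (Sum.inr j) = (1 : Matrix _ _ ℝ) k j := fun k => rfl
    simp only [h1, h2, mul_zero, Finset.sum_const_zero, zero_add, Matrix.one_apply,
      mul_ite, mul_one, Finset.sum_ite_eq', Finset.mem_univ, if_true, Matrix.submatrix_apply]
  let b : E ⊕ {j : n // ¬ j ∈ Set.range I} → ℝ := Sum.elim (fun _ => A * ε) (fun _ => A)
  have hb : ∀ x y, |W x y| ≤ b y := by
    intro x y
    rcases y with e | j
    · rw [hWl]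
      exact hVY _ _
    · rw [hWr]
      exact hV _ _
  have hcard : Fintype.card (E ⊕ {j : n // ¬ j ∈ Set.range I}) = Fintype.card n :=
    Fintype.card_congr σ
  have hdet : |W.det| ≤ (Fintype.card n).factorial * ∏ y, b y := by
    rw [Matrix.det_apply']
    refine (Finset.abs_sum_le_sum_abs _ _).trans ?_
    have h1 : ∀ τ ∈ (Finset.univ : Finset (Equiv.Perm (E ⊕ {j : n // ¬ j ∈ Set.range I}))),
        |(((Equiv.Perm.sign τ : ℤˣ) : ℤ) : ℝ) * ∏ y, W (τ y) y| ≤ ∏ y, b y := by
      intro τ _
      rw [abs_mul, Finset.abs_prod]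
      have h2 : |(((Equiv.Perm.sign τ : ℤˣ) : ℤ) : ℝ)| = 1 := by
        rcases Int.units_eq_one_or (Equiv.Perm.sign τ) with h | h
        · rw [h]; simp
        · rw [h]; simp
      rw [h2, one_mul]
      exact Finset.prod_le_prod (fun y _ => abs_nonneg _) fun y _ => hb _ _
    refine (Finset.sum_le_card_nsmul _ _ _ h1).trans (le_of_eq ?_)
    rw [Finset.card_univ, Fintype.card_perm, hcard, nsmul_eq_mul]
  have hprod : ∏ y, b y = A ^ Fintype.card n * ε ^ Fintype.card E := by
    rw [Fintype.prod_sum_type]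
    have h1 : ∏ e : E, b (Sum.inl e) = (A * ε) ^ Fintype.card E := by
      show ∏ _e : E, (A * ε) = _
      rw [Finset.prod_const, Finset.card_univ]
    have h2 : ∏ j : {j : n // ¬ j ∈ Set.range I}, b (Sum.inr j) =
        A ^ Fintype.card {j : n // ¬ j ∈ Set.range I} := by
      show ∏ _j : {j : n // ¬ j ∈ Set.range I}, A = _
      rw [Finset.prod_const, Finset.card_univ]
    rw [h1, h2, ← hcard, Fintype.card_sum, mul_pow, pow_add]
    ring
  rw [hprod, hW, abs_mul] at hdet
  calc |V.det| * c ≤ |V.det| * |(Y.submatrix I id).det| :=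
        mul_le_mul_of_nonneg_left hI (abs_nonneg _)
    _ ≤ (Fintype.card n).factorial * (A ^ Fintype.card n * ε ^ Fintype.card E) := hdet
    _ = (Fintype.card n).factorial * A ^ Fintype.card n * ε ^ Fintype.card E := by ring

end Pool.Agent.Lib.MP_bbe012_lc.PG
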