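import Pool.Agent.Lib.MP_bbe012_lc.PG.ADefs

/-!
# Almost all supports: translation and scaling in the determinants
-/

namespace Pool.Agent.Lib.MP_bbe012_lc.PG

open Finset

variable {ι J : Type} [Fintype ι] [DecidableEq ι] [Fintype J] [DecidableEq J]

/-- The matrix with the rows `σ ^ a * c_j`, `a ∈ [0, d]^ι`, `j ∈ J`. -/
def rowMat (d : ℕ) (σ : (ι → Fin (d + 1)) × J → ι → ℝ) (c : (ι → Fin (d + 1)) × J → J → ℝ) :
    Matrix ((ι → Fin (d + 1)) × J) ((ι → Fin (d + 1)) × J) ℝ :=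
  Matrix.of fun i aj => (∏ l, σ i l ^ (aj.1 l : ℕ)) * c i aj.2

/-- The determinant does not change under translation.

Proof. `rowMat d (σ - θ₀) c = rowMat d σ c * U` with `U (a', j') (a, j) = if j' = j ∧ ∀ l, a' l ≤ a l then ∏ l, (a l).choose (a' l) * (- θ₀ l) ^ (a l - a' l) else 0` (binomial formula for each `(σ_l - θ₀_l) ^ a_l`, `Finset.prod_univ_sum`,
`sub_pow`/`add_pow`). `U` is block triangular for the degree: `U i j = 0` if `deg j < deg i` (`Matrix.BlockTriangular U (fun i => ∑ l, (i.1 l : ℕ))`), and its diagonal blocks are identity matrices (`a' ≤ a` of the same degree are equal), so `det U = 1` (`Matrix.BlockTriangular.det`). -/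
theorem det_shift (d : ℕ) (σ : (ι → Fin (d + 1)) × J → ι → ℝ) (c : (ι → Fin (d + 1)) × J → J → ℝ) (θ₀ : ι → ℝ) :
    (rowMat d (fun i l => σ i l - θ₀ l) c).det = (rowMat d σ c).det := by
  classical
  have key : ∀ (x y : ℝ) (a : Fin (d + 1)), (x - y) ^ (a : ℕ) =
      ∑ k : Fin (d + 1), x ^ (k : ℕ) * (((a : ℕ).choose (k : ℕ) : ℝ) * (-y) ^ ((a : ℕ) - (k : ℕ))) := by
    intro x y a
    rw [Fin.sum_univ_eq_sum_range
      (fun k : ℕ => x ^ k * (((a : ℕ).choose k : ℝ) * (-y) ^ ((a : ℕ) - k))) (d + 1),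
      sub_eq_add_neg, add_pow]
    have hsub : Finset.range ((a : ℕ) + 1) ⊆ Finset.range (d + 1) := by
      intro k hk
      have h1 := Finset.mem_range.1 hk
      exact Finset.mem_range.2 (lt_of_lt_of_le h1 a.2)
    rw [← Finset.sum_subset hsub]
    · refine Finset.sum_congr rfl fun k _ => ?_
      ring
    · intro k _ hk
      have h1 : (a : ℕ) < k := by
        by_contra h
        exact hk (Finset.mem_range.2 (by omega))
      rw [Nat.choose_eq_zero_of_lt h1]
      simp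
  let U : Matrix ((ι → Fin (d + 1)) × J) ((ι → Fin (d + 1)) × J) ℝ := Matrix.of fun p q =>
    if p.2 = q.2 then
      ∏ l, (((q.1 l : ℕ).choose (p.1 l : ℕ) : ℝ) * (-θ₀ l) ^ ((q.1 l : ℕ) - (p.1 l : ℕ))) else 0
  have hU : ∀ p q, U p q = if p.2 = q.2 then
      ∏ l, (((q.1 l : ℕ).choose (p.1 l : ℕ) : ℝ) * (-θ₀ l) ^ ((q.1 l : ℕ) - (p.1 l : ℕ))) else 0 :=
    fun p q => rfl
  have hmul : rowMat d (fun i l => σ i l - θ₀ l) c = rowMat d σ c * U := by
    ext i q
    rw [Matrix.mul_apply, Fintype.sum_prod_type]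
    have h1 : ∀ (a' : ι → Fin (d + 1)),
        ∑ j' : J, rowMat d σ c i (a', j') * U (a', j') q =
          (∏ l, (σ i l ^ (a' l : ℕ) *
            (((q.1 l : ℕ).choose (a' l : ℕ) : ℝ) * (-θ₀ l) ^ ((q.1 l : ℕ) - (a' l : ℕ))))) *
            c i q.2 := by
      intro a'
      rw [Finset.sum_eq_single q.2]
      · have e : (∏ l, (σ i l ^ (a' l : ℕ) *
            (((q.1 l : ℕ).choose (a' l : ℕ) : ℝ) * (-θ₀ l) ^ ((q.1 l : ℕ) - (a' l : ℕ))))) =
            (∏ l, σ i l ^ (a' l : ℕ)) *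
            ∏ l, (((q.1 l : ℕ).choose (a' l : ℕ) : ℝ) * (-θ₀ l) ^ ((q.1 l : ℕ) - (a' l : ℕ))) :=
          Finset.prod_mul_distrib
        rw [hU, if_pos rfl, e]
        simp only [rowMat, Matrix.of_apply]
        rw [mul_assoc, mul_assoc, mul_comm (c i q.2)]
      · intro j' _ hj
        rw [hU, if_neg hj, mul_zero]
      · intro h
        exact absurd (Finset.mem_univ _) h
    rw [Finset.sum_congr rfl fun a' _ => h1 a', ← Finset.sum_mul]
    have h2 : (∏ l, (σ i l - θ₀ l) ^ (q.1 l : ℕ)) =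
        ∑ a' : ι → Fin (d + 1), ∏ l, (σ i l ^ (a' l : ℕ) *
            (((q.1 l : ℕ).choose (a' l : ℕ) : ℝ) * (-θ₀ l) ^ ((q.1 l : ℕ) - (a' l : ℕ)))) := by
      rw [Finset.prod_congr rfl fun l _ => key (σ i l) (θ₀ l) (q.1 l), Finset.prod_univ_sum,
        Fintype.piFinset_univ]
    rw [← h2]
    rfl
  have hzero : ∀ p q : (ι → Fin (d + 1)) × J, (∃ l, (q.1 l : ℕ) < (p.1 l : ℕ)) → U p q = 0 := by
    rintro p q ⟨l, hl⟩
    rw [hU]
    split_ifs
    · refine Finset.prod_eq_zero (Finset.mem_univ l) ?_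
      rw [Nat.choose_eq_zero_of_lt hl]
      simp
    · rfl
  have htri : Matrix.BlockTriangular U (fun p => ∑ l, (p.1 l : ℕ)) := by
    intro p q hlt
    apply hzero
    by_contra hcon
    push Not at hcon
    exact absurd (Finset.sum_le_sum fun l _ => hcon l) (not_le.2 hlt)
  have hdet : U.det = 1 := by
    rw [htri.det]
    refine Finset.prod_eq_one fun k _ => ?_
    have hone : U.toSquareBlock (fun p => ∑ l, (p.1 l : ℕ)) k = 1 := by
      ext p q
      rw [Matrix.toSquareBlock_def, Matrix.of_apply, Matrix.one_apply]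
      split_ifs with hpq
      · rw [hpq, hU, if_pos rfl]
        refine Finset.prod_eq_one fun l _ => ?_
        simp
      · by_cases h2 : p.1.2 = q.1.2
        · apply hzero
          by_contra hcon
          push Not at hcon
          have hs : ∑ l, (p.1.1 l : ℕ) = ∑ l, (q.1.1 l : ℕ) := p.2.trans q.2.symm
          have h3 := (Finset.sum_eq_sum_iff_of_le fun l _ => hcon l).1 hs
          have h4 : p.1.1 = q.1.1 := by
            funext l
            exact Fin.ext (h3 l (Finset.mem_univ l))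
          exact hpq (Subtype.ext (Prod.ext h4 h2))
        · rw [hU, if_neg h2]
    rw [hone, Matrix.det_one]
  rw [hmul, Matrix.det_mul, hdet, mul_one]

/-- Proof: the column `(a, j)` is multiplied by `ℓ ^ ∑ l, a l` (`Matrix.det_mul_row`, `Finset.prod_pow_eq_pow_sum`, `Fintype.sum_prod_type`). -/
theorem det_scale (d : ℕ) (u : (ι → Fin (d + 1)) × J → ι → ℝ) (c : (ι → Fin (d + 1)) × J → J → ℝ) (ℓ : ℝ) :
    (rowMat d (fun i l => ℓ * u i l) c).det =
      ℓ ^ (Fintype.card J * ∑ a : ι → Fin (d + 1), ∑ l, (a l : ℕ)) * (rowMat d u c).det := by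
  have h1 : rowMat d (fun i l => ℓ * u i l) c =
      Matrix.of fun i q => ℓ ^ (∑ l, (q.1 l : ℕ)) * rowMat d u c i q := by
    ext i q
    simp only [rowMat, Matrix.of_apply]
    rw [← Finset.prod_pow_eq_pow_sum, ← mul_assoc, ← Finset.prod_mul_distrib]
    congr 1
    refine Finset.prod_congr rfl fun l _ => ?_
    rw [mul_pow]
  rw [h1, Matrix.det_mul_row, Finset.prod_pow_eq_pow_sum]
  congr 2
  rw [Fintype.sum_prod_type, Finset.mul_sum]
  refine Finset.sum_congr rfl fun a _ => ?_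
  change ∑ _y : J, ∑ l, (a l : ℕ) = Fintype.card J * ∑ l, (a l : ℕ)
  rw [Finset.sum_const, Finset.card_univ, smul_eq_mul]

/-- Proof: for each `l`, the involution `a ↦ Fin.rev ∘ a` gives `2 ∑_a a l = d (d + 1) ^ card ι`. -/
theorem two_mul_sum_deg (d : ℕ) : 2 * ∑ a : ι → Fin (d + 1), ∑ l, (a l : ℕ) =
    Fintype.card ι * (d * (d + 1) ^ Fintype.card ι) := by
  have h1 : ∑ a : ι → Fin (d + 1), ∑ l, (a l : ℕ) =
      ∑ a : ι → Fin (d + 1), ∑ l, ((Fin.rev (a l) : Fin (d + 1)) : ℕ) :=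
    (Fintype.sum_equiv (Equiv.piCongrRight fun _ : ι => (Fin.revPerm : Equiv.Perm (Fin (d + 1))))
      (fun a => ∑ l, ((Fin.rev (a l) : Fin (d + 1)) : ℕ)) (fun a => ∑ l, (a l : ℕ))
      (fun a => rfl)).symm
  rw [two_mul]
  nth_rewrite 2 [h1]
  rw [← Finset.sum_add_distrib]
  have h2 : ∀ a : ι → Fin (d + 1),
      ∑ l, (a l : ℕ) + ∑ l, ((Fin.rev (a l) : Fin (d + 1)) : ℕ) = Fintype.card ι * d := by
    intro a
    rw [← Finset.sum_add_distrib]
    have h3 : ∀ l : ι, (a l : ℕ) + ((Fin.rev (a l) : Fin (d + 1)) : ℕ) = d := by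
      intro l
      rw [Fin.val_rev]
      have := (a l).2
      omega
    rw [Finset.sum_congr rfl fun l _ => h3 l, Finset.sum_const, Finset.card_univ, smul_eq_mul]
  rw [Finset.sum_congr rfl fun a _ => h2 a, Finset.sum_const, Finset.card_univ, smul_eq_mul,
    Fintype.card_fun, Fintype.card_fin]
  ring

end Pool.Agent.Lib.MP_bbe012_lc.PG
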