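import Pool.Agent.Lib.MP_bbe012_lc.PG.ADefs

/-!
# Almost all supports: the multiples of a non zero vector of polynomials
-/

namespace Pool.Agent.Lib.MP_bbe012_lc.PG

open Finset

variable {ι J : Type} [Fintype ι] [DecidableEq ι] [Fintype J] [DecidableEq J]

/-- The columns are the vectors `(u ^ e ν_j(u))_j`, `e ∈ [0, h]^ι`, truncated to exponents in `[0, d]^ι`. -/
def Ymat (ν : J → (ι → ℕ) → ℝ) (d h : ℕ) : Matrix ((ι → Fin (d + 1)) × J) (ι → Fin (h + 1)) ℝ :=
  Matrix.of fun aj e => if ∀ l, (e l : ℕ) ≤ aj.1 l then ν aj.2 (fun l => (aj.1 l : ℕ) - e l) else 0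

private theorem a8_rows {R C : Type} [Fintype R] [DecidableEq R] [Fintype C] [DecidableEq C]
    (M : Matrix R C ℝ) (h : ∀ w : C → ℝ, M.mulVec w = 0 → w = 0) :
    ∃ I : C ↪ R, (M.submatrix I id).det ≠ 0 := by
  have hspan : Submodule.span ℝ (Set.range fun i : R => M i) = ⊤ := by
    by_contra hne
    obtain ⟨f, hf0, hf⟩ := Submodule.exists_le_ker_of_lt_top _ (lt_top_iff_ne_top.2 hne)
    apply hf0
    have hfe : ∀ v : C → ℝ, f v = ∑ e, v e * f (Pi.single e 1) := by
      intro v
      conv_lhs => rw [← LinearMap.sum_single_apply (fun _ => ℝ) v, map_sum]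
      refine Finset.sum_congr rfl fun e _ => ?_
      have h1 : (Pi.single e (v e) : C → ℝ) = v e • Pi.single e (1 : ℝ) := by
        rw [← Pi.single_smul, smul_eq_mul, mul_one]
      rw [h1, map_smul, smul_eq_mul]
    have hw : (fun e => f (Pi.single e 1)) = 0 := by
      apply h
      funext i
      have h1 : f (M i) = 0 := hf (Submodule.subset_span ⟨i, rfl⟩)
      rw [hfe] at h1
      exact h1
    ext e
    have h2 := congrFun hw e
    simpa using h2
  obtain ⟨κ, a, ha, hs, hl⟩ := exists_linearIndependent' ℝ (fun i : R => M i)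
  rw [hspan] at hs
  have hb : Module.Basis κ ℝ (C → ℝ) := Module.Basis.mk hl (by rw [hs])
  have : Fintype κ := Fintype.ofInjective a ha
  have hcard : Fintype.card C = Fintype.card κ := by
    rw [← Module.finrank_eq_card_basis hb, Module.finrank_fintype_fun_eq_card]
  obtain e := Fintype.equivOfCardEq hcard
  refine ⟨⟨fun c => a (e c), fun x y hxy => e.injective (ha hxy)⟩, ?_⟩
  have hl2 : LinearIndependent ℝ (fun c : C => (M.submatrix (fun c => a (e c)) id) c) := by
    exact hl.comp e e.injective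
  have h3 := (Matrix.linearIndependent_rows_iff_isUnit).1 hl2
  rw [Matrix.isUnit_iff_isUnit_det] at h3
  exact h3.ne_zero

private def a8_M (ι J : Type) [Fintype ι] (d h : ℕ) (z : J × (ι → Fin (d + 1)) → ℝ) :
    Matrix ((ι → Fin (d + 1)) × J) (ι → Fin (h + 1)) ℝ :=
  Matrix.of fun aj e => if ∀ l, (e l : ℕ) ≤ aj.1 l then
    z (aj.2, fun l => ⟨(aj.1 l : ℕ) - e l, lt_of_le_of_lt (Nat.sub_le _ _) (aj.1 l).2⟩) else 0

private theorem a8_inj (ι J : Type) [Fintype ι] [DecidableEq ι] [Fintype J] [DecidableEq J]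
    (κ d h : ℕ) (hd : h + κ ≤ d) (z : J × (ι → Fin (d + 1)) → ℝ)
    (hz : ∀ q : J × (ι → Fin (d + 1)), κ < dg (fun l => (q.2 l : ℕ)) → z q = 0)
    (hz1 : ∃ q, z q ≠ 0) (w : (ι → Fin (h + 1)) → ℝ) (hw : (a8_M ι J d h z).mulVec w = 0) :
    w = 0 := by
  classical
  obtain ⟨⟨j, b0⟩, hb0⟩ := hz1
  let W : MvPolynomial ι ℝ :=
    ∑ e : ι → Fin (h + 1), MvPolynomial.monomial (Finsupp.equivFunOnFinite.symm fun l => (e l : ℕ)) (w e)
  let P : MvPolynomial ι ℝ :=
    ∑ b : ι → Fin (d + 1), MvPolynomial.monomial (Finsupp.equivFunOnFinite.symm fun l => (b l : ℕ)) (z (j, b))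
  have hWc : ∀ e : ι → Fin (h + 1),
      W.coeff (Finsupp.equivFunOnFinite.symm fun l => (e l : ℕ)) = w e := by
    intro e
    change (∑ e' : ι → Fin (h + 1), MvPolynomial.monomial
      (Finsupp.equivFunOnFinite.symm fun l => (e' l : ℕ)) (w e')).coeff _ = _
    rw [MvPolynomial.coeff_sum, Finset.sum_eq_single e]
    · rw [MvPolynomial.coeff_monomial, if_pos rfl]
    · intro e' _ he'
      rw [MvPolynomial.coeff_monomial, if_neg]
      intro h1
      apply he'
      funext l
      have h2 := congrFun (Finsupp.equivFunOnFinite.symm.injective h1) l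
      exact Fin.ext h2
    · intro h1
      exact absurd (Finset.mem_univ _) h1
  have hPc : ∀ b : ι → Fin (d + 1),
      P.coeff (Finsupp.equivFunOnFinite.symm fun l => (b l : ℕ)) = z (j, b) := by
    intro e
    change (∑ e' : ι → Fin (d + 1), MvPolynomial.monomial
      (Finsupp.equivFunOnFinite.symm fun l => (e' l : ℕ)) (z (j, e'))).coeff _ = _
    rw [MvPolynomial.coeff_sum, Finset.sum_eq_single e]
    · rw [MvPolynomial.coeff_monomial, if_pos rfl]
    · intro e' _ he'
      rw [MvPolynomial.coeff_monomial, if_neg]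
      intro h1
      apply he'
      funext l
      have h2 := congrFun (Finsupp.equivFunOnFinite.symm.injective h1) l
      exact Fin.ext h2
    · intro h1
      exact absurd (Finset.mem_univ _) h1
  have hP0 : P ≠ 0 := by
    intro h1
    apply hb0
    rw [← hPc b0, h1, MvPolynomial.coeff_zero]
  have hprod : W * P = 0 := by
    ext m
    rw [MvPolynomial.coeff_zero]
    change ((∑ e : ι → Fin (h + 1), MvPolynomial.monomial
      (Finsupp.equivFunOnFinite.symm fun l => (e l : ℕ)) (w e)) *
      (∑ b : ι → Fin (d + 1), MvPolynomial.monomial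
      (Finsupp.equivFunOnFinite.symm fun l => (b l : ℕ)) (z (j, b)))).coeff m = 0
    rw [Finset.sum_mul, MvPolynomial.coeff_sum]
    by_cases hm : ∀ l, m l ≤ d
    · have h1 := congrFun hw ((fun l => ⟨m l, Nat.lt_succ_of_le (hm l)⟩), j)
      change ∑ e : ι → Fin (h + 1), a8_M ι J d h z
        ((fun l => ⟨m l, Nat.lt_succ_of_le (hm l)⟩), j) e * w e = 0 at h1
      rw [← h1]
      refine Finset.sum_congr rfl fun e _ => ?_
      rw [Finset.mul_sum, MvPolynomial.coeff_sum]
      simp only [a8_M, Matrix.of_apply]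
      by_cases he : ∀ l, (e l : ℕ) ≤ m l
      · rw [if_pos he, Finset.sum_eq_single
          (fun l => ⟨m l - e l, lt_of_le_of_lt (Nat.sub_le _ _) (Nat.lt_succ_of_le (hm l))⟩)]
        · rw [MvPolynomial.monomial_mul, MvPolynomial.coeff_monomial, if_pos, mul_comm]
          ext l
          simp only [Finsupp.coe_add, Pi.add_apply, Finsupp.equivFunOnFinite_symm_apply_apply]
          have := he l
          omega
        · intro b _ hb
          rw [MvPolynomial.monomial_mul, MvPolynomial.coeff_monomial, if_neg]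
          intro h2
          apply hb
          funext l
          have h3 := DFunLike.congr_fun h2 l
          simp only [Finsupp.coe_add, Pi.add_apply, Finsupp.equivFunOnFinite_symm_apply_apply] at h3
          apply Fin.ext
          simp only
          omega
        · intro h2
          exact absurd (Finset.mem_univ _) h2
      · rw [if_neg he, zero_mul]
        refine Finset.sum_eq_zero fun b _ => ?_
        rw [MvPolynomial.monomial_mul, MvPolynomial.coeff_monomial, if_neg]
        intro h2
        apply he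
        intro l
        have h3 := DFunLike.congr_fun h2 l
        simp only [Finsupp.coe_add, Pi.add_apply, Finsupp.equivFunOnFinite_symm_apply_apply] at h3
        omega
    · push Not at hm
      obtain ⟨l, hl⟩ := hm
      refine Finset.sum_eq_zero fun e _ => ?_
      rw [Finset.mul_sum, MvPolynomial.coeff_sum]
      refine Finset.sum_eq_zero fun b _ => ?_
      rw [MvPolynomial.monomial_mul, MvPolynomial.coeff_monomial]
      split_ifs with h2
      · have h3 := DFunLike.congr_fun h2 l
        simp only [Finsupp.coe_add, Pi.add_apply, Finsupp.equivFunOnFinite_symm_apply_apply] at h3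
        have h4 : (b l : ℕ) ≤ dg (fun l => (b l : ℕ)) :=
          Finset.single_le_sum (f := fun l => (b l : ℕ)) (fun _ _ => Nat.zero_le _)
            (Finset.mem_univ l)
        have h5 : (e l : ℕ) ≤ h := Nat.lt_succ_iff.1 (e l).2
        rw [hz (j, b) (by
          change κ < dg (fun l => (b l : ℕ))
          omega), mul_zero]
      · rfl
  have hW0 : W = 0 := (mul_eq_zero.1 hprod).resolve_right hP0
  funext e
  rw [← hWc e, hW0, MvPolynomial.coeff_zero]
  rfl

private theorem a8_cont (ι J : Type) [Fintype ι] [DecidableEq ι] [Fintype J] [DecidableEq J]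
    (d h : ℕ) : Continuous fun z : J × (ι → Fin (d + 1)) → ℝ =>
      ∑ I : (ι → Fin (h + 1)) ↪ (ι → Fin (d + 1)) × J,
        |((a8_M ι J d h z).submatrix I id).det| := by
  refine continuous_finsetSum _ fun I _ => ?_
  refine Continuous.abs (Continuous.matrix_det ?_)
  refine continuous_matrix fun i k => ?_
  simp only [a8_M, Matrix.submatrix_apply, Matrix.of_apply]
  split_ifs
  · exact continuous_apply _
  · exact continuous_const

/-- Proof. Let `P` be the (compact) set of the families `x : J × {b : ι → Fin (κ + 1) | dg b ≤ κ} → ℝ` with all `|x| ≤ 1` and some `|x| = 1`; for `x ∈ P` let `ν_x j b = x (j, b)` if `dg b ≤ κ` and `0` otherwise. The columns of `Ymat ν_x d h` are linearly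
independent: if `∑ e, z e • column e = 0` then (as `h + κ ≤ d`, no truncation takes place) `(∑ e, z e u^e) * (∑ b, x (j, b) u^b) = 0` as polynomials for every `j` (`MvPolynomial ι ℝ` is a domain), and the second factor is not zero for some `j`. So some minor `det ((Ymat ν_x d h).submatrix I id)`,
`I` injective, is not zero (rank; or `exists_linearIndependent` for the rows). The maximum over the finite set of all `I` of the absolute values of the minors is a continuous positive function on `P`, so it is at least `2 c > 0` (`IsCompact.exists_isMinOn`; if `P` is empty nothing is to be proved).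
In general `ν j b` for `dg b ≤ κ` are the coordinates of a point `x ∈ P`, and the entries of `Ymat ν d h - Ymat ν_x d h` are at most `δ` in absolute value, all entries at most `1` (`δ ≤ 1`). The determinant of a matrix of size `E` with entries in `[-1, 1]` is a uniformly continuous function of the entries
(`|det M - det M'| ≤ E! E δ`), so the same minor is at least `c` if `δ` is small. -/
theorem Y_minor (ι J : Type) [Fintype ι] [DecidableEq ι] [Fintype J] [DecidableEq J] (κ d h : ℕ) (hd : h + κ ≤ d) :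
    ∃ c δ : ℝ, 0 < c ∧ 0 < δ ∧ ∀ ν : J → (ι → ℕ) → ℝ, (∀ j b, dg b ≤ κ → |ν j b| ≤ 1) → (∃ j b, dg b ≤ κ ∧ |ν j b| = 1) →
      (∀ j b, κ < dg b → |ν j b| ≤ δ) →
        ∃ I : (ι → Fin (h + 1)) ↪ (ι → Fin (d + 1)) × J, c ≤ |((Ymat ν d h).submatrix I id).det| := by
  classical
  let F : (J × (ι → Fin (d + 1)) → ℝ) → ℝ := fun z =>
    ∑ I : (ι → Fin (h + 1)) ↪ (ι → Fin (d + 1)) × J, |((a8_M ι J d h z).submatrix I id).det|
  have hF : Continuous F := a8_cont ι J d h
  let K : Set (J × (ι → Fin (d + 1)) → ℝ) := Set.pi Set.univ fun _ => Set.Icc (-1) 1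
  have hK : IsCompact K := isCompact_univ_pi fun _ => isCompact_Icc
  let Q : Set (J × (ι → Fin (d + 1)) → ℝ) :=
    K ∩ ({z | ∀ q : J × (ι → Fin (d + 1)), κ < dg (fun l => (q.2 l : ℕ)) → z q = 0} ∩
      ⋃ q : J × (ι → Fin (d + 1)), {z | |z q| = 1})
  have hQ : IsCompact Q := by
    refine hK.inter_right (IsClosed.inter ?_ ?_)
    · simp only [Set.ofPred_forall]
      exact isClosed_iInter fun q => isClosed_iInter fun _ =>
        isClosed_eq (continuous_apply q) continuous_const
    · exact isClosed_iUnion_of_finite fun q =>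
        isClosed_eq (continuous_apply q).abs continuous_const
  have hpos : ∀ z ∈ Q, 0 < F z := by
    rintro z ⟨_, hz0, hz1⟩
    obtain ⟨q, hq⟩ := Set.mem_iUnion.1 hz1
    have hq' : |z q| = 1 := hq
    obtain ⟨I, hI⟩ := a8_rows (a8_M ι J d h z) (a8_inj ι J κ d h hd z hz0
      ⟨q, fun h0 => by rw [h0, abs_zero] at hq'; exact zero_ne_one hq'⟩)
    exact Finset.sum_pos' (fun I _ => abs_nonneg _) ⟨I, Finset.mem_univ _, abs_pos.2 hI⟩
  obtain ⟨m, hm0, hm⟩ : ∃ m : ℝ, 0 < m ∧ ∀ z ∈ Q, m ≤ F z := by
    rcases Q.eq_empty_or_nonempty with he | hne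
    · exact ⟨1, one_pos, fun z hz => absurd hz (by rw [he]; exact Set.notMem_empty z)⟩
    · obtain ⟨z0, hz0, hmin⟩ := hQ.exists_isMinOn hne hF.continuousOn
      exact ⟨F z0, hpos z0 hz0, fun z hz => hmin hz⟩
  have huc := hK.uniformContinuousOn_of_continuous hF.continuousOn
  rw [Metric.uniformContinuousOn_iff] at huc
  obtain ⟨δ, hδ, hu⟩ := huc (m / 2) (by positivity)
  let N : ℝ := (Fintype.card ((ι → Fin (h + 1)) ↪ (ι → Fin (d + 1)) × J) : ℝ) + 1
  have hN : 0 < N := by positivity
  refine ⟨m / 2 / N, min (δ / 2) 1, by positivity, by positivity, ?_⟩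
  intro ν h1 h2 h3
  let z : J × (ι → Fin (d + 1)) → ℝ := fun q => ν q.1 (fun l => (q.2 l : ℕ))
  have hY : Ymat ν d h = a8_M ι J d h z := rfl
  let z0 : J × (ι → Fin (d + 1)) → ℝ := fun q =>
    if κ < dg (fun l => (q.2 l : ℕ)) then 0 else z q
  have hzK : z ∈ K := by
    intro q _
    change z q ∈ Set.Icc (-1 : ℝ) 1
    rw [Set.mem_Icc, ← abs_le]
    by_cases hq : dg (fun l => (q.2 l : ℕ)) ≤ κ
    · exact h1 _ _ hq
    · exact (h3 _ _ (not_le.1 hq)).trans (min_le_right _ _)
  have hz0K : z0 ∈ K := by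
    intro q _
    change z0 q ∈ Set.Icc (-1 : ℝ) 1
    by_cases hq : κ < dg (fun l => (q.2 l : ℕ))
    · have : z0 q = 0 := if_pos hq
      rw [this]
      constructor <;> norm_num
    · have : z0 q = z q := if_neg hq
      rw [this]
      exact hzK q (Set.mem_univ q)
  have hz0Q : z0 ∈ Q := by
    refine ⟨hz0K, fun q hq => if_pos hq, ?_⟩
    obtain ⟨j, b, hb, hb1⟩ := h2
    have hbl : ∀ l, b l ≤ d := fun l => by
      have : b l ≤ dg b := Finset.single_le_sum (f := b) (fun _ _ => Nat.zero_le _)
        (Finset.mem_univ l)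
      omega
    refine Set.mem_iUnion.2 ⟨(j, fun l => ⟨b l, Nat.lt_succ_of_le (hbl l)⟩), ?_⟩
    change |z0 (j, fun l => ⟨b l, Nat.lt_succ_of_le (hbl l)⟩)| = 1
    have h4 : z0 (j, fun l => ⟨b l, Nat.lt_succ_of_le (hbl l)⟩) = ν j b := by
      change (if κ < dg (fun l => b l) then (0 : ℝ) else ν j (fun l => b l)) = ν j b
      rw [if_neg (not_lt.2 hb)]
    rw [h4, hb1]
  have hdist : dist z z0 < δ := by
    refine lt_of_le_of_lt ((dist_pi_le_iff (r := δ / 2) (by positivity)).2 fun q => ?_)
      (by linarith)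
    rw [Real.dist_eq]
    by_cases hq : κ < dg (fun l => (q.2 l : ℕ))
    · have : z0 q = 0 := if_pos hq
      rw [this, sub_zero]
      exact (h3 _ _ hq).trans (min_le_left _ _)
    · have : z0 q = z q := if_neg hq
      rw [this, sub_self, abs_zero]
      positivity
  have h5 := hu z hzK z0 hz0K hdist
  rw [Real.dist_eq] at h5
  have h6 := hm z0 hz0Q
  have h7 : m / 2 ≤ F z := by
    have := (abs_lt.1 h5).1
    linarith
  by_contra hcon
  push Not at hcon
  have h8 : F z ≤ ∑ _I : (ι → Fin (h + 1)) ↪ (ι → Fin (d + 1)) × J, m / 2 / N := by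
    refine Finset.sum_le_sum fun I _ => ?_
    have := hcon I
    rw [hY] at this
    exact this.le
  rw [Finset.sum_const, Finset.card_univ, nsmul_eq_mul] at h8
  have h9 : (Fintype.card ((ι → Fin (h + 1)) ↪ (ι → Fin (d + 1)) × J) : ℝ) * (m / 2 / N) < m / 2 := by
    have h10 : (Fintype.card ((ι → Fin (h + 1)) ↪ (ι → Fin (d + 1)) × J) : ℝ) < N := lt_add_one _
    calc _ < N * (m / 2 / N) := mul_lt_mul_of_pos_right h10 (by positivity)
      _ = m / 2 := mul_div_cancel₀ _ hN.ne'
  linarith

end Pool.Agent.Lib.MP_bbe012_lc.PG
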