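import Pool.Agent.Lib.MP_bbe012_lc.PG.ADefs

/-!
# Almost all supports: rational numbers of bounded height
-/

namespace Pool.Agent.Lib.MP_bbe012_lc.PG

open Finset

private theorem a2_hle_div {T : ℕ} (z : ℤ) (b : ℕ) (hb : 0 < b) (hz : z.natAbs ≤ T) (hbT : b ≤ T) :
    HLE T ((z : ℚ) / (b : ℚ)) := by
  have e : (z : ℚ) / (b : ℚ) = Rat.divInt z (b : ℤ) := by
    rw [Rat.divInt_eq_div]
    push_cast
    rfl
  rw [e]
  have hb' : (b : ℤ) ≠ 0 := by exact_mod_cast hb.ne'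
  constructor
  · rcases eq_or_ne z 0 with rfl | h0
    · rw [Rat.zero_divInt]
      simp
    · have h1 := Int.natAbs_dvd_natAbs.2 (Rat.num_dvd z hb')
      exact (Nat.le_of_dvd (Int.natAbs_pos.2 h0) h1).trans hz
  · have h1 := Rat.den_dvd z (b : ℤ)
    have h2 : (Rat.divInt z (b : ℤ)).den ∣ b := by exact_mod_cast h1
    exact (Nat.le_of_dvd hb h2).trans hbT

private theorem a2_image (T : ℕ) : {a : ℚ | HLE T a} ⊆
    (((Finset.Icc (-(T : ℤ)) T ×ˢ Finset.Icc 1 T).image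
      fun p : ℤ × ℕ => (p.1 : ℚ) / (p.2 : ℚ) : Finset ℚ) : Set ℚ) := by
  intro a ha
  have ha1 : a.num.natAbs ≤ T := ha.1
  have ha2 : a.den ≤ T := ha.2
  have hpos : 1 ≤ a.den := a.den_pos
  rw [Finset.coe_image]
  refine ⟨(a.num, a.den), ?_, Rat.num_div_den a⟩
  rw [Finset.mem_coe, Finset.mem_product, Finset.mem_Icc, Finset.mem_Icc]
  refine ⟨⟨?_, ?_⟩, hpos, ha2⟩
  · show -(T : ℤ) ≤ a.num
    omega
  · show a.num ≤ (T : ℤ)
    omega

private theorem a2_sep (F : Finset ℝ) (y w δ : ℝ) (hδ : 0 < δ) (hw : 0 ≤ w)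
    (h1 : ∀ x ∈ F, y ≤ x ∧ x ≤ y + w) (h2 : ∀ x ∈ F, ∀ x' ∈ F, x ≠ x' → δ ≤ |x - x'|) :
    (F.card : ℝ) ≤ 1 + w / δ := by
  have hcard : F.card ≤ (Finset.range (⌊w / δ⌋₊ + 1)).card := by
    refine Finset.card_le_card_of_injOn (fun x => ⌊(x - y) / δ⌋₊) (fun x hx => ?_) ?_
    · have hx' : x ∈ F := hx
      obtain ⟨h3, h4⟩ := h1 x hx'
      rw [Finset.mem_coe, Finset.mem_range]
      refine Nat.lt_succ_of_le (Nat.floor_le_floor ?_)
      exact div_le_div_of_nonneg_right (by linarith) hδ.le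
    · intro x hx x' hx' hxx
      have hx1 : x ∈ F := hx
      have hx2 : x' ∈ F := hx'
      by_contra hne
      have h5 := h2 x hx1 x' hx2 hne
      obtain ⟨h3, -⟩ := h1 x hx1
      obtain ⟨h4, -⟩ := h1 x' hx2
      have hxx' : ⌊(x - y) / δ⌋₊ = ⌊(x' - y) / δ⌋₊ := hxx
      have a1 : 0 ≤ (x - y) / δ := div_nonneg (by linarith) hδ.le
      have a2 : 0 ≤ (x' - y) / δ := div_nonneg (by linarith) hδ.le
      have b1 := Nat.floor_le a1
      have b2 := Nat.lt_floor_add_one ((x - y) / δ)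
      have b3 := Nat.floor_le a2
      have b4 := Nat.lt_floor_add_one ((x' - y) / δ)
      rw [hxx'] at b1 b2
      have c1 : |(x - y) / δ - (x' - y) / δ| < 1 := by
        rw [abs_lt]
        constructor <;> linarith
      have c2 : (x - y) / δ - (x' - y) / δ = (x - x') / δ := by
        rw [← sub_div]
        congr 1
        ring
      rw [c2, abs_div, abs_of_pos hδ, div_lt_one hδ] at c1
      linarith
  rw [Finset.card_range] at hcard
  have h3 : (F.card : ℝ) ≤ ((⌊w / δ⌋₊ + 1 : ℕ) : ℝ) := by exact_mod_cast hcard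
  have h4 := Nat.floor_le (div_nonneg hw hδ.le)
  push_cast at h3
  linarith

private theorem a2_sq (M : ℕ) (hM : 2 ≤ M) :
    ∑ k ∈ Finset.Icc 2 M, (1 : ℝ) / (k : ℝ) ^ 2 ≤ 3 / 4 - 1 / M := by
  induction M, hM using Nat.le_induction with
  | base =>
    rw [Finset.Icc_self, Finset.sum_singleton]
    norm_num
  | succ M hM ih =>
    rw [Finset.sum_Icc_succ_top (by omega)]
    have hM0 : (2 : ℝ) ≤ M := by exact_mod_cast hM
    have h1 : (1 : ℝ) / ((M + 1 : ℕ) : ℝ) ^ 2 ≤ 1 / M - 1 / ((M + 1 : ℕ) : ℝ) := by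
      push_cast
      rw [div_sub_div _ _ (by linarith) (by linarith), div_le_div_iff₀ (by positivity) (by positivity)]
      nlinarith
    linarith

private theorem a2_har0 (M : ℕ) : ∑ k ∈ Finset.Icc 2 M, (1 : ℝ) / (k : ℝ) ≤ M := by
  calc ∑ k ∈ Finset.Icc 2 M, (1 : ℝ) / (k : ℝ) ≤ ∑ k ∈ Finset.Icc 2 M, (1 : ℝ) := by
        refine Finset.sum_le_sum fun k hk => ?_
        have h1 := (Finset.mem_Icc.1 hk).1
        have h2 : (2 : ℝ) ≤ k := by exact_mod_cast h1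
        rw [div_le_one (by linarith)]
        linarith
    _ ≤ M := by
        rw [Finset.sum_const, Nat.card_Icc, nsmul_eq_mul, mul_one]
        have : M + 1 - 2 ≤ M := by omega
        exact_mod_cast this

private theorem a2_har (M : ℕ) (hM : 32 ≤ M) :
    ∑ k ∈ Finset.Icc 2 M, (1 : ℝ) / (k : ℝ) ≤ 31 + M / 32 := by
  induction M, hM using Nat.le_induction with
  | base =>
    refine (a2_har0 32).trans ?_
    norm_num
  | succ M hM ih =>
    rw [Finset.sum_Icc_succ_top (by omega)]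
    have hM0 : (32 : ℝ) ≤ M := by exact_mod_cast hM
    have h1 : (1 : ℝ) / ((M + 1 : ℕ) : ℝ) ≤ 1 / 32 := by
      push_cast
      exact one_div_le_one_div_of_le (by norm_num) (by linarith)
    push_cast at h1 ⊢
    linarith

private theorem a2_card_b (N M k : ℕ) (hk : 0 < k) :
    ((Finset.Ioc N (N + M)).filter (k ∣ ·)).card ≤ M / k + 1 := by
  have h0 : Finset.Ioc 0 (N + M) = Finset.Ioc 0 N ∪ Finset.Ioc N (N + M) := by
    ext x
    rw [Finset.mem_union, Finset.mem_Ioc, Finset.mem_Ioc, Finset.mem_Ioc]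
    omega
  have h1 : ((Finset.Ioc 0 (N + M)).filter (k ∣ ·)).card =
      ((Finset.Ioc 0 N).filter (k ∣ ·)).card + ((Finset.Ioc N (N + M)).filter (k ∣ ·)).card := by
    rw [← Finset.card_union_of_disjoint]
    · rw [← Finset.filter_union, h0]
    · rw [Finset.disjoint_left]
      intro x hx hx'
      simp only [Finset.mem_filter, Finset.mem_Ioc] at hx hx'
      omega
  rw [Nat.Ioc_filter_dvd_card_eq_div, Nat.Ioc_filter_dvd_card_eq_div, Nat.add_div hk] at h1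
  split_ifs at h1 <;> omega

private theorem a2_card_a (M k : ℕ) : ((Finset.Icc 1 M).filter (k ∣ ·)).card = M / k := by
  rw [← Nat.Ioc_filter_dvd_card_eq_div]
  congr 1

private theorem a2_coprime (N M : ℕ) (hM : 1024 ≤ M) :
    (M : ℝ) ^ 2 / 8 ≤ ((((Finset.Icc 1 M) ×ˢ (Finset.Ioc N (N + M))).filter
      fun p => Nat.Coprime p.1 p.2).card : ℝ) := by
  have hsub : ((Finset.Icc 1 M) ×ˢ (Finset.Ioc N (N + M))).filter (fun p => ¬ Nat.Coprime p.1 p.2) ⊆
      (Finset.Icc 2 M).biUnion fun k =>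
        ((Finset.Icc 1 M).filter (k ∣ ·)) ×ˢ ((Finset.Ioc N (N + M)).filter (k ∣ ·)) := by
    intro p hp
    obtain ⟨hp1, hp2⟩ := Finset.mem_filter.1 hp
    obtain ⟨ha, hb⟩ := Finset.mem_product.1 hp1
    have ha' := Finset.mem_Icc.1 ha
    have hg0 : 0 < Nat.gcd p.1 p.2 := Nat.gcd_pos_of_pos_left _ (by omega)
    have hg1 : Nat.gcd p.1 p.2 ≠ 1 := hp2
    have hgle : Nat.gcd p.1 p.2 ≤ p.1 := Nat.gcd_le_left _ (by omega)
    rw [Finset.mem_biUnion]
    refine ⟨Nat.gcd p.1 p.2, Finset.mem_Icc.2 ⟨by omega, by omega⟩, ?_⟩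
    rw [Finset.mem_product, Finset.mem_filter, Finset.mem_filter]
    exact ⟨⟨ha, Nat.gcd_dvd_left _ _⟩, hb, Nat.gcd_dvd_right _ _⟩
  have hM0 : (1024 : ℝ) ≤ M := by exact_mod_cast hM
  have hnc : ((((Finset.Icc 1 M) ×ˢ (Finset.Ioc N (N + M))).filter
      (fun p => ¬ Nat.Coprime p.1 p.2)).card : ℝ) ≤ 13 / 16 * (M : ℝ) ^ 2 := by
    have h1 : (((Finset.Icc 1 M) ×ˢ (Finset.Ioc N (N + M))).filter
      (fun p => ¬ Nat.Coprime p.1 p.2)).card ≤ ∑ k ∈ Finset.Icc 2 M, (M / k) * (M / k + 1) := by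
      refine (Finset.card_le_card hsub).trans (Finset.card_biUnion_le.trans
        (Finset.sum_le_sum fun k hk => ?_))
      have hk2 := (Finset.mem_Icc.1 hk).1
      rw [Finset.card_product, a2_card_a]
      exact Nat.mul_le_mul le_rfl (a2_card_b N M k (by omega))
    have h2 : ((∑ k ∈ Finset.Icc 2 M, (M / k) * (M / k + 1) : ℕ) : ℝ) ≤
        (M : ℝ) ^ 2 * ∑ k ∈ Finset.Icc 2 M, (1 : ℝ) / (k : ℝ) ^ 2 +
          M * ∑ k ∈ Finset.Icc 2 M, (1 : ℝ) / (k : ℝ) := by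
      rw [Finset.mul_sum, Finset.mul_sum, ← Finset.sum_add_distrib, Nat.cast_sum]
      refine Finset.sum_le_sum fun k hk => ?_
      have hk2 := (Finset.mem_Icc.1 hk).1
      have hk0 : (0 : ℝ) < k := by
        have : 0 < k := by omega
        exact_mod_cast this
      have h3 : ((M / k : ℕ) : ℝ) ≤ (M : ℝ) / k := Nat.cast_div_le
      have h4 : (0 : ℝ) ≤ ((M / k : ℕ) : ℝ) := Nat.cast_nonneg _
      push_cast
      calc ((M / k : ℕ) : ℝ) * (((M / k : ℕ) : ℝ) + 1) ≤ ((M : ℝ) / k) * ((M : ℝ) / k + 1) := by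
            apply mul_le_mul h3 (by linarith) (by linarith)
            positivity
        _ = (M : ℝ) ^ 2 * (1 / (k : ℝ) ^ 2) + M * (1 / (k : ℝ)) := by
            field_simp
    have h5 := a2_sq M (by omega)
    have h6 := a2_har M (by omega)
    have h7 : (0 : ℝ) ≤ 1 / M := by positivity
    have h8 : (M : ℝ) ^ 2 * ∑ k ∈ Finset.Icc 2 M, (1 : ℝ) / (k : ℝ) ^ 2 ≤ (M : ℝ) ^ 2 * (3 / 4) :=
      mul_le_mul_of_nonneg_left (by linarith) (by positivity)
    have h9 : (M : ℝ) * ∑ k ∈ Finset.Icc 2 M, (1 : ℝ) / (k : ℝ) ≤ M * (M / 16) :=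
      mul_le_mul_of_nonneg_left (by linarith) (by linarith)
    have h10 : ((((Finset.Icc 1 M) ×ˢ (Finset.Ioc N (N + M))).filter
      (fun p => ¬ Nat.Coprime p.1 p.2)).card : ℝ) ≤
      ((∑ k ∈ Finset.Icc 2 M, (M / k) * (M / k + 1) : ℕ) : ℝ) := by exact_mod_cast h1
    nlinarith
  have hall : (((Finset.Icc 1 M) ×ˢ (Finset.Ioc N (N + M))).card : ℝ) = (M : ℝ) ^ 2 := by
    rw [Finset.card_product, Nat.card_Icc, Nat.card_Ioc]
    have e1 : M + 1 - 1 = M := by omega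
    have e2 : N + M - N = M := by omega
    rw [e1, e2]
    push_cast
    ring
  have hsum := Finset.card_filter_add_card_filter_not
    (s := (Finset.Icc 1 M) ×ˢ (Finset.Ioc N (N + M))) (fun p => Nat.Coprime p.1 p.2)
  have hsum' : ((((Finset.Icc 1 M) ×ˢ (Finset.Ioc N (N + M))).filter
      fun p => Nat.Coprime p.1 p.2).card : ℝ) + ((((Finset.Icc 1 M) ×ˢ (Finset.Ioc N (N + M))).filter
      (fun p => ¬ Nat.Coprime p.1 p.2)).card : ℝ) = (M : ℝ) ^ 2 := by
    rw [← hall]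
    exact_mod_cast hsum
  nlinarith

/-- Proof: `a = num / den`; the pairs `(num, den)` are in a finite set. -/
theorem finite_HLE (T : ℕ) : {a : ℚ | HLE T a}.Finite := by
  exact (Finset.finite_toSet _).subset (a2_image T)

/-- Proof: at most `2 T + 1` numerators and `T` denominators (`1 ≤ den ≤ T`), and `(2 T + 1) T ≤ 3 T ^ 2`. -/
theorem ncard_HLE_le {T : ℕ} (hT : 1 ≤ T) : {a : ℚ | HLE T a}.ncard ≤ 3 * T ^ 2 := by
  have h1 := Set.ncard_le_ncard (a2_image T) (Finset.finite_toSet _)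
  rw [Set.ncard_coe_finset] at h1
  refine h1.trans (Finset.card_image_le.trans ?_)
  rw [Finset.card_product, Int.card_Icc, Nat.card_Icc]
  have e1 : ((T : ℤ) + 1 - -(T : ℤ)).toNat = 2 * T + 1 := by omega
  have e2 : T + 1 - 1 = T := by omega
  rw [e1, e2]
  nlinarith

/-- Two different rational numbers of height at most `T` have distance at least `T ^ (-2)`.
Proof: `a - a' = z / (den a den a')` with `z ≠ 0` an integer. -/
theorem dist_HLE {T : ℕ} {a a' : ℚ} (h : HLE T a) (h' : HLE T a') (hne : a ≠ a') : 1 ≤ |a - a'| * (T : ℚ) ^ 2 := by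
  have hd : (0 : ℚ) < a.den := by exact_mod_cast a.den_pos
  have hd' : (0 : ℚ) < a'.den := by exact_mod_cast a'.den_pos
  have h1 : a = a.num / a.den := (Rat.num_div_den a).symm
  have h2 : a' = a'.num / a'.den := (Rat.num_div_den a').symm
  have h3 : (a - a') * ((a.den : ℚ) * a'.den) = ((a.num * a'.den - a'.num * a.den : ℤ) : ℚ) := by
    push_cast
    have h4 : a * a.den = a.num := Rat.mul_den_eq_num a
    have h5 : a' * a'.den = a'.num := Rat.mul_den_eq_num a'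
    rw [← h4, ← h5]
    ring
  have hz : a.num * a'.den - a'.num * a.den ≠ 0 := by
    intro h0
    rw [h0, Int.cast_zero] at h3
    have h6 : a - a' = 0 := by
      rcases mul_eq_zero.1 h3 with h7 | h7
      · exact h7
      · exact absurd h7 (mul_pos hd hd').ne'
    exact hne (sub_eq_zero.1 h6)
  have h8 : (1 : ℚ) ≤ |a - a'| * ((a.den : ℚ) * a'.den) := by
    have h9 : |a - a'| * ((a.den : ℚ) * a'.den) =
        ((|a.num * a'.den - a'.num * a.den| : ℤ) : ℚ) := by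
      rw [Int.cast_abs, ← h3, abs_mul, abs_of_pos (mul_pos hd hd')]
    rw [h9]
    exact_mod_cast Int.one_le_abs hz
  refine h8.trans (mul_le_mul_of_nonneg_left ?_ (abs_nonneg _))
  have h10 : (a.den : ℚ) ≤ T := by exact_mod_cast h.2
  have h11 : (a'.den : ℚ) ≤ T := by exact_mod_cast h'.2
  rw [sq]
  exact mul_le_mul h10 h11 hd'.le (hd.le.trans h10)

/-- Proof. The elements of an interval `[y, y + w]` come from rational numbers in an interval of length `w ℓ`, with mutual distances `≥ T ^ (-2)`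
(`dist_HLE`): order the `k + 1` of them (`Finset.orderEmbOfFin`, or: induction, or the largest and the smallest), `k T ^ (-2) ≤ w ℓ`, so their number is
`k + 1 ≤ 1 + w ℓ T ^ 2`. General statement (worth proving first): a finite set of reals in an interval of length `w ≥ 0` with mutual distances `≥ δ > 0` has at most
`1 + w / δ` elements. (`T = 0`: the set `X` is empty, as `den ≥ 1`.) -/
theorem icount_heights (T : ℕ) (x₀ ℓ : ℝ) (hℓ : 0 < ℓ) (X : Finset ℚ) (hX : ∀ a ∈ X, HLE T a) :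
    ICount (X.image fun a : ℚ => ((a : ℝ) - x₀) / ℓ) (ℓ * (T : ℝ) ^ 2) := by
  intro y w hw
  rcases Nat.eq_zero_or_pos T with rfl | hT
  · have hX0 : X = ∅ := by
      rw [Finset.eq_empty_iff_forall_notMem]
      intro a ha
      have h1 := (hX a ha).2
      have h2 := a.den_pos
      omega
    rw [hX0]
    simp
  have hT0 : (0 : ℝ) < T := by exact_mod_cast hT
  have hδ : (0 : ℝ) < 1 / (ℓ * (T : ℝ) ^ 2) := by positivity
  have h1 := a2_sep ((X.image fun a : ℚ => ((a : ℝ) - x₀) / ℓ).filter fun x => y ≤ x ∧ x ≤ y + w)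
    y w (1 / (ℓ * (T : ℝ) ^ 2)) hδ hw (fun x hx => (Finset.mem_filter.1 hx).2) (by
      intro x hx x' hx' hne
      obtain ⟨a, ha, rfl⟩ := Finset.mem_image.1 (Finset.mem_filter.1 hx).1
      obtain ⟨a', ha', rfl⟩ := Finset.mem_image.1 (Finset.mem_filter.1 hx').1
      have hne' : a ≠ a' := by
        rintro rfl
        exact hne rfl
      have h2 := dist_HLE (hX a ha) (hX a' ha') hne'
      have h3 : (1 : ℝ) ≤ |(a : ℝ) - a'| * (T : ℝ) ^ 2 := by exact_mod_cast h2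
      have h4 : ((a : ℝ) - x₀) / ℓ - ((a' : ℝ) - x₀) / ℓ = ((a : ℝ) - a') / ℓ := by ring
      rw [h4, abs_div, abs_of_pos hℓ, div_le_div_iff₀ (by positivity) hℓ, one_mul]
      calc ℓ = ℓ * 1 := (mul_one _).symm
        _ ≤ ℓ * (|(a : ℝ) - a'| * (T : ℝ) ^ 2) := mul_le_mul_of_nonneg_left h3 hℓ.le
        _ = |(a : ℝ) - a'| * (ℓ * (T : ℝ) ^ 2) := by ring)
  refine h1.trans (le_of_eq ?_)
  rw [div_div_eq_mul_div, div_one]

/-- Many rational numbers of height at most `T` in every interval: there is `c > 0` such that for all `T ≥ 1` at least `c T ^ 2` of them lie in the interval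
`|a - a₀| ≤ δ`, if `a₀` itself has height at most `1`, that is `a₀ ∈ {-1, 0, 1}` (only `a₀ = 0` and `a₀ = 1` are needed).

Proof. Let `M` and `N` be natural numbers with `M ≤ δ N`, `N + M ≤ T`. Among the pairs `(a, b)`, `1 ≤ a ≤ M`, `N < b ≤ N + M`, those with a common divisor `k ≥ 2` are at
most `∑_{k = 2}^{M} (M / k) (M / k + 1) ≤ M ^ 2 ∑_{k ≥ 2} 1 / k ^ 2 + M ∑_{k = 2}^M 1 / k`; here `∑_{k ≥ 2} 1 / k ^ 2 ≤ 1/4 + ∑_{k ≥ 3} 1 / (k (k - 1)) = 3/4`, and
`∑_{k=2}^M 1/k ≤ M / 16` for `M` large (for example `1 / k ≤ 1 / √k ...`, or `∑_{k ≤ M} 1/k ≤ 2 √M`, or `≤ 1 + log M`). So for `M ≥ M₀` at least `M ^ 2 / 8` pairs are coprime, and the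
`a / b` are different rational numbers of height `≤ T` with `0 < a / b ≤ M / N ≤ δ`. For `a₀ = 1` take `1 - a / b = (b - a) / b` (also of height `≤ b ≤ T`), for `a₀ = -1` their negatives, for `a₀ = 0` the `a / b`.
Choose `M = ⌊δ' T⌋`, `N = T - M` with `δ' > 0` small (`δ' ≤ δ (1 - δ')`, `δ' ≤ 1/2`). This gives `c T ^ 2` for `T ≥ T₀`; for `1 ≤ T < T₀` the number `a₀` itself
is in the set, so `c ≤ 1 / T₀ ^ 2` is enough. -/
theorem many_HLE (a₀ : ℚ) (h₀ : HLE 1 a₀) (δ : ℝ) (hδ : 0 < δ) : ∃ c : ℝ, 0 < c ∧ ∀ T : ℕ, 1 ≤ T →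
    c * (T : ℝ) ^ 2 ≤ ({a : ℚ | HLE T a ∧ |(a : ℝ) - a₀| ≤ δ}.ncard : ℝ) := by
  obtain ⟨δ', hδ'0, hδ'1, hδ'2⟩ : ∃ δ' : ℝ, 0 < δ' ∧ δ' ≤ 1 / 2 ∧ δ' ≤ δ / 2 :=
    ⟨min (1 / 2) (δ / 2), lt_min (by norm_num) (by linarith), min_le_left _ _, min_le_right _ _⟩
  have hT₀ : (0 : ℝ) < 1025 / δ' := by positivity
  refine ⟨min (δ' ^ 2 / 32) (1 / (1025 / δ') ^ 2), lt_min (by positivity) (by positivity),
    fun T hT => ?_⟩
  have hT1 : (1 : ℝ) ≤ T := by exact_mod_cast hT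
  have hfin : {a : ℚ | HLE T a ∧ |(a : ℝ) - a₀| ≤ δ}.Finite :=
    (finite_HLE T).subset fun a ha => ha.1
  have hden : a₀.den = 1 := le_antisymm h₀.2 a₀.den_pos
  have hnum : a₀.num.natAbs ≤ 1 := h₀.1
  have ha₀ : a₀ = (a₀.num : ℚ) := by
    have := Rat.num_div_den a₀
    rw [hden, Nat.cast_one, div_one] at this
    exact this.symm
  rcases le_or_gt (T : ℝ) (1025 / δ') with hsm | hbig
  · -- small `T`
    have hmem : a₀ ∈ {a : ℚ | HLE T a ∧ |(a : ℝ) - a₀| ≤ δ} :=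
      ⟨⟨h₀.1.trans hT, h₀.2.trans hT⟩, by rw [sub_self, abs_zero]; exact hδ.le⟩
    have h1 : 1 ≤ {a : ℚ | HLE T a ∧ |(a : ℝ) - a₀| ≤ δ}.ncard :=
      Nat.one_le_iff_ne_zero.2 (Set.ncard_ne_zero_of_mem hmem hfin)
    have h2 : min (δ' ^ 2 / 32) (1 / (1025 / δ') ^ 2) * (T : ℝ) ^ 2 ≤ 1 := by
      calc min (δ' ^ 2 / 32) (1 / (1025 / δ') ^ 2) * (T : ℝ) ^ 2
          ≤ 1 / (1025 / δ') ^ 2 * (1025 / δ') ^ 2 :=
            mul_le_mul (min_le_right _ _) (pow_le_pow_left₀ (by linarith) hsm 2) (by positivity)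
              (by positivity)
        _ = 1 := by
            rw [one_div, inv_mul_cancel₀]
            positivity
    exact h2.trans (by exact_mod_cast h1)
  · -- large `T`
    obtain ⟨M, hM⟩ : ∃ M : ℕ, M = ⌊δ' * T⌋₊ := ⟨_, rfl⟩
    have hM1 : (M : ℝ) ≤ δ' * T := by
      rw [hM]
      exact Nat.floor_le (by positivity)
    have hM2 : δ' * T < M + 1 := by
      rw [hM]
      exact Nat.lt_floor_add_one _
    have hbig' : 1025 < δ' * T := by
      rw [div_lt_iff₀ hδ'0] at hbig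
      linarith
    have hM3 : 1024 ≤ M := by
      have : (1024 : ℝ) < M := by linarith
      exact_mod_cast this.le
    have hMT : M ≤ T := by
      have : (M : ℝ) ≤ T := by nlinarith
      exact_mod_cast this
    obtain ⟨N, hN⟩ : ∃ N : ℕ, N + M = T := ⟨T - M, by omega⟩
    have hNr : (N : ℝ) + M = T := by exact_mod_cast hN
    have hMN : (M : ℝ) ≤ δ * N := by nlinarith
    have hMN' : (M : ℝ) ≤ N := by nlinarith
    have hcop := a2_coprime N M hM3
    -- the sign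
    obtain ⟨ε, hε1, hε2⟩ : ∃ ε : ℤ, (ε = 1 ∨ ε = -1) ∧
        ∀ a b : ℕ, a ≤ M → N < b → b ≤ T → (a₀.num * b + ε * a).natAbs ≤ T := by
      have h3 : a₀.num = 0 ∨ a₀.num = 1 ∨ a₀.num = -1 := by omega
      have hNM : M ≤ N := by exact_mod_cast hMN'
      rcases h3 with h3 | h3 | h3
      · exact ⟨1, Or.inl rfl, fun a b h4 h5 h6 => by rw [h3]; omega⟩
      · exact ⟨-1, Or.inr rfl, fun a b h4 h5 h6 => by rw [h3]; omega⟩
      · exact ⟨1, Or.inl rfl, fun a b h4 h5 h6 => by rw [h3]; omega⟩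
    have hεabs : |(ε : ℝ)| = 1 := by
      rcases hε1 with h4 | h4 <;> rw [h4] <;> norm_num
    have hεq : (ε : ℚ) ≠ 0 := by
      rcases hε1 with h4 | h4 <;> rw [h4] <;> norm_num
    -- the injection
    have hinj : Set.InjOn (fun p : ℕ × ℕ => ((a₀.num * p.2 + ε * p.1 : ℤ) : ℚ) / (p.2 : ℚ))
        ((((Finset.Icc 1 M) ×ˢ (Finset.Ioc N (N + M))).filter
          fun p => Nat.Coprime p.1 p.2 : Finset (ℕ × ℕ)) : Set (ℕ × ℕ)) := by
      intro p hp p' hp' hpp
      rw [Finset.mem_coe, Finset.mem_filter, Finset.mem_product, Finset.mem_Icc,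
        Finset.mem_Ioc] at hp hp'
      obtain ⟨⟨⟨p1, p2⟩, p3, p4⟩, p5⟩ := hp
      obtain ⟨⟨⟨q1, q2⟩, q3, q4⟩, q5⟩ := hp'
      have hb : (0 : ℚ) < p.2 := by
        have : 0 < p.2 := by omega
        exact_mod_cast this
      have hb' : (0 : ℚ) < p'.2 := by
        have : 0 < p'.2 := by omega
        exact_mod_cast this
      have e1 : ∀ r : ℕ × ℕ, (0 : ℚ) < r.2 → ((a₀.num * r.2 + ε * r.1 : ℤ) : ℚ) / (r.2 : ℚ) =
          a₀.num + ε * ((r.1 : ℚ) / r.2) := by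
        intro r hr
        push_cast
        rw [add_div, mul_div_assoc, div_self hr.ne', mul_one, mul_div_assoc]
      have e2 : ((a₀.num * p.2 + ε * p.1 : ℤ) : ℚ) / (p.2 : ℚ) =
          ((a₀.num * p'.2 + ε * p'.1 : ℤ) : ℚ) / (p'.2 : ℚ) := hpp
      rw [e1 p hb, e1 p' hb'] at e2
      have e3 : (p.1 : ℚ) / p.2 = (p'.1 : ℚ) / p'.2 := mul_left_cancel₀ hεq (add_left_cancel e2)
      rw [div_eq_div_iff hb.ne' hb'.ne'] at e3
      have e4 : p.1 * p'.2 = p'.1 * p.2 := by exact_mod_cast e3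
      have f1 : p.1 ∣ p'.1 := by
        have : p.1 ∣ p'.1 * p.2 := e4 ▸ dvd_mul_right _ _
        exact p5.dvd_of_dvd_mul_right this
      have f2 : p'.1 ∣ p.1 := by
        have : p'.1 ∣ p.1 * p'.2 := e4 ▸ dvd_mul_right _ _
        exact q5.dvd_of_dvd_mul_right this
      have f3 : p.1 = p'.1 := Nat.dvd_antisymm f1 f2
      rw [f3] at e4
      have f4 : p'.2 = p.2 := Nat.eq_of_mul_eq_mul_left (by omega) e4
      exact Prod.ext f3 f4.symm
    have himg : (((((Finset.Icc 1 M) ×ˢ (Finset.Ioc N (N + M))).filter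
          fun p => Nat.Coprime p.1 p.2).image
            (fun p : ℕ × ℕ => ((a₀.num * p.2 + ε * p.1 : ℤ) : ℚ) / (p.2 : ℚ)) : Finset ℚ) : Set ℚ) ⊆
        {a : ℚ | HLE T a ∧ |(a : ℝ) - a₀| ≤ δ} := by
      intro x hx
      rw [Finset.mem_coe, Finset.mem_image] at hx
      obtain ⟨p, hp, rfl⟩ := hx
      rw [Finset.mem_filter, Finset.mem_product, Finset.mem_Icc, Finset.mem_Ioc] at hp
      obtain ⟨⟨⟨p1, p2⟩, p3, p4⟩, p5⟩ := hp
      refine ⟨a2_hle_div _ _ (by omega) (hε2 _ _ p2 p3 (by omega)) (by omega), ?_⟩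
      have hb : (0 : ℝ) < p.2 := by
        have : 0 < p.2 := by omega
        exact_mod_cast this
      have hN3 : (N : ℝ) < p.2 := by exact_mod_cast p3
      have hp2 : (p.1 : ℝ) ≤ M := by exact_mod_cast p2
      have e5 : ((((a₀.num * p.2 + ε * p.1 : ℤ) : ℚ) / (p.2 : ℚ) : ℚ) : ℝ) - (a₀ : ℝ) =
          ε * ((p.1 : ℝ) / p.2) := by
        have e6 : (a₀ : ℝ) = (a₀.num : ℝ) := by
          conv_lhs => rw [ha₀]
          push_cast
          rfl
        rw [e6]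
        push_cast
        rw [add_div, mul_div_assoc, div_self hb.ne', mul_one, mul_div_assoc]
        ring
      rw [e5, abs_mul, hεabs, one_mul, abs_of_nonneg (by positivity), div_le_iff₀ hb]
      nlinarith
    have hcard := Set.ncard_le_ncard himg hfin
    rw [Set.ncard_coe_finset, Finset.card_image_of_injOn hinj] at hcard
    have hcard' : ((((Finset.Icc 1 M) ×ˢ (Finset.Ioc N (N + M))).filter
          fun p => Nat.Coprime p.1 p.2).card : ℝ) ≤
        ({a : ℚ | HLE T a ∧ |(a : ℝ) - a₀| ≤ δ}.ncard : ℝ) := by exact_mod_cast hcard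
    refine le_trans ?_ (hcop.trans hcard')
    have h5 : δ' * T / 2 ≤ M := by linarith
    calc min (δ' ^ 2 / 32) (1 / (1025 / δ') ^ 2) * (T : ℝ) ^ 2 ≤ δ' ^ 2 / 32 * (T : ℝ) ^ 2 :=
          mul_le_mul_of_nonneg_right (min_le_left _ _) (by positivity)
      _ = (δ' * T / 2) ^ 2 / 8 := by ring
      _ ≤ (M : ℝ) ^ 2 / 8 := by
          apply div_le_div_of_nonneg_right _ (by norm_num)
          exact pow_le_pow_left₀ (by positivity) h5 2

end Pool.Agent.Lib.MP_bbe012_lc.PG
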