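import Pool.Agent.Lib.MP_bbe012_lc.PG.ADefs

/-!
# Almost all supports: expansions
-/

namespace Pool.Agent.Lib.MP_bbe012_lc.PG

open Finset

variable {ι : Type} [Fintype ι]

theorem mon_add (h : ι → ℝ) (b b' : ι → ℕ) : mon h (b + b') = mon h b * mon h b' := by
  unfold mon
  rw [← Finset.prod_mul_distrib]
  exact Finset.prod_congr rfl fun i _ => by rw [Pi.add_apply, pow_add]

theorem dg_add (b b' : ι → ℕ) : dg (b + b') = dg b + dg b' := by
  unfold dg
  rw [← Finset.sum_add_distrib]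
  exact Finset.sum_congr rfl fun i _ => by rw [Pi.add_apply]

theorem abs_mon_le {h : ι → ℝ} {ℓ : ℝ} (hh : ∀ i, |h i| ≤ ℓ) (b : ι → ℕ) : |mon h b| ≤ ℓ ^ dg b := by
  unfold mon dg
  rw [Finset.abs_prod, ← Finset.prod_pow_eq_pow_sum]
  refine Finset.prod_le_prod (fun i _ => abs_nonneg _) fun i _ => ?_
  rw [abs_pow]
  exact pow_le_pow_left₀ (abs_nonneg _) (hh i) _

theorem mon_smul (ℓ : ℝ) (u : ι → ℝ) (b : ι → ℕ) : mon (fun i => ℓ * u i) b = ℓ ^ dg b * mon u b := by
  unfold mon dg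
  rw [← Finset.prod_pow_eq_pow_sum, ← Finset.prod_mul_distrib]
  exact Finset.prod_congr rfl fun i _ => by rw [mul_pow]

private theorem le_dg (b : ι → ℕ) (i : ι) : b i ≤ dg b := by
  unfold dg
  exact Finset.single_le_sum (f := b) (fun _ _ => Nat.zero_le _) (Finset.mem_univ i)

private theorem box_sum [DecidableEq ι] (x : ι → ℝ) (n : ℕ) :
    ∑ b ∈ Fintype.piFinset (fun _ : ι => Finset.range n), mon x b =
      ∏ i, ∑ k ∈ Finset.range n, x i ^ k := by
  rw [Finset.prod_univ_sum]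
  rfl

private theorem box_tendsto [DecidableEq ι] : Filter.Tendsto
    (fun n : ℕ => Fintype.piFinset (fun _ : ι => Finset.range n)) Filter.atTop Filter.atTop := by
  refine Filter.tendsto_atTop_finset_of_monotone ?_ ?_
  · intro m n hmn
    exact Fintype.piFinset_subset _ _ fun _ => Finset.range_mono hmn
  · intro b
    refine ⟨dg b + 1, ?_⟩
    rw [Fintype.mem_piFinset]
    intro i
    rw [Finset.mem_range]
    exact Nat.lt_succ_of_le (le_dg b i)

/-- Proof: product of geometric series (induction on the number of variables: `Fintype.induction_empty_option`, or `Fin K` and `Fin.consEquiv`, `Summable.mul_of_nonneg`;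
or `tsum` of products: `HasSum` for `∏ i, x i ^ b i`, `0 ≤ x i < 1`, with sum `∏ i, (1 - x i)⁻¹`). -/
theorem hasSum_mon {x : ι → ℝ} (hx : ∀ i, 0 ≤ x i ∧ x i < 1) : HasSum (mon x) (∏ i, (1 - x i)⁻¹) := by
  classical
  have h0 : ∀ b, 0 ≤ mon x b := fun b => Finset.prod_nonneg fun i _ => pow_nonneg (hx i).1 _
  have hlim : Filter.Tendsto (fun n : ℕ => ∑ b ∈ Fintype.piFinset (fun _ : ι => Finset.range n),
      mon x b) Filter.atTop (nhds (∏ i, (1 - x i)⁻¹)) := by
    simp only [box_sum]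
    refine tendsto_finsetProd _ fun i _ => ?_
    exact (hasSum_geometric_of_lt_one (hx i).1 (hx i).2).tendsto_sum_nat
  have hbd : ∀ F : Finset (ι → ℕ), ∑ b ∈ F, mon x b ≤ ∏ i, (1 - x i)⁻¹ := by
    intro F
    refine ge_of_tendsto hlim ?_
    filter_upwards [(box_tendsto (ι := ι)).eventually_ge_atTop F] with n hn
    exact Finset.sum_le_sum_of_subset_of_nonneg hn fun b _ _ => h0 b
  have hs : Summable (mon x) := summable_of_sum_le h0 hbd
  have h1 : Filter.Tendsto (fun n : ℕ => ∑ b ∈ Fintype.piFinset (fun _ : ι => Finset.range n),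
      mon x b) Filter.atTop (nhds (∑' b, mon x b)) := hs.hasSum.comp box_tendsto
  rw [← tendsto_nhds_unique h1 hlim]
  exact hs.hasSum

/-- Proof: `hasSum_mon` for `x i = y`. -/
theorem hasSum_pow_dg {y : ℝ} (h0 : 0 ≤ y) (h1 : y < 1) :
    HasSum (fun b : ι → ℕ => y ^ dg b) ((1 - y)⁻¹ ^ Fintype.card ι) := by
  have h2 := hasSum_mon (ι := ι) (x := fun _ => y) fun _ => ⟨h0, h1⟩
  have h3 : (∏ _i : ι, (1 - y)⁻¹) = (1 - y)⁻¹ ^ Fintype.card ι := by
    rw [Finset.prod_const, Finset.card_univ]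
  rw [h3] at h2
  have h4 : (mon fun _ : ι => y) = fun b : ι → ℕ => y ^ dg b := by
    funext b
    unfold mon dg
    exact Finset.prod_pow_eq_pow_sum _ _ _
  rw [h4] at h2
  exact h2

/-- Only finitely many exponents have a given bound for the degree. -/
theorem finite_dg_lt (n : ℕ) : {b : ι → ℕ | dg b < n}.Finite := by
  classical
  refine (Fintype.piFinset (fun _ : ι => Finset.range n)).finite_toSet.subset fun b hb => ?_
  rw [Finset.mem_coe, Fintype.mem_piFinset]
  intro i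
  rw [Finset.mem_range]
  exact (le_dg b i).trans_lt hb

/-- The remainder of the expansion.

Proof. `h.sum` for the vector `ℓ u` (`|ℓ u_i| ≤ ℓ < r`), so the difference is the sum over `b ∉ F` of `ν b ℓ ^ dg b mon u b` (`mon_smul`), all with `dg b ≥ n`;
`|ν b| ℓ ^ dg b ≤ B (ℓ / r) ^ dg b = B (2 ℓ / r) ^ dg b (1/2) ^ dg b ≤ B (2 ℓ / r) ^ n (1/2) ^ dg b` (as `2 ℓ / r ≤ 1`), and `∑ b, (1/2) ^ dg b = 2 ^ card ι` (`hasSum_pow_dg`). -/
theorem Exp.approx {r B : ℝ} {θ₀ : ι → ℝ} {N : (ι → ℝ) → ℝ} {ν : (ι → ℕ) → ℝ} (h : Exp r B θ₀ N ν) (hr : 0 < r)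
    (hB : 0 ≤ B) {ℓ : ℝ} (hℓ : 0 < ℓ) (hℓr : 4 * ℓ ≤ r) {u : ι → ℝ} (hu : ∀ i, |u i| ≤ 1) (n : ℕ)
    (F : Finset (ι → ℕ)) (hF : ∀ b, dg b < n → b ∈ F) :
    |N (θ₀ + fun i => ℓ * u i) - ∑ b ∈ F, ν b * ℓ ^ dg b * mon u b| ≤ B * 2 ^ Fintype.card ι * (2 * ℓ / r) ^ n := by
  classical
  have hs : HasSum (fun b => ν b * ℓ ^ dg b * mon u b) (N (θ₀ + fun i => ℓ * u i)) := by
    have h1 := h.sum (fun i => ℓ * u i) fun i => by
      rw [abs_mul, abs_of_pos hℓ]
      have h2 : ℓ * |u i| ≤ ℓ * 1 := mul_le_mul_of_nonneg_left (hu i) hℓ.le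
      linarith
    have h3 : (fun b => ν b * mon (fun i => ℓ * u i) b) = fun b => ν b * ℓ ^ dg b * mon u b := by
      funext b
      rw [mon_smul, mul_assoc]
    rw [h3] at h1
    exact h1
  have hF' : HasSum (fun b => if b ∈ F then ν b * ℓ ^ dg b * mon u b else 0)
      (∑ b ∈ F, ν b * ℓ ^ dg b * mon u b) := by
    have h1 : HasSum (fun b => if b ∈ F then ν b * ℓ ^ dg b * mon u b else 0)
        (∑ b ∈ F, (if b ∈ F then ν b * ℓ ^ dg b * mon u b else 0)) :=
      hasSum_sum_of_ne_finset_zero (fun b hb => if_neg hb)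
    have h2 : ∑ b ∈ F, (if b ∈ F then ν b * ℓ ^ dg b * mon u b else 0) =
        ∑ b ∈ F, ν b * ℓ ^ dg b * mon u b := Finset.sum_congr rfl fun b hb => if_pos hb
    rw [h2] at h1
    exact h1
  have hd := hs.sub hF'
  have hg := (hasSum_pow_dg (ι := ι) (y := 1 / 2) (by norm_num) (by norm_num)).mul_left
    (B * (2 * ℓ / r) ^ n)
  have hq0 : 0 ≤ 2 * ℓ / r := by positivity
  have hq1 : 2 * ℓ / r ≤ 1 := by
    rw [div_le_one hr]
    linarith
  have hle : ∀ b, ‖ν b * ℓ ^ dg b * mon u b - (if b ∈ F then ν b * ℓ ^ dg b * mon u b else 0)‖ ≤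
      B * (2 * ℓ / r) ^ n * (1 / 2) ^ dg b := by
    intro b
    by_cases hb : b ∈ F
    · rw [if_pos hb, sub_self, norm_zero]
      positivity
    · rw [if_neg hb, sub_zero, Real.norm_eq_abs, abs_mul, abs_mul]
      have hn : n ≤ dg b := by
        by_contra hc
        exact hb (hF b (not_le.1 hc))
      have h1 : |mon u b| ≤ 1 := by
        have h2 := abs_mon_le hu b
        rwa [one_pow] at h2
      have h2 : |ν b| ≤ B * r⁻¹ ^ dg b := h.bound b
      have h3 : |ℓ ^ dg b| = ℓ ^ dg b := abs_of_nonneg (by positivity)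
      rw [h3]
      have h4 : |ν b| * ℓ ^ dg b * |mon u b| ≤ B * r⁻¹ ^ dg b * ℓ ^ dg b * 1 := by
        refine mul_le_mul (mul_le_mul_of_nonneg_right h2 (by positivity)) h1 (abs_nonneg _) ?_
        positivity
      have h5 : B * r⁻¹ ^ dg b * ℓ ^ dg b * 1 = B * (2 * ℓ / r) ^ dg b * (1 / 2) ^ dg b := by
        rw [mul_one, mul_assoc, ← mul_pow, mul_assoc, ← mul_pow]
        congr 2
        ring
      have h6 : (2 * ℓ / r) ^ dg b ≤ (2 * ℓ / r) ^ n := pow_le_pow_of_le_one hq0 hq1 hn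
      rw [h5] at h4
      refine h4.trans ?_
      exact mul_le_mul_of_nonneg_right (mul_le_mul_of_nonneg_left h6 hB) (by positivity)
  have h7 := hd.norm_le_of_bounded hg hle
  rw [Real.norm_eq_abs] at h7
  refine h7.trans (le_of_eq ?_)
  have h8 : ((1 : ℝ) - 1 / 2)⁻¹ = 2 := by norm_num
  rw [h8]
  ring

/-- If all the coefficients vanish, the function vanishes near `θ₀`. -/
theorem Exp.eq_zero {r B : ℝ} {θ₀ : ι → ℝ} {N : (ι → ℝ) → ℝ} {ν : (ι → ℕ) → ℝ} (h : Exp r B θ₀ N ν) (hr : 0 < r)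
    (h0 : ∀ b, ν b = 0) : ∀ᶠ θ in nhds θ₀, N θ = 0 := by
  have h1 : ∀ i, ∀ᶠ θ : ι → ℝ in nhds θ₀, |θ i - θ₀ i| < r := by
    intro i
    have h2 : Filter.Tendsto (fun θ : ι → ℝ => |θ i - θ₀ i|) (nhds θ₀) (nhds |θ₀ i - θ₀ i|) :=
      (((continuous_apply i).sub continuous_const).abs).tendsto θ₀
    rw [sub_self, abs_zero] at h2
    exact h2.eventually_lt_const hr
  filter_upwards [Filter.eventually_all.2 h1] with θ hθ
  have h3 := h.sum (θ - θ₀) hθ
  have h4 : (fun b => ν b * mon (θ - θ₀) b) = fun _ => 0 := by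
    funext b
    rw [h0, zero_mul]
  rw [h4, add_sub_cancel] at h3
  exact h3.unique hasSum_zero

/-- Proof: linearity of `HasSum`; the bound: `|∑ x_j ν_j| ≤ ∑ |x_j| B r⁻¹ ^ dg b`. -/
theorem Exp.linear {J : Type} [Fintype J] {r B : ℝ} {θ₀ : ι → ℝ} {N : J → (ι → ℝ) → ℝ} {ν : J → (ι → ℕ) → ℝ}
    (h : ∀ j, Exp r B θ₀ (N j) (ν j)) (x : J → ℝ) :
    Exp r ((∑ j, |x j|) * B) θ₀ (fun θ => ∑ j, x j * N j θ) (fun b => ∑ j, x j * ν j b) := by
  refine ⟨fun b => ?_, fun k hk => ?_⟩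
  · refine (Finset.abs_sum_le_sum_abs _ _).trans ?_
    rw [Finset.sum_mul, Finset.sum_mul]
    refine Finset.sum_le_sum fun j _ => ?_
    rw [abs_mul, mul_assoc]
    exact mul_le_mul_of_nonneg_left ((h j).bound b) (abs_nonneg _)
  · have h1 := hasSum_sum (s := Finset.univ) fun j (_ : j ∈ Finset.univ) =>
      ((h j).sum k hk).mul_left (x j)
    have h2 : (fun b => (∑ j, x j * ν j b) * mon k b) =
        fun b => ∑ j, x j * (ν j b * mon k b) := by
      funext b
      rw [Finset.sum_mul]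
      exact Finset.sum_congr rfl fun j _ => by rw [mul_assoc]
    rw [h2]
    exact h1

theorem Exp.mono {r B B' : ℝ} {θ₀ : ι → ℝ} {N : (ι → ℝ) → ℝ} {ν : (ι → ℕ) → ℝ} (h : Exp r B θ₀ N ν) (hr : 0 < r)
    (hB : B ≤ B') : Exp r B' θ₀ N ν :=
  ⟨fun b => (h.bound b).trans (mul_le_mul_of_nonneg_right hB (by positivity)), h.sum⟩

/-- Proof: `|ν b| ≤ B r⁻¹ ^ dg b ≤ B r'⁻¹ ^ dg b`. -/
theorem Exp.mono_radius {r r' B : ℝ} {θ₀ : ι → ℝ} {N : (ι → ℝ) → ℝ} {ν : (ι → ℕ) → ℝ} (h : Exp r B θ₀ N ν)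
    (hr : 0 < r') (hr' : r' ≤ r) (hB : 0 ≤ B) : Exp r' B θ₀ N ν := by
  refine ⟨fun b => (h.bound b).trans (mul_le_mul_of_nonneg_left ?_ hB),
    fun k hk => h.sum k fun i => (hk i).trans_le hr'⟩
  have h0 : 0 < r := hr.trans_le hr'
  exact pow_le_pow_left₀ (by positivity) (inv_anti₀ hr hr') _

private theorem dg_single [DecidableEq ι] (i : ι) : dg (Pi.single i 1 : ι → ℕ) = 1 := by
  unfold dg
  rw [Finset.sum_eq_single i]
  · exact Pi.single_eq_same _ _
  · intro j _ hj
    exact Pi.single_eq_of_ne hj _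
  · intro hi
    exact absurd (Finset.mem_univ i) hi

private theorem mon_single [DecidableEq ι] (k : ι → ℝ) (i : ι) :
    mon k (Pi.single i 1 : ι → ℕ) = k i := by
  unfold mon
  rw [Finset.prod_eq_single i]
  · rw [Pi.single_eq_same, pow_one]
  · intro j _ hj
    rw [Pi.single_eq_of_ne hj, pow_zero]
  · intro hi
    exact absurd (Finset.mem_univ i) hi

omit [Fintype ι] in
private theorem sub_single [DecidableEq ι] {b : ι → ℕ} {i : ι} (hb : b i ≠ 0) :
    b = (b - Pi.single i 1) + Pi.single i 1 := by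
  funext j
  rw [Pi.add_apply, Pi.sub_apply]
  rcases eq_or_ne j i with rfl | hj
  · rw [Pi.single_eq_same]
    omega
  · rw [Pi.single_eq_of_ne hj]
    omega

/-- Multiplication by a coordinate. Proof: `θ_i = θ₀_i + h_i`; the coefficients are `θ₀_i ν b + ν (b - e_i)` (the second term only if `b i ≥ 1`):
`HasSum` of the shifted series by the injection `b ↦ b + e_i` (`Function.Injective.hasSum_iff`). The bound: `|θ₀_i| ≤ M`, `|ν (b - e_i)| ≤ B r⁻¹ ^ (dg b - 1) = B r r⁻¹ ^ dg b`. The continuity: clear. -/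
theorem LA.mul_coord [DecidableEq ι] {S : Set (ι → ℝ)} {r B : ℝ} {f : (ι → ℝ) → ℝ} {m : (ι → ℝ) → (ι → ℕ) → ℝ}
    (h : LA S r B f m) (hr : 0 < r) (hB : 0 ≤ B) {M : ℝ} (hM : ∀ θ ∈ S, ∀ i, |θ i| ≤ M) (i : ι) :
    ∃ (B' : ℝ) (m' : (ι → ℝ) → (ι → ℕ) → ℝ), 0 ≤ B' ∧ LA S r B' (fun θ => θ i * f θ) m' := by
  refine ⟨|M| * B + B * r, fun θ b => θ i * m θ b +
    (if b i = 0 then 0 else m θ (b - Pi.single i 1)), by positivity, ?_, fun θ hθ => ⟨?_, ?_⟩⟩
  · intro b
    refine ContinuousOn.add ((continuous_apply i).continuousOn.mul (h.cont b)) ?_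
    by_cases hb : b i = 0
    · simp only [if_pos hb]
      exact continuousOn_const
    · simp only [if_neg hb]
      exact h.cont _
  · intro b
    have h1 : |θ i * m θ b| ≤ |M| * B * r⁻¹ ^ dg b := by
      rw [abs_mul, mul_assoc]
      have h2 : |θ i| ≤ |M| := (hM θ hθ i).trans (le_abs_self M)
      exact mul_le_mul h2 ((h.exp θ hθ).bound b) (abs_nonneg _) (abs_nonneg _)
    have h2 : |(if b i = 0 then 0 else m θ (b - Pi.single i 1) : ℝ)| ≤ B * r * r⁻¹ ^ dg b := by
      by_cases hb : b i = 0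
      · rw [if_pos hb, abs_zero]
        positivity
      · rw [if_neg hb]
        refine ((h.exp θ hθ).bound _).trans (le_of_eq ?_)
        have h3 : b = (b - Pi.single i 1) + Pi.single i 1 := sub_single hb
        have h4 : dg b = dg (b - Pi.single i 1) + 1 := by
          have h5 := dg_add (b - Pi.single i 1) (Pi.single i 1)
          rw [← h3, dg_single] at h5
          exact h5
        rw [h4, pow_succ]
        field_simp
    refine (abs_add_le _ _).trans ?_
    rw [add_mul]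
    exact add_le_add h1 h2
  · intro k hk
    have h1 := (h.exp θ hθ).sum k hk
    have h2 := h1.mul_left (θ i)
    have h3 : HasSum (fun b => (if b i = 0 then 0 else m θ (b - Pi.single i 1)) * mon k b)
        (k i * f (θ + k)) := by
      have h4 : Function.Injective fun b : ι → ℕ => b + Pi.single i 1 := add_left_injective _
      refine (h4.hasSum_iff ?_).1 ?_
      · intro b hb
        by_cases hb0 : b i = 0
        · rw [if_pos hb0, zero_mul]
        · exact absurd ⟨b - Pi.single i 1, (sub_single hb0).symm⟩ hb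
      · have h5 : ((fun b => (if b i = 0 then 0 else m θ (b - Pi.single i 1)) * mon k b) ∘
            fun b : ι → ℕ => b + Pi.single i 1) = fun b => k i * (m θ b * mon k b) := by
          funext b
          have h6 : (b + Pi.single i 1 : ι → ℕ) i ≠ 0 := by
            rw [Pi.add_apply, Pi.single_eq_same]
            exact Nat.succ_ne_zero _
          change (if (b + Pi.single i 1 : ι → ℕ) i = 0 then 0
            else m θ (b + Pi.single i 1 - Pi.single i 1)) * mon k (b + Pi.single i 1) = _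
          rw [if_neg h6, add_tsub_cancel_right, mon_add, mon_single]
          ring
        rw [h5]
        exact h1.mul_left (k i)
    have h7 := h2.add h3
    have h8 : (θ + k) i * f (θ + k) = θ i * f (θ + k) + k i * f (θ + k) := by
      rw [Pi.add_apply]
      ring
    change HasSum _ ((θ + k) i * f (θ + k))
    rw [h8]
    have h9 : (fun b => (θ i * m θ b + (if b i = 0 then 0 else m θ (b - Pi.single i 1))) * mon k b) =
        fun b => θ i * (m θ b * mon k b) +
          (if b i = 0 then 0 else m θ (b - Pi.single i 1)) * mon k b := by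
      funext b
      ring
    rw [h9]
    exact h7

/-- Multiplication by a monomial. Proof: induction on the exponent, with `LA.mul_coord`. -/
theorem LA.mul_mon [DecidableEq ι] {S : Set (ι → ℝ)} {r B : ℝ} {f : (ι → ℝ) → ℝ} {m : (ι → ℝ) → (ι → ℕ) → ℝ}
    (h : LA S r B f m) (hr : 0 < r) (hB : 0 ≤ B) {M : ℝ} (hM : ∀ θ ∈ S, ∀ i, |θ i| ≤ M) (a : ι → ℕ) :
    ∃ (B' : ℝ) (m' : (ι → ℝ) → (ι → ℕ) → ℝ), 0 ≤ B' ∧ LA S r B' (fun θ => mon θ a * f θ) m' := by
  obtain ⟨n, hn⟩ : ∃ n, dg a = n := ⟨_, rfl⟩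
  induction n generalizing a with
  | zero =>
    have h1 : ∀ i, a i = 0 := fun i => Nat.le_zero.1 ((le_dg a i).trans_eq hn)
    have h2 : (fun θ => mon θ a * f θ) = f := by
      funext θ
      have h3 : mon θ a = 1 := by
        unfold mon
        exact Finset.prod_eq_one fun i _ => by rw [h1 i, pow_zero]
      rw [h3, one_mul]
    rw [h2]
    exact ⟨B, m, hB, h⟩
  | succ n ih =>
    have h1 : ∃ i, a i ≠ 0 := by
      by_contra hc
      push Not at hc
      have h2 : dg a = 0 := by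
        unfold dg
        exact Finset.sum_eq_zero fun i _ => hc i
      omega
    obtain ⟨i, hi⟩ := h1
    have h2 := sub_single hi
    have h3 : dg (a - Pi.single i 1) = n := by
      have h4 := dg_add (a - Pi.single i 1) (Pi.single i 1)
      rw [← h2, dg_single] at h4
      omega
    obtain ⟨B', m', hB', hm'⟩ := ih (a - Pi.single i 1) h3
    obtain ⟨B'', m'', hB'', hm''⟩ := hm'.mul_coord hr hB' hM i
    refine ⟨B'', m'', hB'', ?_⟩
    have h5 : (fun θ => mon θ a * f θ) = fun θ : ι → ℝ => θ i * (mon θ (a - Pi.single i 1) * f θ) := by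
      funext θ
      have h6 : mon θ a = mon θ (a - Pi.single i 1) * θ i := by
        have h7 := mon_add θ (a - Pi.single i 1) (Pi.single i 1)
        rw [← h2, mon_single] at h7
        exact h7
      rw [h6]
      ring
    rw [h5]
    exact hm''

end Pool.Agent.Lib.MP_bbe012_lc.PG
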