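import Pool.Agent.Lib.MP_bbe012_lc.PG.ADefs

/-!
# Almost all supports: few points at which a polynomial is small
-/

namespace Pool.Agent.Lib.MP_bbe012_lc.PG

open Finset

open Polynomial in
private theorem A1_coeff {α : Type} (s : Finset α) (c y : α → ℝ) {M : ℝ} (hM : 0 ≤ M)
    (hc : ∀ i ∈ s, |c i| ≤ M) (hy : ∀ i ∈ s, |y i| ≤ 1) :
    ∀ j, |(∏ i ∈ s, (C (c i) * (X - C (y i)))).coeff j| ≤ (2 * M) ^ s.card := by
  classical
  induction s using Finset.induction_on with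
  | empty =>
    intro j
    rw [Finset.prod_empty, Finset.card_empty, pow_zero, coeff_one]
    split_ifs
    · rw [abs_one]
    · rw [abs_zero]
      norm_num
  | insert a s ha ih =>
    intro j
    have ih' := ih (fun i hi => hc i (Finset.mem_insert_of_mem hi))
      (fun i hi => hy i (Finset.mem_insert_of_mem hi))
    obtain ⟨q, hq⟩ : ∃ q, q = ∏ i ∈ s, (C (c i) * (X - C (y i))) := ⟨_, rfl⟩
    rw [Finset.prod_insert ha, Finset.card_insert_of_notMem ha, ← hq, mul_assoc, coeff_C_mul, sub_mul,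
      coeff_sub, coeff_C_mul, abs_mul]
    rw [← hq] at ih'
    have hca := hc a (Finset.mem_insert_self _ _)
    have hya := hy a (Finset.mem_insert_self _ _)
    have h1 : |(X * q).coeff j| ≤ (2 * M) ^ s.card := by
      cases j with
      | zero =>
        rw [mul_coeff_zero, coeff_X_zero, zero_mul, abs_zero]
        positivity
      | succ j =>
        rw [coeff_X_mul]
        exact ih' j
    have h2 : |y a * q.coeff j| ≤ (2 * M) ^ s.card := by
      rw [abs_mul]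
      calc |y a| * |q.coeff j| ≤ 1 * (2 * M) ^ s.card :=
            mul_le_mul hya (ih' j) (abs_nonneg _) zero_le_one
        _ = (2 * M) ^ s.card := one_mul _
    have h3 : |(X * q).coeff j - y a * q.coeff j| ≤ 2 * (2 * M) ^ s.card := by
      refine (abs_sub _ _).trans ?_
      linarith
    calc |c a| * |(X * q).coeff j - y a * q.coeff j| ≤ M * (2 * (2 * M) ^ s.card) :=
          mul_le_mul hca h3 (abs_nonneg _) hM
      _ = (2 * M) ^ (s.card + 1) := by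
          rw [pow_succ]
          ring

/-- A polynomial of degree at most `κ` with a coefficient of absolute value at least `ρ` is not small at `κ + 1` separated points.

Proof. Let `p = ∑ j, a j X^j`. Lagrange interpolation at the `x i` (distinct, as `w > 0`): `p = ∑ i, p(x i) ℓ_i`,
`ℓ_i = ∏ i' ≠ i, (X - x i') / (x i - x i')`. The coefficients of `∏ i' ≠ i, (X - x i')` are at most `2 ^ κ` in absolute value (sum of
absolute values of the coefficients is submultiplicative, each factor has sum `≤ 2`), so those of `ℓ_i` are at most `2 ^ κ / w ^ κ`, and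
`ρ ≤ |a j| ≤ (κ + 1) ε 2 ^ κ / w ^ κ`. Take `C = (κ + 1) 2 ^ κ`: contradiction with `C ε < ρ w ^ κ`.
(Alternative to Lagrange: the inverse of the Vandermonde matrix.) -/
theorem small_separated (κ : ℕ) : ∃ C : ℝ, 1 ≤ C ∧ ∀ (a : Fin (κ + 1) → ℝ) (ρ ε w : ℝ), 0 < ρ → 0 ≤ ε → 0 < w →
    (∃ j, ρ ≤ |a j|) → C * ε < ρ * w ^ κ → ∀ x : Fin (κ + 1) → ℝ, (∀ i, |x i| ≤ 1) →
      (∀ i, |∑ j, a j * x i ^ (j : ℕ)| ≤ ε) → ¬ ∀ i i', i ≠ i' → w ≤ |x i - x i'| := by
  classical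
  refine ⟨((κ : ℝ) + 1) * 2 ^ κ, ?_, ?_⟩
  · have h1 : (1 : ℝ) ≤ 2 ^ κ := one_le_pow₀ (by norm_num)
    have h2 : (1 : ℝ) ≤ (κ : ℝ) + 1 := by
      have := Nat.cast_nonneg (α := ℝ) κ
      linarith
    calc (1 : ℝ) = 1 * 1 := (one_mul 1).symm
      _ ≤ ((κ : ℝ) + 1) * 2 ^ κ := mul_le_mul h2 h1 zero_le_one (by linarith)
  · rintro a ρ ε w hρ hε hw ⟨j₀, hj₀⟩ hC x hx hp hsep
    have hinj : Set.InjOn x ((Finset.univ : Finset (Fin (κ + 1))) : Set (Fin (κ + 1))) := by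
      intro i _ i' _ hii
      by_contra hne
      have h1 := hsep i i' hne
      rw [hii, sub_self, abs_zero] at h1
      linarith
    obtain ⟨p, hpd⟩ : ∃ p : Polynomial ℝ, p = ∑ j : Fin (κ + 1), Polynomial.C (a j) * Polynomial.X ^ (j : ℕ) :=
      ⟨_, rfl⟩
    have hcoef : ∀ j : Fin (κ + 1), p.coeff (j : ℕ) = a j := by
      intro j
      rw [hpd, Polynomial.finsetSum_coeff, Finset.sum_eq_single j]
      · rw [Polynomial.coeff_C_mul, Polynomial.coeff_X_pow, if_pos rfl, mul_one]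
      · intro i _ hij
        rw [Polynomial.coeff_C_mul, Polynomial.coeff_X_pow, if_neg, mul_zero]
        intro h
        exact hij (Fin.ext h.symm)
      · intro h
        exact absurd (Finset.mem_univ _) h
    have heval : ∀ t, p.eval t = ∑ j, a j * t ^ (j : ℕ) := by
      intro t
      rw [hpd, Polynomial.eval_finsetSum]
      refine Finset.sum_congr rfl fun j _ => ?_
      rw [Polynomial.eval_mul, Polynomial.eval_C, Polynomial.eval_pow, Polynomial.eval_X]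
    have hdeg : p.degree < ((Finset.univ : Finset (Fin (κ + 1))).card : WithBot ℕ) := by
      rw [Finset.card_univ, Fintype.card_fin, Polynomial.degree_lt_iff_coeff_zero]
      intro m hm
      rw [hpd, Polynomial.finsetSum_coeff]
      refine Finset.sum_eq_zero fun j _ => ?_
      rw [Polynomial.coeff_C_mul, Polynomial.coeff_X_pow, if_neg, mul_zero]
      have := j.2
      omega
    have hint := Lagrange.eq_interpolate_of_eval_eq (fun i => p.eval (x i)) hinj hdeg (fun i _ => rfl)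
    have hb : ∀ i : Fin (κ + 1), |(Lagrange.basis Finset.univ x i).coeff (j₀ : ℕ)| ≤ (2 * w⁻¹) ^ κ := by
      intro i
      have h1 := A1_coeff ((Finset.univ : Finset (Fin (κ + 1))).erase i) (fun i' => (x i - x i')⁻¹) x
        (inv_nonneg.2 hw.le) (fun i' hi' => by
          rw [abs_inv]
          exact inv_anti₀ hw (hsep i i' (Finset.ne_of_mem_erase hi').symm)) (fun i' _ => hx i') (j₀ : ℕ)
      rw [Finset.card_erase_of_mem (Finset.mem_univ _), Finset.card_univ, Fintype.card_fin,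
        Nat.add_sub_cancel] at h1
      exact h1
    have hbig : |a j₀| ≤ ((κ : ℝ) + 1) * (ε * (2 * w⁻¹) ^ κ) := by
      rw [← hcoef j₀, hint, Lagrange.interpolate_apply, Polynomial.finsetSum_coeff]
      refine (Finset.abs_sum_le_sum_abs _ _).trans ?_
      have h2 : ∀ i ∈ (Finset.univ : Finset (Fin (κ + 1))),
          |(Polynomial.C (p.eval (x i)) * Lagrange.basis Finset.univ x i).coeff (j₀ : ℕ)| ≤ ε * (2 * w⁻¹) ^ κ := by
        intro i _
        rw [Polynomial.coeff_C_mul, abs_mul]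
        refine mul_le_mul ?_ (hb i) (abs_nonneg _) hε
        rw [heval]
        exact hp i
      refine (Finset.sum_le_sum h2).trans ?_
      rw [Finset.sum_const, Finset.card_univ, Fintype.card_fin, nsmul_eq_mul]
      push_cast
      exact le_rfl
    have h3 : ρ ≤ ((κ : ℝ) + 1) * (ε * (2 * w⁻¹) ^ κ) := hj₀.trans hbig
    have h4 : ρ * w ^ κ ≤ ((κ : ℝ) + 1) * (ε * (2 * w⁻¹) ^ κ) * w ^ κ :=
      mul_le_mul_of_nonneg_right h3 (by positivity)
    have h5 : ((κ : ℝ) + 1) * (ε * (2 * w⁻¹) ^ κ) * w ^ κ = ((κ : ℝ) + 1) * 2 ^ κ * ε := by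
      rw [mul_pow, inv_pow]
      field_simp
    rw [h5] at h4
    linarith

private theorem A1_sep (Y : Finset ℝ) {w : ℝ} (hw : 0 < w) : ∃ Z ⊆ Y, (∀ z ∈ Z, ∀ z' ∈ Z, z ≠ z' → w ≤ |z - z'|) ∧
    ∀ y ∈ Y, ∃ z ∈ Z, |y - z| < w := by
  classical
  obtain ⟨Z, hZ, hmax⟩ := Finset.exists_max_image
    (Y.powerset.filter (fun Z => ∀ z ∈ Z, ∀ z' ∈ Z, z ≠ z' → w ≤ |z - z'|)) Finset.card
    ⟨∅, Finset.mem_filter.2 ⟨Finset.empty_mem_powerset _, fun z hz => absurd hz (Finset.notMem_empty z)⟩⟩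
  obtain ⟨hZ1, hZ2⟩ := Finset.mem_filter.1 hZ
  refine ⟨Z, Finset.mem_powerset.1 hZ1, hZ2, fun y hy => ?_⟩
  by_contra hcon
  push Not at hcon
  have hyZ : y ∉ Z := by
    intro h
    have h1 := hcon y h
    rw [sub_self, abs_zero] at h1
    linarith
  have h1 : insert y Z ∈ Y.powerset.filter (fun Z => ∀ z ∈ Z, ∀ z' ∈ Z, z ≠ z' → w ≤ |z - z'|) := by
    refine Finset.mem_filter.2 ⟨Finset.mem_powerset.2 ?_, ?_⟩
    · exact Finset.insert_subset hy (Finset.mem_powerset.1 hZ1)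
    · intro z hz z' hz' hne
      rcases Finset.mem_insert.1 hz with h2 | h2
      · rcases Finset.mem_insert.1 hz' with h3 | h3
        · exact absurd (h2.trans h3.symm) hne
        · rw [h2]
          exact hcon z' h3
      · rcases Finset.mem_insert.1 hz' with h3 | h3
        · rw [abs_sub_comm, h3]
          exact hcon z h2
        · exact hZ2 z h2 z' h3 hne
  have h2 := hmax _ h1
  rw [Finset.card_insert_of_notMem hyZ] at h2
  omega

private theorem A1_all {X : Finset ℝ} {L : ℝ} (hX : ICount X L) (h1 : ∀ x ∈ X, |x| ≤ 1) :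
    (X.card : ℝ) ≤ 1 + 2 * L := by
  have h2 := hX (-1) 2 (by norm_num)
  have h3 : X.filter (fun x => -1 ≤ x ∧ x ≤ -1 + 2) = X := by
    refine Finset.filter_true_of_mem fun x hx => ?_
    have h4 := abs_le.1 (h1 x hx)
    constructor
    · exact h4.1
    · linarith [h4.2]
  rwa [h3] at h2

/-- Proof. `C₀` from `small_separated`, `Y` the set whose cardinality is to be bounded, `w = (2 C₀ ε / ρ) ^ (1 / (κ + 1))`.
If `1 < w`: `ε / ρ > 1 / (2 C₀)`, and `|Y| ≤ |X| ≤ 1 + 2 L` (`ICount` for `y = -1`, `w = 2`), while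
`(ε / ρ) ^ (1 / (κ + 1)) ≥ ε / ρ ≥ 1 / (2 C₀)` (as `ε / ρ ≤ 1`), so `C = 4 C₀` is enough.
If `w ≤ 1`: `w ^ κ ≥ w ^ (κ + 1) = 2 C₀ ε / ρ > C₀ ε / ρ`, so `Y` does not contain `κ + 1` points with mutual distances `≥ w`. Let `Z ⊆ Y` be a
subset of maximal cardinality with mutual distances `≥ w`: `|Z| ≤ κ`, and each `y ∈ Y` is at distance `< w` (or `≤ w`) of some `z ∈ Z`. So
`|Y| ≤ ∑ z ∈ Z, |Y ∩ [z - w, z + w]| ≤ κ (1 + 2 w L)`, and `w = (2 C₀) ^ (1 / (κ + 1)) (ε / ρ) ^ (1 / (κ + 1)) ≤ 2 C₀ (ε / ρ) ^ (1 / (κ + 1))`. -/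
theorem count_univ (κ : ℕ) : ∃ C : ℝ, 1 ≤ C ∧ ∀ (a : Fin (κ + 1) → ℝ) (ρ ε L : ℝ) (X : Finset ℝ), 0 < ρ → 0 < ε →
    ε ≤ ρ → 0 ≤ L → ICount X L → (∀ x ∈ X, |x| ≤ 1) → (∃ j, ρ ≤ |a j|) →
      ((X.filter fun x => |∑ j, a j * x ^ (j : ℕ)| ≤ ε).card : ℝ) ≤
        C * (1 + L) * ((1 + L)⁻¹ + (ε / ρ) ^ (1 / ((κ : ℝ) + 1))) := by
  classical
  obtain ⟨C₀, hC₀, hsm⟩ := small_separated κ
  have hκ0 : (0 : ℝ) ≤ κ := Nat.cast_nonneg κ
  refine ⟨4 * ((κ : ℝ) + 1) * C₀, by nlinarith, ?_⟩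
  intro a ρ ε L X hρ hε hερ hL hX hX1 ha
  have hs0 : 0 < 1 / ((κ : ℝ) + 1) := by positivity
  have hs1 : 1 / ((κ : ℝ) + 1) ≤ 1 := by
    rw [div_le_one (by positivity)]
    linarith
  obtain ⟨s, hs⟩ : ∃ s : ℝ, s = 1 / ((κ : ℝ) + 1) := ⟨_, rfl⟩
  rw [← hs] at hs0 hs1 ⊢
  have hsκ : s * ((κ : ℝ) + 1) = 1 := by
    rw [hs]
    field_simp
  obtain ⟨q, hq⟩ : ∃ q : ℝ, q = ε / ρ := ⟨_, rfl⟩
  have hq0 : 0 < q := by
    rw [hq]
    positivity
  have hq1 : q ≤ 1 := by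
    rw [hq, div_le_one hρ]
    exact hερ
  rw [← hq]
  have hqs : q ≤ q ^ s := by
    calc q = q ^ (1 : ℝ) := (Real.rpow_one q).symm
      _ ≤ q ^ s := Real.rpow_le_rpow_of_exponent_ge hq0 hq1 hs1
  have hqs0 : 0 < q ^ s := Real.rpow_pos_of_pos hq0 _
  have h1L : 0 < 1 + L := by linarith
  obtain ⟨w, hw⟩ : ∃ w : ℝ, w = (2 * C₀ * q) ^ s := ⟨_, rfl⟩
  have hw0 : 0 < w := by
    rw [hw]
    exact Real.rpow_pos_of_pos (by positivity) _
  have hYX : (X.filter fun x => |∑ j, a j * x ^ (j : ℕ)| ≤ ε) ⊆ X := Finset.filter_subset _ _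
  obtain ⟨Y, hY⟩ : ∃ Y, Y = X.filter fun x => |∑ j, a j * x ^ (j : ℕ)| ≤ ε := ⟨_, rfl⟩
  rw [← hY] at hYX ⊢
  have hexpand : 4 * ((κ : ℝ) + 1) * C₀ * (1 + L) * ((1 + L)⁻¹ + q ^ s) =
      4 * ((κ : ℝ) + 1) * C₀ + 4 * ((κ : ℝ) + 1) * C₀ * (1 + L) * q ^ s := by
    field_simp
  rw [hexpand]
  rcases lt_or_ge 1 w with hw1 | hw1
  · have h2 : 1 < 2 * C₀ * q := by
      by_contra hcon
      push Not at hcon
      have h3 : w ≤ 1 := by
        rw [hw]
        exact Real.rpow_le_one (by positivity) hcon hs0.le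
      linarith
    have h3 : (Y.card : ℝ) ≤ 1 + 2 * L := by
      have h4 : (Y.card : ℝ) ≤ (X.card : ℝ) := by
        exact_mod_cast Finset.card_le_card hYX
      exact h4.trans (A1_all hX hX1)
    have h5 : 1 < 2 * C₀ * q ^ s := by
      have h6 : 2 * C₀ * q ≤ 2 * C₀ * q ^ s := mul_le_mul_of_nonneg_left hqs (by linarith)
      linarith
    have h7 : (2 * ((κ : ℝ) + 1) * (1 + L)) * 1 ≤ (2 * ((κ : ℝ) + 1) * (1 + L)) * (2 * C₀ * q ^ s) :=
      mul_le_mul_of_nonneg_left h5.le (by positivity)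
    have h8 : 0 ≤ (κ : ℝ) * L := by positivity
    have h9 : 0 ≤ 4 * ((κ : ℝ) + 1) * C₀ := by positivity
    nlinarith
  · have hwk : C₀ * ε < ρ * w ^ κ := by
      have h2 : w ^ (κ + 1) = 2 * C₀ * q := by
        rw [hw, ← Real.rpow_natCast, ← Real.rpow_mul (by positivity)]
        push_cast
        rw [hsκ, Real.rpow_one]
      have h3 : w ^ (κ + 1) ≤ w ^ κ := pow_le_pow_of_le_one hw0.le hw1 (Nat.le_succ κ)
      have h4 : ρ * (2 * C₀ * q) = 2 * (C₀ * ε) := by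
        rw [hq]
        field_simp
      have h5 : ρ * w ^ (κ + 1) ≤ ρ * w ^ κ := mul_le_mul_of_nonneg_left h3 hρ.le
      rw [h2, h4] at h5
      have h6 : 0 < C₀ * ε := by positivity
      linarith
    obtain ⟨Z, hZY, hZs, hZc⟩ := A1_sep Y hw0
    have hZcard : Z.card ≤ κ := by
      by_contra hcon
      push Not at hcon
      obtain ⟨Z', hZ', hcard⟩ := Finset.exists_subset_card_eq (show κ + 1 ≤ Z.card from hcon)
      let f := Z'.orderEmbOfFin hcard
      have hf : ∀ i, f i ∈ Z' := fun i => Finset.orderEmbOfFin_mem Z' hcard i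
      refine hsm a ρ ε w hρ hε.le hw0 ha hwk (fun i => f i) ?_ ?_ ?_
      · intro i
        exact hX1 _ (hYX (hZY (hZ' (hf i))))
      · intro i
        have h2 : f i ∈ Y := hZY (hZ' (hf i))
        rw [hY, Finset.mem_filter] at h2
        exact h2.2
      · intro i i' hii
        exact hZs _ (hZ' (hf i)) _ (hZ' (hf i')) (fun h => hii (f.injective h))
    have hsub : Y ⊆ Z.biUnion (fun z => X.filter fun x => (z - w) ≤ x ∧ x ≤ (z - w) + 2 * w) := by
      intro y hy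
      obtain ⟨z, hz, hyz⟩ := hZc y hy
      have h2 := abs_lt.1 hyz
      refine Finset.mem_biUnion.2 ⟨z, hz, Finset.mem_filter.2 ⟨hYX hy, ?_, ?_⟩⟩
      · linarith [h2.1]
      · linarith [h2.2]
    have hcard : (Y.card : ℝ) ≤ κ * (1 + 2 * w * L) := by
      have h2 : (Y.card : ℝ) ≤ ∑ z ∈ Z, ((X.filter fun x => (z - w) ≤ x ∧ x ≤ (z - w) + 2 * w).card : ℝ) := by
        have h3 := (Finset.card_le_card hsub).trans Finset.card_biUnion_le
        exact_mod_cast h3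
      have h4 : ∑ z ∈ Z, ((X.filter fun x => (z - w) ≤ x ∧ x ≤ (z - w) + 2 * w).card : ℝ) ≤
          ∑ _z ∈ Z, (1 + 2 * w * L) := Finset.sum_le_sum fun z _ => hX (z - w) (2 * w) (by linarith)
      rw [Finset.sum_const, nsmul_eq_mul] at h4
      have h5 : (Z.card : ℝ) ≤ κ := by exact_mod_cast hZcard
      have h6 : (Z.card : ℝ) * (1 + 2 * w * L) ≤ κ * (1 + 2 * w * L) :=
        mul_le_mul_of_nonneg_right h5 (by positivity)
      linarith
    have hwle : w ≤ 2 * C₀ * q ^ s := by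
      rw [hw, Real.mul_rpow (by positivity) hq0.le]
      refine mul_le_mul_of_nonneg_right ?_ hqs0.le
      calc (2 * C₀) ^ s ≤ (2 * C₀) ^ (1 : ℝ) :=
            Real.rpow_le_rpow_of_exponent_le (by linarith) hs1
        _ = 2 * C₀ := Real.rpow_one _
    have h2 : 2 * w * L ≤ 2 * (2 * C₀ * q ^ s) * L :=
      mul_le_mul_of_nonneg_right (by linarith) hL
    have h3 : κ * (1 + 2 * w * L) ≤ κ * (1 + 2 * (2 * C₀ * q ^ s) * L) :=
      mul_le_mul_of_nonneg_left (by linarith) hκ0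
    have h4 : 0 ≤ C₀ * q ^ s := by positivity
    have h5 : 0 ≤ C₀ * q ^ s * L := by positivity
    have h6 : 0 ≤ (κ : ℝ) * (C₀ * q ^ s) := by positivity
    have h7 : (κ : ℝ) * 1 ≤ κ * C₀ := mul_le_mul_of_nonneg_left hC₀ hκ0
    have h8 : 0 ≤ (κ : ℝ) * C₀ := by positivity
    nlinarith

private theorem A1_sum {K κ : ℕ} (f : (Fin (K + 1) → Fin (κ + 1)) → ℝ) :
    ∑ b, f b = ∑ j : Fin (κ + 1), ∑ b' : Fin K → Fin (κ + 1), f (Fin.cons j b') := by
  rw [← Fintype.sum_prod_type']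
  exact (Fintype.sum_equiv (Fin.consEquiv fun _ : Fin (K + 1) => Fin (κ + 1)) _ _ fun _ => rfl).symm

private theorem A1_poly {K κ : ℕ} (a : (Fin (K + 1) → Fin (κ + 1)) → ℝ) (x : Fin (K + 1) → ℝ) :
    ∑ b, a b * ∏ i, x i ^ (b i : ℕ) =
      ∑ j : Fin (κ + 1), (∑ b' : Fin K → Fin (κ + 1), a (Fin.cons j b') * ∏ i, (Fin.tail x) i ^ (b' i : ℕ)) *
        x 0 ^ (j : ℕ) := by
  rw [A1_sum]
  refine Finset.sum_congr rfl fun j _ => ?_
  rw [Finset.sum_mul]
  refine Finset.sum_congr rfl fun b' _ => ?_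
  rw [Fin.prod_univ_succ]
  simp only [Fin.cons_zero, Fin.cons_succ]
  have h1 : ∏ i : Fin K, x i.succ ^ (b' i : ℕ) = ∏ i : Fin K, (Fin.tail x) i ^ (b' i : ℕ) := rfl
  rw [h1]
  ring

private theorem A1_sqrt {ε ρ : ℝ} (hε : 0 < ε) (hερ : ε ≤ ρ) :
    ∃ ε' : ℝ, 0 < ε' ∧ ε ≤ ε' ∧ ε' ≤ ρ ∧ ε' / ρ = (ε / ρ) ^ (1 / 2 : ℝ) ∧ ε / ε' = (ε / ρ) ^ (1 / 2 : ℝ) := by
  have hρ : 0 < ρ := lt_of_lt_of_le hε hερ
  have hq0 : 0 < ε / ρ := by positivity
  have hq1 : ε / ρ ≤ 1 := (div_le_one hρ).2 hερ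
  have h1 : (ε / ρ) ^ (1 / 2 : ℝ) * (ε / ρ) ^ (1 / 2 : ℝ) = ε / ρ := by
    rw [← Real.rpow_add hq0]
    norm_num
  obtain ⟨t, ht⟩ : ∃ t : ℝ, t = (ε / ρ) ^ (1 / 2 : ℝ) := ⟨_, rfl⟩
  rw [← ht] at h1
  have ht0 : 0 < t := by
    rw [ht]
    exact Real.rpow_pos_of_pos hq0 _
  have ht1 : t ≤ 1 := by
    rw [ht]
    exact Real.rpow_le_one hq0.le hq1 (by norm_num)
  have h2 : ε = t * t * ρ := by
    rw [h1]
    field_simp
  rw [← ht]
  refine ⟨t * ρ, by positivity, ?_, ?_, ?_, ?_⟩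
  · rw [h2]
    have h3 : t * t ≤ t * 1 := mul_le_mul_of_nonneg_left ht1 ht0.le
    rw [mul_one] at h3
    exact mul_le_mul_of_nonneg_right h3 hρ.le
  · exact mul_le_of_le_one_left hρ.le ht1
  · field_simp
  · rw [h2]
    field_simp

private theorem A1_cardpi {K : ℕ} {L : ℝ} {X : Fin K → Finset ℝ} (hX : ∀ i, ICount (X i) L)
    (hX1 : ∀ i, ∀ x ∈ X i, |x| ≤ 1) : ((Fintype.piFinset X).card : ℝ) ≤ (1 + 2 * L) ^ K := by
  rw [Fintype.card_piFinset]
  push_cast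
  calc ∏ i, ((X i).card : ℝ) ≤ ∏ _i : Fin K, (1 + 2 * L) :=
        Finset.prod_le_prod (fun i _ => Nat.cast_nonneg _) (fun i _ => A1_all (hX i) (hX1 i))
    _ = (1 + 2 * L) ^ K := by simp

/-- Proof. Induction on `K`.

`K = 0`: one point, the polynomial is the constant `a _` with `|a _| ≥ ρ ≥ ε`; if it is counted, then `ε = ρ` and the right side is `≥ C`.

`K → K + 1` (`Fin (K + 1)`, split with `Fin.snoc` or `Fin.cons`; `Fintype.piFinset` over `Fin (K + 1)` is in bijection with pairs): write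
the polynomial as `∑ j, p_j(u') u ^ j`, `j ∈ Fin (κ + 1)`, where `u` is the last (first) variable; some `p_{j₀}` has a coefficient of absolute
value `≥ ρ`. Let `ε' = √(ε ρ)`, so `ε ≤ ε' ≤ ρ`, `ε' / ρ = ε / ε' = (ε / ρ) ^ (1/2)`. The `u'` with `|p_{j₀}(u')| ≤ ε'` are at most
`C (1 + L) ^ K ((1 + L)⁻¹ + (ε' / ρ) ^ γ)` in number by the induction hypothesis, and each contributes at most `|X_last| ≤ 1 + 2 L` points. For every other `u'` (at most
`∏ |X_i| ≤ (1 + 2 L) ^ K` in number) the univariate polynomial `u ↦ ∑ j, p_j(u') u ^ j` has a coefficient of absolute value `≥ ε'`, so by `count_univ`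
(with `ρ = ε'`) it contributes at most `C₁ (1 + L) ((1 + L)⁻¹ + (ε / ε') ^ (1 / (κ + 1)))` points. Take `γ' = min (γ / 2) (1 / (2 (κ + 1)))` and `C'` large
(`1 + 2 L ≤ 2 (1 + L)`; for `0 < t ≤ 1`, `t ^ s ≤ t ^ s'` if `s' ≤ s`). -/
theorem count_multi (κ : ℕ) : ∀ K : ℕ, ∃ C γ : ℝ, 1 ≤ C ∧ 0 < γ ∧ γ ≤ 1 ∧
    ∀ (a : (Fin K → Fin (κ + 1)) → ℝ) (ρ ε L : ℝ) (X : Fin K → Finset ℝ), 0 < ρ → 0 < ε → ε ≤ ρ → 0 ≤ L →
      (∀ i, ICount (X i) L) → (∀ i, ∀ x ∈ X i, |x| ≤ 1) → (∃ b, ρ ≤ |a b|) →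
        (((Fintype.piFinset X).filter fun x => |∑ b, a b * ∏ i, x i ^ (b i : ℕ)| ≤ ε).card : ℝ) ≤
          C * (1 + L) ^ K * ((1 + L)⁻¹ + (ε / ρ) ^ γ) := by
  classical
  intro K
  obtain ⟨C₁, hC₁, hU⟩ := count_univ κ
  induction K with
  | zero =>
    refine ⟨1, 1, le_rfl, one_pos, le_rfl, ?_⟩
    intro a ρ ε L X hρ hε hερ hL hX hX1 ha
    obtain ⟨b, hb⟩ := ha
    have h1L : 0 < 1 + L := by linarith
    have hrhs : 0 ≤ 1 * (1 + L) ^ 0 * ((1 + L)⁻¹ + (ε / ρ) ^ (1 : ℝ)) := by positivity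
    rcases Finset.eq_empty_or_nonempty ((Fintype.piFinset X).filter
        fun x => |∑ b, a b * ∏ i, x i ^ (b i : ℕ)| ≤ ε) with h0 | ⟨x, hx⟩
    · rw [h0, Finset.card_empty, Nat.cast_zero]
      exact hrhs
    · have h1 := (Finset.mem_filter.1 hx).2
      have h2 : ∑ b, a b * ∏ i, x i ^ (b i : ℕ) = a b := by
        rw [Fintype.sum_subsingleton _ b]
        simp
      rw [h2] at h1
      have h3 : ε = ρ := le_antisymm hερ (hb.trans h1)
      have h6 : (ε / ρ) ^ (1 : ℝ) = 1 := by rw [h3, div_self hρ.ne', Real.rpow_one]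
      rw [h6, pow_zero, one_mul, one_mul]
      have h7 : 0 < (1 + L)⁻¹ := inv_pos.2 h1L
      refine le_trans (Nat.cast_le.2 (Finset.card_le_one_of_subsingleton _)) ?_
      rw [Nat.cast_one]
      linarith
  | succ K ih =>
    obtain ⟨C, γ, hC, hγ0, hγ1, hK⟩ := ih
    obtain ⟨s, hs⟩ : ∃ s : ℝ, s = 1 / ((κ : ℝ) + 1) := ⟨_, rfl⟩
    have hκ0 : (0 : ℝ) ≤ κ := Nat.cast_nonneg κ
    have hs0 : 0 < s := by
      rw [hs]
      positivity
    have hs1 : s ≤ 1 := by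
      rw [hs, div_le_one (by positivity)]
      linarith
    obtain ⟨γ', hγ'⟩ : ∃ γ' : ℝ, γ' = min (1 / 2 * γ) (1 / 2 * s) := ⟨_, rfl⟩
    have hγ'0 : 0 < γ' := by
      rw [hγ']
      exact lt_min (by positivity) (by positivity)
    have hγ'1 : γ' ≤ 1 / 2 * γ := by
      rw [hγ']
      exact min_le_left _ _
    have hγ'2 : γ' ≤ 1 / 2 * s := by
      rw [hγ']
      exact min_le_right _ _
    refine ⟨2 * C + 2 ^ K * C₁, γ', ?_, hγ'0, by linarith, ?_⟩
    · have : 0 ≤ (2 : ℝ) ^ K * C₁ := by positivity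
      linarith
    intro a ρ ε L X hρ hε hερ hL hX hX1 ha
    obtain ⟨b₀, hb₀⟩ := ha
    obtain ⟨ε', hε'0, hεε', hε'ρ, he1, he2⟩ := A1_sqrt hε hερ
    have hq0 : 0 < ε / ρ := by positivity
    have hq1 : ε / ρ ≤ 1 := (div_le_one hρ).2 hερ
    obtain ⟨q, hq⟩ : ∃ q : ℝ, q = ε / ρ := ⟨_, rfl⟩
    rw [← hq] at he1 he2 hq0 hq1 ⊢
    have h1L : 0 < 1 + L := by linarith
    have hi0 : 0 < (1 + L)⁻¹ := inv_pos.2 h1L
    let P : Fin (κ + 1) → (Fin K → ℝ) → ℝ := fun j u =>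
      ∑ b' : Fin K → Fin (κ + 1), a (Fin.cons j b') * ∏ i, u i ^ (b' i : ℕ)
    let j₀ : Fin (κ + 1) := b₀ 0
    let X' : Fin K → Finset ℝ := fun i => X i.succ
    obtain ⟨D, hD⟩ : ∃ D : ℝ, D = C₁ * (1 + L) * ((1 + L)⁻¹ + (q ^ (1 / 2 : ℝ)) ^ s) := ⟨_, rfl⟩
    have hqh : 0 < q ^ (1 / 2 : ℝ) := Real.rpow_pos_of_pos hq0 _
    have hD0 : 0 ≤ D := by
      rw [hD]
      positivity
    -- the fibres
    have hfib : ∀ u ∈ Fintype.piFinset X',
        ((((Fintype.piFinset X).filter fun x => |∑ b, a b * ∏ i, x i ^ (b i : ℕ)| ≤ ε).filter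
          fun x => Fin.tail x = u).card : ℝ) ≤ (if |P j₀ u| ≤ ε' then 1 + 2 * L else D) := by
      intro u hu
      have h1 : (((Fintype.piFinset X).filter fun x => |∑ b, a b * ∏ i, x i ^ (b i : ℕ)| ≤ ε).filter
          fun x => Fin.tail x = u).card ≤ ((X 0).filter fun t => |∑ j, P j u * t ^ (j : ℕ)| ≤ ε).card := by
        refine Finset.card_le_card_of_injOn (fun x => x 0) ?_ ?_
        · intro x hx
          obtain ⟨hx1, hx2⟩ := Finset.mem_filter.1 (Finset.mem_coe.1 hx)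
          obtain ⟨hx3, hx4⟩ := Finset.mem_filter.1 hx1
          refine Finset.mem_coe.2 (Finset.mem_filter.2 ⟨Fintype.mem_piFinset.1 hx3 0, ?_⟩)
          rw [A1_poly, hx2] at hx4
          exact hx4
        · intro x hx y hy hxy
          have hx2 := (Finset.mem_filter.1 (Finset.mem_coe.1 hx)).2
          have hy2 := (Finset.mem_filter.1 (Finset.mem_coe.1 hy)).2
          have hxy' : x 0 = y 0 := hxy
          rw [← Fin.cons_self_tail x, ← Fin.cons_self_tail y, hx2, hy2, hxy']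
      have h2 : ((((Fintype.piFinset X).filter fun x => |∑ b, a b * ∏ i, x i ^ (b i : ℕ)| ≤ ε).filter
          fun x => Fin.tail x = u).card : ℝ) ≤ (((X 0).filter fun t => |∑ j, P j u * t ^ (j : ℕ)| ≤ ε).card : ℝ) := by
        exact_mod_cast h1
      refine h2.trans ?_
      split_ifs with h3
      · have h4 : (((X 0).filter fun t => |∑ j, P j u * t ^ (j : ℕ)| ≤ ε).card : ℝ) ≤ ((X 0).card : ℝ) := by
          exact_mod_cast Finset.card_le_card (Finset.filter_subset _ _)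
        exact h4.trans (A1_all (hX 0) (hX1 0))
      · push Not at h3
        have h4 := hU (fun j => P j u) ε' ε L (X 0) hε'0 hε hεε' hL (hX 0) (hX1 0) ⟨j₀, h3.le⟩
        rw [he2, ← hs] at h4
        rw [hD]
        exact h4
    have hcard : (((Fintype.piFinset X).filter fun x => |∑ b, a b * ∏ i, x i ^ (b i : ℕ)| ≤ ε).card : ℝ) ≤
        ∑ u ∈ Fintype.piFinset X', (if |P j₀ u| ≤ ε' then 1 + 2 * L else D) := by
      have h1 : ∀ x ∈ (Fintype.piFinset X).filter (fun x => |∑ b, a b * ∏ i, x i ^ (b i : ℕ)| ≤ ε),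
          Fin.tail x ∈ Fintype.piFinset X' := by
        intro x hx
        have h2 := (Finset.mem_filter.1 hx).1
        exact Fintype.mem_piFinset.2 fun i => Fintype.mem_piFinset.1 h2 i.succ
      rw [Finset.card_eq_sum_card_fiberwise h1]
      push_cast
      exact Finset.sum_le_sum hfib
    have hsplit : ∑ u ∈ Fintype.piFinset X', (if |P j₀ u| ≤ ε' then 1 + 2 * L else D) ≤
        (((Fintype.piFinset X').filter fun u => |P j₀ u| ≤ ε').card : ℝ) * (1 + 2 * L) +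
          ((Fintype.piFinset X').card : ℝ) * D := by
      rw [Finset.sum_ite, Finset.sum_const, Finset.sum_const, nsmul_eq_mul, nsmul_eq_mul]
      have h2 : (((Fintype.piFinset X').filter fun u => ¬ |P j₀ u| ≤ ε').card : ℝ) ≤
          ((Fintype.piFinset X').card : ℝ) := by
        exact_mod_cast Finset.card_le_card (Finset.filter_subset _ _)
      have h3 := mul_le_mul_of_nonneg_right h2 hD0
      linarith
    have hih := hK (fun b' => a (Fin.cons j₀ b')) ρ ε' L X' hρ hε'0 hε'ρ hL (fun i => hX i.succ)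
      (fun i => hX1 i.succ) ⟨Fin.tail b₀, by
        have h1 : (Fin.cons j₀ (Fin.tail b₀) : Fin (K + 1) → Fin (κ + 1)) = b₀ := Fin.cons_self_tail b₀
        rw [h1]
        exact hb₀⟩
    rw [he1] at hih
    have hpi := A1_cardpi (X := X') (fun i => hX i.succ) (fun i => hX1 i.succ)
    have hp1 : (q ^ (1 / 2 : ℝ)) ^ γ ≤ q ^ γ' := by
      rw [← Real.rpow_mul hq0.le]
      exact Real.rpow_le_rpow_of_exponent_ge hq0 hq1 hγ'1
    have hp2 : (q ^ (1 / 2 : ℝ)) ^ s ≤ q ^ γ' := by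
      rw [← Real.rpow_mul hq0.le]
      exact Real.rpow_le_rpow_of_exponent_ge hq0 hq1 hγ'2
    have hqg : 0 < q ^ γ' := Real.rpow_pos_of_pos hq0 _
    have h12 : 1 + 2 * L ≤ 2 * (1 + L) := by linarith
    have h120 : 0 ≤ 1 + 2 * L := by linarith
    have hA : (((Fintype.piFinset X').filter fun u => |P j₀ u| ≤ ε').card : ℝ) * (1 + 2 * L) ≤
        (C * (1 + L) ^ K * ((1 + L)⁻¹ + q ^ γ')) * (2 * (1 + L)) := by
      refine mul_le_mul ?_ h12 h120 (by positivity)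
      refine hih.trans ?_
      exact mul_le_mul_of_nonneg_left (by linarith) (by positivity)
    have hB : ((Fintype.piFinset X').card : ℝ) * D ≤
        (2 ^ K * (1 + L) ^ K) * (C₁ * (1 + L) * ((1 + L)⁻¹ + q ^ γ')) := by
      refine mul_le_mul ?_ ?_ hD0 (by positivity)
      · refine hpi.trans ?_
        rw [← mul_pow]
        exact pow_le_pow_left₀ h120 h12 K
      · rw [hD]
        exact mul_le_mul_of_nonneg_left (by linarith) (by positivity)
    have hfin : (2 * C + 2 ^ K * C₁) * (1 + L) ^ (K + 1) * ((1 + L)⁻¹ + q ^ γ') =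
        (C * (1 + L) ^ K * ((1 + L)⁻¹ + q ^ γ')) * (2 * (1 + L)) +
          (2 ^ K * (1 + L) ^ K) * (C₁ * (1 + L) * ((1 + L)⁻¹ + q ^ γ')) := by
      rw [pow_succ]
      ring
    rw [hfin]
    linarith

/-- The same for an arbitrary finite type of variables. Proof: transport `count_multi` along `Fintype.equivFin ι`. -/
theorem count_multi' (ι : Type) [Fintype ι] [DecidableEq ι] (κ : ℕ) : ∃ C γ : ℝ, 1 ≤ C ∧ 0 < γ ∧ γ ≤ 1 ∧
    ∀ (a : (ι → Fin (κ + 1)) → ℝ) (ρ ε L : ℝ) (X : ι → Finset ℝ), 0 < ρ → 0 < ε → ε ≤ ρ → 0 ≤ L →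
      (∀ i, ICount (X i) L) → (∀ i, ∀ x ∈ X i, |x| ≤ 1) → (∃ b, ρ ≤ |a b|) →
        (((Fintype.piFinset X).filter fun x => |∑ b, a b * ∏ i, x i ^ (b i : ℕ)| ≤ ε).card : ℝ) ≤
          C * (1 + L) ^ Fintype.card ι * ((1 + L)⁻¹ + (ε / ρ) ^ γ) := by
  classical
  obtain ⟨C, γ, hC, hγ0, hγ1, hK⟩ := count_multi κ (Fintype.card ι)
  refine ⟨C, γ, hC, hγ0, hγ1, ?_⟩
  intro a ρ ε L X hρ hε hερ hL hX hX1 ha
  obtain ⟨b₀, hb₀⟩ := ha
  let e : ι ≃ Fin (Fintype.card ι) := Fintype.equivFin ι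
  have h1 := hK (fun b => a (fun i => b (e i))) ρ ε L (fun i => X (e.symm i)) hρ hε hερ hL
    (fun i => hX _) (fun i => hX1 _) ⟨fun i => b₀ (e.symm i), by
      have h2 : (fun i => b₀ (e.symm (e i))) = b₀ := by
        funext i
        rw [Equiv.symm_apply_apply]
      change ρ ≤ |a (fun i => b₀ (e.symm (e i)))|
      rw [h2]
      exact hb₀⟩
  refine le_trans ?_ h1
  have h3 : ∀ x : ι → ℝ, ∑ b : ι → Fin (κ + 1), a b * ∏ i, x i ^ (b i : ℕ) =
      ∑ b : Fin (Fintype.card ι) → Fin (κ + 1), a (fun i => b (e i)) * ∏ i, x (e.symm i) ^ (b i : ℕ) := by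
    intro x
    refine Fintype.sum_equiv (Equiv.arrowCongr e (Equiv.refl _)) _ _ fun b => ?_
    have h4 : (fun i => (Equiv.arrowCongr e (Equiv.refl (Fin (κ + 1)))) b (e i)) = b := by
      funext i
      change b (e.symm (e i)) = b i
      rw [Equiv.symm_apply_apply]
    rw [h4]
    congr 1
    refine Fintype.prod_equiv e _ _ fun i => ?_
    change x i ^ (b i : ℕ) = x (e.symm (e i)) ^ (b (e.symm (e i)) : ℕ)
    rw [Equiv.symm_apply_apply]
  have h5 : ((Fintype.piFinset X).filter fun x => |∑ b, a b * ∏ i, x i ^ (b i : ℕ)| ≤ ε).card ≤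
      ((Fintype.piFinset fun i => X (e.symm i)).filter fun x =>
        |∑ b : Fin (Fintype.card ι) → Fin (κ + 1), a (fun i => b (e i)) * ∏ i, x i ^ (b i : ℕ)| ≤ ε).card := by
    refine Finset.card_le_card_of_injOn (fun x i => x (e.symm i)) ?_ ?_
    · intro x hx
      obtain ⟨hx1, hx2⟩ := Finset.mem_filter.1 (Finset.mem_coe.1 hx)
      refine Finset.mem_coe.2 (Finset.mem_filter.2 ⟨Fintype.mem_piFinset.2 fun i =>
        Fintype.mem_piFinset.1 hx1 (e.symm i), ?_⟩)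
      rw [h3] at hx2
      exact hx2
    · intro x _ y _ hxy
      funext i
      have h6 := congrFun hxy (e i)
      simp only [Equiv.symm_apply_apply] at h6
      exact h6
  exact_mod_cast h5

end Pool.Agent.Lib.MP_bbe012_lc.PG
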