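import Pool.Agent.Lib.MP_bbe012_lc.PG.A9

/-!
# Almost all supports: the auxiliary vector of polynomials
-/

namespace Pool.Agent.Lib.MP_bbe012_lc.PG

open Finset

/-- The arithmetic of the exponents: `K` variables, `q` functions, `h = 2 ^ (K + 2) * (A * q + κ + 1)`, `S = K * h * (2 * h + 1) ^ K` (the sum of the degrees, `two_mul_sum_deg`).

Proof. Let `P = (2 h + 1) ^ K`, `E = (h + 1) ^ K`, `P ≤ 2 ^ K E`. The claim is `M (A + 2 h K) q P + 1 ≤ (2 M - 1) (q K h P + (h + 1 - κ) E)`, that is `M A q P + q K h P + 1 ≤ (2 M - 1) (h + 1 - κ) E`. As `2 M - 1 ≥ M` it is enough that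
`M A q P + q K h P + 1 ≤ M (h + 1 - κ) E`; multiply by `2 ^ K`: `2 ^ K q K ≤ M / 4`, so the left side is at most `(2 ^ K M A q + M h / 4 + 2 ^ K) P`, with `2 ^ K ≤ M`, and the right side is at least `M (h + 1 - κ) P`; and
`2 ^ K A q + h / 4 + 1 ≤ h + 1 - κ` by the choice of `h`. -/
theorem arith_stage (K q A κ M : ℕ) (hK : 1 ≤ K) (hq : 1 ≤ q) (hM : 2 ^ (K + 2) * K * q ≤ M) (h : ℕ)
    (hh : h = 2 ^ (K + 2) * (A * q + κ + 1)) :
    M * ((A + 2 * h * K) * ((2 * h + 1) ^ K * q)) + 1 ≤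
      (2 * M - 1) * (q * (K * h * (2 * h + 1) ^ K) + (h + 1 - κ) * (h + 1) ^ K) := by
  have hD : 0 < 2 ^ K := by positivity
  have hP : (2 * h + 1) ^ K ≤ 2 ^ K * (h + 1) ^ K := by
    rw [← mul_pow]
    exact Nat.pow_le_pow_left (by omega) K
  have hP1 : 1 ≤ (2 * h + 1) ^ K := Nat.one_le_pow _ _ (by omega)
  have hh' : h = 4 * 2 ^ K * (A * q + κ + 1) := by
    rw [hh, pow_add]
    ring
  have hM' : 4 * 2 ^ K * K * q ≤ M := by
    refine le_trans (le_of_eq ?_) hM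
    rw [pow_add]
    ring
  generalize (2 * h + 1) ^ K = P at *
  generalize (h + 1) ^ K = E at *
  generalize 2 ^ K = D at *
  have hκh : κ ≤ h := by
    rw [hh']
    nlinarith [Nat.zero_le (A * q)]
  obtain ⟨h1, hh1⟩ : ∃ h1, h + 1 = h1 + κ := ⟨h + 1 - κ, by omega⟩
  have e1 : h + 1 - κ = h1 := by omega
  rw [e1]
  have hDM : D ≤ M := by
    refine le_trans ?_ hM'
    have : 1 ≤ K * q := Nat.mul_pos hK hq
    nlinarith
  have hM1 : 1 ≤ M := le_trans hD hDM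
  have k1 : 4 * D * (A * q) + h + 4 ≤ 4 * h1 := by
    have : 4 * D * (A * q) + 4 * κ ≤ 3 * h := by
      rw [hh']
      nlinarith [Nat.zero_le (A * q), Nat.zero_le κ, Nat.zero_le (D * (A * q)), Nat.zero_le (D * κ),
        Nat.mul_le_mul hD (le_refl κ)]
    omega
  have k2 : 4 * D * (M * (A * q) * P + q * K * h * P + 1) ≤ 4 * D * (M * h1 * E) := by
    calc 4 * D * (M * (A * q) * P + q * K * h * P + 1)
        = M * P * (4 * D * (A * q)) + (4 * D * K * q) * (h * P) + 4 * D := by ring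
      _ ≤ M * P * (4 * D * (A * q)) + M * (h * P) + 4 * (M * P) := by
          refine add_le_add (add_le_add le_rfl (Nat.mul_le_mul hM' le_rfl)) ?_
          refine Nat.mul_le_mul le_rfl (hDM.trans ?_)
          exact Nat.le_mul_of_pos_right M hP1
      _ = M * P * (4 * D * (A * q) + h + 4) := by ring
      _ ≤ M * P * (4 * h1) := Nat.mul_le_mul le_rfl k1
      _ = 4 * (M * h1) * P := by ring
      _ ≤ 4 * (M * h1) * (D * E) := Nat.mul_le_mul le_rfl hP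
      _ = 4 * D * (M * h1 * E) := by ring
  have k3 : M * (A * q) * P + q * K * h * P + 1 ≤ M * h1 * E :=
    Nat.le_of_mul_le_mul_left k2 (by positivity)
  obtain ⟨M', rfl⟩ : ∃ M', M = M' + 1 := ⟨M - 1, by omega⟩
  have e2 : 2 * (M' + 1) - 1 = 2 * M' + 1 := by omega
  rw [e2]
  calc (M' + 1) * ((A + 2 * h * K) * (P * q)) + 1
      = (2 * M' + 1) * (q * (K * h * P)) + ((M' + 1) * (A * q) * P + q * K * h * P + 1) := by ring
    _ ≤ (2 * M' + 1) * (q * (K * h * P)) + (M' + 1) * h1 * E := add_le_add le_rfl k3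
    _ ≤ (2 * M' + 1) * (q * (K * h * P)) + (2 * M' + 1) * h1 * E := by
        refine add_le_add le_rfl ?_
        exact Nat.mul_le_mul (Nat.mul_le_mul (by omega) le_rfl) le_rfl
    _ = (2 * M' + 1) * (q * (K * h * P) + h1 * E) := by ring

/-- At the rational points of a small box at which a relation `∑ j, c_j N_j(σ) = 0` with small integers `c_j` holds, the `c_j` also satisfy a relation `∑ j, c_j P_j(σ) = 0`, where `P` is a fixed non zero vector of polynomials of bounded degree.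

Proof. `K = card ι`, `q = card J`, `h = 2 ^ (K + 2) (A q + κ + 1)`, `C, ℓ₀` from `det_upper`. Apply `exists_normal` to the vectors `v σ (a, j) = σ ^ a cf σ j` (`σ ∈ S`, as real numbers, index type `(ι → Fin (2 h + 1)) × J`). If there is no `P`, some `f : (ι → Fin (2 h + 1)) × J → S` has `det (v ∘ f) ≠ 0`;
this determinant is `(rowMat (2 h) σ cf).det` and it is the image of the determinant of a rational matrix whose row `i` has a denominator `D i = ∏ l, (den (σ_i l)) ^ (2 h)`, `1 ≤ D i ≤ T ^ (2 h K)`. By `det_lower`, `1 ≤ |det| T ^ (2 h K Q)`, `Q = (2 h + 1) ^ K q`; by `det_upper` with `X = T ^ A`,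
`|det| ≤ C T ^ (A Q) ℓ ^ G`, `G = q S + (h + 1 - κ) (h + 1) ^ K` with `S = K h (2 h + 1) ^ K` (`two_mul_sum_deg`). So `1 ≤ C T ^ ((A + 2 h K) Q) ℓ ^ G`; raise to the power `M` and use `ℓ ^ M ≤ T ^ (-(2 M - 1))`: `1 ≤ C ^ M T ^ (M (A + 2 h K) Q - (2 M - 1) G) ≤ C ^ M / T` by `arith_stage`,
a contradiction for `T > C ^ M`. (`ℓ ≤ ℓ₀` for `T` large: `ℓ ^ M ≤ T ^ (-(2 M - 1)) ≤ T ^ (- M)`, so `ℓ ≤ 1 / T`.) -/
theorem stage (ι J : Type) [Fintype ι] [DecidableEq ι] [Nonempty ι] [Fintype J] [DecidableEq J] [Nonempty J]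
    (r B c : ℝ) (κ A M : ℕ) (hr : 0 < r) (hB : 0 ≤ B) (hc : 0 < c)
    (hM : 2 ^ (Fintype.card ι + 2) * Fintype.card ι * Fintype.card J ≤ M) :
    ∃ h T₀ : ℕ, ∀ T : ℕ, T₀ ≤ T → ∀ (θ₀ : ι → ℝ) (N : J → (ι → ℝ) → ℝ) (ν : J → (ι → ℕ) → ℝ),
      (∀ j, Exp r B θ₀ (N j) (ν j)) → (∃ j b, dg b ≤ κ ∧ c ≤ |ν j b|) →
      ∀ ℓ : ℝ, 0 < ℓ → ℓ ^ M * (T : ℝ) ^ (2 * M - 1) ≤ 1 → ∀ (S : Set (ι → ℚ)) (cf : (ι → ℚ) → J → ℤ),
        (∀ σ ∈ S, (∀ i, HLE T (σ i)) ∧ (∀ i, |(σ i : ℝ) - θ₀ i| ≤ ℓ) ∧ (∀ j, |cf σ j| ≤ (T : ℤ) ^ A) ∧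
          ∑ j, (cf σ j : ℝ) * N j (fun i => (σ i : ℝ)) = 0) →
        ∃ P : J → (ι → Fin (2 * h + 1)) → ℝ, (∀ j a, |P j a| ≤ 1) ∧ (∃ j a, |P j a| = 1) ∧
          ∀ σ ∈ S, ∑ j, (∑ a, P j a * ∏ l, (σ l : ℝ) ^ (a l : ℕ)) * (cf σ j : ℝ) = 0 := by
  classical
  obtain ⟨K, hK⟩ : ∃ K, K = Fintype.card ι := ⟨_, rfl⟩
  obtain ⟨q, hq⟩ : ∃ q, q = Fintype.card J := ⟨_, rfl⟩
  have hK1 : 1 ≤ K := by rw [hK]; exact Fintype.card_pos
  have hq1 : 1 ≤ q := by rw [hq]; exact Fintype.card_pos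
  rw [← hK, ← hq] at hM
  have hM1 : 1 ≤ M := by
    refine le_trans ?_ hM
    exact Nat.mul_pos (Nat.mul_pos (by positivity) hK1) hq1
  obtain ⟨h, hh⟩ : ∃ h, h = 2 ^ (K + 2) * (A * q + κ + 1) := ⟨_, rfl⟩
  have hκh : κ ≤ h := by
    rw [hh]
    have h1 : 1 ≤ 2 ^ (K + 2) := Nat.one_le_two_pow
    nlinarith [Nat.zero_le (A * q)]
  obtain ⟨C, ℓ₀, hC, hℓ₀, hup⟩ := det_upper ι J r B c κ h hr hB hc hκh
  obtain ⟨T₁, hT₁⟩ := exists_nat_gt (C ^ M)
  obtain ⟨T₂, hT₂⟩ := exists_nat_gt (1 / ℓ₀)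
  refine ⟨h, max 1 (max T₁ T₂), fun T hT θ₀ N ν hE hν ℓ hℓ hℓM S cf hS => ?_⟩
  have hT1 : 1 ≤ T := (le_max_left _ _).trans hT
  have hTC : C ^ M < T := hT₁.trans_le (by
    exact_mod_cast ((le_max_left _ _).trans (le_max_right _ _)).trans hT)
  have hTℓ : 1 / ℓ₀ < T := hT₂.trans_le (by
    exact_mod_cast ((le_max_right _ _).trans (le_max_right _ _)).trans hT)
  have hTr : (1 : ℝ) ≤ T := by exact_mod_cast hT1
  have hT0 : (0 : ℝ) < T := lt_of_lt_of_le one_pos hTr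
  have hℓT : ℓ * T ≤ 1 := by
    have h1 : (ℓ * T) ^ M ≤ 1 := by
      rw [mul_pow]
      refine le_trans ?_ hℓM
      exact mul_le_mul_of_nonneg_left (pow_le_pow_right₀ hTr (by omega)) (by positivity)
    exact (pow_le_one_iff_of_nonneg (by positivity) (by omega)).1 h1
  have hℓℓ₀ : ℓ ≤ ℓ₀ := by
    rw [div_lt_iff₀ hℓ₀] at hTℓ
    have h1 : ℓ * T ≤ ℓ₀ * T := by
      rw [mul_comm ℓ₀]
      exact hℓT.trans hTℓ.le
    exact le_of_mul_le_mul_right h1 hT0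
  let v : S → (ι → Fin (2 * h + 1)) × J → ℝ := fun s aj =>
    (∏ l, ((s : ι → ℚ) l : ℝ) ^ (aj.1 l : ℕ)) * (cf s aj.2 : ℝ)
  rcases exists_normal v with ⟨P, hP1, ⟨⟨a₀, j₀⟩, hP2⟩, hP3⟩ | ⟨f, hf⟩
  · refine ⟨fun j a => P (a, j), fun j a => hP1 (a, j), ⟨j₀, a₀, hP2⟩, fun σ hσ => ?_⟩
    have h1 := hP3 ⟨σ, hσ⟩
    rw [Fintype.sum_prod_type, Finset.sum_comm] at h1
    rw [← h1]
    refine Finset.sum_congr rfl fun j _ => ?_
    rw [Finset.sum_mul]
    refine Finset.sum_congr rfl fun a _ => ?_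
    simp only [v]
    ring
  · exfalso
    -- the rational matrix
    let Mq : Matrix ((ι → Fin (2 * h + 1)) × J) ((ι → Fin (2 * h + 1)) × J) ℚ :=
      Matrix.of fun i aj => (∏ l, (f i : ι → ℚ) l ^ (aj.1 l : ℕ)) * (cf (f i) aj.2 : ℚ)
    have hcast : ((Mq.det : ℚ) : ℝ) = (Matrix.of fun i => v (f i)).det := by
      have h1 := (Rat.castHom ℝ).map_det Mq
      have h2 : (Rat.castHom ℝ) Mq.det = ((Mq.det : ℚ) : ℝ) := rfl
      rw [← h2, h1]
      congr 1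
      ext i aj
      simp only [RingHom.mapMatrix_apply, Matrix.map_apply, Matrix.of_apply, Mq, v, map_mul, map_prod,
        map_pow, eq_ratCast, map_intCast]
    have hdq : Mq.det ≠ 0 := by
      intro h0
      apply hf
      rw [← hcast, h0, Rat.cast_zero]
    have hlow := det_lower Mq (fun i => ∏ l, ((f i : ι → ℚ) l).den ^ (2 * h)) (T ^ (2 * h * K))
      (by
        intro i
        constructor
        · exact Finset.prod_pos fun l _ => pow_pos ((f i : ι → ℚ) l).den_pos _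
        · calc ∏ l, ((f i : ι → ℚ) l).den ^ (2 * h) ≤ ∏ _l : ι, T ^ (2 * h) :=
                Finset.prod_le_prod' fun l _ =>
                  Nat.pow_le_pow_left ((hS _ (f i).2).1 l).2 _
            _ = T ^ (2 * h * K) := by
                rw [Finset.prod_const, Finset.card_univ, ← hK, ← pow_mul])
      (by
        intro i aj
        refine ⟨(∏ l, ((f i : ι → ℚ) l).num ^ (aj.1 l : ℕ) *
          (((f i : ι → ℚ) l).den : ℤ) ^ (2 * h - (aj.1 l : ℕ))) * cf (f i) aj.2, ?_⟩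
        simp only [Mq, Matrix.of_apply]
        push_cast
        rw [← mul_assoc, ← Finset.prod_mul_distrib]
        congr 1
        refine Finset.prod_congr rfl fun l _ => ?_
        have h1 : (aj.1 l : ℕ) ≤ 2 * h := Nat.le_of_lt_succ (aj.1 l).2
        have h2 : (((f i : ι → ℚ) l).den : ℚ) ≠ 0 := by
          exact_mod_cast ((f i : ι → ℚ) l).den_ne_zero
        have h3 : (((f i : ι → ℚ) l).den : ℚ) * (f i : ι → ℚ) l = ((f i : ι → ℚ) l).num :=
          Rat.den_mul_eq_num _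
        have h4 : (((f i : ι → ℚ) l).den : ℚ) ^ (2 * h) =
            (((f i : ι → ℚ) l).den : ℚ) ^ (2 * h - (aj.1 l : ℕ)) *
              (((f i : ι → ℚ) l).den : ℚ) ^ (aj.1 l : ℕ) := by
          rw [← pow_add]
          congr 1
          omega
        rw [h4, mul_assoc, ← mul_pow, h3]
        ring)
      hdq
    have hlow' : 1 ≤ |(Matrix.of fun i => v (f i)).det| *
        ((T : ℝ) ^ (2 * h * K)) ^ Fintype.card ((ι → Fin (2 * h + 1)) × J) := by
      have h1 : ((1 : ℚ) : ℝ) ≤ ((|Mq.det| * ((T ^ (2 * h * K) : ℕ) : ℚ) ^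
          Fintype.card ((ι → Fin (2 * h + 1)) × J) : ℚ) : ℝ) := by exact_mod_cast hlow
      rw [← hcast]
      push_cast at h1 ⊢
      exact h1
    have hupp := hup θ₀ N ν hE hν ℓ hℓ hℓℓ₀ (fun i l => ((f i : ι → ℚ) l : ℝ))
      (fun i j => (cf (f i) j : ℝ)) ((T : ℝ) ^ A) (by positivity)
      (fun i l => (hS _ (f i).2).2.1 l)
      (fun i j => by
        have h1 := (hS _ (f i).2).2.2.1 j
        have h2 : ((|cf (f i) j| : ℤ) : ℝ) ≤ (((T : ℤ) ^ A : ℤ) : ℝ) := by exact_mod_cast h1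
        push_cast at h2
        exact h2)
      (fun i => (hS _ (f i).2).2.2.2)
    have hmat : rowMat (2 * h) (fun i l => ((f i : ι → ℚ) l : ℝ)) (fun i j => (cf (f i) j : ℝ)) =
        Matrix.of fun i => v (f i) := by
      ext i aj
      simp only [rowMat, Matrix.of_apply, v]
    rw [hmat] at hupp
    have hcard : Fintype.card ((ι → Fin (2 * h + 1)) × J) = (2 * h + 1) ^ K * q := by
      rw [Fintype.card_prod, Fintype.card_fun, Fintype.card_fin, ← hK, ← hq]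
    have hdeg : ∑ a : ι → Fin (2 * h + 1), ∑ l, (a l : ℕ) = K * h * (2 * h + 1) ^ K := by
      have h1 := two_mul_sum_deg (ι := ι) (2 * h)
      rw [← hK] at h1
      have h2 : 2 * ∑ a : ι → Fin (2 * h + 1), ∑ l, (a l : ℕ) = 2 * (K * h * (2 * h + 1) ^ K) := by
        rw [h1]
        ring
      omega
    rw [hdeg, hcard, ← hq, ← hK] at hupp
    rw [hcard] at hlow'
    have harith := arith_stage K q A κ M hK1 hq1 hM h hh
    obtain ⟨Q, hQ⟩ : ∃ Q, Q = (2 * h + 1) ^ K * q := ⟨_, rfl⟩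
    obtain ⟨G, hG⟩ : ∃ G, G = q * (K * h * (2 * h + 1) ^ K) + (h + 1 - κ) * (h + 1) ^ K := ⟨_, rfl⟩
    rw [← hQ] at hupp hlow' harith
    rw [← hG] at hupp harith
    have h1 : 1 ≤ C * (T : ℝ) ^ ((A + 2 * h * K) * Q) * ℓ ^ G := by
      refine hlow'.trans ?_
      calc |(Matrix.of fun i => v (f i)).det| * ((T : ℝ) ^ (2 * h * K)) ^ Q
          ≤ (C * ((T : ℝ) ^ A) ^ Q * ℓ ^ G) * ((T : ℝ) ^ (2 * h * K)) ^ Q :=
            mul_le_mul_of_nonneg_right hupp (by positivity)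
        _ = C * (T : ℝ) ^ ((A + 2 * h * K) * Q) * ℓ ^ G := by
            rw [add_mul, pow_add, pow_mul, pow_mul]
            ring
    have h2 : 1 ≤ C ^ M * (T : ℝ) ^ (M * ((A + 2 * h * K) * Q)) * (ℓ ^ M) ^ G := by
      have h3 := one_le_pow₀ h1 (n := M)
      refine h3.trans (le_of_eq ?_)
      rw [mul_pow, mul_pow, ← pow_mul, ← pow_mul, ← pow_mul, mul_comm G M,
        mul_comm ((A + 2 * h * K) * Q) M]
    have h3 : (ℓ ^ M) ^ G * (T : ℝ) ^ ((2 * M - 1) * G) ≤ 1 := by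
      rw [pow_mul (T : ℝ), ← mul_pow]
      exact pow_le_one₀ (by positivity) hℓM
    have h4 : (T : ℝ) ^ ((2 * M - 1) * G) ≤ C ^ M * (T : ℝ) ^ (M * ((A + 2 * h * K) * Q)) := by
      calc (T : ℝ) ^ ((2 * M - 1) * G) = 1 * (T : ℝ) ^ ((2 * M - 1) * G) := (one_mul _).symm
        _ ≤ C ^ M * (T : ℝ) ^ (M * ((A + 2 * h * K) * Q)) * (ℓ ^ M) ^ G *
              (T : ℝ) ^ ((2 * M - 1) * G) := mul_le_mul_of_nonneg_right h2 (by positivity)
        _ = C ^ M * (T : ℝ) ^ (M * ((A + 2 * h * K) * Q)) *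
              ((ℓ ^ M) ^ G * (T : ℝ) ^ ((2 * M - 1) * G)) := by ring
        _ ≤ C ^ M * (T : ℝ) ^ (M * ((A + 2 * h * K) * Q)) * 1 :=
            mul_le_mul_of_nonneg_left h3 (by positivity)
        _ = _ := mul_one _
    have h5 : (T : ℝ) ^ (M * ((A + 2 * h * K) * Q)) * T ≤ (T : ℝ) ^ ((2 * M - 1) * G) := by
      rw [← pow_succ]
      exact pow_le_pow_right₀ hTr harith
    have h6 : (T : ℝ) ^ (M * ((A + 2 * h * K) * Q)) * T ≤
        (T : ℝ) ^ (M * ((A + 2 * h * K) * Q)) * C ^ M := by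
      rw [mul_comm _ (C ^ M)]
      exact h5.trans h4
    exact absurd hTC (le_of_mul_le_mul_left h6 (by positivity)).not_gt

end Pool.Agent.Lib.MP_bbe012_lc.PG
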