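import Pool.Agent.Lib.MP_bbe012_lc.PG.A4

/-!
# Almost all supports: families of combinations with polynomial coefficients
-/

namespace Pool.Agent.Lib.MP_bbe012_lc.PG

open Finset MvPolynomial

/-- The hypotheses on the functions `V i`. -/
structure VHyp {ι : Type} [Fintype ι] {r : ℕ} (S : Set (ι → ℝ)) (V : Fin r → (ι → ℝ) → ℝ) : Prop where
  compact : IsCompact S
  la : ∀ i, ∃ (r₀ B : ℝ) (m : (ι → ℝ) → (ι → ℕ) → ℝ), 0 < r₀ ∧ 0 ≤ B ∧ LA S r₀ B (V i) m
  indep : ∀ θ ∈ S, ∀ P : Fin r → MvPolynomial ι ℝ,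
    (∀ᶠ θ' in nhds θ, ∑ i, eval θ' (P i) * V i θ' = 0) → ∀ i, P i = 0

/-- exponents as finitely supported functions -/
private noncomputable def a11F {ι : Type} [Fintype ι] {D : ℕ} (a : ι → Fin (D + 1)) : ι →₀ ℕ :=
  Finsupp.equivFunOnFinite.symm fun i => (a i : ℕ)

private theorem a11F_apply {ι : Type} [Fintype ι] {D : ℕ} (a : ι → Fin (D + 1)) (i : ι) :
    a11F a i = (a i : ℕ) := rfl

private theorem a11F_inj {ι : Type} [Fintype ι] {D : ℕ} :
    Function.Injective (a11F : (ι → Fin (D + 1)) → ι →₀ ℕ) := by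
  intro a a' h
  funext i
  apply Fin.ext
  have h1 := DFunLike.congr_fun h i
  rwa [a11F_apply, a11F_apply] at h1

private theorem a11_mem {ι : Type} [Fintype ι] {D : ℕ} {P : MvPolynomial ι ℝ}
    (hP : ∀ l, P.degreeOf l ≤ D) {b : ι →₀ ℕ} (hb : coeff b P ≠ 0) :
    ∃ a : ι → Fin (D + 1), a11F a = b := by
  refine ⟨fun i => ⟨b i, ?_⟩, ?_⟩
  · have h1 := monomial_le_degreeOf i (mem_support_iff.2 hb)
    have h2 := hP i
    omega
  · ext i
    rfl

/-- the polynomial with given coefficients -/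
private noncomputable def a11P {ι : Type} [Fintype ι] [DecidableEq ι] {D : ℕ}
    (p : (ι → Fin (D + 1)) → ℝ) : MvPolynomial ι ℝ := ∑ a, monomial (a11F a) (p a)

section
variable {ι : Type} [Fintype ι] [DecidableEq ι] {D : ℕ}

private theorem a11_coeff' (p : (ι → Fin (D + 1)) → ℝ) (b : ι →₀ ℕ) :
    coeff b (a11P p) = ∑ a, if a11F a = b then p a else 0 := by
  unfold a11P
  rw [coeff_sum]
  refine Finset.sum_congr rfl fun a _ => ?_
  rw [coeff_monomial]

private theorem a11_coeff (p : (ι → Fin (D + 1)) → ℝ) (a : ι → Fin (D + 1)) :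
    coeff (a11F a) (a11P p) = p a := by
  rw [a11_coeff', Finset.sum_eq_single a]
  · rw [if_pos rfl]
  · intro a' _ h
    rw [if_neg fun h' => h (a11F_inj h')]
  · intro h
    exact absurd (Finset.mem_univ a) h

private theorem a11_rep {P : MvPolynomial ι ℝ} (hP : ∀ l, P.degreeOf l ≤ D) :
    a11P (fun a : ι → Fin (D + 1) => coeff (a11F a) P) = P := by
  ext b
  by_cases hb : ∃ a : ι → Fin (D + 1), a11F a = b
  · obtain ⟨a, rfl⟩ := hb
    exact a11_coeff _ a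
  · rw [a11_coeff']
    have h1 : coeff b P = 0 := by
      by_contra h
      exact hb (a11_mem hP h)
    rw [h1]
    refine Finset.sum_eq_zero fun a _ => ?_
    rw [if_neg fun h => hb ⟨a, h⟩]

private theorem a11_deg (p : (ι → Fin (D + 1)) → ℝ) (l : ι) : (a11P p).degreeOf l ≤ D := by
  rw [degreeOf_le_iff]
  intro b hb
  rw [mem_support_iff, a11_coeff'] at hb
  obtain ⟨a, _, ha⟩ := Finset.exists_ne_zero_of_sum_ne_zero hb
  by_cases h : a11F a = b
  · rw [← h, a11F_apply]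
    have := (a l).2
    omega
  · rw [if_neg h] at ha
    exact absurd rfl ha

private theorem a11_evalP (p : (ι → Fin (D + 1)) → ℝ) (θ : ι → ℝ) :
    eval θ (a11P p) = ∑ a, p a * mon θ fun i => (a i : ℕ) := by
  unfold a11P
  rw [map_sum]
  refine Finset.sum_congr rfl fun a _ => ?_
  rw [eval_monomial, Finsupp.prod_fintype _ _ (fun i => pow_zero _)]
  rfl

private theorem a11_eval {P : MvPolynomial ι ℝ} (hP : ∀ l, P.degreeOf l ≤ D) (θ : ι → ℝ) :
    eval θ P = ∑ a : ι → Fin (D + 1), coeff (a11F a) P * mon θ fun i => (a i : ℕ) := by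
  conv_lhs => rw [← a11_rep hP]
  rw [a11_evalP]

private theorem a11_smul (r : ℝ) (p : (ι → Fin (D + 1)) → ℝ) : a11P (r • p) = C r * a11P p := by
  unfold a11P
  rw [Finset.mul_sum]
  refine Finset.sum_congr rfl fun a _ => ?_
  rw [C_mul_monomial]
  rfl

private theorem a11_ne {p : (ι → Fin (D + 1)) → ℝ} (h : ‖p‖ = 1) : a11P p ≠ 0 := by
  intro h0
  have h1 : p = 0 := by
    funext a
    rw [← a11_coeff p a, h0, coeff_zero]
    rfl
  rw [h1, norm_zero] at h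
  exact zero_ne_one h

end

/-- Uniform expansions and non-degeneracy for all combinations with normalised polynomial coefficients of bounded degree.

Proof. For `(i, a)`, `a : ι → Fin (D + 1)`, the function `θ ↦ mon θ a * V i θ` has an `LA` by `LA.mul_mon` (`S` is bounded); take a common radius and a common constant `B₀` (`Exp.mono`, `Exp.mono_radius`). A polynomial `y i` with `degreeOf ≤ D` is `∑ a, coeff a (y i) • monomial`, so
`∑ i, eval θ (y i) * V i θ = ∑ (i, a), coeff a (y i) * (mon θ a * V i θ)`, and `Exp.linear` gives the expansion, with the constant `r (D + 1) ^ card ι * B₀`. The non-degeneracy: `nondeg` for this family; its hypothesis: if `∑ y_(i, a) m_(i, a)(θ, b) = 0` for all `b`, then by `Exp.linear` and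
`Exp.eq_zero` the combination vanishes near `θ`, so all `P i = ∑ a, monomial a y_(i, a)` are zero by `indep`, that is `y = 0`. -/
theorem fam_exp {ι : Type} [Fintype ι] [DecidableEq ι] {r : ℕ} {S : Set (ι → ℝ)} {V : Fin r → (ι → ℝ) → ℝ}
    (hV : VHyp S V) (D : ℕ) : ∃ (r₀ B : ℝ) (κ : ℕ) (c : ℝ), 0 < r₀ ∧ 0 ≤ B ∧ 0 < c ∧
      ∀ θ₀ ∈ S, ∀ (y : Fin r → MvPolynomial ι ℝ) (ρ : ℝ), (∀ i l, (y i).degreeOf l ≤ D) →
        (∀ i b, |coeff b (y i)| ≤ 1) → 0 < ρ → (∃ i b, ρ ≤ |coeff b (y i)|) →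
        ∃ ν : (ι → ℕ) → ℝ, Exp r₀ B θ₀ (fun θ => ∑ i, eval θ (y i) * V i θ) ν ∧ ∃ b, dg b ≤ κ ∧ c * ρ ≤ |ν b| := by
  classical
  obtain ⟨M, hM0⟩ := isBounded_iff_forall_norm_le.1 hV.compact.isBounded
  have hM : ∀ θ ∈ S, ∀ i, |θ i| ≤ M := fun θ hθ i => (norm_le_pi_norm θ i).trans (hM0 θ hθ)
  have hLA : ∀ n : Fin r × (ι → Fin (D + 1)), ∃ (r₀ B : ℝ) (m : (ι → ℝ) → (ι → ℕ) → ℝ), 0 < r₀ ∧
      0 ≤ B ∧ LA S r₀ B (fun θ => mon θ (fun i => (n.2 i : ℕ)) * V n.1 θ) m := by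
    intro n
    obtain ⟨r₀, B, m, h0, hB, h⟩ := hV.la n.1
    obtain ⟨B', m', hB', h'⟩ := h.mul_mon h0 hB hM (fun i => (n.2 i : ℕ))
    exact ⟨r₀, B', m', h0, hB', h'⟩
  choose R B m hR hB hL using hLA
  have hsR : 0 ≤ ∑ n, (R n)⁻¹ := Finset.sum_nonneg fun n _ => (inv_pos.2 (hR n)).le
  obtain ⟨r₁, hr₁⟩ : ∃ r₁ : ℝ, r₁ = (1 + ∑ n, (R n)⁻¹)⁻¹ := ⟨_, rfl⟩
  have hr₁0 : 0 < r₁ := by
    rw [hr₁]
    positivity
  have hr₁R : ∀ n, r₁ ≤ R n := by
    intro n
    rw [hr₁]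
    apply inv_le_of_inv_le₀ (hR n)
    have := Finset.single_le_sum (f := fun n => (R n)⁻¹) (fun n _ => (inv_pos.2 (hR n)).le)
      (Finset.mem_univ n)
    linarith
  obtain ⟨B₁, hB₁⟩ : ∃ B₁ : ℝ, B₁ = ∑ n, B n := ⟨_, rfl⟩
  have hB₁0 : 0 ≤ B₁ := by
    rw [hB₁]
    exact Finset.sum_nonneg fun n _ => hB n
  have hB₁n : ∀ n, B n ≤ B₁ := by
    intro n
    rw [hB₁]
    exact Finset.single_le_sum (fun n _ => hB n) (Finset.mem_univ n)
  have hE : ∀ θ ∈ S, ∀ n, Exp r₁ B₁ θ (fun θ => mon θ (fun i => (n.2 i : ℕ)) * V n.1 θ)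
      (m n θ) := fun θ hθ n =>
    (((hL n).exp θ hθ).mono_radius hr₁0 (hr₁R n) (hB n)).mono hr₁0 (hB₁n n)
  have hsum : ∀ (y : Fin r → MvPolynomial ι ℝ), (∀ i l, (y i).degreeOf l ≤ D) → ∀ θ : ι → ℝ,
      ∑ i, eval θ (y i) * V i θ = ∑ n : Fin r × (ι → Fin (D + 1)),
        coeff (a11F n.2) (y n.1) * (mon θ (fun i => (n.2 i : ℕ)) * V n.1 θ) := by
    intro y hy θ
    rw [Fintype.sum_prod_type]
    refine Finset.sum_congr rfl fun i _ => ?_
    rw [a11_eval (hy i) θ, Finset.sum_mul]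
    refine Finset.sum_congr rfl fun a _ => ?_
    rw [mul_assoc]
  obtain ⟨κ, c, hc, hnd⟩ := nondeg S hV.compact m (fun n b => (hL n).cont b) (by
    intro θ hθ y hy
    by_contra hcon
    have h0 : ∀ b, ∑ n, y n * m n θ b = 0 := by
      intro b
      by_contra h
      exact hcon ⟨b, h⟩
    have h1 := (Exp.linear (hE θ hθ) y).eq_zero hr₁0 h0
    have h2 : ∀ θ' : ι → ℝ, ∑ i, eval θ' (a11P fun a => y (i, a)) * V i θ' =
        ∑ n, y n * (mon θ' (fun i => (n.2 i : ℕ)) * V n.1 θ') := by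
      intro θ'
      rw [hsum _ (fun i l => a11_deg _ l) θ']
      refine Finset.sum_congr rfl fun n _ => ?_
      rw [a11_coeff]
    have h3 : ∀ i, (a11P fun a => y (i, a)) = 0 := by
      refine hV.indep θ hθ (fun i => a11P fun a => y (i, a)) ?_
      filter_upwards [h1] with θ' h4
      rw [h2 θ']
      exact h4
    apply hy
    funext n
    obtain ⟨i, a⟩ := n
    have h5 := a11_coeff (fun a => y (i, a)) a
    rw [h3 i, coeff_zero] at h5
    exact h5.symm)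
  refine ⟨r₁, (Fintype.card (Fin r × (ι → Fin (D + 1))) : ℝ) * B₁, κ, c, hr₁0, by positivity, hc, ?_⟩
  intro θ₀ hθ₀ y ρ hyd hy1 hρ hyρ
  refine ⟨fun b => ∑ n, coeff (a11F n.2) (y n.1) * m n θ₀ b, ?_, ?_⟩
  · have h1 := Exp.linear (hE θ₀ hθ₀) (fun n => coeff (a11F n.2) (y n.1))
    have h2 : (fun θ => ∑ i, eval θ (y i) * V i θ) = fun θ => ∑ n : Fin r × (ι → Fin (D + 1)),
        coeff (a11F n.2) (y n.1) * (mon θ (fun i => (n.2 i : ℕ)) * V n.1 θ) := by
      funext θ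
      exact hsum y hyd θ
    rw [h2]
    refine h1.mono hr₁0 (mul_le_mul_of_nonneg_right ?_ hB₁0)
    calc ∑ n : Fin r × (ι → Fin (D + 1)), |coeff (a11F n.2) (y n.1)|
        ≤ ∑ _n : Fin r × (ι → Fin (D + 1)), (1 : ℝ) := Finset.sum_le_sum fun n _ => hy1 _ _
      _ = (Fintype.card (Fin r × (ι → Fin (D + 1))) : ℝ) := by
          rw [Finset.sum_const, Finset.card_univ, nsmul_eq_mul, mul_one]
  · refine hnd θ₀ hθ₀ _ ρ hρ ?_
    obtain ⟨i, b, hib⟩ := hyρ
    have hne : coeff b (y i) ≠ 0 := by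
      intro h
      rw [h, abs_zero] at hib
      linarith
    obtain ⟨a, rfl⟩ := a11_mem (hyd i) hne
    exact ⟨(i, a), hib⟩

/-- The constant function `1`. Proof: `m θ b = if b = 0 then 1 else 0`, `r₀ = B = 1`; a polynomial which vanishes near a point is zero (`MvPolynomial.funext` type results on open sets: for example
restrict to the grid of a small cube, `MvPolynomial.funext_set`/`MvPolynomial.eq_zero_of_eval_zero_at_prod_finset`, or `AnalyticOnNhd` and connectedness). -/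
theorem vhyp_one {ι : Type} [Fintype ι] [DecidableEq ι] {S : Set (ι → ℝ)} (hS : IsCompact S) :
    VHyp S (fun _ : Fin 1 => fun _ : ι → ℝ => (1 : ℝ)) := by
  classical
  refine ⟨hS, fun _ => ⟨1, 1, fun _ b => if b = 0 then 1 else 0, one_pos, zero_le_one,
    fun b => continuousOn_const, fun θ _ => ⟨fun b => ?_, fun h _ => ?_⟩⟩, ?_⟩
  · rw [inv_one, one_pow, one_mul]
    split_ifs
    · rw [abs_one]
    · rw [abs_zero]
      exact zero_le_one
  · have h1 : HasSum (fun b : ι → ℕ => (if b = 0 then (1 : ℝ) else 0) * mon h b)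
        ((if (0 : ι → ℕ) = 0 then (1 : ℝ) else 0) * mon h 0) := by
      refine hasSum_single 0 fun b hb => ?_
      rw [if_neg hb, zero_mul]
    have h2 : mon h (0 : ι → ℕ) = 1 := by
      unfold mon
      exact Finset.prod_eq_one fun i _ => pow_zero _
    rw [if_pos rfl, one_mul, h2] at h1
    exact h1
  · intro θ _ P hP i
    have hi : i = 0 := Subsingleton.elim _ _
    subst hi
    obtain ⟨ε, hε, hb⟩ := Metric.eventually_nhds_iff.1 hP
    refine MvPolynomial.funext_set (fun i => Set.Ioo (θ i - ε) (θ i + ε))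
      (fun i => Set.Ioo_infinite (by linarith)) fun x hx => ?_
    have h1 : dist x θ < ε := by
      rw [dist_pi_lt_iff hε]
      intro i
      have h2 := hx i (Set.mem_univ i)
      rw [Real.dist_eq, abs_lt]
      constructor
      · linarith [h2.1]
      · linarith [h2.2]
    have h3 := hb h1
    rw [Fin.sum_univ_one, mul_one] at h3
    rw [h3, map_zero]

/-- Proof. The coefficient of `P * Q` of index `b` is a sum over the `(a, a')` with `a + a' = b`, at most `(D + 1) ^ card ι` non zero terms (`a ∈ support P`). -/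
theorem abs_coeff_mul_le {ι : Type} [Fintype ι] {D : ℕ} {P Q : MvPolynomial ι ℝ} {ρ ρ' : ℝ}
    (hP : ∀ l, P.degreeOf l ≤ D) (h1 : ∀ b, |coeff b P| ≤ ρ) (h2 : ∀ b, |coeff b Q| ≤ ρ') (hρ : 0 ≤ ρ) (hρ' : 0 ≤ ρ')
    (b : ι →₀ ℕ) : |coeff b (P * Q)| ≤ ((D : ℝ) + 1) ^ Fintype.card ι * (ρ * ρ') := by
  classical
  rw [coeff_mul]
  have h3 : ∑ x ∈ Finset.HasAntidiagonal.antidiagonal b, coeff x.1 P * coeff x.2 Q =
      ∑ x ∈ (Finset.HasAntidiagonal.antidiagonal b).filter (fun x => x.1 ∈ P.support),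
        coeff x.1 P * coeff x.2 Q := by
    symm
    refine Finset.sum_subset (Finset.filter_subset _ _) fun x hx hx' => ?_
    have h4 : x.1 ∉ P.support := fun h => hx' (Finset.mem_filter.2 ⟨hx, h⟩)
    rw [mem_support_iff, not_not] at h4
    rw [h4, zero_mul]
  rw [h3]
  refine (Finset.abs_sum_le_sum_abs _ _).trans ?_
  have h5 : ∀ x ∈ (Finset.HasAntidiagonal.antidiagonal b).filter (fun x => x.1 ∈ P.support),
      |coeff x.1 P * coeff x.2 Q| ≤ ρ * ρ' := by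
    intro x _
    rw [abs_mul]
    exact mul_le_mul (h1 _) (h2 _) (abs_nonneg _) hρ
  refine (Finset.sum_le_card_nsmul _ _ _ h5).trans ?_
  rw [nsmul_eq_mul]
  refine mul_le_mul_of_nonneg_right ?_ (mul_nonneg hρ hρ')
  have h6 : ((Finset.HasAntidiagonal.antidiagonal b).filter (fun x => x.1 ∈ P.support)).card ≤
      (D + 1) ^ Fintype.card ι := by
    calc ((Finset.HasAntidiagonal.antidiagonal b).filter (fun x => x.1 ∈ P.support)).card
        ≤ (Finset.univ.image (a11F : (ι → Fin (D + 1)) → ι →₀ ℕ)).card := by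
          refine Finset.card_le_card_of_injOn (fun x => x.1) ?_ ?_
          · intro x hx
            have hx1 := (Finset.mem_filter.1 (Finset.mem_coe.1 hx)).2
            obtain ⟨a, ha⟩ := a11_mem hP (mem_support_iff.1 hx1)
            exact Finset.mem_coe.2 (Finset.mem_image.2 ⟨a, Finset.mem_univ _, ha⟩)
          · intro x hx x' hx' he
            have he1 : x.1 = x'.1 := he
            have hx1 := Finset.HasAntidiagonal.mem_antidiagonal.1 (Finset.mem_filter.1 (Finset.mem_coe.1 hx)).1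
            have hx2 := Finset.HasAntidiagonal.mem_antidiagonal.1 (Finset.mem_filter.1 (Finset.mem_coe.1 hx')).1
            refine Prod.ext he1 ?_
            rw [← hx2, he1] at hx1
            exact add_left_cancel hx1
      _ ≤ (Finset.univ : Finset (ι → Fin (D + 1))).card := Finset.card_image_le
      _ = (D + 1) ^ Fintype.card ι := by
          rw [Finset.card_univ, Fintype.card_fun, Fintype.card_fin]
  exact_mod_cast h6

/-- The largest coefficient of a product is not much smaller than the product of the largest coefficients.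

Proof. Compactness: the set of the pairs `(P, Q)` with degrees at most `D`, `D'`, and largest absolute value of a coefficient equal to `1` (as points of `(ι → Fin (D + 1)) → ℝ` and `(ι → Fin (D' + 1)) → ℝ`) is compact, and the largest absolute value of a coefficient of `P Q` is a
continuous function on it, not zero as `MvPolynomial ι ℝ` is a domain; so it is at least `c > 0`. In general divide `P` and `Q` by their largest coefficients. (It is convenient to realise `P = ∑ a, monomial (toFinsupp a) (p a)`.) -/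
theorem exists_coeff_mul (ι : Type) [Fintype ι] [DecidableEq ι] (D D' : ℕ) : ∃ c : ℝ, 0 < c ∧
    ∀ (P Q : MvPolynomial ι ℝ) (ρ ρ' : ℝ), (∀ l, P.degreeOf l ≤ D) → (∀ l, Q.degreeOf l ≤ D') → 0 < ρ → 0 < ρ' →
      (∃ b, ρ ≤ |coeff b P|) → (∃ b, ρ' ≤ |coeff b Q|) → ∃ b, c * (ρ * ρ') ≤ |coeff b (P * Q)| := by
  classical
  obtain ⟨G, hG⟩ : ∃ G : ((ι → Fin (D + 1)) → ℝ) × ((ι → Fin (D' + 1)) → ℝ) →
      ((ι → Fin (D + D' + 1)) → ℝ), G = fun x b => coeff (a11F b) (a11P x.1 * a11P x.2) := ⟨_, rfl⟩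
  have hGc : Continuous G := by
    rw [hG]
    refine continuous_pi fun b => ?_
    have h1 : (fun x : ((ι → Fin (D + 1)) → ℝ) × ((ι → Fin (D' + 1)) → ℝ) =>
        coeff (a11F b) (a11P x.1 * a11P x.2)) = fun x => ∑ a, ∑ a',
          if (a11F a + a11F a' : ι →₀ ℕ) = a11F b then x.1 a * x.2 a' else 0 := by
      funext x
      unfold a11P
      rw [Finset.sum_mul_sum, coeff_sum]
      refine Finset.sum_congr rfl fun a _ => ?_
      rw [coeff_sum]
      refine Finset.sum_congr rfl fun a' _ => ?_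
      rw [monomial_mul, coeff_monomial]
    rw [h1]
    refine continuous_finsetSum _ fun a _ => continuous_finsetSum _ fun a' _ => ?_
    split_ifs
    · exact ((continuous_apply a).comp continuous_fst).mul
        ((continuous_apply a').comp continuous_snd)
    · exact continuous_const
  obtain ⟨x₀, hx₀, hmin⟩ := ((isCompact_sphere (0 : (ι → Fin (D + 1)) → ℝ) 1).prod
    (isCompact_sphere (0 : (ι → Fin (D' + 1)) → ℝ) 1)).exists_isMinOn
    ⟨(fun _ => 1, fun _ => 1), by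
      rw [Set.mem_prod, mem_sphere_zero_iff_norm, mem_sphere_zero_iff_norm, pi_norm_const,
        pi_norm_const, norm_one]
      exact ⟨rfl, rfl⟩⟩ hGc.norm.continuousOn
  have hx₁ : ‖x₀.1‖ = 1 := mem_sphere_zero_iff_norm.1 hx₀.1
  have hx₂ : ‖x₀.2‖ = 1 := mem_sphere_zero_iff_norm.1 hx₀.2
  have hc : 0 < ‖G x₀‖ := by
    rw [norm_pos_iff]
    intro h0
    have h1 : a11P x₀.1 * a11P x₀.2 ≠ 0 := mul_ne_zero (a11_ne hx₁) (a11_ne hx₂)
    apply h1
    ext b
    rw [coeff_zero]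
    by_contra hb
    obtain ⟨a, rfl⟩ := a11_mem (D := D + D') (fun l => (degreeOf_mul_le l _ _).trans
      (add_le_add (a11_deg _ l) (a11_deg _ l))) hb
    apply hb
    have h2 := congrFun h0 a
    rw [hG] at h2
    exact h2
  refine ⟨‖G x₀‖, hc, ?_⟩
  intro P Q ρ ρ' hP hQ hρ hρ' hPb hQb
  obtain ⟨p, hp⟩ : ∃ p : (ι → Fin (D + 1)) → ℝ, p = fun a => coeff (a11F a) P := ⟨_, rfl⟩
  obtain ⟨q, hq⟩ : ∃ q : (ι → Fin (D' + 1)) → ℝ, q = fun a => coeff (a11F a) Q := ⟨_, rfl⟩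
  have hpP : a11P p = P := by
    rw [hp]
    exact a11_rep hP
  have hqQ : a11P q = Q := by
    rw [hq]
    exact a11_rep hQ
  have hpM : ρ ≤ ‖p‖ := by
    obtain ⟨b, hb⟩ := hPb
    have hne : coeff b P ≠ 0 := by
      intro h
      rw [h, abs_zero] at hb
      linarith
    obtain ⟨a, rfl⟩ := a11_mem hP hne
    refine hb.trans ?_
    rw [hp]
    exact norm_le_pi_norm (fun a => coeff (a11F a) P) a
  have hqM : ρ' ≤ ‖q‖ := by
    obtain ⟨b, hb⟩ := hQb
    have hne : coeff b Q ≠ 0 := by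
      intro h
      rw [h, abs_zero] at hb
      linarith
    obtain ⟨a, rfl⟩ := a11_mem hQ hne
    refine hb.trans ?_
    rw [hq]
    exact norm_le_pi_norm (fun a => coeff (a11F a) Q) a
  have hp0 : 0 < ‖p‖ := by linarith
  have hq0 : 0 < ‖q‖ := by linarith
  have hmem : (‖p‖⁻¹ • p, ‖q‖⁻¹ • q) ∈ Metric.sphere (0 : (ι → Fin (D + 1)) → ℝ) 1 ×ˢ
      Metric.sphere (0 : (ι → Fin (D' + 1)) → ℝ) 1 := by
    rw [Set.mem_prod, mem_sphere_zero_iff_norm, mem_sphere_zero_iff_norm]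
    constructor
    · show ‖‖p‖⁻¹ • p‖ = 1
      rw [norm_smul, norm_inv, norm_norm, inv_mul_cancel₀ hp0.ne']
    · show ‖‖q‖⁻¹ • q‖ = 1
      rw [norm_smul, norm_inv, norm_norm, inv_mul_cancel₀ hq0.ne']
  have h1 : ‖G x₀‖ ≤ ‖G (‖p‖⁻¹ • p, ‖q‖⁻¹ • q)‖ := hmin hmem
  have h2 : ∃ b, ‖G x₀‖ ≤ ‖G (‖p‖⁻¹ • p, ‖q‖⁻¹ • q) b‖ := by
    by_contra hcon
    have h3 : ‖G (‖p‖⁻¹ • p, ‖q‖⁻¹ • q)‖ < ‖G x₀‖ := by
      rw [pi_norm_lt_iff hc]
      intro b
      by_contra h4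
      exact hcon ⟨b, not_lt.1 h4⟩
    exact absurd h1 (not_le.2 h3)
  obtain ⟨b, hb⟩ := h2
  refine ⟨a11F b, ?_⟩
  have h5 : G (‖p‖⁻¹ • p, ‖q‖⁻¹ • q) b = ‖p‖⁻¹ * ‖q‖⁻¹ * coeff (a11F b) (P * Q) := by
    rw [hG]
    show coeff (a11F b) (a11P (‖p‖⁻¹ • p) * a11P (‖q‖⁻¹ • q)) = _
    rw [a11_smul, a11_smul, hpP, hqQ]
    have h6 : C ‖p‖⁻¹ * P * (C ‖q‖⁻¹ * Q) = C (‖p‖⁻¹ * ‖q‖⁻¹) * (P * Q) := by
      rw [C_mul]
      ring
    rw [h6, coeff_C_mul]
  rw [h5, norm_mul, Real.norm_eq_abs, Real.norm_eq_abs,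
    abs_of_nonneg (mul_nonneg (inv_nonneg.2 hp0.le) (inv_nonneg.2 hq0.le))] at hb
  calc ‖G x₀‖ * (ρ * ρ') ≤ ‖G x₀‖ * (‖p‖ * ‖q‖) :=
        mul_le_mul_of_nonneg_left (mul_le_mul hpM hqM hρ'.le hp0.le) hc.le
    _ ≤ (‖p‖⁻¹ * ‖q‖⁻¹ * |coeff (a11F b) (P * Q)|) * (‖p‖ * ‖q‖) :=
        mul_le_mul_of_nonneg_right hb (mul_nonneg hp0.le hq0.le)
    _ = |coeff (a11F b) (P * Q)| := by
        field_simp

/-- The state of the induction: for `j ∈ J` the function `∑ i, x j i V_i` is `g V_j` plus a combination of the `V_i`, `i ∉ J`. -/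
structure St {ι : Type} [Fintype ι] {r : ℕ} (D : ℕ) (ρ : ℝ) (J : Finset (Fin r)) (g : MvPolynomial ι ℝ)
    (x : Fin r → Fin r → MvPolynomial ι ℝ) : Prop where
  deg : ∀ j i l, (x j i).degreeOf l ≤ D
  bd : ∀ j i b, |coeff b (x j i)| ≤ 1
  diag : ∀ j ∈ J, x j j = g
  off : ∀ j ∈ J, ∀ i ∈ J, i ≠ j → x j i = 0
  low : ∃ b, ρ ≤ |coeff b g|

/-- The functions of a state. -/
noncomputable def Nf {ι : Type} {r : ℕ} (V : Fin r → (ι → ℝ) → ℝ) (x : Fin r → Fin r → MvPolynomial ι ℝ) (j : Fin r)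
    (θ : ι → ℝ) : ℝ := ∑ i, eval θ (x j i) * V i θ

/-- One step of the induction.

Proof. Let `M₀ = 2 * (D + D' + 1) ^ card ι`, `g' = C M₀⁻¹ * (P j₁ * g)`, `x' j i = C M₀⁻¹ * (P j₁ * x j i - P j * x j₁ i)` for `j ∈ J \ {j₁}`, `x' j i = 0` for the other `j`; degrees `≤ D + D'`; coefficients at most `1` by `abs_coeff_mul_le`; `diag` and `off`: `x j₁ j = 0`, `x j₁ i = 0`, `x j i = 0` for `i, j ∈ J`
different from `j₁` and from each other; `low`: `exists_coeff_mul ι D' D`. Relation: `M₀ ∑ j ∈ J \ j₁, c_j N'_j = P_{j₁}(σ) ∑_{j ≠ j₁} c_j N_j - (∑_{j ≠ j₁} c_j P_j(σ)) N_{j₁} = - P_{j₁}(σ) c_{j₁} N_{j₁} + c_{j₁} P_{j₁}(σ) N_{j₁} = 0`. -/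
theorem step (ι : Type) [Fintype ι] [DecidableEq ι] (r D D' : ℕ) (ρ : ℝ) (hρ : 0 < ρ) : ∃ ρ' : ℝ, 0 < ρ' ∧
    ∀ (V : Fin r → (ι → ℝ) → ℝ) (J : Finset (Fin r)) (g : MvPolynomial ι ℝ) (x : Fin r → Fin r → MvPolynomial ι ℝ),
      St D ρ J g x → ∀ (P : Fin r → MvPolynomial ι ℝ) (j₁ : Fin r), j₁ ∈ J → (∀ j l, (P j).degreeOf l ≤ D') →
        (∀ j b, |coeff b (P j)| ≤ 1) → (∃ b, |coeff b (P j₁)| = 1) →
        ∃ (g' : MvPolynomial ι ℝ) (x' : Fin r → Fin r → MvPolynomial ι ℝ), St (D + D') ρ' (J.erase j₁) g' x' ∧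
          ∀ (θ : ι → ℝ) (c : Fin r → ℝ), ∑ j ∈ J, c j * Nf V x j θ = 0 → ∑ j ∈ J, c j * eval θ (P j) = 0 →
            ∑ j ∈ J.erase j₁, c j * Nf V x' j θ = 0 := by
  classical
  obtain ⟨c₀, hc₀, hmul⟩ := exists_coeff_mul ι D' D
  obtain ⟨M₀, hM₀⟩ : ∃ M₀ : ℝ, M₀ = 2 * ((D : ℝ) + D' + 1) ^ Fintype.card ι := ⟨_, rfl⟩
  have hM₀0 : 0 < M₀ := by
    rw [hM₀]
    positivity
  refine ⟨M₀⁻¹ * (c₀ * (1 * ρ)), by positivity, ?_⟩
  intro V J g x hSt P j₁ hj₁ hPd hP1 hPj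
  have hgd : ∀ l, g.degreeOf l ≤ D := by
    intro l
    rw [← hSt.diag j₁ hj₁]
    exact hSt.deg j₁ j₁ l
  have hbd : ∀ (j : Fin r) (Q : MvPolynomial ι ℝ), (∀ b, |coeff b Q| ≤ 1) → ∀ b,
      |coeff b (P j * Q)| ≤ ((D : ℝ) + D' + 1) ^ Fintype.card ι := by
    intro j Q hQ b
    have h1 := abs_coeff_mul_le (hPd j) (hP1 j) hQ zero_le_one zero_le_one b
    rw [one_mul, mul_one] at h1
    refine h1.trans (pow_le_pow_left₀ (by positivity) ?_ _)
    have : (0 : ℝ) ≤ D := Nat.cast_nonneg D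
    linarith
  obtain ⟨x', hx'⟩ : ∃ x' : Fin r → Fin r → MvPolynomial ι ℝ, x' = fun j i =>
      if j ∈ J.erase j₁ then C M₀⁻¹ * (P j₁ * x j i - P j * x j₁ i) else 0 := ⟨_, rfl⟩
  have hx'1 : ∀ j ∈ J.erase j₁, ∀ i, x' j i = C M₀⁻¹ * (P j₁ * x j i - P j * x j₁ i) := by
    intro j hj i
    rw [hx']
    exact if_pos hj
  have hx'0 : ∀ j, j ∉ J.erase j₁ → ∀ i, x' j i = 0 := by
    intro j hj i
    rw [hx']
    exact if_neg hj
  refine ⟨C M₀⁻¹ * (P j₁ * g), x', ⟨?_, ?_, ?_, ?_, ?_⟩, ?_⟩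
  · intro j i l
    by_cases hj : j ∈ J.erase j₁
    · rw [hx'1 j hj i]
      refine (degreeOf_C_mul_le _ _ _).trans ((degreeOf_sub_le _ _ _).trans (max_le ?_ ?_))
      · refine (degreeOf_mul_le _ _ _).trans ?_
        have h1 := hPd j₁ l
        have h2 := hSt.deg j i l
        omega
      · refine (degreeOf_mul_le _ _ _).trans ?_
        have h1 := hPd j l
        have h2 := hSt.deg j₁ i l
        omega
    · rw [hx'0 j hj i, degreeOf_zero]
      exact Nat.zero_le _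
  · intro j i b
    by_cases hj : j ∈ J.erase j₁
    · rw [hx'1 j hj i, coeff_C_mul, coeff_sub, abs_mul, abs_of_pos (inv_pos.2 hM₀0),
        inv_mul_le_iff₀ hM₀0, mul_one]
      have h1 := hbd j₁ (x j i) (hSt.bd j i) b
      have h2 := hbd j (x j₁ i) (hSt.bd j₁ i) b
      have h3 := abs_sub (coeff b (P j₁ * x j i)) (coeff b (P j * x j₁ i))
      rw [hM₀]
      linarith
    · rw [hx'0 j hj i, coeff_zero, abs_zero]
      exact zero_le_one
  · intro j hj
    obtain ⟨hj1, hjJ⟩ := Finset.mem_erase.1 hj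
    rw [hx'1 j hj j, hSt.diag j hjJ, hSt.off j₁ hj₁ j hjJ hj1, mul_zero, sub_zero]
  · intro j hj i hi hij
    obtain ⟨hj1, hjJ⟩ := Finset.mem_erase.1 hj
    obtain ⟨hi1, hiJ⟩ := Finset.mem_erase.1 hi
    rw [hx'1 j hj i, hSt.off j hjJ i hiJ hij, hSt.off j₁ hj₁ i hiJ hi1, mul_zero, mul_zero,
      sub_zero, mul_zero]
  · obtain ⟨b₁, hb₁⟩ := hPj
    obtain ⟨b, hb⟩ := hmul (P j₁) g 1 ρ (hPd j₁) hgd one_pos hρ ⟨b₁, hb₁.ge⟩ hSt.low
    refine ⟨b, ?_⟩
    rw [coeff_C_mul, abs_mul, abs_of_pos (inv_pos.2 hM₀0)]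
    exact mul_le_mul_of_nonneg_left hb (inv_pos.2 hM₀0).le
  · intro θ c h1 h2
    have h3 : ∀ j ∈ J.erase j₁, c j * Nf V x' j θ = M₀⁻¹ * (eval θ (P j₁) * (c j * Nf V x j θ) -
        (c j * eval θ (P j)) * Nf V x j₁ θ) := by
      intro j hj
      have h4 : Nf V x' j θ = M₀⁻¹ * (eval θ (P j₁) * Nf V x j θ -
          eval θ (P j) * Nf V x j₁ θ) := by
        unfold Nf
        rw [Finset.mul_sum, Finset.mul_sum, ← Finset.sum_sub_distrib, Finset.mul_sum]
        refine Finset.sum_congr rfl fun i _ => ?_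
        rw [hx'1 j hj i, map_mul, eval_C, map_sub, map_mul, map_mul]
        ring
      rw [h4]
      ring
    rw [Finset.sum_congr rfl h3, ← Finset.mul_sum, Finset.sum_sub_distrib, ← Finset.mul_sum,
      ← Finset.sum_mul]
    have h5 := Finset.add_sum_erase J (fun j => c j * Nf V x j θ) hj₁
    have h6 := Finset.add_sum_erase J (fun j => c j * eval θ (P j)) hj₁
    rw [h1] at h5
    rw [h2] at h6
    have h7 : ∑ j ∈ J.erase j₁, c j * Nf V x j θ = -(c j₁ * Nf V x j₁ θ) := by linarith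
    have h8 : ∑ j ∈ J.erase j₁, c j * eval θ (P j) = -(c j₁ * eval θ (P j₁)) := by linarith
    rw [h7, h8]
    ring

end Pool.Agent.Lib.MP_bbe012_lc.PG
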