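import Pool.Agent.Lib.MP_bbe012_lc.PG.A5
import Pool.Agent.Lib.MP_bbe012_lc.PG.A10
import Pool.Agent.Lib.MP_bbe012_lc.PG.A11

/-!
# Almost all supports: the counting theorem
-/

namespace Pool.Agent.Lib.MP_bbe012_lc.PG

open Finset MvPolynomial

/-- The side of the boxes: `T ^ (-(2 - 1 / M))`. -/
noncomputable def ell (M T : ℕ) : ℝ := (T : ℝ) ^ (-(2 - 1 / (M : ℝ)))

/-- Elementary facts. -/
theorem ell_spec {M T : ℕ} (hM : 1 ≤ M) (hT : 1 ≤ T) : 0 < ell M T ∧ ell M T ≤ 1 / T ∧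
    ell M T ^ M * (T : ℝ) ^ (2 * M - 1) ≤ 1 ∧ ell M T * (T : ℝ) ^ 2 = (T : ℝ) ^ (1 / (M : ℝ)) := by

  have hT0 : (0 : ℝ) < (T : ℝ) := by exact_mod_cast hT
  have hT1 : (1 : ℝ) ≤ (T : ℝ) := by exact_mod_cast hT
  have hM0 : (0 : ℝ) < (M : ℝ) := by exact_mod_cast hM
  have hM1 : (1 : ℝ) ≤ (M : ℝ) := by exact_mod_cast hM
  have h1M : 1 / (M : ℝ) ≤ 1 := by
    rw [div_le_one hM0]
    exact hM1
  refine ⟨Real.rpow_pos_of_pos hT0 _, ?_, ?_, ?_⟩
  · have h1 : (1 : ℝ) / T = (T : ℝ) ^ (-1 : ℝ) := by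
      rw [Real.rpow_neg_one, one_div]
    rw [h1, ell]
    exact Real.rpow_le_rpow_of_exponent_le hT1 (by linarith)
  · apply le_of_eq
    rw [ell, ← Real.rpow_natCast ((T : ℝ) ^ (-(2 - 1 / (M : ℝ)))) M, ← Real.rpow_mul hT0.le,
      ← Real.rpow_natCast (T : ℝ) (2 * M - 1), ← Real.rpow_add hT0]
    have h2 : ((2 * M - 1 : ℕ) : ℝ) = 2 * (M : ℝ) - 1 := by
      rw [Nat.cast_sub (by omega)]
      push_cast
      ring
    have h3 : -(2 - 1 / (M : ℝ)) * (M : ℝ) + ((2 * M - 1 : ℕ) : ℝ) = 0 := by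
      rw [h2]
      have h4 : 1 / (M : ℝ) * (M : ℝ) = 1 := by
        field_simp
      linear_combination h4
    rw [h3, Real.rpow_zero]
  · rw [ell, ← Real.rpow_natCast (T : ℝ) 2, ← Real.rpow_add hT0]
    congr 1
    push_cast
    ring

/-- Proof. The map `σ ↦ (σ i)_i` is into a product of sets of rational numbers of height `≤ T` in intervals of length `2 ℓ`, `ℓ = ell M T`; each has at most `1 + 2 ℓ T ^ 2 ≤ 3 T ^ (1 / M)` elements (`icount_heights` with `x₀ = 0`, scale `1`). -/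
theorem card_box_le {ι : Type} [Fintype ι] [DecidableEq ι] {M T : ℕ} (hM : 1 ≤ M) (hT : 1 ≤ T) (θ₀ : ι → ℝ)
    (Z : Finset (ι → ℚ)) (hZ : ∀ σ ∈ Z, (∀ i, HLE T (σ i)) ∧ ∀ i, |(σ i : ℝ) - θ₀ i| ≤ ell M T) :
    (Z.card : ℝ) ≤ 3 ^ Fintype.card ι * (T : ℝ) ^ ((Fintype.card ι : ℝ) / M) := by

  classical
  obtain ⟨hl0, hl1, hl2, hl3⟩ := ell_spec hM hT
  have hT0 : (0 : ℝ) < (T : ℝ) := by exact_mod_cast hT
  have hT1 : (1 : ℝ) ≤ (T : ℝ) := by exact_mod_cast hT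
  have hone : (1 : ℝ) ≤ (T : ℝ) ^ (1 / (M : ℝ)) := Real.one_le_rpow hT1 (by positivity)
  have hX : ∀ i, ((Z.image fun σ => σ i).card : ℝ) ≤ 3 * (T : ℝ) ^ (1 / (M : ℝ)) := by
    intro i
    have h1 := icount_heights T (θ₀ i) (ell M T) hl0 (Z.image fun σ => σ i) (by
      intro a ha
      obtain ⟨σ, hσ, rfl⟩ := Finset.mem_image.1 ha
      exact (hZ σ hσ).1 i)
    have h2 := h1 (-1) 2 (by norm_num)
    rw [Finset.filter_true_of_mem (by
      intro x hx
      obtain ⟨a, ha, rfl⟩ := Finset.mem_image.1 hx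
      obtain ⟨σ, hσ, rfl⟩ := Finset.mem_image.1 ha
      have h3 := (hZ σ hσ).2 i
      rw [abs_le] at h3
      constructor
      · rw [le_div_iff₀ hl0]
        linarith [h3.1]
      · rw [div_le_iff₀ hl0]
        linarith [h3.2]), Finset.card_image_of_injective _ (by
      intro a b hab
      have h4 : ((a : ℝ) - θ₀ i) / ell M T = ((b : ℝ) - θ₀ i) / ell M T := hab
      rw [div_left_inj' hl0.ne'] at h4
      have h5 : (a : ℝ) = (b : ℝ) := by linarith
      exact_mod_cast h5), hl3] at h2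
    linarith
  have hsub : Z ⊆ Fintype.piFinset (fun i => Z.image fun σ => σ i) := by
    intro σ hσ
    rw [Fintype.mem_piFinset]
    intro i
    exact Finset.mem_image_of_mem (fun σ : ι → ℚ => σ i) hσ
  calc (Z.card : ℝ) ≤ ((Fintype.piFinset (fun i => Z.image fun σ => σ i)).card : ℝ) := by
        exact_mod_cast Finset.card_le_card hsub
    _ = ∏ i, ((Z.image fun σ => σ i).card : ℝ) := by
        rw [Fintype.card_piFinset]
        push_cast
        rfl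
    _ ≤ ∏ _i : ι, (3 * (T : ℝ) ^ (1 / (M : ℝ))) :=
        Finset.prod_le_prod (fun i _ => Nat.cast_nonneg _) (fun i _ => hX i)
    _ = 3 ^ Fintype.card ι * (T : ℝ) ^ ((Fintype.card ι : ℝ) / M) := by
        rw [Finset.prod_const, Finset.card_univ, mul_pow, ← Real.rpow_natCast ((T : ℝ) ^ (1 / (M : ℝ))),
          ← Real.rpow_mul hT0.le]
        congr 2
        ring

/-- Zeros in a box of side `ell M T`.

Proof. `C, γ, ℓ₀` from `zeros_box`, for `T ≥ T₀` (`1 / T₀ ≤ ℓ₀`): `ℓ = ell M T ≤ 1 / T`, `ℓ T ^ 2 = T ^ (1 / M) ≥ 1`, so `(1 + ℓ T ^ 2) ^ K ≤ 2 ^ K T ^ (K / M)`, `(1 + ℓ T ^ 2)⁻¹ ≤ T ^ (- 1 / M)`, `ℓ ^ γ ≤ T ^ (- γ)`; `η = min (1 / M) γ`. For `T < T₀` use `card_box_le` and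
`1 ≤ T₀ ^ η T ^ (- η)`. -/
theorem zeros_ell (ι : Type) [Fintype ι] [DecidableEq ι] (r B c : ℝ) (κ M : ℕ) (hr : 0 < r) (hB : 0 ≤ B) (hc : 0 < c)
    (hM : 1 ≤ M) : ∃ C η : ℝ, 0 < C ∧ 0 < η ∧
      ∀ (θ₀ : ι → ℝ) (N : (ι → ℝ) → ℝ) (ν : (ι → ℕ) → ℝ), Exp r B θ₀ N ν → (∃ b, dg b ≤ κ ∧ c ≤ |ν b|) →
      ∀ (T : ℕ), 1 ≤ T → ∀ Z : Finset (ι → ℚ),
        (∀ σ ∈ Z, (∀ i, HLE T (σ i)) ∧ (∀ i, |(σ i : ℝ) - θ₀ i| ≤ ell M T) ∧ N (fun i => (σ i : ℝ)) = 0) →
        (Z.card : ℝ) ≤ C * (T : ℝ) ^ ((Fintype.card ι : ℝ) / M - η) := by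

  classical
  obtain ⟨C, γ, ℓ₀, hC1, hγ0, hγ1, hℓ₀, H⟩ := zeros_box ι r B c κ hr hB hc
  have hM0 : (0 : ℝ) < (M : ℝ) := by exact_mod_cast hM
  obtain ⟨T₀, hT₀⟩ := exists_nat_gt (1 / ℓ₀)
  have hinv : 0 < 1 / ℓ₀ := by positivity
  have hT₀0 : (0 : ℝ) < (T₀ : ℝ) := lt_trans hinv hT₀
  have hη0 : 0 < min (1 / (M : ℝ)) γ := lt_min (by positivity) hγ0
  refine ⟨C * 2 ^ (Fintype.card ι + 1) + 3 ^ Fintype.card ι * (T₀ : ℝ) ^ (min (1 / (M : ℝ)) γ), min (1 / (M : ℝ)) γ,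
    by positivity, hη0, ?_⟩
  intro θ₀ N ν hE hb T hT Z hZ
  obtain ⟨hl0, hl1, hl2, hl3⟩ := ell_spec hM hT
  have hT0 : (0 : ℝ) < (T : ℝ) := by exact_mod_cast hT
  have hT1 : (1 : ℝ) ≤ (T : ℝ) := by exact_mod_cast hT
  have hTK : 0 < (T : ℝ) ^ ((Fintype.card ι : ℝ) / M - min (1 / (M : ℝ)) γ) := Real.rpow_pos_of_pos hT0 _
  by_cases hTT : T₀ ≤ T
  · have hTT' : (T₀ : ℝ) ≤ (T : ℝ) := by exact_mod_cast hTT
    have hle : ell M T ≤ ℓ₀ := by
      refine hl1.trans ?_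
      rw [div_le_iff₀ hT0]
      rw [div_lt_iff₀ hℓ₀] at hT₀
      nlinarith
    have h1 := H θ₀ N ν hE hb (ell M T) hl0 hle T Z hZ
    rw [hl3] at h1
    have hone : (1 : ℝ) ≤ (T : ℝ) ^ (1 / (M : ℝ)) := Real.one_le_rpow hT1 (by positivity)
    have h2 : (1 + (T : ℝ) ^ (1 / (M : ℝ))) ^ Fintype.card ι ≤
        2 ^ Fintype.card ι * (T : ℝ) ^ ((Fintype.card ι : ℝ) / M) := by
      calc (1 + (T : ℝ) ^ (1 / (M : ℝ))) ^ Fintype.card ι ≤ (2 * (T : ℝ) ^ (1 / (M : ℝ))) ^ Fintype.card ι :=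
            pow_le_pow_left₀ (by positivity) (by linarith) _
        _ = 2 ^ Fintype.card ι * (T : ℝ) ^ ((Fintype.card ι : ℝ) / M) := by
            rw [mul_pow, ← Real.rpow_natCast ((T : ℝ) ^ (1 / (M : ℝ))), ← Real.rpow_mul hT0.le]
            congr 2
            ring
    have h3 : (1 + (T : ℝ) ^ (1 / (M : ℝ)))⁻¹ ≤ (T : ℝ) ^ (-min (1 / (M : ℝ)) γ) := by
      calc (1 + (T : ℝ) ^ (1 / (M : ℝ)))⁻¹ ≤ ((T : ℝ) ^ (1 / (M : ℝ)))⁻¹ := by
            apply inv_anti₀ (by positivity)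
            linarith
        _ = (T : ℝ) ^ (-(1 / (M : ℝ))) := (Real.rpow_neg hT0.le _).symm
        _ ≤ _ := Real.rpow_le_rpow_of_exponent_le hT1 (neg_le_neg (min_le_left _ _))
    have h4 : ell M T ^ γ ≤ (T : ℝ) ^ (-min (1 / (M : ℝ)) γ) := by
      calc ell M T ^ γ ≤ (1 / (T : ℝ)) ^ γ := Real.rpow_le_rpow hl0.le hl1 hγ0.le
        _ = (T : ℝ) ^ (-γ) := by
            rw [one_div, Real.inv_rpow hT0.le, Real.rpow_neg hT0.le]
        _ ≤ _ := Real.rpow_le_rpow_of_exponent_le hT1 (neg_le_neg (min_le_right _ _))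
    calc (Z.card : ℝ) ≤ C * (1 + (T : ℝ) ^ (1 / (M : ℝ))) ^ Fintype.card ι *
          ((1 + (T : ℝ) ^ (1 / (M : ℝ)))⁻¹ + ell M T ^ γ) := h1
      _ ≤ C * (2 ^ Fintype.card ι * (T : ℝ) ^ ((Fintype.card ι : ℝ) / M)) *
          ((T : ℝ) ^ (-min (1 / (M : ℝ)) γ) + (T : ℝ) ^ (-min (1 / (M : ℝ)) γ)) := by
          apply mul_le_mul
          · exact mul_le_mul_of_nonneg_left h2 (by linarith)
          · exact add_le_add h3 h4
          · have : 0 < ell M T ^ γ := Real.rpow_pos_of_pos hl0 _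
            positivity
          · have : (0 : ℝ) ≤ C := by linarith
            positivity
      _ = C * 2 ^ (Fintype.card ι + 1) * (T : ℝ) ^ ((Fintype.card ι : ℝ) / M - min (1 / (M : ℝ)) γ) := by
          rw [sub_eq_add_neg, Real.rpow_add hT0, pow_succ]
          ring
      _ ≤ _ := by
          apply mul_le_mul_of_nonneg_right _ hTK.le
          have : 0 ≤ 3 ^ Fintype.card ι * (T₀ : ℝ) ^ (min (1 / (M : ℝ)) γ) := by positivity
          linarith
  · have hTT' : (T : ℝ) ≤ (T₀ : ℝ) := by exact_mod_cast (not_le.1 hTT).le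
    have h1 := card_box_le hM hT θ₀ Z (fun σ hσ => ⟨(hZ σ hσ).1, (hZ σ hσ).2.1⟩)
    calc (Z.card : ℝ) ≤ 3 ^ Fintype.card ι * (T : ℝ) ^ ((Fintype.card ι : ℝ) / M) := h1
      _ = 3 ^ Fintype.card ι * (T : ℝ) ^ (min (1 / (M : ℝ)) γ) *
          (T : ℝ) ^ ((Fintype.card ι : ℝ) / M - min (1 / (M : ℝ)) γ) := by
          rw [mul_assoc, ← Real.rpow_add hT0]
          congr 2
          ring
      _ ≤ 3 ^ Fintype.card ι * (T₀ : ℝ) ^ (min (1 / (M : ℝ)) γ) *
          (T : ℝ) ^ ((Fintype.card ι : ℝ) / M - min (1 / (M : ℝ)) γ) := by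
          apply mul_le_mul_of_nonneg_right _ hTK.le
          apply mul_le_mul_of_nonneg_left _ (by positivity)
          exact Real.rpow_le_rpow hT0.le hTT' hη0.le
      _ ≤ _ := by
          apply mul_le_mul_of_nonneg_right _ hTK.le
          have : 0 ≤ C * 2 ^ (Fintype.card ι + 1) := by
            have : (0 : ℝ) ≤ C := by linarith
            positivity
          linarith

/-- The polynomial with given coefficients. -/
noncomputable def mkPoly {ι : Type} [Fintype ι] [DecidableEq ι] {n : ℕ} (p : (ι → Fin (n + 1)) → ℝ) : MvPolynomial ι ℝ :=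
  ∑ a, monomial (Finsupp.equivFunOnFinite.symm (fun i => (a i : ℕ))) (p a)

theorem toF_inj {ι : Type} [Fintype ι] [DecidableEq ι] {n : ℕ} {a a' : ι → Fin (n + 1)}
    (h : (Finsupp.equivFunOnFinite.symm (fun i => (a i : ℕ)) : ι →₀ ℕ) =
      Finsupp.equivFunOnFinite.symm (fun i => (a' i : ℕ))) : a = a' := by
  have h1 := Finsupp.equivFunOnFinite.symm.injective h
  funext i
  exact Fin.ext (congrFun h1 i)

theorem coeff_mkPoly {ι : Type} [Fintype ι] [DecidableEq ι] {n : ℕ} (p : (ι → Fin (n + 1)) → ℝ) (a : ι → Fin (n + 1)) :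
    coeff (Finsupp.equivFunOnFinite.symm (fun i => (a i : ℕ))) (mkPoly p) = p a := by
  classical
  rw [mkPoly, coeff_sum, Finset.sum_eq_single a]
  · rw [coeff_monomial, if_pos rfl]
  · intro a' _ ha'
    rw [coeff_monomial, if_neg]
    intro h
    exact ha' (toF_inj h)
  · intro h
    exact absurd (Finset.mem_univ a) h

theorem abs_coeff_mkPoly_le {ι : Type} [Fintype ι] [DecidableEq ι] {n : ℕ} {p : (ι → Fin (n + 1)) → ℝ} (hp : ∀ a, |p a| ≤ 1)
    (b : ι →₀ ℕ) : |coeff b (mkPoly p)| ≤ 1 := by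
  classical
  by_cases hb : ∃ a : ι → Fin (n + 1), Finsupp.equivFunOnFinite.symm (fun i => (a i : ℕ)) = b
  · obtain ⟨a, rfl⟩ := hb
    rw [coeff_mkPoly]
    exact hp a
  · rw [mkPoly, coeff_sum, Finset.sum_eq_zero]
    · simp
    · intro a _
      rw [coeff_monomial, if_neg]
      intro h
      exact hb ⟨a, h⟩

theorem degreeOf_mkPoly {ι : Type} [Fintype ι] [DecidableEq ι] {n : ℕ} (p : (ι → Fin (n + 1)) → ℝ) (l : ι) :
    (mkPoly p).degreeOf l ≤ n := by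
  classical
  rw [mkPoly]
  refine (degreeOf_sum_le l _ _).trans ?_
  refine Finset.sup_le fun a _ => ?_
  refine degreeOf_le_iff.2 fun m hm => ?_
  have h1 := support_monomial_subset hm
  rw [Finset.mem_singleton] at h1
  subst h1
  have h2 : (Finsupp.equivFunOnFinite.symm (fun i => (a i : ℕ)) : ι →₀ ℕ) l = (a l : ℕ) := rfl
  rw [h2]
  exact Nat.lt_succ_iff.1 (a l).2

theorem eval_mkPoly {ι : Type} [Fintype ι] [DecidableEq ι] {n : ℕ} (p : (ι → Fin (n + 1)) → ℝ) (θ : ι → ℝ) :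
    eval θ (mkPoly p) = ∑ a, p a * ∏ l, θ l ^ (a l : ℕ) := by
  classical
  rw [mkPoly, map_sum]
  refine Finset.sum_congr rfl fun a _ => ?_
  rw [eval_monomial]
  congr 1
  rw [Finsupp.prod_fintype _ _ (fun i => pow_zero _)]
  rfl

/-- The zeros of a combination with normalised polynomial coefficients in a box of side `ell M T`. -/
theorem zeros_fam {ι : Type} [Fintype ι] [DecidableEq ι] {r : ℕ} {S : Set (ι → ℝ)} {V : Fin r → (ι → ℝ) → ℝ}
    (hV : VHyp S V) (D M : ℕ) (hM1 : 1 ≤ M) (ρ : ℝ) (hρ : 0 < ρ) : ∃ C η : ℝ, 0 < C ∧ 0 < η ∧ ∀ T : ℕ, 1 ≤ T →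
      ∀ θ₀ ∈ S, ∀ y : Fin r → MvPolynomial ι ℝ, (∀ i l, (y i).degreeOf l ≤ D) → (∀ i b, |coeff b (y i)| ≤ 1) →
      (∃ i b, ρ ≤ |coeff b (y i)|) → ∀ Z : Finset (ι → ℚ),
        (∀ σ ∈ Z, (∀ i, HLE T (σ i)) ∧ (∀ i, |(σ i : ℝ) - θ₀ i| ≤ ell M T) ∧
          ∑ i, eval (fun i => (σ i : ℝ)) (y i) * V i (fun i => (σ i : ℝ)) = 0) →
        (Z.card : ℝ) ≤ C * (T : ℝ) ^ ((Fintype.card ι : ℝ) / M - η) := by
  obtain ⟨r₀, B, κ, c, hr₀, hB, hc, HF⟩ := fam_exp hV D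
  obtain ⟨C, η, hC, hη, H⟩ := zeros_ell ι r₀ B (c * ρ) κ M hr₀ hB (by positivity) hM1
  refine ⟨C, η, hC, hη, ?_⟩
  intro T hT θ₀ hθ₀ y hd hb hlow Z hZ
  obtain ⟨ν, hν, hν2⟩ := HF θ₀ hθ₀ y ρ hd hb hρ hlow
  exact H θ₀ _ ν hν hν2 T hT Z hZ

/-- The induction on the number of functions.

Proof. Induction on `q ≥ 1`. Let `r₀, B, κ, c` be from `fam_exp hV D`.
`q = 1`, `J = {j₀}`: `cf σ j₀ ≠ 0`, so `Nf V x j₀ (σ) = 0` for `σ ∈ Z`; `fam_exp` for `y = x j₀` (`x j₀ j₀ = g` has a coefficient `≥ ρ`), and `zeros_ell`.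
`q + 1`, `q ≥ 1`: for `T < T₀` use `card_box_le`. For `T ≥ T₀`, `h` and `T₀` from `stage ι J r₀ B (c ρ) κ A M` (for the subtype `↥J`; to have `h, T₀` independent of `J` take the maximum over the finitely many `J`, or apply `stage` with `Fin (q + 1)` and an equivalence `J ≃ Fin (q + 1)`), applied to the functions `Nf V x j` (`fam_exp`), gives `P`; let
`P' j` be the polynomial with these coefficients for `j ∈ J` and `0` for `j ∉ J`, and `j₁` with `|P j₁ a| = 1`. Let `Z₁` be the set of the `σ ∈ Z` with `cf σ j = 0` for all `j ∈ J \ {j₁}`: there `cf σ j₁ ≠ 0` and so `eval σ (P' j₁) = 0`; its cardinality is bounded by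
`fam_exp (vhyp_one hV.compact) (2 h)` and `zeros_ell`. For `Z₂ = Z \ Z₁` use `step ι r D (2 h) ρ` and the induction hypothesis for `J.erase j₁`, `D + 2 h`, `ρ'`. Add up (take the smaller `η`). -/
theorem claim {ι : Type} [Fintype ι] [DecidableEq ι] [Nonempty ι] {r : ℕ} {S : Set (ι → ℝ)} {V : Fin r → (ι → ℝ) → ℝ}
    (hV : VHyp S V) (M : ℕ) (hM : 2 ^ (Fintype.card ι + 2) * Fintype.card ι * r ≤ M) (hM1 : 1 ≤ M) (A : ℕ) :
    ∀ q : ℕ, 1 ≤ q → ∀ (D : ℕ) (ρ : ℝ), 0 < ρ → ∃ C η : ℝ, 0 < C ∧ 0 < η ∧ ∀ T : ℕ, 1 ≤ T → ∀ θ₀ ∈ S,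
      ∀ (J : Finset (Fin r)) (g : MvPolynomial ι ℝ) (x : Fin r → Fin r → MvPolynomial ι ℝ), J.card = q → St D ρ J g x →
      ∀ (Z : Finset (ι → ℚ)) (cf : (ι → ℚ) → Fin r → ℤ),
        (∀ σ ∈ Z, (∀ i, HLE T (σ i)) ∧ (∀ i, |(σ i : ℝ) - θ₀ i| ≤ ell M T) ∧ (∃ j ∈ J, cf σ j ≠ 0) ∧
          (∀ j, |cf σ j| ≤ (T : ℤ) ^ A) ∧ ∑ j ∈ J, (cf σ j : ℝ) * Nf V x j (fun i => (σ i : ℝ)) = 0) →
        (Z.card : ℝ) ≤ C * (T : ℝ) ^ ((Fintype.card ι : ℝ) / M - η) := by

  classical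
  have hK : 0 < Fintype.card ι := Fintype.card_pos
  intro q hq
  induction q, hq using Nat.le_induction with
  | base =>
    intro D ρ hρ
    obtain ⟨C, η, hC, hη, H⟩ := zeros_fam hV D M hM1 ρ hρ
    refine ⟨C, η, hC, hη, ?_⟩
    intro T hT θ₀ hθ₀ J g x hJ hSt Z cf hZ
    obtain ⟨j₀, rfl⟩ := Finset.card_eq_one.1 hJ
    refine H T hT θ₀ hθ₀ (x j₀) (hSt.deg j₀) (hSt.bd j₀) ?_ Z ?_
    · obtain ⟨b, hb⟩ := hSt.low
      refine ⟨j₀, b, ?_⟩
      rw [hSt.diag j₀ (Finset.mem_singleton_self _)]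
      exact hb
    · intro σ hσ
      obtain ⟨h1, h2, ⟨j, hj, hj0⟩, h4, h5⟩ := hZ σ hσ
      rw [Finset.mem_singleton] at hj
      subst hj
      rw [Finset.sum_singleton] at h5
      have h6 : (cf σ j : ℝ) ≠ 0 := by exact_mod_cast hj0
      exact ⟨h1, h2, (mul_eq_zero.1 h5).resolve_left h6⟩
  | succ q hq IH =>
    intro D ρ hρ
    by_cases hqr : q + 1 ≤ r
    · obtain ⟨r₀, B, κ, c, hr₀, hB, hc, HF⟩ := fam_exp hV D
      have hM2 : 2 ^ (Fintype.card ι + 2) * Fintype.card ι * Fintype.card (Fin (q + 1)) ≤ M := by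
        rw [Fintype.card_fin]
        exact (Nat.mul_le_mul_left _ hqr).trans hM
      obtain ⟨h, T₀, HS⟩ := stage ι (Fin (q + 1)) r₀ B (c * ρ) κ A M hr₀ hB (by positivity) hM2
      obtain ⟨ρ', hρ', Hstep⟩ := step ι r D (2 * h) ρ hρ
      obtain ⟨C₂, η₂, hC₂, hη₂, H2⟩ := IH (D + 2 * h) ρ' hρ'
      obtain ⟨C₁, η₁, hC₁, hη₁, H1⟩ := zeros_fam (vhyp_one hV.compact) (2 * h) M hM1 1 one_pos
      have hη0 : 0 < min η₁ η₂ := lt_min hη₁ hη₂
      refine ⟨3 ^ Fintype.card ι * ((T₀ : ℝ) + 1) ^ (min η₁ η₂) + (C₁ + C₂), min η₁ η₂, by positivity, hη0, ?_⟩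
      intro T hT θ₀ hθ₀ J g x hJ hSt Z cf hZ
      have hT0 : (0 : ℝ) < (T : ℝ) := by exact_mod_cast hT
      have hT1 : (1 : ℝ) ≤ (T : ℝ) := by exact_mod_cast hT
      have hTK : 0 < (T : ℝ) ^ ((Fintype.card ι : ℝ) / M - min η₁ η₂) := Real.rpow_pos_of_pos hT0 _
      obtain ⟨hl0, hl1, hl2, hl3⟩ := ell_spec hM1 hT
      by_cases hTT : T₀ ≤ T
      · have hce : Fintype.card J = q + 1 := by
          rw [Fintype.card_coe, hJ]
        let e : J ≃ Fin (q + 1) := Fintype.equivFinOfCardEq hce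
        have hν : ∀ k : Fin (q + 1), ∃ ν : (ι → ℕ) → ℝ, Exp r₀ B θ₀ (Nf V x (e.symm k).1) ν ∧
            ∃ b, dg b ≤ κ ∧ c * ρ ≤ |ν b| := by
          intro k
          refine HF θ₀ hθ₀ (x (e.symm k).1) ρ (hSt.deg _) (hSt.bd _) hρ ?_
          obtain ⟨b, hb⟩ := hSt.low
          refine ⟨(e.symm k).1, b, ?_⟩
          rw [hSt.diag _ (e.symm k).2]
          exact hb
        choose ν hν1 hν2 using hν
        obtain ⟨P, hP1, ⟨k₁, a₁, hP2⟩, hP3⟩ := HS T hTT θ₀ (fun k => Nf V x (e.symm k).1) ν hν1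
          ⟨0, (hν2 0).choose, (hν2 0).choose_spec⟩ (ell M T) hl0 hl2 (Z : Set (ι → ℚ)) (fun σ k => cf σ (e.symm k).1) (by
            intro σ hσ
            obtain ⟨h1, h2, h3, h4, h5⟩ := hZ σ (by simpa using hσ)
            refine ⟨h1, h2, fun k => h4 _, ?_⟩
            rw [← h5, ← Finset.sum_coe_sort J]
            exact Equiv.sum_comp e.symm (fun j : J => (cf σ j.1 : ℝ) * Nf V x j.1 (fun i => (σ i : ℝ))))
        let P' : Fin r → MvPolynomial ι ℝ := fun j => if hj : j ∈ J then mkPoly (P (e ⟨j, hj⟩)) else 0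
        have hP'e : ∀ k : Fin (q + 1), P' (e.symm k).1 = mkPoly (P k) := by
          intro k
          have h1 : P' (e.symm k).1 = mkPoly (P (e ⟨(e.symm k).1, (e.symm k).2⟩)) := dif_pos (e.symm k).2
          rw [h1, Subtype.coe_eta, Equiv.apply_symm_apply]
        have hP'0 : ∀ j, j ∉ J → P' j = 0 := fun j hj => dif_neg hj
        have hP'J : ∀ j (hj : j ∈ J), P' j = mkPoly (P (e ⟨j, hj⟩)) := fun j hj => dif_pos hj
        have hdeg : ∀ j l, (P' j).degreeOf l ≤ 2 * h := by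
          intro j l
          by_cases hj : j ∈ J
          · rw [hP'J j hj]
            exact degreeOf_mkPoly _ _
          · rw [hP'0 j hj]
            simp
        have hbd : ∀ j b, |coeff b (P' j)| ≤ 1 := by
          intro j b
          by_cases hj : j ∈ J
          · rw [hP'J j hj]
            exact abs_coeff_mkPoly_le (fun a => hP1 _ a) b
          · rw [hP'0 j hj]
            simp
        have hone : ∃ b, |coeff b (P' (e.symm k₁).1)| = 1 := by
          refine ⟨Finsupp.equivFunOnFinite.symm (fun i => (a₁ i : ℕ)), ?_⟩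
          rw [hP'e, coeff_mkPoly]
          exact hP2
        have hj₁ : (e.symm k₁).1 ∈ J := (e.symm k₁).2
        have hrel : ∀ σ ∈ Z, ∑ j ∈ J, (cf σ j : ℝ) * eval (fun i => (σ i : ℝ)) (P' j) = 0 := by
          intro σ hσ
          have h1 := hP3 σ (by simpa using hσ)
          rw [← Finset.sum_coe_sort J, ← Equiv.sum_comp e.symm, ← h1]
          refine Finset.sum_congr rfl fun k _ => ?_
          rw [hP'e, eval_mkPoly, mul_comm]
        obtain ⟨g', x', hSt', hstep⟩ := Hstep V J g x hSt P' (e.symm k₁).1 hj₁ hdeg hbd hone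
        have hcard' : (J.erase (e.symm k₁).1).card = q := by
          rw [Finset.card_erase_of_mem hj₁, hJ]
          rfl
        have hZ1 : ((Z.filter fun σ => ∀ j ∈ J.erase (e.symm k₁).1, cf σ j = 0).card : ℝ) ≤
            C₁ * (T : ℝ) ^ ((Fintype.card ι : ℝ) / M - η₁) := by
          refine H1 T hT θ₀ hθ₀ (fun _ => P' (e.symm k₁).1) (fun _ l => hdeg _ l) (fun _ b => hbd _ b) ?_ _ ?_
          · obtain ⟨b, hb⟩ := hone
            exact ⟨0, b, hb.ge⟩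
          · intro σ hσ
            rw [Finset.mem_filter] at hσ
            obtain ⟨h1, h2, ⟨j, hj, hj0⟩, h4, h5⟩ := hZ σ hσ.1
            refine ⟨h1, h2, ?_⟩
            have hjj : j = (e.symm k₁).1 := by
              by_contra hne
              exact hj0 (hσ.2 j (Finset.mem_erase.2 ⟨hne, hj⟩))
            have h6 := hrel σ hσ.1
            rw [← Finset.add_sum_erase J _ hj₁, Finset.sum_eq_zero (s := J.erase (e.symm k₁).1) (by
              intro j' hj'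
              rw [hσ.2 j' hj']
              simp), add_zero, ← hjj] at h6
            have h7 : (cf σ j : ℝ) ≠ 0 := by exact_mod_cast hj0
            have h8 := (mul_eq_zero.1 h6).resolve_left h7
            simp only [Finset.univ_unique, Finset.sum_singleton, mul_one]
            rw [← hjj]
            exact h8
        have hZ2 : ((Z.filter fun σ => ¬ ∀ j ∈ J.erase (e.symm k₁).1, cf σ j = 0).card : ℝ) ≤
            C₂ * (T : ℝ) ^ ((Fintype.card ι : ℝ) / M - η₂) := by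
          refine H2 T hT θ₀ hθ₀ (J.erase (e.symm k₁).1) g' x' hcard' hSt' _ cf ?_
          intro σ hσ
          rw [Finset.mem_filter] at hσ
          obtain ⟨h1, h2, -, h4, h5⟩ := hZ σ hσ.1
          refine ⟨h1, h2, ?_, h4, ?_⟩
          · have h6 := hσ.2
            push Not at h6
            exact h6
          · exact hstep (fun i => (σ i : ℝ)) (fun j => (cf σ j : ℝ)) h5 (hrel σ hσ.1)
        have hmono1 : (T : ℝ) ^ ((Fintype.card ι : ℝ) / M - η₁) ≤ (T : ℝ) ^ ((Fintype.card ι : ℝ) / M - min η₁ η₂) :=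
          Real.rpow_le_rpow_of_exponent_le hT1 (sub_le_sub_left (min_le_left _ _) _)
        have hmono2 : (T : ℝ) ^ ((Fintype.card ι : ℝ) / M - η₂) ≤ (T : ℝ) ^ ((Fintype.card ι : ℝ) / M - min η₁ η₂) :=
          Real.rpow_le_rpow_of_exponent_le hT1 (sub_le_sub_left (min_le_right _ _) _)
        have hsum : (Z.card : ℝ) = ((Z.filter fun σ => ∀ j ∈ J.erase (e.symm k₁).1, cf σ j = 0).card : ℝ) +
            ((Z.filter fun σ => ¬ ∀ j ∈ J.erase (e.symm k₁).1, cf σ j = 0).card : ℝ) := by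
          rw [← Nat.cast_add, Finset.card_filter_add_card_filter_not]
        calc (Z.card : ℝ) = _ := hsum
          _ ≤ C₁ * (T : ℝ) ^ ((Fintype.card ι : ℝ) / M - η₁) + C₂ * (T : ℝ) ^ ((Fintype.card ι : ℝ) / M - η₂) :=
              add_le_add hZ1 hZ2
          _ ≤ C₁ * (T : ℝ) ^ ((Fintype.card ι : ℝ) / M - min η₁ η₂) +
              C₂ * (T : ℝ) ^ ((Fintype.card ι : ℝ) / M - min η₁ η₂) :=
              add_le_add (mul_le_mul_of_nonneg_left hmono1 hC₁.le) (mul_le_mul_of_nonneg_left hmono2 hC₂.le)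
          _ = (C₁ + C₂) * (T : ℝ) ^ ((Fintype.card ι : ℝ) / M - min η₁ η₂) := by ring
          _ ≤ _ := by
              apply mul_le_mul_of_nonneg_right _ hTK.le
              have : 0 ≤ 3 ^ Fintype.card ι * ((T₀ : ℝ) + 1) ^ (min η₁ η₂) := by positivity
              linarith
      · have hTT' : (T : ℝ) ≤ (T₀ : ℝ) + 1 := by
          have h0 : (T : ℝ) ≤ (T₀ : ℝ) := by exact_mod_cast (not_le.1 hTT).le
          linarith
        have h1 := card_box_le hM1 hT θ₀ Z (fun σ hσ => ⟨(hZ σ hσ).1, (hZ σ hσ).2.1⟩)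
        calc (Z.card : ℝ) ≤ 3 ^ Fintype.card ι * (T : ℝ) ^ ((Fintype.card ι : ℝ) / M) := h1
          _ = 3 ^ Fintype.card ι * (T : ℝ) ^ (min η₁ η₂) * (T : ℝ) ^ ((Fintype.card ι : ℝ) / M - min η₁ η₂) := by
              rw [mul_assoc, ← Real.rpow_add hT0]
              congr 2
              ring
          _ ≤ 3 ^ Fintype.card ι * ((T₀ : ℝ) + 1) ^ (min η₁ η₂) *
              (T : ℝ) ^ ((Fintype.card ι : ℝ) / M - min η₁ η₂) := by
              apply mul_le_mul_of_nonneg_right _ hTK.le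
              apply mul_le_mul_of_nonneg_left _ (by positivity)
              exact Real.rpow_le_rpow hT0.le hTT' hη0.le
          _ ≤ _ := by
              apply mul_le_mul_of_nonneg_right _ hTK.le
              linarith
    · refine ⟨1, 1, one_pos, one_pos, ?_⟩
      intro T hT θ₀ hθ₀ J g x hJ hSt Z cf hZ
      exfalso
      have h1 := Finset.card_le_univ J
      rw [Fintype.card_fin, hJ] at h1
      exact hqr h1

/-- The counting theorem.

Proof. If `r = 0` the set is empty. Otherwise `M = 2 ^ (card ι + 2) * card ι * r` and `C, η` from `claim hV M _ _ A r _ 0 1` with `J = univ`, `g = 1`, `x j i = if i = j then 1 else 0` (`Nf V x j = V j`). The set `Bad` in question is finite (`finite_HLE`). Let `S ⊆ [-R₀, R₀]^ι`, `ℓ = ell M T`. For `z : ι → ℤ` let `Z_z` be the set of the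
`σ ∈ Bad` with `⌊σ i / ℓ⌋ = z i` for all `i`. It is empty unless `|z i| ≤ R₀ / ℓ + 1` for all `i`, so for at most `(2 R₀ / ℓ + 4) ^ K ≤ (2 R₀ + 4) ^ K ℓ ^ (- K)` values of `z`; if it is not empty take for `θ₀` one of its points: all the others satisfy `|σ i - θ₀ i| ≤ ℓ`, and `θ₀ ∈ S`. So
`|Bad| ≤ (2 R₀ + 4) ^ K ℓ ^ (- K) C T ^ (K / M - η) = C' T ^ (K (2 - 1 / M) + K / M - η) = C' T ^ (2 K - η)`. -/
theorem count_bad {ι : Type} [Fintype ι] [DecidableEq ι] [Nonempty ι] {r : ℕ} {S : Set (ι → ℝ)}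
    {V : Fin r → (ι → ℝ) → ℝ} (hV : VHyp S V) (A : ℕ) : ∃ C η : ℝ, 0 < C ∧ 0 < η ∧ ∀ T : ℕ, 1 ≤ T →
      {σ : ι → ℚ | (∀ i, HLE T (σ i)) ∧ (fun i => (σ i : ℝ)) ∈ S ∧ ∃ c : Fin r → ℤ, c ≠ 0 ∧ (∀ j, |c j| ≤ (T : ℤ) ^ A) ∧
        ∑ j, (c j : ℝ) * V j (fun i => (σ i : ℝ)) = 0}.Finite ∧
      ({σ : ι → ℚ | (∀ i, HLE T (σ i)) ∧ (fun i => (σ i : ℝ)) ∈ S ∧ ∃ c : Fin r → ℤ, c ≠ 0 ∧ (∀ j, |c j| ≤ (T : ℤ) ^ A) ∧
        ∑ j, (c j : ℝ) * V j (fun i => (σ i : ℝ)) = 0}.ncard : ℝ) ≤ C * (T : ℝ) ^ (2 * (Fintype.card ι : ℝ) - η) := by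

  classical
  by_cases hr : r = 0
  · subst hr
    refine ⟨1, 1, one_pos, one_pos, ?_⟩
    intro T hT
    have he : {σ : ι → ℚ | (∀ i, HLE T (σ i)) ∧ (fun i => (σ i : ℝ)) ∈ S ∧ ∃ c : Fin 0 → ℤ, c ≠ 0 ∧
        (∀ j, |c j| ≤ (T : ℤ) ^ A) ∧ ∑ j, (c j : ℝ) * V j (fun i => (σ i : ℝ)) = 0} = ∅ := by
      ext σ
      simp only [Set.mem_ofPred_eq, Set.mem_empty_iff_false, iff_false]
      rintro ⟨-, -, c, hc, -⟩
      exact hc (Subsingleton.elim _ _)
    rw [he]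
    refine ⟨Set.finite_empty, ?_⟩
    rw [Set.ncard_empty]
    simp only [Nat.cast_zero, one_mul]
    positivity
  · have hr1 : 1 ≤ r := Nat.one_le_iff_ne_zero.2 hr
    have hK : 0 < Fintype.card ι := Fintype.card_pos
    obtain ⟨M, hMdef⟩ : ∃ M, M = 2 ^ (Fintype.card ι + 2) * Fintype.card ι * r := ⟨_, rfl⟩
    have hM1 : 1 ≤ M := by
      rw [hMdef]
      have : 0 < 2 ^ (Fintype.card ι + 2) * Fintype.card ι * r := by positivity
      omega
    have hM0 : (0 : ℝ) < (M : ℝ) := by exact_mod_cast hM1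
    obtain ⟨C, η, hC, hη, H⟩ := claim hV M hMdef.ge hM1 A r hr1 0 1 one_pos
    obtain ⟨R, hR⟩ := hV.compact.isBounded.exists_norm_le
    have hRS : ∀ θ ∈ S, ∀ i, |θ i| ≤ max R 0 := fun θ hθ i =>
      ((norm_le_pi_norm θ i).trans (hR θ hθ)).trans (le_max_left _ _)
    obtain ⟨R₀, hR₀def⟩ : ∃ R₀, R₀ = max R 0 := ⟨_, rfl⟩
    have hR₀ : 0 ≤ R₀ := by
      rw [hR₀def]
      exact le_max_right _ _
    rw [← hR₀def] at hRS
    refine ⟨(2 * R₀ + 5) ^ Fintype.card ι * C, η, by positivity, hη, ?_⟩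
    intro T hT
    obtain ⟨hl0, hl1, hl2, hl3⟩ := ell_spec hM1 hT
    have hT0 : (0 : ℝ) < (T : ℝ) := by exact_mod_cast hT
    have hT1 : (1 : ℝ) ≤ (T : ℝ) := by exact_mod_cast hT
    have hl1' : ell M T ≤ 1 := by
      refine hl1.trans ?_
      rw [div_le_one hT0]
      exact hT1
    obtain ⟨Bad, hBad⟩ : ∃ Bad : Set (ι → ℚ), Bad = {σ : ι → ℚ | (∀ i, HLE T (σ i)) ∧ (fun i => (σ i : ℝ)) ∈ S ∧
        ∃ c : Fin r → ℤ, c ≠ 0 ∧ (∀ j, |c j| ≤ (T : ℤ) ^ A) ∧
          ∑ j, (c j : ℝ) * V j (fun i => (σ i : ℝ)) = 0} := ⟨_, rfl⟩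
    rw [← hBad]
    have hfin : Bad.Finite := by
      refine (Set.Finite.pi' (fun _ : ι => finite_HLE T)).subset ?_
      intro σ hσ
      rw [hBad] at hσ
      exact hσ.1
    refine ⟨hfin, ?_⟩
    rw [Set.ncard_eq_toFinset_card _ hfin]
    have hmem : ∀ σ ∈ hfin.toFinset, (∀ i, HLE T (σ i)) ∧ (fun i => (σ i : ℝ)) ∈ S ∧
        ∃ c : Fin r → ℤ, c ≠ 0 ∧ (∀ j, |c j| ≤ (T : ℤ) ^ A) ∧
          ∑ j, (c j : ℝ) * V j (fun i => (σ i : ℝ)) = 0 := by
      intro σ hσ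
      rw [Set.Finite.mem_toFinset, hBad] at hσ
      exact hσ
    have hcfex : ∃ cf : (ι → ℚ) → Fin r → ℤ, ∀ σ ∈ hfin.toFinset, cf σ ≠ 0 ∧ (∀ j, |cf σ j| ≤ (T : ℤ) ^ A) ∧
        ∑ j, (cf σ j : ℝ) * V j (fun i => (σ i : ℝ)) = 0 := by
      refine ⟨fun σ => if hσ : σ ∈ hfin.toFinset then (hmem σ hσ).2.2.choose else 0, ?_⟩
      intro σ hσ
      simp only [dif_pos hσ]
      exact (hmem σ hσ).2.2.choose_spec
    obtain ⟨cf, hcf⟩ := hcfex
    -- the boxes
    obtain ⟨m, hm⟩ : ∃ m : ℤ, m = ⌈R₀ / ell M T⌉ + 1 := ⟨_, rfl⟩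
    have hm0 : 0 ≤ m := by
      rw [hm]
      have : 0 ≤ ⌈R₀ / ell M T⌉ := Int.ceil_nonneg (by positivity)
      omega
    have hmle : (m : ℝ) ≤ R₀ / ell M T + 2 := by
      rw [hm]
      push_cast
      linarith [(Int.ceil_lt_add_one (R₀ / ell M T)).le]
    have himg : hfin.toFinset.image (fun (σ : ι → ℚ) (i : ι) => ⌊(σ i : ℝ) / ell M T⌋) ⊆
        Fintype.piFinset (fun _ : ι => Finset.Icc (-m) m) := by
      intro z hz
      obtain ⟨σ, hσ, rfl⟩ := Finset.mem_image.1 hz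
      rw [Fintype.mem_piFinset]
      intro i
      have h1 := hRS _ (hmem σ hσ).2.1 i
      rw [abs_le] at h1
      have h2 : -(R₀ / ell M T) ≤ (σ i : ℝ) / ell M T := by
        rw [← neg_div, div_le_div_iff_of_pos_right hl0]
        exact h1.1
      have h3 : (σ i : ℝ) / ell M T ≤ R₀ / ell M T := by
        rw [div_le_div_iff_of_pos_right hl0]
        exact h1.2
      have h4 : R₀ / ell M T ≤ (⌈R₀ / ell M T⌉ : ℝ) := Int.le_ceil _
      rw [Finset.mem_Icc]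
      constructor
      · rw [Int.le_floor, hm]
        push_cast
        linarith
      · have h5 : ⌊(σ i : ℝ) / ell M T⌋ ≤ ⌈R₀ / ell M T⌉ := by
          have h6 : ((⌊(σ i : ℝ) / ell M T⌋ : ℤ) : ℝ) ≤ ((⌈R₀ / ell M T⌉ : ℤ) : ℝ) :=
            (Int.floor_le _).trans (h3.trans h4)
          exact_mod_cast h6
        omega
    have hcardimg : ((hfin.toFinset.image (fun (σ : ι → ℚ) (i : ι) => ⌊(σ i : ℝ) / ell M T⌋)).card : ℝ) ≤
        ((2 * R₀ + 5) / ell M T) ^ Fintype.card ι := by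
      calc ((hfin.toFinset.image (fun (σ : ι → ℚ) (i : ι) => ⌊(σ i : ℝ) / ell M T⌋)).card : ℝ) ≤
            ((Fintype.piFinset (fun _ : ι => Finset.Icc (-m) m)).card : ℝ) := by
            exact_mod_cast Finset.card_le_card himg
        _ = (((Finset.Icc (-m) m).card : ℝ)) ^ Fintype.card ι := by
            rw [Fintype.card_piFinset, Finset.prod_const, Finset.card_univ]
            push_cast
            rfl
        _ ≤ _ := by
            apply pow_le_pow_left₀ (Nat.cast_nonneg _)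
            rw [Int.card_Icc]
            have h1 : (((m + 1 - -m).toNat : ℕ) : ℝ) = 2 * (m : ℝ) + 1 := by
              have h2 : (((m + 1 - -m).toNat : ℕ) : ℤ) = 2 * m + 1 := by
                rw [Int.toNat_of_nonneg (by omega)]
                ring
              exact_mod_cast h2
            rw [h1, le_div_iff₀ hl0]
            have h3 : (m : ℝ) * ell M T ≤ R₀ + 2 * ell M T := by
              calc (m : ℝ) * ell M T ≤ (R₀ / ell M T + 2) * ell M T := mul_le_mul_of_nonneg_right hmle hl0.le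
                _ = R₀ + 2 * ell M T := by
                    field_simp
            nlinarith
    have hfib : ∀ z ∈ hfin.toFinset.image (fun (σ : ι → ℚ) (i : ι) => ⌊(σ i : ℝ) / ell M T⌋),
        (((hfin.toFinset.filter fun σ => (fun i => ⌊(σ i : ℝ) / ell M T⌋) = z).card : ℕ) : ℝ) ≤
          C * (T : ℝ) ^ ((Fintype.card ι : ℝ) / M - η) := by
      intro z hz
      obtain ⟨σ₀, hσ₀, rfl⟩ := Finset.mem_image.1 hz
      refine H T hT (fun i => (σ₀ i : ℝ)) (hmem σ₀ hσ₀).2.1 Finset.univ 1 (fun j i => if i = j then 1 else 0)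
        (by rw [Finset.card_univ, Fintype.card_fin]) ?_ _ cf ?_
      · refine ⟨?_, ?_, ?_, ?_, ?_⟩
        · intro j i l
          by_cases hij : i = j
          · simp only [if_pos hij]
            rw [degreeOf_one]
          · simp only [if_neg hij]
            rw [degreeOf_zero]
        · intro j i b
          by_cases hij : i = j
          · simp only [if_pos hij]
            rw [coeff_one]
            split_ifs <;> simp
          · simp only [if_neg hij]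
            simp
        · intro j _
          simp
        · intro j _ i _ hij
          simp only [if_neg hij]
        · refine ⟨0, ?_⟩
          rw [coeff_zero_one]
          simp
      · intro σ hσ
        rw [Finset.mem_filter] at hσ
        obtain ⟨hσ1, hσ2⟩ := hσ
        obtain ⟨c1, c2, c3⟩ := hcf σ hσ1
        refine ⟨(hmem σ hσ1).1, ?_, ?_, c2, ?_⟩
        · intro i
          have h1 : ⌊(σ i : ℝ) / ell M T⌋ = ⌊(σ₀ i : ℝ) / ell M T⌋ := congrFun hσ2 i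
          have h2 : |(σ i : ℝ) / ell M T - (σ₀ i : ℝ) / ell M T| < 1 := Int.abs_sub_lt_one_of_floor_eq_floor h1
          rw [← sub_div, abs_div, abs_of_pos hl0, div_lt_one hl0] at h2
          exact h2.le
        · by_contra hcon
          push Not at hcon
          exact c1 (funext fun j => hcon j (Finset.mem_univ j))
        · rw [← c3]
          refine Finset.sum_congr rfl fun j _ => ?_
          congr 1
          rw [Nf, Finset.sum_eq_single j]
          · simp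
          · intro i _ hij
            simp [if_neg hij]
          · intro h
            exact absurd (Finset.mem_univ j) h
    calc ((hfin.toFinset.card : ℕ) : ℝ) =
          ∑ z ∈ hfin.toFinset.image (fun (σ : ι → ℚ) (i : ι) => ⌊(σ i : ℝ) / ell M T⌋),
            (((hfin.toFinset.filter fun σ => (fun i => ⌊(σ i : ℝ) / ell M T⌋) = z).card : ℕ) : ℝ) := by
          rw [← Nat.cast_sum]
          exact_mod_cast Finset.card_eq_sum_card_image _ _
      _ ≤ ∑ z ∈ hfin.toFinset.image (fun (σ : ι → ℚ) (i : ι) => ⌊(σ i : ℝ) / ell M T⌋),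
            C * (T : ℝ) ^ ((Fintype.card ι : ℝ) / M - η) := Finset.sum_le_sum hfib
      _ = ((hfin.toFinset.image (fun (σ : ι → ℚ) (i : ι) => ⌊(σ i : ℝ) / ell M T⌋)).card : ℝ) *
            (C * (T : ℝ) ^ ((Fintype.card ι : ℝ) / M - η)) := by
          rw [Finset.sum_const, nsmul_eq_mul]
      _ ≤ ((2 * R₀ + 5) / ell M T) ^ Fintype.card ι * (C * (T : ℝ) ^ ((Fintype.card ι : ℝ) / M - η)) := by
          apply mul_le_mul_of_nonneg_right hcardimg
          have : 0 < (T : ℝ) ^ ((Fintype.card ι : ℝ) / M - η) := Real.rpow_pos_of_pos hT0 _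
          positivity
      _ = (2 * R₀ + 5) ^ Fintype.card ι * C * (T : ℝ) ^ (2 * (Fintype.card ι : ℝ) - η) := by
          have h1 : (ell M T ^ Fintype.card ι)⁻¹ = (T : ℝ) ^ ((2 - 1 / (M : ℝ)) * (Fintype.card ι : ℝ)) := by
            rw [ell, ← Real.rpow_natCast ((T : ℝ) ^ (-(2 - 1 / (M : ℝ)))), ← Real.rpow_mul hT0.le,
              ← Real.rpow_neg hT0.le]
            congr 1
            ring
          rw [div_pow, div_eq_mul_inv, h1]
          have h2 : (T : ℝ) ^ (2 * (Fintype.card ι : ℝ) - η) =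
              (T : ℝ) ^ ((2 - 1 / (M : ℝ)) * (Fintype.card ι : ℝ)) * (T : ℝ) ^ ((Fintype.card ι : ℝ) / M - η) := by
            rw [← Real.rpow_add hT0]
            congr 1
            ring
          rw [h2]
          ring

end Pool.Agent.Lib.MP_bbe012_lc.PG
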