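import Pool.Agent.Lib.MP_bbe012_lc.PG.A3

/-!
# Almost all supports: uniform non-degeneracy
-/

namespace Pool.Agent.Lib.MP_bbe012_lc.PG

open Finset

/-- Proof. If `S` is empty or `η` is empty, it is trivial (`κ = 0`, `c = 1`). The set `K = S ×ˢ {y | ∀ n, |y n| ≤ 1 ∧ ∃ n, |y n| = 1}` (sphere of the sup norm, `η → ℝ`) is compact. For `k : ℕ` let
`U k` be the set of the `(θ, y)` for which some `b` with `dg b ≤ k` satisfies `1 / (k + 1) < |∑ n, y n * m n θ b|`: relatively open in `K` (continuity on `S`), increasing in `k`, and they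
cover `K` by `hnd` (`y ≠ 0`). So `K ⊆ U k` for some `k` (`IsCompact.elim_directed_cover`, or by contradiction with a convergent subsequence, `IsCompact.tendsto_subseq`:
if `(θ_k, y_k) ∈ K` is not in `U k`, then the limit `(θ, y) ∈ K` satisfies `∑ n, y n * m n θ b = 0` for all `b`). Take `κ = k`, `c = 1 / (k + 1)`.
For general `y` with `ρ ≤ |y n|` for some `n`: divide by `M = max |y n| ≥ ρ`; the sum is `≥ c M ≥ c ρ`. -/
theorem nondeg {ι η : Type} [Fintype ι] [Fintype η] (S : Set (ι → ℝ)) (hS : IsCompact S)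
    (m : η → (ι → ℝ) → (ι → ℕ) → ℝ) (hm : ∀ n b, ContinuousOn (fun θ => m n θ b) S)
    (hnd : ∀ θ ∈ S, ∀ y : η → ℝ, y ≠ 0 → ∃ b, ∑ n, y n * m n θ b ≠ 0) :
    ∃ (κ : ℕ) (c : ℝ), 0 < c ∧ ∀ θ ∈ S, ∀ (y : η → ℝ) (ρ : ℝ), 0 < ρ → (∃ n, ρ ≤ |y n|) →
      ∃ b, dg b ≤ κ ∧ c * ρ ≤ |∑ n, y n * m n θ b| := by
  classical
  have key : ∃ k : ℕ, ∀ x ∈ S ×ˢ Metric.sphere (0 : η → ℝ) 1, ∃ b, dg b ≤ k ∧
      1 / ((k : ℝ) + 1) < |∑ n, x.2 n * m n x.1 b| := by
    by_contra hcon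
    push Not at hcon
    choose x hxK hx using hcon
    have hK : IsCompact (S ×ˢ Metric.sphere (0 : η → ℝ) 1) := hS.prod (isCompact_sphere _ _)
    obtain ⟨z, hz, φ, hφ, hlim⟩ := hK.tendsto_subseq hxK
    have hz0 : z.2 ≠ 0 := by
      intro h
      have h1 := mem_sphere_zero_iff_norm.1 hz.2
      rw [h, norm_zero] at h1
      exact zero_ne_one h1
    obtain ⟨b, hb⟩ := hnd z.1 hz.1 z.2 hz0
    apply hb
    have hcont : ContinuousOn (fun x : (ι → ℝ) × (η → ℝ) => ∑ n, x.2 n * m n x.1 b)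
        (S ×ˢ Metric.sphere (0 : η → ℝ) 1) := by
      refine continuousOn_finsetSum _ fun n _ => ?_
      refine ContinuousOn.mul ?_ ?_
      · exact ((continuous_apply n).comp continuous_snd).continuousOn
      · exact (hm n b).comp continuous_fst.continuousOn (fun x hx => hx.1)
    have h1 : Filter.Tendsto (fun k => ∑ n, (x (φ k)).2 n * m n (x (φ k)).1 b) Filter.atTop
        (nhds (∑ n, z.2 n * m n z.1 b)) := by
      have h3 : Filter.Tendsto (x ∘ φ) Filter.atTop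
          (nhdsWithin z (S ×ˢ Metric.sphere (0 : η → ℝ) 1)) :=
        tendsto_nhdsWithin_iff.2 ⟨hlim, Filter.Eventually.of_forall fun k => hxK _⟩
      exact (hcont z hz).tendsto.comp h3
    have h4 : Filter.Tendsto (fun k => ∑ n, (x (φ k)).2 n * m n (x (φ k)).1 b) Filter.atTop
        (nhds 0) := by
      refine squeeze_zero_norm' (a := fun k : ℕ => 1 / ((k : ℝ) + 1)) ?_
        tendsto_one_div_add_atTop_nhds_zero_nat
      filter_upwards [Filter.eventually_ge_atTop (dg b)] with k hk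
      have h5 : k ≤ φ k := hφ.le_apply
      rw [Real.norm_eq_abs]
      refine (hx (φ k) b (hk.trans h5)).trans ?_
      have h6 : (k : ℝ) ≤ φ k := by exact_mod_cast h5
      exact one_div_le_one_div_of_le (by positivity) (by linarith)
    exact tendsto_nhds_unique h1 h4
  obtain ⟨k, hk⟩ := key
  refine ⟨k, 1 / ((k : ℝ) + 1), by positivity, ?_⟩
  rintro θ hθ y ρ hρ ⟨n₀, hn₀⟩
  have hM : ρ ≤ ‖y‖ := hn₀.trans (by rw [← Real.norm_eq_abs]; exact norm_le_pi_norm y n₀)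
  have hM0 : 0 < ‖y‖ := hρ.trans_le hM
  have hy : (‖y‖⁻¹ • y) ∈ Metric.sphere (0 : η → ℝ) 1 := by
    rw [mem_sphere_zero_iff_norm, norm_smul, norm_inv, norm_norm]
    exact inv_mul_cancel₀ hM0.ne'
  obtain ⟨b, hb, h1⟩ := hk (θ, ‖y‖⁻¹ • y) ⟨hθ, hy⟩
  refine ⟨b, hb, ?_⟩
  have h2 : ∑ n, (‖y‖⁻¹ • y) n * m n θ b = ‖y‖⁻¹ * ∑ n, y n * m n θ b := by
    rw [Finset.mul_sum]
    refine Finset.sum_congr rfl fun n _ => ?_
    rw [Pi.smul_apply, smul_eq_mul, mul_assoc]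
  have h3 : 1 / ((k : ℝ) + 1) < ‖y‖⁻¹ * |∑ n, y n * m n θ b| := by
    have h4 : 1 / ((k : ℝ) + 1) < |∑ n, (‖y‖⁻¹ • y) n * m n θ b| := h1
    rw [h2, abs_mul, abs_of_pos (inv_pos.2 hM0)] at h4
    exact h4
  calc 1 / ((k : ℝ) + 1) * ρ ≤ 1 / ((k : ℝ) + 1) * ‖y‖ :=
        mul_le_mul_of_nonneg_left hM (by positivity)
    _ ≤ ‖y‖⁻¹ * |∑ n, y n * m n θ b| * ‖y‖ := mul_le_mul_of_nonneg_right h3.le hM0.le
    _ = |∑ n, y n * m n θ b| := by field_simp

end Pool.Agent.Lib.MP_bbe012_lc.PG
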