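import Pool.Agent.Lib.MP_bbe012_lc.PG.A1
import Pool.Agent.Lib.MP_bbe012_lc.PG.A2
import Pool.Agent.Lib.MP_bbe012_lc.PG.A3

/-!
# Almost all supports: zeros at rational points in a small box
-/

namespace Pool.Agent.Lib.MP_bbe012_lc.PG

open Finset

private theorem a5_sum {ι : Type} [Fintype ι] [DecidableEq ι] (κ : ℕ) (F : Finset (ι → ℕ))
    (hF : ∀ b, b ∈ F ↔ dg b < κ + 1) (g : (ι → ℕ) → ℝ) :
    ∑ b : ι → Fin (κ + 1), (if dg (fun i => (b i : ℕ)) < κ + 1 then g (fun i => (b i : ℕ)) else 0) =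
      ∑ b ∈ F, g b := by
  classical
  have himg : F = ((univ : Finset (ι → Fin (κ + 1))).filter
      (fun b => dg (fun i => (b i : ℕ)) < κ + 1)).image (fun b i => (b i : ℕ)) := by
    ext b
    rw [hF, mem_image]
    constructor
    · intro hb
      have hle : ∀ i, b i < κ + 1 := fun i =>
        lt_of_le_of_lt (single_le_sum (f := b) (fun j _ => Nat.zero_le _) (mem_univ i)) hb
      refine ⟨fun i => ⟨b i, hle i⟩, ?_, rfl⟩
      rw [mem_filter]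
      exact ⟨mem_univ _, hb⟩
    · rintro ⟨b', hb', rfl⟩
      exact (mem_filter.1 hb').2
  rw [himg, sum_image, sum_filter]
  intro x _ y _ hxy
  funext i
  exact Fin.ext (congrFun hxy i)

/-- A function whose expansion at `θ₀` has a coefficient of degree at most `κ` which is not small has few zeros at rational points of height at most `T` in a small box around `θ₀`.

Proof. Let `K = card ι`, `C, γ` from `count_multi' ι κ`. Given `θ₀, N, ν, ℓ`, let `μ` be the maximum of the `|ν b| ℓ ^ dg b`, `dg b ≤ κ` (a finite set of `b`, `finite_dg_lt`); `μ ≥ c ℓ ^ κ` (`ℓ ≤ 1`). Let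
`a b = ν b ℓ ^ dg b / μ` for `b : ι → Fin (κ + 1)` with `dg b ≤ κ`, and `0` for the other `b` (every `b` with `dg b ≤ κ` has all `b i ≤ κ`). One of the `|a b|` is `1`. By `Exp.approx` with `n = κ + 1` and `F = {b | dg b ≤ κ}`, for `|u i| ≤ 1`:
`|N(θ₀ + ℓ u) / μ - ∑ b, a b ∏ i, u i ^ b i| ≤ B 2 ^ K (2 ℓ / r) ^ (κ + 1) / (c ℓ ^ κ) = C' ℓ`, `C' = B 2 ^ K (2 / r) ^ (κ + 1) / c`. So at a zero `σ ∈ Z`, with `u i = (σ i - θ₀ i) / ℓ`, the polynomial is at most `ε = (C' + 1) ℓ` in absolute value; `0 < ε ≤ 1 = ρ` if `ℓ ≤ ℓ₀`.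
Apply `count_multi'` with `ρ = 1`, `L = ℓ T ^ 2`, `X i` the image of the `σ i`, `σ ∈ Z`, under `a ↦ (a - θ₀ i) / ℓ` (`icount_heights`); `σ ↦ u` is injective, so `|Z|` is at most the number counted; and
`ε ^ γ ≤ (C' + 1) ℓ ^ γ` (as `γ ≤ 1 ≤ C' + 1`). -/
theorem zeros_box (ι : Type) [Fintype ι] [DecidableEq ι] (r B c : ℝ) (κ : ℕ) (hr : 0 < r) (hB : 0 ≤ B) (hc : 0 < c) :
    ∃ C γ ℓ₀ : ℝ, 1 ≤ C ∧ 0 < γ ∧ γ ≤ 1 ∧ 0 < ℓ₀ ∧
      ∀ (θ₀ : ι → ℝ) (N : (ι → ℝ) → ℝ) (ν : (ι → ℕ) → ℝ), Exp r B θ₀ N ν → (∃ b, dg b ≤ κ ∧ c ≤ |ν b|) →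
      ∀ ℓ : ℝ, 0 < ℓ → ℓ ≤ ℓ₀ → ∀ (T : ℕ) (Z : Finset (ι → ℚ)),
        (∀ σ ∈ Z, (∀ i, HLE T (σ i)) ∧ (∀ i, |(σ i : ℝ) - θ₀ i| ≤ ℓ) ∧ N (fun i => (σ i : ℝ)) = 0) →
        (Z.card : ℝ) ≤ C * (1 + ℓ * (T : ℝ) ^ 2) ^ Fintype.card ι * ((1 + ℓ * (T : ℝ) ^ 2)⁻¹ + ℓ ^ γ) := by
  obtain ⟨C, γ, hC, hγ, hγ1, hcount⟩ := count_multi' ι κ
  set C' : ℝ := B * 2 ^ Fintype.card ι * (2 / r) ^ (κ + 1) / c with hC'
  have hC'0 : 0 ≤ C' := by positivity
  refine ⟨C * (C' + 1), γ, min (min 1 (r / 4)) (1 / (C' + 1)), ?_, hγ, hγ1, by positivity, ?_⟩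
  · nlinarith
  intro θ₀ N ν hexp hb ℓ hℓ hℓ₀ T Z hZ
  obtain ⟨b0, hb0, hcb0⟩ := hb
  have hl1 : ℓ ≤ 1 := hℓ₀.trans ((min_le_left _ _).trans (min_le_left _ _))
  have hl2 : 4 * ℓ ≤ r := by
    have := hℓ₀.trans ((min_le_left _ _).trans (min_le_right _ _))
    linarith
  have hl3 : (C' + 1) * ℓ ≤ 1 := by
    have := hℓ₀.trans (min_le_right _ _)
    rw [le_div_iff₀ (by linarith)] at this
    linarith
  set F : Finset (ι → ℕ) := (finite_dg_lt (ι := ι) (κ + 1)).toFinset with hFd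
  have hF : ∀ b, b ∈ F ↔ dg b < κ + 1 := by
    intro b
    rw [hFd, Set.Finite.mem_toFinset]
    exact Iff.rfl
  obtain ⟨bm, hbm, hmax⟩ := F.exists_max_image (fun b => |ν b| * ℓ ^ dg b)
    ⟨b0, (hF b0).2 (by omega)⟩
  set μ : ℝ := |ν bm| * ℓ ^ dg bm with hμ
  have hμ1 : c * ℓ ^ κ ≤ μ := by
    refine le_trans ?_ (hmax b0 ((hF b0).2 (by omega)))
    exact mul_le_mul hcb0 (pow_le_pow_of_le_one hℓ.le hl1 hb0) (by positivity) (abs_nonneg _)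
  have hμ0 : 0 < μ := lt_of_lt_of_le (by positivity) hμ1
  set a : (ι → Fin (κ + 1)) → ℝ := fun b =>
    if dg (fun i => (b i : ℕ)) < κ + 1 then
      ν (fun i => (b i : ℕ)) * ℓ ^ dg (fun i => (b i : ℕ)) / μ else 0 with ha
  have hbml : ∀ i, bm i < κ + 1 := fun i =>
    lt_of_le_of_lt (single_le_sum (f := bm) (fun j _ => Nat.zero_le _) (mem_univ i))
      ((hF bm).1 hbm)
  have ha1 : ∃ b, (1 : ℝ) ≤ |a b| := by
    refine ⟨fun i => ⟨bm i, hbml i⟩, ?_⟩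
    have h1 : a (fun i => ⟨bm i, hbml i⟩) = ν bm * ℓ ^ dg bm / μ := by
      rw [ha]
      simp only
      rw [if_pos]
      exact (hF bm).1 hbm
    rw [h1, abs_div, abs_mul, abs_of_pos hμ0, abs_of_pos (pow_pos hℓ _), ← hμ, div_self hμ0.ne']
  set ε : ℝ := (C' + 1) * ℓ with hε
  have hε0 : 0 < ε := by positivity
  set L : ℝ := ℓ * (T : ℝ) ^ 2 with hL
  have hL0 : 0 ≤ L := by positivity
  set X : ι → Finset ℝ := fun i =>
    (Z.image (fun σ => σ i)).image (fun q : ℚ => ((q : ℝ) - θ₀ i) / ℓ) with hX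
  have hXc : ∀ i, ICount (X i) L := by
    intro i
    have h := icount_heights T (θ₀ i) ℓ hℓ (Z.image (fun σ => σ i)) (by
      intro q hq
      obtain ⟨σ, hσ, rfl⟩ := mem_image.1 hq
      exact (hZ σ hσ).1 i)
    rw [hX, hL]
    exact h
  have hu1 : ∀ σ ∈ Z, ∀ i, |((σ i : ℝ) - θ₀ i) / ℓ| ≤ 1 := by
    intro σ hσ i
    rw [abs_div, abs_of_pos hℓ, div_le_one hℓ]
    exact (hZ σ hσ).2.1 i
  have hX1 : ∀ i, ∀ x ∈ X i, |x| ≤ 1 := by
    intro i x hx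
    obtain ⟨q, hq, rfl⟩ := mem_image.1 hx
    obtain ⟨σ, hσ, rfl⟩ := mem_image.1 hq
    exact hu1 σ hσ i
  have hmain := hcount a 1 ε L X one_pos hε0 hl3 hL0 hXc hX1 ha1
  rw [div_one] at hmain
  have hcard : Z.card ≤ ((Fintype.piFinset X).filter fun x =>
      |∑ b, a b * ∏ i, x i ^ (b i : ℕ)| ≤ ε).card := by
    refine card_le_card_of_injOn (fun σ i => ((σ i : ℝ) - θ₀ i) / ℓ) ?_ ?_
    · intro σ hσ
      have hσ' : σ ∈ Z := hσ
      rw [mem_coe, mem_filter, Fintype.mem_piFinset]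
      refine ⟨fun i => mem_image_of_mem _ (mem_image_of_mem _ hσ'), ?_⟩
      set u : ι → ℝ := fun i => ((σ i : ℝ) - θ₀ i) / ℓ with hu
      have h2 := hexp.approx hr hB hℓ hl2 (u := u) (hu1 σ hσ') (κ + 1) F
        (fun b hb => (hF b).2 hb)
      have h3 : (θ₀ + fun i => ℓ * u i) = fun i => (σ i : ℝ) := by
        funext i
        rw [Pi.add_apply, hu]
        field_simp
        ring
      rw [h3, (hZ σ hσ').2.2, zero_sub, abs_neg] at h2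
      have h4 : ∑ b, a b * ∏ i, u i ^ (b i : ℕ) =
          (∑ b ∈ F, ν b * ℓ ^ dg b * mon u b) / μ := by
        rw [← a5_sum κ F hF (fun b => ν b * ℓ ^ dg b * mon u b), sum_div]
        refine sum_congr rfl fun b _ => ?_
        rw [ha]
        simp only
        split_ifs
        · unfold mon
          ring
        · rw [zero_mul, zero_div]
      show |∑ b, a b * ∏ i, u i ^ (b i : ℕ)| ≤ ε
      rw [h4, abs_div, abs_of_pos hμ0, div_le_iff₀ hμ0]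
      refine h2.trans ?_
      have h5 : ε * (c * ℓ ^ κ) ≤ ε * μ := mul_le_mul_of_nonneg_left hμ1 hε0.le
      refine le_trans ?_ h5
      have h6 : B * 2 ^ Fintype.card ι * (2 * ℓ / r) ^ (κ + 1) = C' * ℓ * (c * ℓ ^ κ) := by
        have h7 : (2 * ℓ / r) ^ (κ + 1) = (2 / r) ^ (κ + 1) * (ℓ ^ κ * ℓ) := by
          rw [← pow_succ, ← mul_pow]
          congr 1
          ring
        rw [h7, hC']
        field_simp
      rw [h6, hε]
      have h8 : 0 ≤ ℓ * (c * ℓ ^ κ) := by positivity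
      nlinarith
    · intro σ _ σ' _ h
      funext i
      have h1 := congrFun h i
      simp only at h1
      rw [div_left_inj' hℓ.ne'] at h1
      have h2 : (σ i : ℝ) = σ' i := by linarith
      exact_mod_cast h2
  have hcard' : (Z.card : ℝ) ≤ C * (1 + L) ^ Fintype.card ι * ((1 + L)⁻¹ + ε ^ γ) :=
    le_trans (by exact_mod_cast hcard) hmain
  refine hcard'.trans ?_
  have hεγ : ε ^ γ ≤ (C' + 1) * ℓ ^ γ := by
    rw [hε, Real.mul_rpow (by linarith) hℓ.le]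
    refine mul_le_mul_of_nonneg_right ?_ (Real.rpow_nonneg hℓ.le _)
    calc (C' + 1) ^ γ ≤ (C' + 1) ^ (1 : ℝ) :=
          Real.rpow_le_rpow_of_exponent_le (by linarith) hγ1
      _ = C' + 1 := Real.rpow_one _
  have hLi : 0 ≤ (1 + L)⁻¹ := by positivity
  have hlγ : 0 ≤ ℓ ^ γ := Real.rpow_nonneg hℓ.le _
  have h9 : (1 + L)⁻¹ + ε ^ γ ≤ (C' + 1) * ((1 + L)⁻¹ + ℓ ^ γ) := by
    nlinarith
  calc C * (1 + L) ^ Fintype.card ι * ((1 + L)⁻¹ + ε ^ γ)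
      ≤ C * (1 + L) ^ Fintype.card ι * ((C' + 1) * ((1 + L)⁻¹ + ℓ ^ γ)) :=
        mul_le_mul_of_nonneg_left h9 (by positivity)
    _ = C * (C' + 1) * (1 + L) ^ Fintype.card ι * ((1 + L)⁻¹ + ℓ ^ γ) := by ring

end Pool.Agent.Lib.MP_bbe012_lc.PG
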