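import Pool.Agent.Lib.MP_bbe012_lc.PG.A3
import Pool.Agent.Lib.MP_bbe012_lc.PG.A6
import Pool.Agent.Lib.MP_bbe012_lc.PG.A7
import Pool.Agent.Lib.MP_bbe012_lc.PG.A8

/-!
# Almost all supports: upper bound for the determinants
-/

namespace Pool.Agent.Lib.MP_bbe012_lc.PG

open Finset

private theorem A9_sum {ι : Type} [Fintype ι] [DecidableEq ι] (h : ℕ) (e : ι → Fin (h + 1))
    (u : ι → ℝ) (w : (ι → ℕ) → ℝ) :
    ∑ a : ι → Fin (2 * h + 1), (∏ l, u l ^ (a l : ℕ)) *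
      (if ∀ l, (e l : ℕ) ≤ a l then w (fun l => (a l : ℕ) - e l) else 0) =
    mon u (fun l => (e l : ℕ)) *
      ∑ b ∈ Fintype.piFinset (fun l => Finset.range (2 * h + 1 - e l)), w b * mon u b := by
  rw [Finset.mul_sum]
  have h1 : ∀ a : ι → Fin (2 * h + 1), (∏ l, u l ^ (a l : ℕ)) *
      (if ∀ l, (e l : ℕ) ≤ a l then w (fun l => (a l : ℕ) - e l) else 0) =
      if ∀ l, (e l : ℕ) ≤ a l then
        (∏ l, u l ^ (a l : ℕ)) * w (fun l => (a l : ℕ) - e l) else 0 := by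
    intro a
    split_ifs with h2
    · rfl
    · exact mul_zero _
  rw [Finset.sum_congr rfl fun a _ => h1 a, ← Finset.sum_filter]
  refine Finset.sum_nbij' (fun a l => (a l : ℕ) - e l)
    (fun b l => (⟨min (e l + b l) (2 * h), by omega⟩ : Fin (2 * h + 1))) ?_ ?_ ?_ ?_ ?_
  · intro a ha
    rw [Finset.mem_filter] at ha
    rw [Fintype.mem_piFinset]
    intro l
    rw [Finset.mem_range]
    have h2 := (a l).2
    have h3 := ha.2 l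
    omega
  · intro b hb
    rw [Fintype.mem_piFinset] at hb
    rw [Finset.mem_filter]
    refine ⟨Finset.mem_univ _, fun l => ?_⟩
    have h2 := hb l
    rw [Finset.mem_range] at h2
    have h3 := (e l).2
    show (e l : ℕ) ≤ min ((e l : ℕ) + b l) (2 * h)
    omega
  · intro a ha
    rw [Finset.mem_filter] at ha
    funext l
    apply Fin.ext
    have h2 := (a l).2
    have h3 := ha.2 l
    show min ((e l : ℕ) + ((a l : ℕ) - e l)) (2 * h) = a l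
    omega
  · intro b hb
    rw [Fintype.mem_piFinset] at hb
    funext l
    have h2 := hb l
    rw [Finset.mem_range] at h2
    have h3 := (e l).2
    show min ((e l : ℕ) + b l) (2 * h) - e l = b l
    omega
  · intro a ha
    rw [Finset.mem_filter] at ha
    have h2 : ∏ l, u l ^ (a l : ℕ) =
        mon u (fun l => (e l : ℕ)) * mon u (fun l => (a l : ℕ) - e l) := by
      unfold mon
      rw [← Finset.prod_mul_distrib]
      refine Finset.prod_congr rfl fun l _ => ?_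
      rw [← pow_add]
      have h3 := ha.2 l
      have h4 : (a l : ℕ) = (e l : ℕ) + ((a l : ℕ) - e l) := by omega
      exact congrArg (fun z => u l ^ z) h4
    rw [h2]
    ring

private theorem A9_entry {ι J : Type} [Fintype ι] [DecidableEq ι] [Fintype J] [DecidableEq J]
    (h : ℕ) (u : (ι → Fin (2 * h + 1)) × J → ι → ℝ) (cf : (ι → Fin (2 * h + 1)) × J → J → ℝ)
    (ν' : J → (ι → ℕ) → ℝ) (i : (ι → Fin (2 * h + 1)) × J) (e : ι → Fin (h + 1)) :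
    (rowMat (2 * h) u cf * Ymat ν' (2 * h) h) i e = mon (u i) (fun l => (e l : ℕ)) *
      ∑ j, cf i j * ∑ b ∈ Fintype.piFinset (fun l => Finset.range (2 * h + 1 - e l)),
        ν' j b * mon (u i) b := by
  rw [Matrix.mul_apply, Fintype.sum_prod_type_right, Finset.mul_sum]
  refine Finset.sum_congr rfl fun j _ => ?_
  have h1 := A9_sum h e (u i) (ν' j)
  have h2 : ∑ a : ι → Fin (2 * h + 1), rowMat (2 * h) u cf i (a, j) *
      Ymat ν' (2 * h) h (a, j) e = cf i j * ∑ a : ι → Fin (2 * h + 1),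
        (∏ l, u i l ^ (a l : ℕ)) *
          (if ∀ l, (e l : ℕ) ≤ a l then ν' j (fun l => (a l : ℕ) - e l) else 0) := by
    rw [Finset.mul_sum]
    refine Finset.sum_congr rfl fun a _ => ?_
    have h3 : rowMat (2 * h) u cf i (a, j) = (∏ l, u i l ^ (a l : ℕ)) * cf i j := rfl
    have h4 : Ymat ν' (2 * h) h (a, j) e =
        if ∀ l, (e l : ℕ) ≤ a l then ν' j (fun l => (a l : ℕ) - e l) else 0 := rfl
    rw [h3, h4]
    ring
  rw [h2, h1]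
  ring

/-- the coefficients of high degree are small after scaling -/
private theorem A9_high {r B c δ ℓ μ v : ℝ} {κ g : ℕ} (hr : 0 < r) (hB : 0 ≤ B)
    (hδ : 0 < δ) (hℓ : 0 < ℓ) (hℓr : ℓ ≤ r) (hℓ3 : ℓ * (B + 1) ≤ δ * c * r ^ (κ + 1))
    (hμ : c * ℓ ^ κ ≤ μ) (hμ0 : 0 < μ) (hg : κ < g) (hv : |v| ≤ B * r⁻¹ ^ g) :
    |v * ℓ ^ g / μ| ≤ δ := by
  have hq0 : 0 ≤ r⁻¹ * ℓ := by positivity
  have hq1 : r⁻¹ * ℓ ≤ 1 := by
    rw [inv_mul_le_iff₀ hr]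
    linarith
  rw [abs_div, abs_mul, abs_of_pos hμ0, abs_of_pos (pow_pos hℓ g), div_le_iff₀ hμ0]
  have h1 : |v| * ℓ ^ g ≤ B * (r⁻¹ * ℓ) ^ g := by
    rw [mul_pow, ← mul_assoc]
    exact mul_le_mul_of_nonneg_right hv (by positivity)
  have h2 : (r⁻¹ * ℓ) ^ g ≤ (r⁻¹ * ℓ) ^ (κ + 1) := pow_le_pow_of_le_one hq0 hq1 hg
  have h3 : B * (r⁻¹ * ℓ) ^ (κ + 1) ≤ δ * (c * ℓ ^ κ) := by
    have h4 : B * (r⁻¹ * ℓ) ^ (κ + 1) = B * ℓ * (r⁻¹ ^ (κ + 1)) * ℓ ^ κ := by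
      rw [mul_pow, pow_succ ℓ κ]
      ring
    have h5 : B * ℓ * r⁻¹ ^ (κ + 1) ≤ δ * c := by
      rw [inv_pow, ← div_eq_mul_inv, div_le_iff₀ (by positivity)]
      nlinarith
    rw [h4]
    calc B * ℓ * (r⁻¹ ^ (κ + 1)) * ℓ ^ κ ≤ δ * c * ℓ ^ κ :=
          mul_le_mul_of_nonneg_right h5 (by positivity)
      _ = δ * (c * ℓ ^ κ) := by ring
  calc |v| * ℓ ^ g ≤ B * (r⁻¹ * ℓ) ^ g := h1
    _ ≤ B * (r⁻¹ * ℓ) ^ (κ + 1) := mul_le_mul_of_nonneg_left h2 hB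
    _ ≤ δ * (c * ℓ ^ κ) := h3
    _ ≤ δ * μ := mul_le_mul_of_nonneg_left hμ hδ.le

/-- the bound for the entries of the product -/
private theorem A9_bound {ι J : Type} [Fintype ι] [DecidableEq ι] [Fintype J] [DecidableEq J]
    {r B c ℓ μ X : ℝ} {κ h : ℕ} (hr : 0 < r) (hB : 0 ≤ B) (hc : 0 < c) (hκ : κ ≤ h) (hℓ : 0 < ℓ)
    (hℓr : 4 * ℓ ≤ r) (hμ : c * ℓ ^ κ ≤ μ) (hμ0 : 0 < μ) (hX : 0 ≤ X) {θ₀ : ι → ℝ}
    {N : J → (ι → ℝ) → ℝ} {ν : J → (ι → ℕ) → ℝ} (hE : ∀ j, Exp r B θ₀ (N j) (ν j))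
    (u : (ι → Fin (2 * h + 1)) × J → ι → ℝ) (cf : (ι → Fin (2 * h + 1)) × J → J → ℝ)
    (hu : ∀ i l, |u i l| ≤ 1) (hcf : ∀ i j, |cf i j| ≤ X)
    (h0 : ∀ i, ∑ j, cf i j * N j (θ₀ + fun l => ℓ * u i l) = 0)
    (i : (ι → Fin (2 * h + 1)) × J) (e : ι → Fin (h + 1)) :
    |(rowMat (2 * h) u cf * Ymat (fun j b => ν j b * ℓ ^ dg b / μ) (2 * h) h) i e| ≤
      X * ((Fintype.card J * B * 2 ^ Fintype.card ι * (2 / r) ^ (h + 1) / c + 1) *
        ℓ ^ (h + 1 - κ)) := by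
  rw [A9_entry, abs_mul]
  have hm : |mon (u i) (fun l => (e l : ℕ))| ≤ 1 := by
    have := abs_mon_le (hu i) (fun l => (e l : ℕ))
    rwa [one_pow] at this
  obtain ⟨F, hF⟩ : ∃ F, F = Fintype.piFinset (fun l => Finset.range (2 * h + 1 - e l)) :=
    ⟨_, rfl⟩
  rw [← hF]
  have hFb : ∀ b, dg b < h + 1 → b ∈ F := by
    intro b hb
    rw [hF, Fintype.mem_piFinset]
    intro l
    rw [Finset.mem_range]
    have h1 : b l ≤ dg b := by
      unfold dg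
      exact Finset.single_le_sum (f := b) (fun _ _ => Nat.zero_le _) (Finset.mem_univ l)
    have h2 := (e l).2
    omega
  have happ : ∀ j, |N j (θ₀ + fun l => ℓ * u i l) - ∑ b ∈ F, ν j b * ℓ ^ dg b * mon (u i) b| ≤
      B * 2 ^ Fintype.card ι * (2 * ℓ / r) ^ (h + 1) :=
    fun j => (hE j).approx hr hB hℓ hℓr (hu i) (h + 1) F hFb
  have hsum : ∑ j, cf i j * ∑ b ∈ F, ν j b * ℓ ^ dg b / μ * mon (u i) b =
      (∑ j, cf i j * (∑ b ∈ F, ν j b * ℓ ^ dg b * mon (u i) b -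
        N j (θ₀ + fun l => ℓ * u i l))) / μ := by
    have h1 : ∑ j, cf i j * (∑ b ∈ F, ν j b * ℓ ^ dg b * mon (u i) b -
        N j (θ₀ + fun l => ℓ * u i l)) = ∑ j, cf i j * ∑ b ∈ F, ν j b * ℓ ^ dg b * mon (u i) b := by
      simp only [mul_sub, Finset.sum_sub_distrib]
      rw [h0 i, sub_zero]
    rw [h1, Finset.sum_div]
    refine Finset.sum_congr rfl fun j _ => ?_
    rw [mul_div_assoc, Finset.sum_div]
    congr 1
    refine Finset.sum_congr rfl fun b _ => ?_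
    ring
  rw [hsum, abs_div, abs_of_pos hμ0]
  have hS : |∑ j, cf i j * (∑ b ∈ F, ν j b * ℓ ^ dg b * mon (u i) b -
      N j (θ₀ + fun l => ℓ * u i l))| ≤
      Fintype.card J * (X * (B * 2 ^ Fintype.card ι * (2 * ℓ / r) ^ (h + 1))) := by
    refine (Finset.abs_sum_le_sum_abs _ _).trans ?_
    have h1 : ∀ j ∈ (Finset.univ : Finset J), |cf i j * (∑ b ∈ F, ν j b * ℓ ^ dg b * mon (u i) b -
        N j (θ₀ + fun l => ℓ * u i l))| ≤
        X * (B * 2 ^ Fintype.card ι * (2 * ℓ / r) ^ (h + 1)) := by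
      intro j _
      rw [abs_mul, abs_sub_comm]
      exact mul_le_mul (hcf i j) (happ j) (abs_nonneg _) hX
    refine (Finset.sum_le_card_nsmul _ _ _ h1).trans ?_
    rw [nsmul_eq_mul, Finset.card_univ]
  obtain ⟨S, hS'⟩ : ∃ S, S = |∑ j, cf i j * (∑ b ∈ F, ν j b * ℓ ^ dg b * mon (u i) b -
      N j (θ₀ + fun l => ℓ * u i l))| := ⟨_, rfl⟩
  rw [← hS'] at hS ⊢
  have hS0 : 0 ≤ S := by
    rw [hS']
    exact abs_nonneg _
  have hmain : S / μ ≤ X * ((Fintype.card J * B * 2 ^ Fintype.card ι * (2 / r) ^ (h + 1) / c + 1) *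
      ℓ ^ (h + 1 - κ)) := by
    rw [div_le_iff₀ hμ0]
    have e1 : ℓ ^ (h + 1) = ℓ ^ (h + 1 - κ) * ℓ ^ κ := by
      rw [← pow_add]
      congr 1
      omega
    have e2 : (2 * ℓ / r) ^ (h + 1) = (2 / r) ^ (h + 1) * (ℓ ^ (h + 1 - κ) * ℓ ^ κ) := by
      rw [← e1, ← mul_pow]
      congr 1
      ring
    have h1 : X * ((Fintype.card J * B * 2 ^ Fintype.card ι * (2 / r) ^ (h + 1) / c + 1) *
        ℓ ^ (h + 1 - κ)) * (c * ℓ ^ κ) ≤
        X * ((Fintype.card J * B * 2 ^ Fintype.card ι * (2 / r) ^ (h + 1) / c + 1) *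
        ℓ ^ (h + 1 - κ)) * μ :=
      mul_le_mul_of_nonneg_left hμ (by positivity)
    have h2 : X * ((Fintype.card J * B * 2 ^ Fintype.card ι * (2 / r) ^ (h + 1) / c + 1) *
        ℓ ^ (h + 1 - κ)) * (c * ℓ ^ κ) =
        Fintype.card J * (X * (B * 2 ^ Fintype.card ι * (2 * ℓ / r) ^ (h + 1))) +
          X * ℓ ^ (h + 1 - κ) * (c * ℓ ^ κ) := by
      rw [e2]
      field_simp
    have h3 : 0 ≤ X * ℓ ^ (h + 1 - κ) * (c * ℓ ^ κ) := by positivity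
    linarith
  calc |mon (u i) (fun l => (e l : ℕ))| * (S / μ) ≤ 1 * (S / μ) :=
        mul_le_mul_of_nonneg_right hm (div_nonneg hS0 hμ0.le)
    _ = S / μ := one_mul _
    _ ≤ _ := hmain

/-- The determinant of the rows `σ ^ a c_j` is very small if the `σ` are close to `θ₀` and `∑ j, c_j N_j(σ) = 0` in every row.

Proof. `K = card ι`, `d = 2 h`, `c₂, δ` from `Y_minor ι J κ (2 * h) h`. By `det_shift` and `det_scale` with `u i l = (σ i l - θ₀ l) / ℓ` (`|u i l| ≤ 1`) it is enough to bound `V = rowMat (2 * h) u cf`; its entries are at most `X` in absolute value. Let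
`μ` be the maximum of the `|ν j b| ℓ ^ dg b`, `j ∈ J`, `dg b ≤ κ`; `μ ≥ c ℓ ^ κ` (`ℓ ≤ 1`). Let `ν' j b = ν j b ℓ ^ dg b / μ`: `|ν' j b| ≤ 1` for `dg b ≤ κ`, with equality once; for `dg b > κ`, `|ν' j b| ≤ B (ℓ / r) ^ (κ + 1) / (c ℓ ^ κ) ≤ δ` for `ℓ` small (`ℓ ≤ r`).
`Y_minor` gives `I` for `Y = Ymat ν' (2 * h) h`. The entry `(V * Y) i e` is `∑_{a, j} u_i ^ a cf i j [e ≤ a] ν' j (a - e) = mon (u i) e * ∑ j, cf i j * ∑ b ∈ F_e, ν' j b * mon (u i) b` where `F_e` is the set of the `b` with `b l ≤ 2 h - e l` for all `l` (reindex `a = e + b`); `F_e` contains all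
`b` with `dg b < h + 1` (`b l ≤ h ≤ 2 h - e l`). By `Exp.approx` with `n = h + 1` (and `θ₀ + ℓ u = σ`) and `∑ j, cf i j * N j (σ i) = 0`, `|(V * Y) i e| ≤ card J * X * B 2 ^ K (2 ℓ / r) ^ (h + 1) / (c ℓ ^ κ) = X C₃ ℓ ^ (h + 1 - κ)`. Conclude with `det_le_of_cols` (`A = X`, `ε = C₃ ℓ ^ (h + 1 - κ)`;
the number of columns `E = (ι → Fin (h + 1))` is `(h + 1) ^ K`). -/
theorem det_upper (ι J : Type) [Fintype ι] [DecidableEq ι] [Fintype J] [DecidableEq J] (r B c : ℝ) (κ h : ℕ)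
    (hr : 0 < r) (hB : 0 ≤ B) (hc : 0 < c) (hκ : κ ≤ h) :
    ∃ C ℓ₀ : ℝ, 0 < C ∧ 0 < ℓ₀ ∧ ∀ (θ₀ : ι → ℝ) (N : J → (ι → ℝ) → ℝ) (ν : J → (ι → ℕ) → ℝ),
      (∀ j, Exp r B θ₀ (N j) (ν j)) → (∃ j b, dg b ≤ κ ∧ c ≤ |ν j b|) →
      ∀ ℓ : ℝ, 0 < ℓ → ℓ ≤ ℓ₀ → ∀ (σ : (ι → Fin (2 * h + 1)) × J → ι → ℝ) (cf : (ι → Fin (2 * h + 1)) × J → J → ℝ)
        (X : ℝ), 0 ≤ X → (∀ i l, |σ i l - θ₀ l| ≤ ℓ) → (∀ i j, |cf i j| ≤ X) → (∀ i, ∑ j, cf i j * N j (σ i) = 0) →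
        |(rowMat (2 * h) σ cf).det| ≤ C * X ^ Fintype.card ((ι → Fin (2 * h + 1)) × J) *
          ℓ ^ (Fintype.card J * ∑ a : ι → Fin (2 * h + 1), ∑ l, (a l : ℕ) +
            (h + 1 - κ) * (h + 1) ^ Fintype.card ι) := by
  obtain ⟨c₂, δ, hc₂, hδ, hY⟩ := Y_minor ι J κ (2 * h) h (by omega)
  obtain ⟨C₃, hC₃⟩ : ∃ C₃ : ℝ, C₃ =
      Fintype.card J * B * 2 ^ Fintype.card ι * (2 / r) ^ (h + 1) / c + 1 := ⟨_, rfl⟩
  have hC₃0 : 0 < C₃ := by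
    rw [hC₃]
    positivity
  refine ⟨(Fintype.card ((ι → Fin (2 * h + 1)) × J)).factorial *
      C₃ ^ Fintype.card (ι → Fin (h + 1)) / c₂,
    min 1 (min (r / 4) (δ * c * r ^ (κ + 1) / (B + 1))), by positivity, ?_, ?_⟩
  · refine lt_min one_pos (lt_min (by positivity) (by positivity))
  intro θ₀ N ν hE hne ℓ hℓ hℓ0 σ cf X hX hσ hcf h0
  have hℓ1 : ℓ ≤ 1 := hℓ0.trans (min_le_left _ _)
  have hℓ2 : ℓ ≤ r / 4 := hℓ0.trans ((min_le_right _ _).trans (min_le_left _ _))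
  have hℓ3 : ℓ * (B + 1) ≤ δ * c * r ^ (κ + 1) := by
    have := hℓ0.trans ((min_le_right _ _).trans (min_le_right _ _))
    rwa [le_div_iff₀ (by positivity)] at this
  -- scaling
  obtain ⟨u, hu⟩ : ∃ u : (ι → Fin (2 * h + 1)) × J → ι → ℝ,
      u = fun i l => (σ i l - θ₀ l) / ℓ := ⟨_, rfl⟩
  have hℓu : ∀ i l, ℓ * u i l = σ i l - θ₀ l := by
    intro i l
    rw [hu]
    exact mul_div_cancel₀ _ hℓ.ne'
  have hu1 : ∀ i l, |u i l| ≤ 1 := by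
    intro i l
    rw [hu]
    show |(σ i l - θ₀ l) / ℓ| ≤ 1
    rw [abs_div, abs_of_pos hℓ, div_le_one hℓ]
    exact hσ i l
  have hσu : ∀ i, (θ₀ + fun l => ℓ * u i l) = σ i := by
    intro i
    funext l
    show θ₀ l + ℓ * u i l = σ i l
    rw [hℓu]
    ring
  have hdet : (rowMat (2 * h) σ cf).det =
      ℓ ^ (Fintype.card J * ∑ a : ι → Fin (2 * h + 1), ∑ l, (a l : ℕ)) *
        (rowMat (2 * h) u cf).det := by
    rw [← det_scale, ← det_shift (2 * h) σ cf θ₀]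
    congr 2
    funext i l
    exact (hℓu i l).symm
  -- the maximum
  obtain ⟨Fκ, hFκ⟩ : ∃ Fκ : Finset (ι → ℕ), ∀ b, b ∈ Fκ ↔ dg b ≤ κ := by
    refine ⟨(finite_dg_lt (κ + 1)).toFinset, fun b => ?_⟩
    rw [Set.Finite.mem_toFinset]
    exact Nat.lt_succ_iff
  obtain ⟨j0, b0, hb0, hcb0⟩ := hne
  obtain ⟨⟨j1, b1⟩, hjb1, hmax⟩ := Finset.exists_max_image ((Finset.univ : Finset J) ×ˢ Fκ)
    (fun x => |ν x.1 x.2| * ℓ ^ dg x.2)
    ⟨(j0, b0), Finset.mem_product.2 ⟨Finset.mem_univ _, (hFκ b0).2 hb0⟩⟩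
  obtain ⟨μ, hμdef⟩ : ∃ μ : ℝ, μ = |ν j1 b1| * ℓ ^ dg b1 := ⟨_, rfl⟩
  have hmax' : ∀ j b, dg b ≤ κ → |ν j b| * ℓ ^ dg b ≤ μ := by
    intro j b hb
    rw [hμdef]
    exact hmax (j, b) (Finset.mem_product.2 ⟨Finset.mem_univ _, (hFκ b).2 hb⟩)
  have hb1 : dg b1 ≤ κ := (hFκ b1).1 (Finset.mem_product.1 hjb1).2
  have hμ : c * ℓ ^ κ ≤ μ := by
    refine le_trans ?_ (hmax' j0 b0 hb0)
    exact mul_le_mul hcb0 (pow_le_pow_of_le_one hℓ.le hℓ1 hb0) (by positivity) (abs_nonneg _)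
  have hμ0 : 0 < μ := lt_of_lt_of_le (by positivity) hμ
  have habs : ∀ j b, |ν j b * ℓ ^ dg b / μ| = |ν j b| * ℓ ^ dg b / μ := by
    intro j b
    rw [abs_div, abs_mul, abs_of_pos hμ0, abs_of_pos (pow_pos hℓ _)]
  obtain ⟨I, hI⟩ := hY (fun j b => ν j b * ℓ ^ dg b / μ)
    (fun j b hb => by
      show |ν j b * ℓ ^ dg b / μ| ≤ 1
      rw [habs, div_le_one hμ0]
      exact hmax' j b hb)
    ⟨j1, b1, hb1, by
      show |ν j1 b1 * ℓ ^ dg b1 / μ| = 1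
      rw [habs, ← hμdef, div_self hμ0.ne']⟩
    (fun j b hb => A9_high hr hB hδ hℓ (by linarith) hℓ3 hμ hμ0 hb ((hE j).bound b))
  have hentry : ∀ i e, |(rowMat (2 * h) u cf *
      Ymat (fun j b => ν j b * ℓ ^ dg b / μ) (2 * h) h) i e| ≤ X * (C₃ * ℓ ^ (h + 1 - κ)) := by
    intro i e
    rw [hC₃]
    refine A9_bound hr hB hc hκ hℓ (by linarith) hμ hμ0 hX hE u cf hu1 hcf ?_ i e
    intro i
    rw [hσu]
    exact h0 i
  have hVX : ∀ i j, |rowMat (2 * h) u cf i j| ≤ X := by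
    intro i aj
    have h1 : rowMat (2 * h) u cf i aj = (∏ l, u i l ^ (aj.1 l : ℕ)) * cf i aj.2 := rfl
    rw [h1, abs_mul]
    have h2 : |∏ l, u i l ^ (aj.1 l : ℕ)| ≤ 1 := by
      have := abs_mon_le (hu1 i) (fun l => (aj.1 l : ℕ))
      rwa [one_pow] at this
    calc |∏ l, u i l ^ (aj.1 l : ℕ)| * |cf i aj.2| ≤ 1 * X :=
          mul_le_mul h2 (hcf i aj.2) (abs_nonneg _) zero_le_one
      _ = X := one_mul _
  have hfin := det_le_of_cols (rowMat (2 * h) u cf)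
    (Ymat (fun j b => ν j b * ℓ ^ dg b / μ) (2 * h) h) I c₂ X (C₃ * ℓ ^ (h + 1 - κ)) hc₂ hI hX
    (by positivity) hVX hentry
  have hcard : Fintype.card (ι → Fin (h + 1)) = (h + 1) ^ Fintype.card ι := by
    rw [Fintype.card_fun, Fintype.card_fin]
  rw [← le_div_iff₀ hc₂] at hfin
  rw [hdet, abs_mul, abs_of_pos (pow_pos hℓ _), pow_add]
  have h5 : (C₃ * ℓ ^ (h + 1 - κ)) ^ Fintype.card (ι → Fin (h + 1)) =
      C₃ ^ Fintype.card (ι → Fin (h + 1)) * ℓ ^ ((h + 1 - κ) * (h + 1) ^ Fintype.card ι) := by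
    rw [mul_pow, ← pow_mul, hcard]
  rw [h5] at hfin
  have h6 := mul_le_mul_of_nonneg_left hfin
    (pow_pos hℓ (Fintype.card J * ∑ a : ι → Fin (2 * h + 1), ∑ l, (a l : ℕ))).le
  refine h6.trans (le_of_eq ?_)
  ring

end Pool.Agent.Lib.MP_bbe012_lc.PG
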