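import Mathlib

/-!
# Almost all supports: basic definitions

Part A is a counting theorem: if `V_1, ..., V_r` are real analytic functions near a compact set `S` of `ℝ^ι`, linearly independent over
the polynomials near every point of `S`, then there are few rational points `θ ∈ S` of height at most `T` at which some relation
`∑ c_i V_i(θ) = 0` with integers `|c_i| ≤ T ^ A`, not all zero, holds.
-/

namespace Pool.Agent.Lib.MP_bbe012_lc.PG

/-- The monomial `h ^ b`. -/
def mon {ι : Type} [Fintype ι] (h : ι → ℝ) (b : ι → ℕ) : ℝ := ∏ i, h i ^ b i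

/-- The total degree of the exponent `b`. -/
def dg {ι : Type} [Fintype ι] (b : ι → ℕ) : ℕ := ∑ i, b i

/-- Near `θ₀` the function `N` is the sum of the power series with the coefficients `ν`, and `|ν b| ≤ B r ^ (- |b|)`. -/
structure Exp {ι : Type} [Fintype ι] (r B : ℝ) (θ₀ : ι → ℝ) (N : (ι → ℝ) → ℝ) (ν : (ι → ℕ) → ℝ) : Prop where
  bound : ∀ b, |ν b| ≤ B * r⁻¹ ^ dg b
  sum : ∀ h : ι → ℝ, (∀ i, |h i| < r) → HasSum (fun b => ν b * mon h b) (N (θ₀ + h))

/-- Expansions at all points of `S`, with coefficients which are continuous on `S`. -/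
structure LA {ι : Type} [Fintype ι] (S : Set (ι → ℝ)) (r B : ℝ) (f : (ι → ℝ) → ℝ) (m : (ι → ℝ) → (ι → ℕ) → ℝ) :
    Prop where
  cont : ∀ b, ContinuousOn (fun θ => m θ b) S
  exp : ∀ θ ∈ S, Exp r B θ f (m θ)

/-- The height of `a` is at most `T`. -/
def HLE (T : ℕ) (a : ℚ) : Prop := a.num.natAbs ≤ T ∧ a.den ≤ T

/-- Every interval of length `w` contains at most `1 + w L` elements of `X`. -/
def ICount (X : Finset ℝ) (L : ℝ) : Prop :=
  ∀ y w : ℝ, 0 ≤ w → ((X.filter fun x => y ≤ x ∧ x ≤ y + w).card : ℝ) ≤ 1 + w * L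

end Pool.Agent.Lib.MP_bbe012_lc.PG
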