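import Mathlib

/-!
# Linear algebra over the ring of polynomials
-/

namespace Pool.Agent.Lib.MP_bbe012_lc.PG

open MvPolynomial

private theorem balg_smul {s : ℕ} (p : MvPolynomial (Fin s) ℚ) (f : MvPowerSeries (Fin s) ℚ) :
    p • f = (p : MvPowerSeries (Fin s) ℚ) * f := by
  rw [Algebra.smul_def, MvPowerSeries.algebraMap_apply', Algebra.algebraMap_self,
    MvPowerSeries.map_id]
  rfl

private noncomputable def balg_lam {s : ℕ} (l : Module.Dual ℚ ℝ) (p : MvPolynomial (Fin s) ℝ) :
    MvPolynomial (Fin s) ℚ :=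
  ∑ b ∈ p.support, monomial b (l (coeff b p))

private theorem balg_coeff {s : ℕ} (l : Module.Dual ℚ ℝ) (p : MvPolynomial (Fin s) ℝ)
    (b : Fin s →₀ ℕ) : coeff b (balg_lam l p) = l (coeff b p) := by
  classical
  rw [balg_lam, coeff_sum]
  simp_rw [coeff_monomial]
  rw [Finset.sum_ite_eq']
  split_ifs with h
  · rfl
  · rw [notMem_support_iff.1 h, map_zero]

/-- A maximal independent subfamily of a finite family of power series.

Proof. In the module `MvPowerSeries (Fin s) ℚ` over the domain `R = MvPolynomial (Fin s) ℚ` (the algebra structure is `MvPolynomial.algebraMvPowerSeries`; `r • f = (r : MvPowerSeries) * f`) choose a subset `I` of `P`, maximal with `F` linearly independent on `I` (`exists_maximal_linearIndepOn`, or a subset of maximal cardinality).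
By maximality for each `p` there is `q_p ≠ 0` with `q_p F p ∈ span (F '' I)` (`q_p = 1` for `p ∈ I`); take `q = ∏ p, q_p`, and `ρ = card I`, `π` the enumeration of `I` (`Finset.equivFin`). -/
theorem exists_basis {s : ℕ} {P : Type} [Finite P] (F : P → MvPowerSeries (Fin s) ℚ) :
    ∃ (ρ : ℕ) (π : Fin ρ → P) (q : MvPolynomial (Fin s) ℚ) (r : P → Fin ρ → MvPolynomial (Fin s) ℚ), q ≠ 0 ∧
      (∀ p, (q : MvPowerSeries (Fin s) ℚ) * F p = ∑ i, (r p i : MvPowerSeries (Fin s) ℚ) * F (π i)) ∧
      ∀ a : Fin ρ → MvPolynomial (Fin s) ℚ, ∑ i, (a i : MvPowerSeries (Fin s) ℚ) * F (π i) = 0 → ∀ i, a i = 0 := by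
  classical
  have hPf : Fintype P := Fintype.ofFinite P
  obtain ⟨I, hI, hmax⟩ := exists_maximal_linearIndepOn (MvPolynomial (Fin s) ℚ) F
  obtain ⟨e⟩ : Nonempty (Fin (Nat.card I) ≃ I) := ⟨(Finite.equivFin I).symm⟩
  have hrange : F '' I = Set.range fun i : Fin (Nat.card I) => F (e i : P) := by
    ext f
    constructor
    · rintro ⟨p, hp, rfl⟩
      refine ⟨e.symm ⟨p, hp⟩, ?_⟩
      change F ((e (e.symm ⟨p, hp⟩) : I) : P) = F p
      rw [Equiv.apply_symm_apply]
    · rintro ⟨i, rfl⟩
      exact ⟨(e i : P), (e i).2, rfl⟩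
  have h1 : ∀ p : P, ∃ (a : MvPolynomial (Fin s) ℚ) (c : Fin (Nat.card I) → MvPolynomial (Fin s) ℚ),
      a ≠ 0 ∧ ∑ i, c i • F (e i : P) = a • F p := by
    intro p
    have h2 : ∃ a : MvPolynomial (Fin s) ℚ, a ≠ 0 ∧
        a • F p ∈ Submodule.span (MvPolynomial (Fin s) ℚ) (F '' I) := by
      by_cases hp : p ∈ I
      · refine ⟨1, one_ne_zero, ?_⟩
        rw [one_smul]
        exact Submodule.subset_span ⟨p, hp, rfl⟩
      · exact hmax p hp
    obtain ⟨a, ha0, ha⟩ := h2
    rw [hrange, Submodule.mem_span_range_iff_exists_fun] at ha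
    obtain ⟨c, hc⟩ := ha
    exact ⟨a, c, ha0, hc⟩
  choose a c ha0 hc using h1
  refine ⟨Nat.card I, fun i => (e i : P), ∏ p, a p,
    fun p i => (∏ p' ∈ Finset.univ.erase p, a p') * c p i, ?_, ?_, ?_⟩
  · exact Finset.prod_ne_zero_iff.2 fun p _ => ha0 p
  · intro p
    have h3 : (∏ p', a p') = (∏ p' ∈ Finset.univ.erase p, a p') * a p :=
      (Finset.prod_erase_mul _ _ (Finset.mem_univ p)).symm
    have h4 := hc p
    simp_rw [balg_smul] at h4
    rw [h3, MvPolynomial.coe_mul, mul_assoc, ← h4, Finset.mul_sum]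
    refine Finset.sum_congr rfl fun i _ => ?_
    rw [MvPolynomial.coe_mul, mul_assoc]
  · intro b hb
    have h5 : LinearIndependent (MvPolynomial (Fin s) ℚ) fun i => F (e i : P) :=
      LinearIndependent.comp hI e e.injective
    have h6 : ∑ i, b i • F (e i : P) = 0 := by
      rw [← hb]
      exact Finset.sum_congr rfl fun i _ => balg_smul _ _
    exact Fintype.linearIndependent_iff.1 h5 b h6

/-- Independence over the polynomials with real coefficients.

Proof. Suppose `∑ i, a i * F i = 0` with real polynomials `a i`. For every `ℚ`-linear map `λ : ℝ → ℚ`, applying `λ` to all coefficients gives `∑ i, λ(a i) * F i = 0`, where `λ(a i)` is the polynomial with the coefficients `λ (coeff b (a i))` (the coefficient of index `b` of the product is the sum over the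
antidiagonal of `coeff c (a i) * coeff c' (F i)`, with `coeff c' (F i) ∈ ℚ`; `λ` is `ℚ`-linear). So `λ (coeff b (a i)) = 0` for all `λ`, `b`, `i`, hence `coeff b (a i) = 0` (`Module.forall_dual_apply_eq_zero_iff` for the vector space `ℝ` over `ℚ`). -/
theorem indep_real {s ρ : ℕ} (F : Fin ρ → MvPowerSeries (Fin s) ℚ)
    (h : ∀ a : Fin ρ → MvPolynomial (Fin s) ℚ, ∑ i, (a i : MvPowerSeries (Fin s) ℚ) * F i = 0 → ∀ i, a i = 0)
    (a : Fin ρ → MvPolynomial (Fin s) ℝ)
    (ha : ∑ i, (a i : MvPowerSeries (Fin s) ℝ) * MvPowerSeries.map (algebraMap ℚ ℝ) (F i) = 0) : ∀ i, a i = 0 := by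
  classical
  have key : ∀ (l : Module.Dual ℚ ℝ) (i : Fin ρ) (b : Fin s →₀ ℕ), l (coeff b (a i)) = 0 := by
    intro l i b
    have h1 : ∑ i, (balg_lam l (a i) : MvPowerSeries (Fin s) ℚ) * F i = 0 := by
      ext d
      have h2 := congrArg (fun f => l (MvPowerSeries.coeff d f)) ha
      change l (MvPowerSeries.coeff d (∑ i, (a i : MvPowerSeries (Fin s) ℝ) *
        MvPowerSeries.map (algebraMap ℚ ℝ) (F i))) = l (MvPowerSeries.coeff d 0) at h2
      rw [map_sum, map_sum, map_zero, map_zero] at h2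
      rw [map_sum, map_zero, ← h2]
      refine Finset.sum_congr rfl fun j _ => ?_
      rw [MvPowerSeries.coeff_mul, MvPowerSeries.coeff_mul, map_sum]
      refine Finset.sum_congr rfl fun x _ => ?_
      rw [MvPolynomial.coeff_coe, MvPolynomial.coeff_coe, MvPowerSeries.coeff_map,
        balg_coeff, eq_ratCast]
      have h3 : coeff x.1 (a j) * ((MvPowerSeries.coeff x.2 (F j) : ℚ) : ℝ) =
          (MvPowerSeries.coeff x.2 (F j) : ℚ) • coeff x.1 (a j) := by
        rw [Rat.smul_def, mul_comm]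
      rw [h3, map_smul, smul_eq_mul, mul_comm]
    have h4 := h (fun i => balg_lam l (a i)) h1 i
    have h5 := congrArg (coeff b) h4
    rw [balg_coeff, coeff_zero] at h5
    exact h5
  intro i
  refine MvPolynomial.ext _ _ fun b => ?_
  rw [coeff_zero]
  exact (Module.forall_dual_apply_eq_zero_iff ℚ (coeff b (a i))).1 fun l => key l i b

end Pool.Agent.Lib.MP_bbe012_lc.PG
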