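import Pool.Agent.Lib.MP_bbe012_lc.PG.ADefs
import Pool.Agent.Lib.MP_bbe012_lc.PP.RedDefs

/-!
# Families of denominators and the functions given by integrals

A family of `μ`-tuples of polynomials in `n` variables with `s` parameters is given by `D : Fin μ → Pz s n`, where `Pz s n` is the
ring of polynomials in the parameters `θ_1, ..., θ_s` and the variables `x_1, ..., x_n`. The base point is `e ∈ ℚ^s` with `D_k(e, x) = 1`.
-/

namespace Pool.Agent.Lib.MP_bbe012_lc.PG

open MvPolynomial MeasureTheory Set PP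

/-- Polynomials in `θ_1, ..., θ_s` and `x_1, ..., x_n`. -/
abbrev Pz (s n : ℕ) := MvPolynomial (Fin s ⊕ Fin n) ℚ

/-- The polynomial `D(θ, x)` in `x`, for given `θ`. -/
noncomputable def spz {s n : ℕ} (D : Pz s n) (θ : Fin s → ℚ) : MvPolynomial (Fin n) ℚ :=
  aeval (Sum.elim (fun i => C (θ i)) X) D

/-- The real number `D(θ, x)`. -/
noncomputable def vl {s n : ℕ} (D : Pz s n) (θ : Fin s → ℝ) (x : Fin n → ℝ) : ℝ :=
  aeval (Sum.elim θ x) D

/-- The real point given by a rational point. -/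
def cst {s : ℕ} (θ : Fin s → ℚ) : Fin s → ℝ := fun i => (θ i : ℝ)

/-- The points of the segment from `e` to `θ`. -/
def seg {s : ℕ} (e θ : Fin s → ℝ) (t : ℝ) : Fin s → ℝ := fun i => e i + t * (θ i - e i)

/-- The parameters for which all `D_k(θ, x)` are positive on the cube. -/
def Pos {s n μ : ℕ} (D : Fin μ → Pz s n) : Set (Fin s → ℝ) :=
  {θ | ∀ k, ∀ x ∈ Icc (0 : Fin n → ℝ) 1, 0 < vl (D k) θ x}

/-- The parameters `θ` such that the segment from `e` to `θ` consists of points for which all `D_k` are positive on the cube. -/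
def Reg {s n μ : ℕ} (D : Fin μ → Pz s n) (e : Fin s → ℝ) : Set (Fin s → ℝ) :=
  {θ | ∀ t ∈ Icc (0 : ℝ) 1, seg e θ t ∈ Pos D}

/-- Patterns: for each of the `A` factors, the exponents of a monomial in `x_1, ..., x_n` and the exponents of the denominators. -/
abbrev Pat (n μ A : ℕ) := Fin A → (Fin n → Fin (A + 1)) × (Fin μ → Fin (A + 1))

/-- The product of the integrals over `[0,1]^n` of `x ^ a_i / ∏ k, D_k(θ, x) ^ κ_(i,k)`, written as one integral. -/
noncomputable def VV {s n μ : ℕ} (D : Fin μ → Pz s n) (A : ℕ) (p : Pat n μ A) (θ : Fin s → ℝ) : ℝ :=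
  ∫ x in Icc (0 : Fin (A * n) → ℝ) 1, ∏ i : Fin A,
    ((∏ l, bco n A i x l ^ ((p i).1 l : ℕ)) / ∏ k, vl (D k) θ (bco n A i x) ^ ((p i).2 k : ℕ))

end Pool.Agent.Lib.MP_bbe012_lc.PG
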