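import Pool.Agent.Lib.MP_bbe012_lc.PG.BDefs

/-!
# Analyticity of integrals depending on one parameter
-/

namespace Pool.Agent.Lib.MP_bbe012_lc.PG

open MeasureTheory Set

private theorem bseg_an {s : ℕ} (θ θ' : Fin s → ℝ) (i : Fin s) :
    AnalyticOnNhd ℝ (fun t => seg θ θ' t i) (Icc 0 1) := by
  have h1 : (fun t => seg θ θ' t i) = fun t => θ i + t * (θ' i - θ i) := rfl
  rw [h1]
  exact fun t _ => analyticAt_const.add (analyticAt_id.mul analyticAt_const)

private theorem bseg_diff {N : ℕ} (A C : ℂ → (Fin N → ℝ) → ℂ)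
    (hA : Continuous fun p : ℂ × (Fin N → ℝ) => A p.1 p.2)
    (hC : Continuous fun p : ℂ × (Fin N → ℝ) => C p.1 p.2)
    (hAd : ∀ x, Differentiable ℂ fun z => A z x) (hCd : ∀ x, Differentiable ℂ fun z => C z x)
    (hW : IsOpen {z : ℂ | ∀ x ∈ Icc (0 : Fin N → ℝ) 1, C z x ≠ 0}) (z₀ : ℂ)
    (hz₀ : ∀ x ∈ Icc (0 : Fin N → ℝ) 1, C z₀ x ≠ 0) :
    DifferentiableAt ℂ (fun z => ∫ x in Icc (0 : Fin N → ℝ) 1, A z x / C z x) z₀ := by
  obtain ⟨r, hr, hrW⟩ := Metric.nhds_basis_closedBall.mem_iff.1 (hW.mem_nhds hz₀)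
  -- the bound
  have hcont : ContinuousOn (fun p : ℂ × (Fin N → ℝ) => A p.1 p.2 / C p.1 p.2)
      (Metric.closedBall z₀ r ×ˢ Icc (0 : Fin N → ℝ) 1) :=
    hA.continuousOn.div hC.continuousOn fun p hp => hrW hp.1 p.2 hp.2
  obtain ⟨M, hM⟩ := ((isCompact_closedBall z₀ r).prod isCompact_Icc).exists_bound_of_continuousOn
    hcont
  -- the derivative
  have hder : ∀ z ∈ Metric.closedBall z₀ r, ∀ x ∈ Icc (0 : Fin N → ℝ) 1,
      HasDerivAt (fun z => A z x / C z x)
        ((deriv (fun z => A z x) z * C z x - A z x * deriv (fun z => C z x) z) / C z x ^ 2) z :=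
    fun z hz x hx => ((hAd x) z).hasDerivAt.fun_div ((hCd x) z).hasDerivAt (hrW hz x hx)
  have hbd : ∀ z ∈ Metric.ball z₀ (r / 2), ∀ x ∈ Icc (0 : Fin N → ℝ) 1,
      ‖(deriv (fun z => A z x) z * C z x - A z x * deriv (fun z => C z x) z) / C z x ^ 2‖ ≤
        M / (r / 2) := by
    intro z hz x hx
    have hz1 : dist z z₀ < r / 2 := hz
    have hsub : Metric.closedBall z (r / 2) ⊆ Metric.closedBall z₀ r := by
      intro w hw
      have hw1 : dist w z ≤ r / 2 := hw
      have := dist_triangle w z z₀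
      exact Metric.mem_closedBall.2 (by linarith)
    have hzr : z ∈ Metric.closedBall z₀ r := hsub (Metric.mem_closedBall_self (by linarith))
    rw [← (hder z hzr x hx).deriv]
    refine Complex.norm_deriv_le_of_forall_mem_sphere_norm_le (by linarith) ?_ ?_
    · refine DifferentiableOn.diffContOnCl ?_
      rw [closure_ball z (by linarith : r / 2 ≠ 0)]
      intro w hw
      exact (hder w (hsub hw) x hx).differentiableAt.differentiableWithinAt
    · intro w hw
      exact hM (w, x) ⟨hsub (Metric.sphere_subset_closedBall hw), hx⟩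
  have hmeas : ∀ z, Measurable fun x => A z x / C z x := fun z =>
    (hA.comp (Continuous.prodMk_right z)).measurable.div
      (hC.comp (Continuous.prodMk_right z)).measurable
  have hmA : Measurable fun x => deriv (fun z => A z x) z₀ := by
    have h1 : Continuous (Function.uncurry fun (x : Fin N → ℝ) (z : ℂ) => A z x) :=
      hA.comp continuous_swap
    exact (measurable_deriv_with_param h1).comp measurable_prodMk_right
  have hmC : Measurable fun x => deriv (fun z => C z x) z₀ := by
    have h1 : Continuous (Function.uncurry fun (x : Fin N → ℝ) (z : ℂ) => C z x) :=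
      hC.comp continuous_swap
    exact (measurable_deriv_with_param h1).comp measurable_prodMk_right
  have hfin : IsFiniteMeasure (volume.restrict (Icc (0 : Fin N → ℝ) 1)) :=
    ⟨by rw [Measure.restrict_apply_univ]; exact isCompact_Icc.measure_lt_top⟩
  refine (hasDerivAt_integral_of_dominated_loc_of_deriv_le (μ := volume.restrict
    (Icc (0 : Fin N → ℝ) 1)) (s := Metric.ball z₀ (r / 2))
    (F := fun z x => A z x / C z x)
    (F' := fun z x => (deriv (fun z => A z x) z * C z x - A z x * deriv (fun z => C z x) z) /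
      C z x ^ 2) (bound := fun _ => M / (r / 2)) (x₀ := z₀)
    (Metric.ball_mem_nhds z₀ (by linarith)) ?_ ?_ ?_ ?_ ?_ ?_).2.differentiableAt
  · exact Filter.Eventually.of_forall fun z => (hmeas z).aestronglyMeasurable
  · refine Integrable.of_bound (hmeas z₀).aestronglyMeasurable M ?_
    exact (ae_restrict_mem measurableSet_Icc).mono fun x hx =>
      hM (z₀, x) ⟨Metric.mem_closedBall_self hr.le, hx⟩
  · refine Measurable.aestronglyMeasurable ?_
    have hA0 : Measurable fun x => A z₀ x := (hA.comp (Continuous.prodMk_right z₀)).measurable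
    have hC0 : Measurable fun x => C z₀ x := (hC.comp (Continuous.prodMk_right z₀)).measurable
    exact ((hmA.mul hC0).sub (hA0.mul hmC)).div (hC0.pow_const 2)
  · exact (ae_restrict_mem measurableSet_Icc).mono fun x hx z hz => hbd z hz x hx
  · exact integrable_const _
  · refine (ae_restrict_mem measurableSet_Icc).mono fun x hx z hz => hder z ?_ x hx
    exact Metric.closedBall_subset_closedBall (by linarith) (Metric.ball_subset_closedBall hz)

/-- Integrals over the cube of quotients are analytic functions of the parameter.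

Proof. Let `X = Icc 0 1` (compact) and `W = {z : ℂ | ∀ x ∈ X, C z x ≠ 0}`: it is open (the complement is the image of the closed set `{(z, x) | x ∈ X, C z x = 0}` under the projection along the compact `X`; or `IsCompact`/`generalized_tube_lemma`; or `isOpen_iff_mem_nhds` with `IsCompact.eventually_forall_of_forall_eventually`).
It contains `[0,1]` (`hc`, `hne`). On `W` the function `F z = ∫ x in X, A z x / C z x` is complex differentiable: `hasDerivAt_integral_of_dominated_loc_of_deriv_le` on a small closed ball in `W`; the derivative in `z` of `f z x = A z x / C z x` is bounded on the half ball by Cauchy's estimate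
(`Complex.norm_deriv_le_of_forall_mem_sphere_norm_le`), as `f` is continuous, hence bounded, on (closed ball) × X; measurability of the derivative at `z₀` as a function of `x`: limit of the measurable difference quotients along `z₀ + 1/k` (`aestronglyMeasurable_of_tendsto_ae`), or continuity by the Cauchy integral formula.
So `F` is differentiable on the open set `W`, hence analytic there (`DifferentiableOn.analyticAt`), and `t ↦ (F t).re` is real analytic at the points of `[0,1]` (`AnalyticAt.re_ofReal`); by `ha`, `hc` and `integral_ofReal` it is the given function. -/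
theorem segAn_integral {N : ℕ} (A C : ℂ → (Fin N → ℝ) → ℂ) (a c : ℝ → (Fin N → ℝ) → ℝ)
    (hA : Continuous fun p : ℂ × (Fin N → ℝ) => A p.1 p.2) (hC : Continuous fun p : ℂ × (Fin N → ℝ) => C p.1 p.2)
    (hAd : ∀ x, Differentiable ℂ fun z => A z x) (hCd : ∀ x, Differentiable ℂ fun z => C z x)
    (ha : ∀ (t : ℝ) (x : Fin N → ℝ), A t x = a t x) (hc : ∀ (t : ℝ) (x : Fin N → ℝ), C t x = c t x)
    (hne : ∀ t ∈ Icc (0 : ℝ) 1, ∀ x ∈ Icc (0 : Fin N → ℝ) 1, c t x ≠ 0) :
    AnalyticOnNhd ℝ (fun t : ℝ => ∫ x in Icc (0 : Fin N → ℝ) 1, a t x / c t x) (Icc 0 1) := by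
  obtain ⟨F, hF⟩ : ∃ F : ℂ → ℂ, ∀ z, F z = ∫ x in Icc (0 : Fin N → ℝ) 1, A z x / C z x :=
    ⟨_, fun _ => rfl⟩
  have hW : IsOpen {z : ℂ | ∀ x ∈ Icc (0 : Fin N → ℝ) 1, C z x ≠ 0} := by
    rw [isOpen_iff_mem_nhds]
    intro z hz
    exact isCompact_Icc.eventually_forall_of_forall_eventually fun x hx =>
      hC.continuousAt.eventually_ne (hz x hx)
  have hFd : DifferentiableOn ℂ F {z : ℂ | ∀ x ∈ Icc (0 : Fin N → ℝ) 1, C z x ≠ 0} := by
    intro z hz
    have h1 := bseg_diff A C hA hC hAd hCd hW z hz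
    have h2 : F = fun z => ∫ x in Icc (0 : Fin N → ℝ) 1, A z x / C z x := funext hF
    rw [h2]
    exact h1.differentiableWithinAt
  have hre : (fun t : ℝ => ∫ x in Icc (0 : Fin N → ℝ) 1, a t x / c t x) =
      fun t : ℝ => (F t).re := by
    funext t
    have h1 : F t = ((∫ x in Icc (0 : Fin N → ℝ) 1, a t x / c t x : ℝ) : ℂ) := by
      rw [hF, ← integral_complex_ofReal]
      refine integral_congr_ae (Filter.Eventually.of_forall fun x => ?_)
      change A t x / C t x = ((a t x / c t x : ℝ) : ℂ)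
      rw [ha, hc, Complex.ofReal_div]
    rw [h1, Complex.ofReal_re]
  rw [hre]
  intro t ht
  have hz : (t : ℂ) ∈ {z : ℂ | ∀ x ∈ Icc (0 : Fin N → ℝ) 1, C z x ≠ 0} := by
    intro x hx
    rw [hc]
    exact Complex.ofReal_ne_zero.2 (hne t ht x hx)
  exact (hFd.analyticAt (hW.mem_nhds hz)).re_ofReal

/-- The identity principle on `[0,1]`. Proof: `AnalyticOnNhd.eqOn_zero_of_preconnected_of_frequently_eq_zero`, `isPreconnected_Icc`. -/
theorem segAn_zero {g : ℝ → ℝ} (hg : AnalyticOnNhd ℝ g (Icc 0 1)) (h0 : ∃ᶠ t in nhdsWithin (0 : ℝ) (Ioi 0), g t = 0) :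
    ∀ t ∈ Icc (0 : ℝ) 1, g t = 0 := by
  have h1 : ∃ᶠ t in nhdsWithin (0 : ℝ) {0}ᶜ, g t = 0 :=
    h0.filter_mono (nhdsWithin_mono _ fun t ht => (ne_of_gt ht : t ≠ 0))
  intro t ht
  exact hg.eqOn_zero_of_preconnected_of_frequently_eq_zero isPreconnected_Icc
    (left_mem_Icc.2 zero_le_one) h1 ht

/-- Polynomials on a segment. Proof: `t ↦ aeval (seg θ θ' t) q` is a polynomial function of `t` (induction on `q`: `AnalyticAt` of constants, of `t ↦ θ i + t * (θ' i - θ i)`, sums and products). -/
theorem segAn_poly {s : ℕ} (q : MvPolynomial (Fin s) ℚ) (θ θ' : Fin s → ℝ) :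
    AnalyticOnNhd ℝ (fun t => MvPolynomial.aeval (seg θ θ' t) q) (Icc 0 1) := by
  exact AnalyticOnNhd.aeval_mvPolynomial (fun i => bseg_an θ θ' i) q

/-- The same for real coefficients. -/
theorem segAn_polyR {s : ℕ} (q : MvPolynomial (Fin s) ℝ) (θ θ' : Fin s → ℝ) :
    AnalyticOnNhd ℝ (fun t => MvPolynomial.eval (seg θ θ' t) q) (Icc 0 1) := by
  have h1 : AnalyticOnNhd ℝ (fun t => MvPolynomial.aeval (seg θ θ' t) q) (Icc 0 1) :=
    AnalyticOnNhd.aeval_mvPolynomial (fun i => bseg_an θ θ' i) q
  have h2 : (fun t => MvPolynomial.eval (seg θ θ' t) q) =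
      fun t => MvPolynomial.aeval (seg θ θ' t) q := by
    funext t
    rw [MvPolynomial.aeval_eq_eval]
  rw [h2]
  exact h1

end Pool.Agent.Lib.MP_bbe012_lc.PG
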