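import Pool.Agent.Lib.MP_bbe012_lc.PG.BInt
import Pool.Agent.Lib.MP_bbe012_lc.PG.BSeg

/-!
# The functions given by integrals are analytic
-/

namespace Pool.Agent.Lib.MP_bbe012_lc.PG

open MvPolynomial MeasureTheory Set PP

/-- Proof: a polynomial function is continuous (induction on `D`, or `MvPolynomial.continuous_eval` after `aeval_def`, `eval₂_eq_eval_map`, composed with the continuous map `(θ, x) ↦ Sum.elim θ x`). -/
theorem vl_cont {s n : ℕ} (D : Pz s n) : Continuous fun p : (Fin s → ℝ) × (Fin n → ℝ) => vl D p.1 p.2 := by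
  unfold vl
  induction D using MvPolynomial.induction_on with
  | C a =>
    simp only [aeval_C]
    exact continuous_const
  | add p q hp hq =>
    simp only [map_add]
    exact hp.add hq
  | mul_X p i hp =>
    simp only [map_mul, aeval_X]
    refine hp.mul ?_
    rcases i with i | l
    · exact (continuous_apply i).comp continuous_fst
    · exact (continuous_apply l).comp continuous_snd

/-- Proof: induction on `D`, or uniqueness of algebra homomorphisms (`MvPolynomial.algHom_ext`; `Sum.elim`). -/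
theorem vl_spz {s n : ℕ} (D : Pz s n) (θ : Fin s → ℚ) (x : Fin n → ℝ) : vl D (cst θ) x = aeval x (spz D θ) := by
  unfold vl spz
  induction D using MvPolynomial.induction_on with
  | C a => rw [aeval_C, aeval_C, AlgHom.commutes]
  | add p q hp hq => rw [map_add, map_add, map_add, hp, hq]
  | mul_X p i hp =>
    rw [map_mul, map_mul, map_mul, hp, aeval_X, aeval_X]
    congr 1
    rcases i with i | l
    · rw [Sum.elim_inl, Sum.elim_inl, aeval_C]
      rfl
    · rw [Sum.elim_inr, Sum.elim_inr, aeval_X]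

/-- Proof: the cube is compact (`IsCompact.eventually_forall_of_forall_eventually`, or the tube lemma) and `vl` is continuous. -/
theorem isOpen_Pos {s n μ : ℕ} (D : Fin μ → Pz s n) : IsOpen (Pos D) := by
  have h1 : Pos D = ⋂ k : Fin μ, {θ | ∀ x ∈ Icc (0 : Fin n → ℝ) 1, 0 < vl (D k) θ x} := by
    ext θ
    simp only [Pos, mem_ofPred_eq, mem_iInter]
  rw [h1]
  refine isOpen_iInter_of_finite fun k => ?_
  rw [isOpen_iff_mem_nhds]
  intro θ hθ
  refine isCompact_Icc.eventually_forall_of_forall_eventually fun x hx => ?_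
  exact (vl_cont (D k)).continuousAt.eventually (lt_mem_nhds (hθ x hx))

theorem base_Pos {s n μ : ℕ} {D : Fin μ → Pz s n} {e : Fin s → ℚ} (hD : ∀ k, spz (D k) e = 1) : cst e ∈ Pos D := by
  intro k x hx
  rw [vl_spz, hD k, map_one]
  exact one_pos

theorem base_Reg {s n μ : ℕ} {D : Fin μ → Pz s n} {e : Fin s → ℚ} (hD : ∀ k, spz (D k) e = 1) :
    cst e ∈ Reg D (cst e) := by
  intro t ht
  have h1 : seg (cst e) (cst e) t = cst e := by
    funext i
    show cst e i + t * (cst e i - cst e i) = cst e i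
    ring
  rw [h1]
  exact base_Pos hD

/-- Proof: `t = 1`. -/
theorem Reg_sub_Pos {s n μ : ℕ} {D : Fin μ → Pz s n} {e : Fin s → ℝ} : Reg D e ⊆ Pos D := by
  intro θ hθ
  have h1 : seg e θ 1 = θ := by
    funext i
    show e i + 1 * (θ i - e i) = θ i
    ring
  have h2 := hθ 1 ⟨zero_le_one, le_refl 1⟩
  rwa [h1] at h2

/-- Proof: `seg e θ t` for `t ∈ [0,1]`, and `seg e (seg e θ t) u = seg e θ (t u)`. -/
theorem seg_Reg {s n μ : ℕ} {D : Fin μ → Pz s n} {e θ : Fin s → ℝ} (h : θ ∈ Reg D e) {t : ℝ} (ht : t ∈ Icc (0 : ℝ) 1) :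
    seg e θ t ∈ Reg D e := by
  intro u hu
  have h1 : seg e (seg e θ t) u = seg e θ (t * u) := by
    funext i
    show e i + u * (e i + t * (θ i - e i) - e i) = e i + t * u * (θ i - e i)
    ring
  rw [h1]
  exact h (t * u) ⟨mul_nonneg ht.1 hu.1, mul_le_one₀ ht.2 hu.1 hu.2⟩

/-- Proof: the minimum of a continuous positive function on the compact set `S ×ˢ Icc 0 1`, for each `k` (`δ = 1` if it is empty), and the minimum over `k`. -/
theorem Pos_delta {s n μ : ℕ} {D : Fin μ → Pz s n} {S : Set (Fin s → ℝ)} (hS : IsCompact S) (hSP : S ⊆ Pos D) :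
    ∃ δ : ℝ, 0 < δ ∧ ∀ θ ∈ S, ∀ k, ∀ x ∈ Icc (0 : Fin n → ℝ) 1, δ ≤ vl (D k) θ x := by
  have h1 : ∀ k : Fin μ, ∃ δ : ℝ, 0 < δ ∧ ∀ θ ∈ S, ∀ x ∈ Icc (0 : Fin n → ℝ) 1,
      δ ≤ vl (D k) θ x := by
    intro k
    rcases (S ×ˢ Icc (0 : Fin n → ℝ) 1).eq_empty_or_nonempty with h | h
    · refine ⟨1, one_pos, fun θ hθ x hx => ?_⟩
      exact absurd (Set.mk_mem_prod hθ hx) (by rw [h]; exact Set.notMem_empty _)
    · obtain ⟨y, hy, hmin⟩ := (hS.prod isCompact_Icc).exists_isMinOn h
        (vl_cont (D k)).continuousOn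
      exact ⟨vl (D k) y.1 y.2, hSP hy.1 k y.2 hy.2, fun θ hθ x hx =>
        hmin (Set.mk_mem_prod hθ hx)⟩
  choose δ hδ0 hδ using h1
  rcases isEmpty_or_nonempty (Fin μ) with h | h
  · exact ⟨1, one_pos, fun θ _ k => h.elim k⟩
  · obtain ⟨k₀, _, hk₀⟩ := Finset.exists_min_image (Finset.univ : Finset (Fin μ)) δ
      Finset.univ_nonempty
    exact ⟨δ k₀, hδ0 k₀, fun θ hθ k x hx =>
      (hk₀ k (Finset.mem_univ k)).trans (hδ k θ hθ x hx)⟩

private theorem bfam_mem {n A : ℕ} (i : Fin A) {x : Fin (A * n) → ℝ}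
    (hx : x ∈ Icc (0 : Fin (A * n) → ℝ) 1) : bco n A i x ∈ Icc (0 : Fin n → ℝ) 1 :=
  ⟨fun l => hx.1 (finProdFinEquiv (i, l)), fun l => hx.2 (finProdFinEquiv (i, l))⟩

private theorem bfam_pow {s n μ A : ℕ} {D : Fin μ → Pz s n} {e : Fin s → ℚ}
    (hD : ∀ k, spz (D k) e = 1) {S : Set (Fin s → ℝ)}
    (hS : IsCompact S) (he : cst e ∈ S) {δ : ℝ} (hδ : 0 < δ)
    (hSδ : ∀ θ ∈ S, ∀ k, ∀ x ∈ Icc (0 : Fin n → ℝ) 1, δ ≤ vl (D k) θ x)
    {f : (Fin s → ℝ) → (Fin (A * n) → ℝ) → ℝ} (hf : OkX S (cst e) (A * n) f)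
    (i : Fin A) (k : Fin μ) (κ : ℕ) :
    OkX S (cst e) (A * n) (fun θ x => f θ x / vl (D k) θ (bco n A i x) ^ κ) := by
  induction κ with
  | zero =>
    have h1 : (fun (θ : Fin s → ℝ) (x : Fin (A * n) → ℝ) =>
        f θ x / vl (D k) θ (bco n A i x) ^ 0) = f := by
      funext θ x
      rw [pow_zero, div_one]
    rw [h1]
    exact hf
  | succ κ ih =>
    have h1 : (fun (θ : Fin s → ℝ) (x : Fin (A * n) → ℝ) =>
        f θ x / vl (D k) θ (bco n A i x) ^ (κ + 1)) =
        fun θ x => (f θ x / vl (D k) θ (bco n A i x) ^ κ) /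
          vl (D k) θ (fun l => x (finProdFinEquiv (i, l))) := by
      funext θ x
      rw [pow_succ, div_div]
      rfl
    rw [h1]
    exact OkX.div hS he ih (D k) (fun l => finProdFinEquiv (i, l)) (hD k) hδ
      (fun θ hθ x hx => hSδ θ hθ k (bco n A i x) (bfam_mem i hx))

private theorem bfam_prod {s n μ A : ℕ} {D : Fin μ → Pz s n} {e : Fin s → ℚ}
    (hD : ∀ k, spz (D k) e = 1) {S : Set (Fin s → ℝ)}
    (hS : IsCompact S) (he : cst e ∈ S) {δ : ℝ} (hδ : 0 < δ)
    (hSδ : ∀ θ ∈ S, ∀ k, ∀ x ∈ Icc (0 : Fin n → ℝ) 1, δ ≤ vl (D k) θ x)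
    {f : (Fin s → ℝ) → (Fin (A * n) → ℝ) → ℝ} (hf : OkX S (cst e) (A * n) f)
    (κ : Fin A × Fin μ → ℕ) (U : Finset (Fin A × Fin μ)) :
    OkX S (cst e) (A * n)
      (fun θ x => f θ x / ∏ z ∈ U, vl (D z.2) θ (bco n A z.1 x) ^ κ z) := by
  classical
  induction U using Finset.induction_on with
  | empty =>
    have h1 : (fun (θ : Fin s → ℝ) (x : Fin (A * n) → ℝ) =>
        f θ x / ∏ z ∈ (∅ : Finset (Fin A × Fin μ)), vl (D z.2) θ (bco n A z.1 x) ^ κ z) = f := by
      funext θ x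
      rw [Finset.prod_empty, div_one]
    rw [h1]
    exact hf
  | insert z U hz ih =>
    have h1 : (fun (θ : Fin s → ℝ) (x : Fin (A * n) → ℝ) =>
        f θ x / ∏ z ∈ insert z U, vl (D z.2) θ (bco n A z.1 x) ^ κ z) =
        fun θ x => (f θ x / ∏ z ∈ U, vl (D z.2) θ (bco n A z.1 x) ^ κ z) /
          vl (D z.2) θ (bco n A z.1 x) ^ κ z := by
      funext θ x
      rw [Finset.prod_insert hz, div_div, mul_comm]
    rw [h1]
    exact bfam_pow hD hS he hδ hSδ ih z.1 z.2 (κ z)

/-- Proof. The numerator `∏ i, ∏ l, x (finProdFinEquiv (i, l)) ^ a` is a polynomial (`OkX.poly`); divide successively by the factors `vl (D k) θ (bco n A i x)` (`bco n A i x = fun l => x (finProdFinEquiv (i, l))` by definition, `bco_mem`, `Pos_delta`, `OkX.div`): induction on the exponent for the powers,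
`Finset.induction_on` for the product over the pairs `(i, k)`; `Finset.prod_div_distrib`, `Fintype.prod_prod_type`, `div_div`. -/
theorem VV_ok {s n μ A : ℕ} {D : Fin μ → Pz s n} {e : Fin s → ℚ} (hD : ∀ k, spz (D k) e = 1) {S : Set (Fin s → ℝ)}
    (hS : IsCompact S) (hSP : S ⊆ Pos D) (he : cst e ∈ S) (p : Pat n μ A) :
    OkX S (cst e) (A * n) (fun θ x => ∏ i : Fin A,
      ((∏ l, bco n A i x l ^ ((p i).1 l : ℕ)) / ∏ k, vl (D k) θ (bco n A i x) ^ ((p i).2 k : ℕ))) := by
  obtain ⟨δ, hδ, hSδ⟩ := Pos_delta hS hSP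
  have h1 := bfam_prod hD hS he hδ hSδ
    (OkX.poly S (cst e) (A * n) (∏ i : Fin A, ∏ l : Fin n,
      (X (finProdFinEquiv (i, l)) : MvPolynomial (Fin (A * n)) ℚ) ^ ((p i).1 l : ℕ)))
    (fun z => ((p z.1).2 z.2 : ℕ)) Finset.univ
  have h2 : (fun (θ : Fin s → ℝ) (x : Fin (A * n) → ℝ) => ∏ i : Fin A,
      ((∏ l, bco n A i x l ^ ((p i).1 l : ℕ)) /
        ∏ k, vl (D k) θ (bco n A i x) ^ ((p i).2 k : ℕ))) =
      fun θ x => aeval x (∏ i : Fin A, ∏ l : Fin n,
        (X (finProdFinEquiv (i, l)) : MvPolynomial (Fin (A * n)) ℚ) ^ ((p i).1 l : ℕ)) /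
        ∏ z : Fin A × Fin μ, vl (D z.2) θ (bco n A z.1 x) ^ ((p z.1).2 z.2 : ℕ) := by
    funext θ x
    rw [Finset.prod_div_distrib, Fintype.prod_prod_type, map_prod]
    congr 1
    refine Finset.prod_congr rfl fun i _ => ?_
    rw [map_prod]
    refine Finset.prod_congr rfl fun l _ => ?_
    rw [map_pow, aeval_X]
    rfl
  rw [h2]
  exact h1

/-- Uniform expansions of `VV D A p` on compact sets of parameters. Proof: `VV_ok` for `S ∪ {cst e}` and `OkX.int`; restrict to `S`. -/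
theorem VV_la {s n μ A : ℕ} {D : Fin μ → Pz s n} {e : Fin s → ℚ} (hD : ∀ k, spz (D k) e = 1) {S : Set (Fin s → ℝ)}
    (hS : IsCompact S) (hSP : S ⊆ Pos D) (p : Pat n μ A) :
    ∃ (r B : ℝ) (m : (Fin s → ℝ) → (Fin s → ℕ) → ℝ), 0 < r ∧ 0 ≤ B ∧ LA S r B (VV D A p) m := by
  have hS' : IsCompact (S ∪ {cst e}) := hS.union isCompact_singleton
  have hSP' : S ∪ {cst e} ⊆ Pos D := by
    rintro θ (h | h)
    · exact hSP h
    · rw [h]
      exact base_Pos hD
  obtain ⟨r, B, m, hr, hB, hla, -⟩ :=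
    (VV_ok hD hS' hSP' (Set.mem_union_right S rfl) p).int
  exact ⟨r, B, m, hr, hB, ⟨fun b => (hla.cont b).mono Set.subset_union_left,
    fun θ hθ => hla.exp θ (Set.mem_union_left _ hθ)⟩⟩

/-- The expansion at the base point has rational coefficients. Proof: `VV_ok` for `S = {cst e}`, `OkX.int`. -/
theorem VV_base {s n μ A : ℕ} {D : Fin μ → Pz s n} {e : Fin s → ℚ} (hD : ∀ k, spz (D k) e = 1) (p : Pat n μ A) :
    ∃ (r B : ℝ) (ν : (Fin s → ℕ) → ℚ), 0 < r ∧ 0 ≤ B ∧ Exp r B (cst e) (VV D A p) (fun b => (ν b : ℝ)) := by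
  have hSP' : ({cst e} : Set (Fin s → ℝ)) ⊆ Pos D := by
    rintro θ h
    rw [h]
    exact base_Pos hD
  obtain ⟨r, B, m, hr, hB, hla, hrat⟩ :=
    (VV_ok hD isCompact_singleton hSP' (Set.mem_singleton (cst e)) p).int
  choose ν hν using hrat
  refine ⟨r, B, ν, hr, hB, ?_⟩
  have h1 : m (cst e) = fun b => (ν b : ℝ) := funext hν
  have h2 := hla.exp (cst e) (Set.mem_singleton (cst e))
  rw [h1] at h2
  exact h2

/-- The complex values on the segment. -/
private noncomputable def bfamC {s n : ℕ} (D : Pz s n) (θ θ' : Fin s → ℝ) (z : ℂ)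
    (x : Fin n → ℝ) : ℂ :=
  aeval (Sum.elim (fun j => (θ j : ℂ) + z * ((θ' j : ℂ) - θ j)) (fun l => (x l : ℂ))) D

private theorem bfamC_cont {s n : ℕ} (D : Pz s n) (θ θ' : Fin s → ℝ) :
    Continuous fun p : ℂ × (Fin n → ℝ) => bfamC D θ θ' p.1 p.2 := by
  unfold bfamC
  induction D using MvPolynomial.induction_on with
  | C a =>
    simp only [aeval_C]
    exact continuous_const
  | add p q hp hq =>
    simp only [map_add]
    exact hp.add hq
  | mul_X p i hp =>
    simp only [map_mul, aeval_X]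
    refine hp.mul ?_
    rcases i with i | l
    · exact continuous_const.add (continuous_fst.mul continuous_const)
    · exact Complex.continuous_ofReal.comp ((continuous_apply l).comp continuous_snd)

private theorem bfamC_diff {s n : ℕ} (D : Pz s n) (θ θ' : Fin s → ℝ) (x : Fin n → ℝ) :
    Differentiable ℂ fun z => bfamC D θ θ' z x := by
  unfold bfamC
  induction D using MvPolynomial.induction_on with
  | C a =>
    simp only [aeval_C]
    exact differentiable_const _
  | add p q hp hq =>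
    simp only [map_add]
    exact hp.add hq
  | mul_X p i hp =>
    simp only [map_mul, aeval_X]
    refine hp.mul ?_
    rcases i with i | l
    · exact (differentiable_const _).add (differentiable_id.mul (differentiable_const _))
    · exact differentiable_const _

private theorem bfamC_real {s n : ℕ} (D : Pz s n) (θ θ' : Fin s → ℝ) (t : ℝ) (x : Fin n → ℝ) :
    bfamC D θ θ' t x = (vl D (seg θ θ' t) x : ℂ) := by
  unfold bfamC vl
  induction D using MvPolynomial.induction_on with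
  | C a =>
    rw [aeval_C, aeval_C]
    show ((a : ℚ) : ℂ) = (((a : ℚ) : ℝ) : ℂ)
    rw [Complex.ofReal_ratCast]
  | add p q hp hq => rw [map_add, map_add, hp, hq, Complex.ofReal_add]
  | mul_X p i hp =>
    rw [map_mul, map_mul, hp, aeval_X, aeval_X, Complex.ofReal_mul]
    congr 1
    rcases i with i | l
    · show (θ i : ℂ) + t * ((θ' i : ℂ) - θ i) = ((θ i + t * (θ' i - θ i) : ℝ) : ℂ)
      push_cast
      ring
    · rfl

/-- Analyticity along segments.

Proof. `Finset.prod_div_distrib` and `segAn_integral` with the numerator `∏ i, ∏ l, (x _ : ℂ) ^ a` (constant in `z`) and the denominator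
`C z x = ∏ i, ∏ k, aeval (Sum.elim (fun j => (θ j : ℂ) + z * ((θ' j : ℂ) - θ j)) (fun l => (bco n A i x l : ℂ))) (D k) ^ κ` (continuity and differentiability: induction on the polynomial, or `MvPolynomial` evaluation lemmas; for real `z = t` it is the real value, by
`MvPolynomial.aeval` and the algebra homomorphism `Complex.ofRealAm` / `map_aeval`). The denominators are not zero for `t ∈ [0,1]` by `h` and `bco_mem`. -/
theorem VV_seg {s n μ A : ℕ} {D : Fin μ → Pz s n} (p : Pat n μ A) {θ θ' : Fin s → ℝ}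
    (h : ∀ t ∈ Icc (0 : ℝ) 1, seg θ θ' t ∈ Pos D) :
    AnalyticOnNhd ℝ (fun t => VV D A p (seg θ θ' t)) (Icc 0 1) := by
  have h1 : (fun t => VV D A p (seg θ θ' t)) = fun t : ℝ =>
      ∫ x in Icc (0 : Fin (A * n) → ℝ) 1, (∏ i : Fin A, ∏ l, bco n A i x l ^ ((p i).1 l : ℕ)) /
        ∏ i : Fin A, ∏ k, vl (D k) (seg θ θ' t) (bco n A i x) ^ ((p i).2 k : ℕ) := by
    funext t
    unfold VV
    refine integral_congr_ae (Filter.Eventually.of_forall fun x => ?_)
    exact Finset.prod_div_distrib _ _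
  rw [h1]
  have hb : ∀ i : Fin A, Continuous fun q : ℂ × (Fin (A * n) → ℝ) => (q.1, bco n A i q.2) :=
    fun i => continuous_fst.prodMk (continuous_pi fun l =>
      (continuous_apply (finProdFinEquiv (i, l))).comp continuous_snd)
  refine segAn_integral
    (fun _ x => ∏ i : Fin A, ∏ l, (bco n A i x l : ℂ) ^ ((p i).1 l : ℕ))
    (fun z x => ∏ i : Fin A, ∏ k, bfamC (D k) θ θ' z (bco n A i x) ^ ((p i).2 k : ℕ))
    (fun _ x => ∏ i : Fin A, ∏ l, bco n A i x l ^ ((p i).1 l : ℕ))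
    (fun t x => ∏ i : Fin A, ∏ k, vl (D k) (seg θ θ' t) (bco n A i x) ^ ((p i).2 k : ℕ))
    ?_ ?_ ?_ ?_ ?_ ?_ ?_
  · refine continuous_finsetProd _ fun i _ => continuous_finsetProd _ fun l _ => ?_
    exact (Complex.continuous_ofReal.comp ((continuous_apply (finProdFinEquiv (i, l))).comp
      continuous_snd)).pow _
  · refine continuous_finsetProd _ fun i _ => continuous_finsetProd _ fun k _ => ?_
    exact ((bfamC_cont (D k) θ θ').comp (hb i)).pow _
  · intro x
    exact differentiable_const _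
  · intro x
    refine Differentiable.fun_finsetProd fun i _ => Differentiable.fun_finsetProd fun k _ => ?_
    exact (bfamC_diff (D k) θ θ' (bco n A i x)).pow _
  · intro t x
    push_cast
    rfl
  · intro t x
    push_cast
    refine Finset.prod_congr rfl fun i _ => Finset.prod_congr rfl fun k _ => ?_
    rw [bfamC_real]
  · intro t ht x hx
    refine Finset.prod_ne_zero_iff.2 fun i _ => Finset.prod_ne_zero_iff.2 fun k _ => ?_
    exact pow_ne_zero _ (h t ht k (bco n A i x) (bfam_mem i hx)).ne'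

end Pool.Agent.Lib.MP_bbe012_lc.PG
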