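import Pool.Agent.Lib.MP_bbe012_lc.PG.BLax
import Pool.Agent.Lib.MP_bbe012_lc.PG.BDefs
import Pool.Agent.Lib.MP_bbe012_lc.PP.Sem

/-!
# Expansions with rational coefficients at the base point, and integration
-/

namespace Pool.Agent.Lib.MP_bbe012_lc.PG

open MvPolynomial MeasureTheory Set PP

private def bIntTay {s n : ℕ} (g : (Fin s → ℝ) → (Fin s → ℝ) → (Fin n → ℝ) → ℝ) : Prop :=
  ∃ (J : Finset (Fin s → ℕ)) (w : (Fin s → ℕ) → Pz s n),
    ∀ (θ v : Fin s → ℝ) (x : Fin n → ℝ), g θ v x = ∑ b ∈ J, vl (w b) θ x * mon v b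

private theorem bInt_vl_zero {s n : ℕ} (θ : Fin s → ℝ) (x : Fin n → ℝ) : vl (0 : Pz s n) θ x = 0 := by
  unfold vl
  exact map_zero _

private theorem bInt_vl_add {s n : ℕ} (D D' : Pz s n) (θ : Fin s → ℝ) (x : Fin n → ℝ) :
    vl (D + D') θ x = vl D θ x + vl D' θ x := by
  unfold vl
  exact map_add _ _ _

private theorem bInt_vl_mul {s n : ℕ} (D D' : Pz s n) (θ : Fin s → ℝ) (x : Fin n → ℝ) :
    vl (D * D') θ x = vl D θ x * vl D' θ x := by
  unfold vl
  exact map_mul _ _ _

private theorem bInt_tay_add {s n : ℕ} {g g' : (Fin s → ℝ) → (Fin s → ℝ) → (Fin n → ℝ) → ℝ}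
    (h : bIntTay g) (h' : bIntTay g') : bIntTay (fun θ v x => g θ v x + g' θ v x) := by
  classical
  obtain ⟨J, w, hw⟩ := h
  obtain ⟨J', w', hw'⟩ := h'
  refine ⟨J ∪ J', fun b => (if b ∈ J then w b else 0) + (if b ∈ J' then w' b else 0), ?_⟩
  intro θ v x
  beta_reduce
  rw [hw, hw']
  have h1 : ∑ b ∈ J, vl (w b) θ x * mon v b =
      ∑ b ∈ J ∪ J', vl (if b ∈ J then w b else 0) θ x * mon v b := by
    rw [← Finset.sum_subset (Finset.subset_union_left (s₁ := J) (s₂ := J'))]
    · exact Finset.sum_congr rfl fun b hb => by rw [if_pos hb]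
    · intro b _ hb
      rw [if_neg hb, bInt_vl_zero, zero_mul]
  have h2 : ∑ b ∈ J', vl (w' b) θ x * mon v b =
      ∑ b ∈ J ∪ J', vl (if b ∈ J' then w' b else 0) θ x * mon v b := by
    rw [← Finset.sum_subset (Finset.subset_union_right (s₁ := J) (s₂ := J'))]
    · exact Finset.sum_congr rfl fun b hb => by rw [if_pos hb]
    · intro b _ hb
      rw [if_neg hb, bInt_vl_zero, zero_mul]
  rw [h1, h2, ← Finset.sum_add_distrib]
  exact Finset.sum_congr rfl fun b _ => by rw [bInt_vl_add, add_mul]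

private theorem bInt_mon_single {s : ℕ} (v : Fin s → ℝ) (i : Fin s) :
    mon v (Pi.single i 1) = v i := by
  unfold mon
  rw [Finset.prod_eq_single i]
  · rw [Pi.single_eq_same, pow_one]
  · intro j _ hj
    rw [Pi.single_eq_of_ne hj, pow_zero]
  · intro h
    exact absurd (Finset.mem_univ i) h

private theorem bInt_tay_mulw {s n : ℕ} {g : (Fin s → ℝ) → (Fin s → ℝ) → (Fin n → ℝ) → ℝ}
    (h : bIntTay g) (q : Pz s n) : bIntTay (fun θ v x => g θ v x * vl q θ x) := by
  obtain ⟨J, w, hw⟩ := h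
  refine ⟨J, fun b => w b * q, ?_⟩
  intro θ v x
  beta_reduce
  rw [hw, Finset.sum_mul]
  refine Finset.sum_congr rfl fun b _ => ?_
  rw [bInt_vl_mul]
  ring

private theorem bInt_tay_mulv {s n : ℕ} {g : (Fin s → ℝ) → (Fin s → ℝ) → (Fin n → ℝ) → ℝ}
    (h : bIntTay g) (i : Fin s) : bIntTay (fun θ v x => g θ v x * v i) := by
  classical
  obtain ⟨J, w, hw⟩ := h
  refine ⟨J.image (fun b => b + Pi.single i 1), fun b => w (b - Pi.single i 1), ?_⟩
  intro θ v x
  have hinj : ∀ b ∈ J, ∀ b' ∈ J, b + Pi.single i 1 = b' + Pi.single i 1 → b = b' := by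
    intro b _ b' _ hbb
    exact add_right_cancel hbb
  beta_reduce
  rw [hw, Finset.sum_mul, Finset.sum_image hinj]
  refine Finset.sum_congr rfl fun b _ => ?_
  rw [add_tsub_cancel_right, mon_add, bInt_mon_single]
  ring

private theorem bInt_vl_X_inl {s n : ℕ} (i : Fin s) (θ : Fin s → ℝ) (x : Fin n → ℝ) :
    vl (X (Sum.inl i) : Pz s n) θ x = θ i := by
  unfold vl
  rw [aeval_X, Sum.elim_inl]

private theorem bInt_vl_X_inr {s n : ℕ} (l : Fin n) (θ : Fin s → ℝ) (x : Fin n → ℝ) :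
    vl (X (Sum.inr l) : Pz s n) θ x = x l := by
  unfold vl
  rw [aeval_X, Sum.elim_inr]

/-- Taylor's formula for a polynomial in `θ` and `x`. Proof: induction on `D` (`MvPolynomial.induction_on`): constants and the variables `x_l`: `J = {0}`; `θ_i`: `J = {0, e_i}`, `w 0 = θ_i`, `w e_i = 1`; sums: `J ∪ J'`, with the `w b` replaced by `0` outside of `J`;
products (by a variable, or in general): `J + J'`, `w'' b = ∑ over the pairs (b₁, b₂) ∈ J × J' with b₁ + b₂ = b of w b₁ * w' b₂`, `mon_add`. -/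
theorem taylor {s n : ℕ} (D : Pz s n) : ∃ (J : Finset (Fin s → ℕ)) (w : (Fin s → ℕ) → Pz s n),
    ∀ (θ v : Fin s → ℝ) (x : Fin n → ℝ), vl D (θ + v) x = ∑ b ∈ J, vl (w b) θ x * mon v b := by
  have key : bIntTay (fun θ v x => vl D (θ + v) x) := by
    induction D using MvPolynomial.induction_on with
    | C a =>
      refine ⟨{0}, fun _ => C a, ?_⟩
      intro θ v x
      rw [Finset.sum_singleton]
      have h1 : mon v (0 : Fin s → ℕ) = 1 := by
        unfold mon
        exact Finset.prod_eq_one fun i _ => by rw [Pi.zero_apply, pow_zero]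
      rw [h1, mul_one]
      unfold vl
      beta_reduce
      rw [aeval_C, aeval_C]
    | add p q hp hq =>
      obtain ⟨J, w, hw⟩ := bInt_tay_add hp hq
      refine ⟨J, w, ?_⟩
      intro θ v x
      beta_reduce
      rw [bInt_vl_add, ← hw]
    | mul_X p i hp =>
      rcases i with i | l
      · obtain ⟨J, w, hw⟩ := bInt_tay_add (bInt_tay_mulw hp (X (Sum.inl i))) (bInt_tay_mulv hp i)
        refine ⟨J, w, ?_⟩
        intro θ v x
        beta_reduce
        rw [bInt_vl_mul, bInt_vl_X_inl, ← hw]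
        beta_reduce
        rw [bInt_vl_X_inl, Pi.add_apply, mul_add]
      · obtain ⟨J, w, hw⟩ := bInt_tay_mulw hp (X (Sum.inr l))
        refine ⟨J, w, ?_⟩
        intro θ v x
        beta_reduce
        rw [bInt_vl_mul, bInt_vl_X_inr, ← hw]
        beta_reduce
        rw [bInt_vl_X_inr]
  exact key

private theorem bInt_cont {σ : Type} [Finite σ] (p : MvPolynomial σ ℚ) :
    Continuous fun x : σ → ℝ => (aeval x p : ℝ) := by
  have h1 : (fun x : σ → ℝ => (aeval x p : ℝ)) = fun x => eval x (map (algebraMap ℚ ℝ) p) := by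
    funext x
    rw [aeval_def, eval₂_eq_eval_map]
  rw [h1]
  exact MvPolynomial.continuous_eval _

private theorem bInt_vl_cont {s n N : ℕ} (D : Pz s n) (ρ : Fin n → Fin N) :
    Continuous fun p : (Fin s → ℝ) × (Fin N → ℝ) => vl D p.1 (fun l => p.2 (ρ l)) := by
  have h1 : Continuous fun p : (Fin s → ℝ) × (Fin N → ℝ) =>
      (Sum.elim p.1 (fun l => p.2 (ρ l)) : Fin s ⊕ Fin n → ℝ) := by
    refine continuous_pi fun i => ?_
    rcases i with i | l
    · exact (continuous_apply i).comp continuous_fst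
    · exact (continuous_apply (ρ l)).comp continuous_snd
  exact (bInt_cont D).comp h1

private theorem bInt_vl_spz {s n : ℕ} (D : Pz s n) (θ : Fin s → ℚ) (x : Fin n → ℝ) :
    vl D (cst θ) x = aeval x (spz D θ) := by
  unfold vl spz
  rw [comp_aeval_apply]
  congr 2
  funext i
  rcases i with i | l
  · rw [Sum.elim_inl, Sum.elim_inl, aeval_C]
    rfl
  · rw [Sum.elim_inr, Sum.elim_inr, aeval_X]

/-- Functions of `(θ, x)`, `x` in the cube of dimension `N`, with uniform expansions on `S`, and with coefficients in `ℚ[x]` at `e`. -/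
def OkX {s : ℕ} (S : Set (Fin s → ℝ)) (e : Fin s → ℝ) (N : ℕ) (f : (Fin s → ℝ) → (Fin N → ℝ) → ℝ) : Prop :=
  ∃ (r B : ℝ) (m : (Fin s → ℝ) → (Fin N → ℝ) → (Fin s → ℕ) → ℝ), 0 < r ∧ 0 ≤ B ∧
    LAX S (Icc (0 : Fin N → ℝ) 1) r B f m ∧
    ∀ b, ∃ p : MvPolynomial (Fin N) ℚ, ∀ x ∈ Icc (0 : Fin N → ℝ) 1, m e x b = aeval x p

/-- Proof: `LAX.of_const`; polynomials are continuous, hence bounded on the cube. -/
theorem OkX.poly {s : ℕ} (S : Set (Fin s → ℝ)) (e : Fin s → ℝ) (N : ℕ) (p : MvPolynomial (Fin N) ℚ) :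
    OkX S e N (fun _ x => aeval x p) := by
  classical
  obtain ⟨C₀, hC₀⟩ := (isCompact_Icc (a := (0 : Fin N → ℝ)) (b := 1)).exists_bound_of_continuousOn
    (bInt_cont p).continuousOn
  refine ⟨1, |C₀|, fun _ x b => if b = 0 then aeval x p else 0, one_pos, abs_nonneg _, ?_, ?_⟩
  · refine LAX.of_const S _ (bInt_cont p).continuousOn ?_
    intro x hx
    exact (hC₀ x hx).trans (le_abs_self _)
  · intro b
    by_cases hb : b = 0
    · refine ⟨p, fun x _ => ?_⟩
      exact if_pos hb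
    · refine ⟨0, fun x _ => ?_⟩
      rw [map_zero]
      exact if_neg hb

/-- Division by `D(θ, x_ρ)`, where `ρ` selects variables. Proof: `LAX.div` with `J`, `w` from `taylor`, `w b θ x = vl (w b) θ (fun l => x (ρ l))`, continuous, so bounded on the compact set `S ×ˢ Icc 0 1` (continuity of `vl`: polynomial functions are continuous, `MvPolynomial.continuous_eval` after `aeval_def`/`eval₂_eq_eval_map`);
the rational coefficients at `e`: by induction on `dg b` (strong induction), `m' e x b = m e x b - ∑ ...` because `d e x = 1`, and `vl (w b') (cst e₀) (x ∘ ρ)` is the value at `x` of the polynomial `rename ρ (spz (w b') e₀)`. -/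
theorem OkX.div {s n N : ℕ} {S : Set (Fin s → ℝ)} (hS : IsCompact S) {e₀ : Fin s → ℚ} (he : cst e₀ ∈ S)
    {f : (Fin s → ℝ) → (Fin N → ℝ) → ℝ} (hf : OkX S (cst e₀) N f) (D : Pz s n) (ρ : Fin n → Fin N)
    (hD1 : spz D e₀ = 1) {δ : ℝ} (hδ : 0 < δ)
    (hDδ : ∀ θ ∈ S, ∀ x ∈ Icc (0 : Fin N → ℝ) 1, δ ≤ vl D θ (fun l => x (ρ l))) :
    OkX S (cst e₀) N (fun θ x => f θ x / vl D θ (fun l => x (ρ l))) := by
  classical
  obtain ⟨r, B, m, hr, hB, hm, hrat⟩ := hf
  obtain ⟨J, w, hJ⟩ := taylor D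
  have hK : IsCompact (S ×ˢ Icc (0 : Fin N → ℝ) 1) := hS.prod isCompact_Icc
  have hbd : ∀ b, ∃ c : ℝ, ∀ p ∈ S ×ˢ Icc (0 : Fin N → ℝ) 1,
      ‖vl (w b) p.1 (fun l => p.2 (ρ l))‖ ≤ c := fun b =>
    hK.exists_bound_of_continuousOn (bInt_vl_cont (w b) ρ).continuousOn
  choose c hc using hbd
  obtain ⟨r', B', m', hr', hB', hm', hrec⟩ := LAX.div hm hr hB
    (fun θ x => vl D θ (fun l => x (ρ l))) J (fun b θ x => vl (w b) θ (fun l => x (ρ l)))
    (M := ∑ b ∈ J, |c b|) hδ
    (fun b _ => (bInt_vl_cont (w b) ρ).continuousOn)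
    (fun b hb θ hθ x hx => by
      have h1 := hc b (θ, x) ⟨hθ, hx⟩
      have h2 : |c b| ≤ ∑ b ∈ J, |c b| :=
        Finset.single_le_sum (f := fun b => |c b|) (fun b _ => abs_nonneg _) hb
      rw [Real.norm_eq_abs] at h1
      exact h1.trans ((le_abs_self _).trans h2))
    (fun θ _ x _ v => hJ θ v (fun l => x (ρ l))) hDδ
  refine ⟨r', B', m', hr', hB', hm', ?_⟩
  have hd1 : ∀ x : Fin N → ℝ, vl D (cst e₀) (fun l => x (ρ l)) = 1 := by
    intro x
    rw [bInt_vl_spz, hD1, map_one]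
  have hmain : ∀ k : ℕ, ∀ b : Fin s → ℕ, dg b < k → ∃ p : MvPolynomial (Fin N) ℚ,
      ∀ x ∈ Icc (0 : Fin N → ℝ) 1, m' (cst e₀) x b = aeval x p := by
    intro k
    induction k with
    | zero =>
      intro b hb
      exact absurd hb (Nat.not_lt_zero _)
    | succ k ih =>
      intro b hb
      obtain ⟨p₀, hp₀⟩ := hrat b
      have hsub : ∀ b' : Fin s → ℕ, ∃ p : MvPolynomial (Fin N) ℚ, ∀ x ∈ Icc (0 : Fin N → ℝ) 1,
          ((b' ≠ 0 ∧ ∀ i, b' i ≤ b i) →
            vl (w b') (cst e₀) (fun l => x (ρ l)) * m' (cst e₀) x (b - b') = aeval x p) ∧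
          (¬ (b' ≠ 0 ∧ ∀ i, b' i ≤ b i) → (aeval x p : ℝ) = 0) := by
        intro b'
        by_cases hb' : b' ≠ 0 ∧ ∀ i, b' i ≤ b i
        · have hadd : b = (b - b') + b' := by
            funext i
            have h1 := hb'.2 i
            rw [Pi.add_apply, Pi.sub_apply]
            omega
          have hdg : dg b = dg (b - b') + dg b' := by
            have h1 := dg_add (b - b') b'
            rwa [← hadd] at h1
          have hpos : 0 < dg b' := by
            rw [Nat.pos_iff_ne_zero]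
            intro h0
            apply hb'.1
            funext i
            unfold dg at h0
            rw [Finset.sum_eq_zero_iff] at h0
            exact h0 i (Finset.mem_univ i)
          obtain ⟨p, hp⟩ := ih (b - b') (by omega)
          refine ⟨rename ρ (spz (w b') e₀) * p, fun x hx => ⟨fun _ => ?_, fun h => absurd hb' h⟩⟩
          rw [hp x hx, bInt_vl_spz, map_mul, aeval_rename]
          rfl
        · exact ⟨0, fun x _ => ⟨fun h => absurd h hb', fun _ => map_zero _⟩⟩
      choose P hP using hsub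
      refine ⟨p₀ - ∑ b' ∈ J, P b', fun x hx => ?_⟩
      have h1 := hrec (cst e₀) he x hx b
      rw [hd1, one_mul] at h1
      rw [h1, hp₀ x hx, map_sub, map_sum]
      congr 1
      refine Finset.sum_congr rfl fun b' _ => ?_
      by_cases hb' : b' ≠ 0 ∧ ∀ i, b' i ≤ b i
      · rw [if_pos hb']
        exact (hP b' x hx).1 hb'
      · rw [if_neg hb']
        exact ((hP b' x hx).2 hb').symm
  intro b
  exact hmain (dg b + 1) b (Nat.lt_succ_self _)

/-- Integration over the cube.

Proof. `M θ b = ∫ x in Icc 0 1, m θ x b`. Continuity in `θ ∈ S`: `continuousWithinAt_of_dominated` (or `continuousOn_of_dominated`) with the bound `B r⁻¹ ^ dg b` (`Exp.bound`), the integrand is continuous in `x` on the compact cube, hence measurable (`ContinuousOn.aestronglyMeasurable`) and the volume of the cube is `1`. The bound for `M`: `norm_setIntegral_le_of_norm_le_const`.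
The sum: `hasSum_integral_of_summable_integral_norm` for `F b x = m θ x b * mon h b`, with `∫ ‖F b‖ ≤ B r⁻¹ ^ dg b |mon h b|`, summable because with `q = max |h i| / r < 1`: `|mon h b| ≤ (q r) ^ dg b` (`abs_mon_le`, `hasSum_pow_dg`). Rational coefficients: `integral_poly` (PP/Sem.lean). -/
theorem OkX.int {s N : ℕ} {S : Set (Fin s → ℝ)} {e : Fin s → ℝ} {f : (Fin s → ℝ) → (Fin N → ℝ) → ℝ}
    (hf : OkX S e N f) : ∃ (r B : ℝ) (m : (Fin s → ℝ) → (Fin s → ℕ) → ℝ), 0 < r ∧ 0 ≤ B ∧
      LA S r B (fun θ => ∫ x in Icc (0 : Fin N → ℝ) 1, f θ x) m ∧ ∀ b, ∃ ρ : ℚ, m e b = ρ := by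
  classical
  obtain ⟨r, B, m, hr, hB, hm, hrat⟩ := hf
  have hvol : volume (Icc (0 : Fin N → ℝ) 1) = 1 := by
    rw [Real.volume_Icc_pi]
    refine Finset.prod_eq_one fun i _ => ?_
    rw [Pi.one_apply, Pi.zero_apply, sub_zero, ENNReal.ofReal_one]
  have hfin : volume (Icc (0 : Fin N → ℝ) 1) < ⊤ := by
    rw [hvol]
    exact ENNReal.one_lt_top
  have hvolr : volume.real (Icc (0 : Fin N → ℝ) 1) = 1 := by
    rw [Measure.real, hvol, ENNReal.toReal_one]
  have hmx : ∀ θ ∈ S, ∀ b, ContinuousOn (fun x => m θ x b) (Icc (0 : Fin N → ℝ) 1) := by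
    intro θ hθ b
    have h1 : ContinuousOn (fun x : Fin N → ℝ => ((θ, x) : (Fin s → ℝ) × (Fin N → ℝ)))
        (Icc (0 : Fin N → ℝ) 1) := (Continuous.prodMk continuous_const continuous_id).continuousOn
    exact (hm.cont b).comp h1 fun x hx => ⟨hθ, hx⟩
  have hmθ : ∀ x ∈ Icc (0 : Fin N → ℝ) 1, ∀ b, ContinuousOn (fun θ => m θ x b) S := by
    intro x hx b
    have h1 : ContinuousOn (fun θ : Fin s → ℝ => ((θ, x) : (Fin s → ℝ) × (Fin N → ℝ))) S :=
      (Continuous.prodMk continuous_id continuous_const).continuousOn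
    exact (hm.cont b).comp h1 fun θ hθ => ⟨hθ, hx⟩
  have hmeas : ∀ θ ∈ S, ∀ b, AEStronglyMeasurable (fun x => m θ x b)
      (volume.restrict (Icc (0 : Fin N → ℝ) 1)) := fun θ hθ b =>
    (hmx θ hθ b).aestronglyMeasurable measurableSet_Icc
  have hbdd : ∀ θ ∈ S, ∀ b, ∀ x ∈ Icc (0 : Fin N → ℝ) 1, ‖m θ x b‖ ≤ B * r⁻¹ ^ dg b :=
    fun θ hθ b x hx => (hm.exp θ hθ x hx).bound b
  refine ⟨r, B, fun θ b => ∫ x in Icc (0 : Fin N → ℝ) 1, m θ x b, hr, hB, ⟨?_, ?_⟩, ?_⟩
  · intro b
    refine continuousOn_of_dominated (bound := fun _ => B * r⁻¹ ^ dg b) (fun θ hθ => hmeas θ hθ b)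
      ?_ ?_ ?_
    · intro θ hθ
      exact (ae_restrict_iff' measurableSet_Icc).2 (Filter.Eventually.of_forall fun x hx =>
        hbdd θ hθ b x hx)
    · exact integrableOn_const hfin.ne
    · exact (ae_restrict_iff' measurableSet_Icc).2 (Filter.Eventually.of_forall fun x hx =>
        hmθ x hx b)
  · intro θ hθ
    refine ⟨?_, ?_⟩
    · intro b
      have h1 := norm_setIntegral_le_of_norm_le_const (μ := volume) hfin (hbdd θ hθ b)
      rw [hvolr, mul_one] at h1
      exact h1
    · intro h hh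
      have hF : ∀ b : Fin s → ℕ, Integrable (fun x => m θ x b * mon h b)
          (volume.restrict (Icc (0 : Fin N → ℝ) 1)) := by
        intro b
        have h1 : IntegrableOn (fun x => m θ x b) (Icc (0 : Fin N → ℝ) 1) volume :=
          (hmx θ hθ b).integrableOn_compact isCompact_Icc
        exact Integrable.mul_const h1 _
      obtain ⟨q, hq0, hq1, hq⟩ : ∃ q : ℝ, 0 ≤ q ∧ q < 1 ∧ ∀ i, |h i| ≤ q * r := by
        by_cases hs : Nonempty (Fin s)
        · obtain ⟨i₀, hi₀⟩ := Finite.exists_max (fun i => |h i|)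
          refine ⟨|h i₀| / r, by positivity, ?_, fun i => ?_⟩
          · rw [div_lt_one hr]
            exact hh i₀
          · rw [div_mul_cancel₀ _ hr.ne']
            exact hi₀ i
        · refine ⟨0, le_rfl, one_pos, fun i => absurd ⟨i⟩ hs⟩
      have hterm : ∀ (b : Fin s → ℕ) (x : Fin N → ℝ), x ∈ Icc (0 : Fin N → ℝ) 1 →
          ‖m θ x b * mon h b‖ ≤ B * q ^ dg b := by
        intro b x hx
        rw [norm_mul]
        have h1 := hbdd θ hθ b x hx
        have h2 : ‖mon h b‖ ≤ (q * r) ^ dg b := by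
          rw [Real.norm_eq_abs]
          exact abs_mon_le hq b
        calc ‖m θ x b‖ * ‖mon h b‖ ≤ (B * r⁻¹ ^ dg b) * (q * r) ^ dg b :=
              mul_le_mul h1 h2 (norm_nonneg _) (by positivity)
          _ = B * q ^ dg b := by
              rw [mul_assoc, ← mul_pow]
              congr 2
              rw [mul_comm q r, ← mul_assoc, inv_mul_cancel₀ hr.ne', one_mul]
      have hnorm : ∀ b : Fin s → ℕ,
          ∫ x in Icc (0 : Fin N → ℝ) 1, ‖m θ x b * mon h b‖ ≤ B * q ^ dg b := by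
        intro b
        have h1 : ∫ x in Icc (0 : Fin N → ℝ) 1, ‖m θ x b * mon h b‖ ≤
            ∫ _x in Icc (0 : Fin N → ℝ) 1, B * q ^ dg b := by
          refine setIntegral_mono_on ((hF b).norm) (integrableOn_const hfin.ne) measurableSet_Icc ?_
          intro x hx
          exact hterm b x hx
        rw [setIntegral_const, hvolr, one_smul] at h1
        exact h1
      have hsummable : Summable fun b : Fin s → ℕ =>
          ∫ x in Icc (0 : Fin N → ℝ) 1, ‖m θ x b * mon h b‖ := by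
        refine Summable.of_nonneg_of_le (fun b => integral_nonneg fun x => norm_nonneg _) hnorm ?_
        exact ((hasSum_pow_dg (ι := Fin s) hq0 hq1).summable).mul_left B
      have h2 := hasSum_integral_of_summable_integral_norm hF hsummable
      have h3 : ∫ x in Icc (0 : Fin N → ℝ) 1, ∑' b, m θ x b * mon h b =
          ∫ x in Icc (0 : Fin N → ℝ) 1, f (θ + h) x := by
        refine setIntegral_congr_fun measurableSet_Icc fun x hx => ?_
        exact ((hm.exp θ hθ x hx).sum h hh).tsum_eq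
      rw [h3] at h2
      have h4 : (fun b => ∫ x in Icc (0 : Fin N → ℝ) 1, m θ x b * mon h b) =
          fun b => (∫ x in Icc (0 : Fin N → ℝ) 1, m θ x b) * mon h b := by
        funext b
        exact integral_mul_const _ _
      rw [h4] at h2
      exact h2
  · intro b
    obtain ⟨p, hp⟩ := hrat b
    have h1 : ∫ x in Icc (0 : Fin N → ℝ) 1, m e x b =
        ∫ x in Icc (0 : Fin N → ℝ) 1, (aeval x p : ℝ) :=
      setIntegral_congr_fun measurableSet_Icc fun x hx => hp x hx
    refine ⟨_, h1.trans (integral_poly N p)⟩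

end Pool.Agent.Lib.MP_bbe012_lc.PG
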