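import Pool.Agent.Lib.MP_bbe012_lc.PG.A3

/-!
# Expansions which depend on a parameter in a compact set, and division
-/

namespace Pool.Agent.Lib.MP_bbe012_lc.PG

open Finset

/-- Expansions in `θ` of a function of `(θ, x)`, at all points of `S`, for all `x ∈ X`; the coefficients are continuous on `S ×ˢ X`. -/
structure LAX {ι Y : Type} [Fintype ι] [TopologicalSpace Y] (S : Set (ι → ℝ)) (X : Set Y) (r B : ℝ)
    (f : (ι → ℝ) → Y → ℝ) (m : (ι → ℝ) → Y → (ι → ℕ) → ℝ) : Prop where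
  cont : ∀ b, ContinuousOn (fun p : (ι → ℝ) × Y => m p.1 p.2 b) (S ×ˢ X)
  exp : ∀ θ ∈ S, ∀ x ∈ X, Exp r B θ (fun θ' => f θ' x) (m θ x)

private theorem blax_mon_b0 {ι : Type} [Fintype ι] (h : ι → ℝ) : mon h (0 : ι → ℕ) = 1 := by
  unfold mon
  exact Finset.prod_eq_one fun i _ => by rw [Pi.zero_apply, pow_zero]

private theorem blax_mon_0 {ι : Type} [Fintype ι] {b : ι → ℕ} (hb : b ≠ 0) :
    mon (0 : ι → ℝ) b = 0 := by
  obtain ⟨i, hi⟩ := Function.ne_iff.1 hb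
  unfold mon
  exact Finset.prod_eq_zero (Finset.mem_univ i) (by rw [Pi.zero_apply]; exact zero_pow hi)

private theorem blax_dg_pos {ι : Type} [Fintype ι] {b : ι → ℕ} (hb : b ≠ 0) : 1 ≤ dg b := by
  obtain ⟨i, hi⟩ := Function.ne_iff.1 hb
  unfold dg
  exact (Nat.one_le_iff_ne_zero.2 hi).trans
    (Finset.single_le_sum (f := b) (fun _ _ => Nat.zero_le _) (Finset.mem_univ i))

private theorem blax_sub {ι : Type} {b b' : ι → ℕ} (h : ∀ i, b' i ≤ b i) : b - b' + b' = b := by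
  funext i
  rw [Pi.add_apply, Pi.sub_apply]
  exact Nat.sub_add_cancel (h i)

private theorem blax_dg_sub {ι : Type} [Fintype ι] {b b' : ι → ℕ} (h : ∀ i, b' i ≤ b i) :
    dg b = dg (b - b') + dg b' := by
  rw [← dg_add, blax_sub h]

/-- the recursion for the coefficients of the quotient -/
private noncomputable def blaxRec {ι : Type} [Fintype ι] [DecidableEq ι] (J : Finset (ι → ℕ))
    (μ c : (ι → ℕ) → ℝ) (D : ℝ) : ℕ → (ι → ℕ) → ℝ
  | 0 => fun _ => 0
  | n + 1 => fun b => (μ b - ∑ b' ∈ J, if b' ≠ 0 ∧ ∀ i, b' i ≤ b i then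
      c b' * blaxRec J μ c D n (b - b') else 0) / D

private theorem blaxRec_stable {ι : Type} [Fintype ι] [DecidableEq ι] (J : Finset (ι → ℕ))
    (μ c : (ι → ℕ) → ℝ) (D : ℝ) (n : ℕ) : ∀ (k : ℕ) (b : ι → ℕ), dg b < n → dg b < k →
      blaxRec J μ c D n b = blaxRec J μ c D k b := by
  induction n with
  | zero => exact fun k b h _ => absurd h (Nat.not_lt_zero _)
  | succ n ih =>
    intro k b hn hk
    obtain ⟨k, rfl⟩ : ∃ k', k = k' + 1 := ⟨k - 1, by omega⟩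
    change (μ b - ∑ b' ∈ J, if b' ≠ 0 ∧ ∀ i, b' i ≤ b i then
        c b' * blaxRec J μ c D n (b - b') else 0) / D =
      (μ b - ∑ b' ∈ J, if b' ≠ 0 ∧ ∀ i, b' i ≤ b i then
        c b' * blaxRec J μ c D k (b - b') else 0) / D
    have h1 : ∀ b' ∈ J, (if b' ≠ 0 ∧ ∀ i, b' i ≤ b i then
        c b' * blaxRec J μ c D n (b - b') else 0) = (if b' ≠ 0 ∧ ∀ i, b' i ≤ b i then
        c b' * blaxRec J μ c D k (b - b') else 0) := by
      intro b' _
      by_cases h : b' ≠ 0 ∧ ∀ i, b' i ≤ b i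
      · rw [if_pos h, if_pos h]
        have h2 := blax_dg_sub h.2
        have h3 := blax_dg_pos h.1
        rw [ih k (b - b') (by omega) (by omega)]
      · rw [if_neg h, if_neg h]
    rw [Finset.sum_congr rfl h1]

private noncomputable def blaxQ {ι : Type} [Fintype ι] [DecidableEq ι] (J : Finset (ι → ℕ))
    (μ c : (ι → ℕ) → ℝ) (D : ℝ) (b : ι → ℕ) : ℝ := blaxRec J μ c D (dg b + 1) b

private theorem blaxQ_eq {ι : Type} [Fintype ι] [DecidableEq ι] (J : Finset (ι → ℕ))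
    (μ c : (ι → ℕ) → ℝ) (D : ℝ) (b : ι → ℕ) : blaxQ J μ c D b =
      (μ b - ∑ b' ∈ J, if b' ≠ 0 ∧ ∀ i, b' i ≤ b i then
        c b' * blaxQ J μ c D (b - b') else 0) / D := by
  change (μ b - ∑ b' ∈ J, if b' ≠ 0 ∧ ∀ i, b' i ≤ b i then
      c b' * blaxRec J μ c D (dg b) (b - b') else 0) / D = _
  have h1 : ∀ b' ∈ J, (if b' ≠ 0 ∧ ∀ i, b' i ≤ b i then
      c b' * blaxRec J μ c D (dg b) (b - b') else 0) = (if b' ≠ 0 ∧ ∀ i, b' i ≤ b i then
      c b' * blaxQ J μ c D (b - b') else 0) := by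
    intro b' _
    by_cases h : b' ≠ 0 ∧ ∀ i, b' i ≤ b i
    · rw [if_pos h, if_pos h]
      have h2 := blax_dg_sub h.2
      have h3 := blax_dg_pos h.1
      unfold blaxQ
      rw [blaxRec_stable J μ c D (dg b) (dg (b - b') + 1) (b - b') (by omega) (by omega)]
    · rw [if_neg h, if_neg h]
  rw [Finset.sum_congr rfl h1]

private theorem blaxQ_bound {ι : Type} [Fintype ι] [DecidableEq ι] (J : Finset (ι → ℕ))
    (μ c : (ι → ℕ) → ℝ) {D δ M₁ B r' : ℝ} (hδ : 0 < δ) (hD : δ ≤ D) (hM₁ : 0 ≤ M₁) (hB : 0 ≤ B)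
    (hr' : 0 < r') (hr1 : r' ≤ 1) (hμ : ∀ b, |μ b| ≤ B * r'⁻¹ ^ dg b)
    (hc : ∀ b ∈ J, |c b| ≤ M₁) (hN : (J.card : ℝ) * M₁ * r' ≤ δ / 2) (b : ι → ℕ) :
    |blaxQ J μ c D b| ≤ 2 * B / δ * r'⁻¹ ^ dg b := by
  obtain ⟨n, hn⟩ : ∃ n, dg b = n := ⟨_, rfl⟩
  induction n using Nat.strong_induction_on generalizing b with
  | _ n ih =>
    have hR : 1 ≤ r'⁻¹ := (one_le_inv₀ hr').2 hr1
    have hD0 : 0 < D := hδ.trans_le hD
    obtain ⟨q, hq⟩ : ∃ q : ℝ, q = r'⁻¹ ^ dg b := ⟨_, rfl⟩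
    have hq0 : 0 ≤ q := by rw [hq]; positivity
    obtain ⟨B', hB'⟩ : ∃ B' : ℝ, B' = 2 * B / δ := ⟨_, rfl⟩
    have hB0 : 0 ≤ B' := by rw [hB']; positivity
    have hBB : B = δ / 2 * B' := by
      rw [hB']
      field_simp
    have h1 : ∀ b' ∈ J, |if b' ≠ 0 ∧ ∀ i, b' i ≤ b i then
        c b' * blaxQ J μ c D (b - b') else 0| ≤ M₁ * r' * (B' * q) := by
      intro b' hb'
      by_cases h : b' ≠ 0 ∧ ∀ i, b' i ≤ b i
      · rw [if_pos h, abs_mul]
        have h2 := blax_dg_sub h.2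
        have h3 := blax_dg_pos h.1
        have h4 := ih (dg (b - b')) (by omega) (b - b') rfl
        rw [← hB'] at h4
        have h5 : r'⁻¹ ^ dg (b - b') ≤ r' * q := by
          have h6 : r'⁻¹ ^ (dg (b - b') + 1) ≤ q := by
            rw [hq]
            exact pow_le_pow_right₀ hR (by omega)
          rw [pow_succ] at h6
          have h7 : r' * (r'⁻¹ ^ dg (b - b') * r'⁻¹) ≤ r' * q :=
            mul_le_mul_of_nonneg_left h6 hr'.le
          have h8 : r' * (r'⁻¹ ^ dg (b - b') * r'⁻¹) = r'⁻¹ ^ dg (b - b') := by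
            rw [mul_comm, mul_assoc, inv_mul_cancel₀ hr'.ne', mul_one]
          rwa [h8] at h7
        have h9 : |blaxQ J μ c D (b - b')| ≤ B' * (r' * q) :=
          h4.trans (mul_le_mul_of_nonneg_left h5 hB0)
        calc |c b'| * |blaxQ J μ c D (b - b')| ≤ M₁ * (B' * (r' * q)) :=
              mul_le_mul (hc b' hb') h9 (abs_nonneg _) hM₁
          _ = M₁ * r' * (B' * q) := by ring
      · rw [if_neg h, abs_zero]
        positivity
    have h2 : |∑ b' ∈ J, if b' ≠ 0 ∧ ∀ i, b' i ≤ b i then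
        c b' * blaxQ J μ c D (b - b') else 0| ≤ δ / 2 * (B' * q) := by
      refine (Finset.abs_sum_le_sum_abs _ _).trans ((Finset.sum_le_sum h1).trans ?_)
      have h3 : (J.card : ℝ) * (M₁ * r' * (B' * q)) = (J.card : ℝ) * M₁ * r' * (B' * q) := by ring
      rw [Finset.sum_const, nsmul_eq_mul, h3]
      exact mul_le_mul_of_nonneg_right hN (by positivity)
    have h3 : |μ b| ≤ δ / 2 * (B' * q) := by
      have h4 := hμ b
      rw [← hq, hBB, mul_assoc] at h4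
      exact h4
    rw [blaxQ_eq, abs_div, abs_of_pos hD0, ← hB', ← hq, div_le_iff₀ hD0]
    refine (abs_sub _ _).trans ?_
    have h5 : δ * (B' * q) ≤ D * (B' * q) := mul_le_mul_of_nonneg_right hD (by positivity)
    linarith [mul_comm (B' * q) D]

private theorem blax_summable {ι : Type} [Fintype ι] {Q : (ι → ℕ) → ℝ} {B' r' : ℝ}
    (hr' : 0 < r') (hQ : ∀ b, |Q b| ≤ B' * r'⁻¹ ^ dg b) {v : ι → ℝ} (hv : ∀ i, |v i| < r') :
    Summable fun b => Q b * mon v b := by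
  have h1 : ∀ i, 0 ≤ r'⁻¹ * |v i| ∧ r'⁻¹ * |v i| < 1 := fun i => by
    refine ⟨by positivity, ?_⟩
    have h2 : r'⁻¹ * |v i| < r'⁻¹ * r' := mul_lt_mul_of_pos_left (hv i) (by positivity)
    rwa [inv_mul_cancel₀ hr'.ne'] at h2
  have h2 := (hasSum_mon h1).summable.mul_left B'
  refine Summable.of_norm_bounded h2 fun b => ?_
  rw [Real.norm_eq_abs, abs_mul, mon_smul]
  have h3 : |mon v b| = mon (fun i => |v i|) b := by
    unfold mon
    rw [Finset.abs_prod]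
    exact Finset.prod_congr rfl fun i _ => abs_pow _ _
  rw [h3, ← mul_assoc]
  refine mul_le_mul_of_nonneg_right (hQ b) ?_
  rw [← h3]
  exact abs_nonneg _

private theorem blax_shift {ι : Type} [Fintype ι] [DecidableEq ι] {Q : (ι → ℕ) → ℝ} {v : ι → ℝ}
    {G : ℝ} (hG : HasSum (fun b => Q b * mon v b) G) (b' : ι → ℕ) (a : ℝ) :
    HasSum (fun b => (if ∀ i, b' i ≤ b i then a * Q (b - b') else 0) * mon v b)
      (a * mon v b' * G) := by
  have h4 : Function.Injective fun b : ι → ℕ => b + b' := add_left_injective _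
  refine (h4.hasSum_iff ?_).1 ?_
  · intro b hb
    by_cases hb0 : ∀ i, b' i ≤ b i
    · exact absurd ⟨b - b', blax_sub hb0⟩ hb
    · rw [if_neg hb0, zero_mul]
  · have h5 : ((fun b => (if ∀ i, b' i ≤ b i then a * Q (b - b') else 0) * mon v b) ∘
        fun b : ι → ℕ => b + b') = fun b => a * mon v b' * (Q b * mon v b) := by
      funext b
      have h6 : ∀ i, b' i ≤ (b + b') i := fun i => by
        rw [Pi.add_apply]
        exact Nat.le_add_left _ _
      change (if ∀ i, b' i ≤ (b + b') i then a * Q (b + b' - b') else 0) * mon v (b + b') = _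
      rw [if_pos h6, add_tsub_cancel_right, mon_add]
      ring
    rw [h5]
    exact hG.mul_left _

private theorem blaxRec_cont {ι Y : Type} [Fintype ι] [DecidableEq ι] [TopologicalSpace Y]
    {T : Set ((ι → ℝ) × Y)} (J : Finset (ι → ℕ)) (m : (ι → ℝ) → Y → (ι → ℕ) → ℝ)
    (w : (ι → ℕ) → (ι → ℝ) → Y → ℝ) (d : (ι → ℝ) → Y → ℝ)
    (hm : ∀ b, ContinuousOn (fun p : (ι → ℝ) × Y => m p.1 p.2 b) T)
    (hw : ∀ b ∈ J, ContinuousOn (fun p : (ι → ℝ) × Y => w b p.1 p.2) T)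
    (hd : ContinuousOn (fun p : (ι → ℝ) × Y => d p.1 p.2) T) (h0 : ∀ p ∈ T, d p.1 p.2 ≠ 0)
    (n : ℕ) : ∀ b, ContinuousOn (fun p : (ι → ℝ) × Y =>
      blaxRec J (m p.1 p.2) (fun b' => w b' p.1 p.2) (d p.1 p.2) n b) T := by
  induction n with
  | zero => exact fun b => continuousOn_const
  | succ n ih =>
    intro b
    change ContinuousOn (fun p : (ι → ℝ) × Y => (m p.1 p.2 b - ∑ b' ∈ J,
      if b' ≠ 0 ∧ ∀ i, b' i ≤ b i then w b' p.1 p.2 *
        blaxRec J (m p.1 p.2) (fun b' => w b' p.1 p.2) (d p.1 p.2) n (b - b') else 0) /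
          d p.1 p.2) T
    refine ((hm b).sub (continuousOn_finsetSum _ fun b' hb' => ?_)).div hd h0
    by_cases h : b' ≠ 0 ∧ ∀ i, b' i ≤ b i
    · simp only [if_pos h]
      exact (hw b' hb').mul (ih (b - b'))
    · simp only [if_neg h]
      exact continuousOn_const

/-- Functions which do not depend on `θ`. Proof: clear (`mon h 0 = 1`, `hasSum_ite_eq`-like). -/
theorem LAX.of_const {ι Y : Type} [Fintype ι] [DecidableEq ι] [TopologicalSpace Y] (S : Set (ι → ℝ)) (X : Set Y)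
    {g : Y → ℝ} (hg : ContinuousOn g X) {B : ℝ} (hB : ∀ x ∈ X, |g x| ≤ B) :
    LAX S X 1 B (fun _ x => g x) (fun _ x b => if b = 0 then g x else 0) := by
  refine ⟨fun b => ?_, fun θ hθ x hx => ⟨fun b => ?_, fun h hh => ?_⟩⟩
  · by_cases hb : b = 0
    · have h1 : (fun p : (ι → ℝ) × Y => if b = 0 then g p.2 else 0) = fun p => g p.2 := by
        funext p
        rw [if_pos hb]
      change ContinuousOn (fun p : (ι → ℝ) × Y => if b = 0 then g p.2 else 0) (S ×ˢ X)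
      rw [h1]
      exact hg.comp continuousOn_snd fun p hp => hp.2
    · have h1 : (fun p : (ι → ℝ) × Y => if b = 0 then g p.2 else 0) = fun _ => 0 := by
        funext p
        rw [if_neg hb]
      change ContinuousOn (fun p : (ι → ℝ) × Y => if b = 0 then g p.2 else 0) (S ×ˢ X)
      rw [h1]
      exact continuousOn_const
  · have h0 : 0 ≤ B := (abs_nonneg _).trans (hB x hx)
    change |if b = 0 then g x else 0| ≤ B * (1 : ℝ)⁻¹ ^ dg b
    rw [inv_one, one_pow, mul_one]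
    by_cases hb : b = 0
    · rw [if_pos hb]
      exact hB x hx
    · rw [if_neg hb, abs_zero]
      exact h0
  · have h1 : (fun b : ι → ℕ => (if b = 0 then g x else 0) * mon h b) =
        fun b => if b = 0 then g x else 0 := by
      funext b
      by_cases hb : b = 0
      · rw [if_pos hb, hb, blax_mon_b0, mul_one]
      · rw [if_neg hb, zero_mul]
    change HasSum (fun b : ι → ℕ => (if b = 0 then g x else 0) * mon h b) (g x)
    rw [h1]
    exact hasSum_ite_eq 0 (g x)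

/-- Division by a function which is a polynomial in `θ`.

`d` is the denominator: `d (θ + h) x = ∑ b ∈ J, w b θ x h ^ b`, with `J` finite.

Proof. The coefficients `m'` of the quotient are defined by the recursion (on the degree `dg b`)
`m' θ x b = (m θ x b - ∑ b' ∈ J, b' ≠ 0, b' ≤ b, w b' θ x * m' θ x (b - b')) / d θ x`. (For example: `m'_0 = fun _ _ _ => 0`,
`m'_{k+1}` is given by the right side with `m'_k`; the value at `b` does not depend on `k` for `k > dg b`; put `m' θ x b = m'_{dg b + 1} θ x b`. Or well-founded recursion on `dg b`.)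

Continuity: induction on `dg b` (`d θ x = w 0 θ x` if `0 ∈ J`, and `d θ x = 0` otherwise, by `h = 0`; so `d` is continuous on `S ×ˢ X`; `d ≥ δ`).

Bound: let `M₁ = |M| + 1`, `N = card J + 1`, choose `r' = min (min r 1) (min (δ / (4 N M₁)) ..)` so small that (1) `N M₁ r' ≤ δ / 2`; `B' = 2 B / δ`. Then `|m' θ x b| ≤ B' r'⁻¹ ^ dg b` by induction: `|m θ x b| ≤ B r⁻¹ ^ dg b ≤ B r'⁻¹ ^ dg b`, and for
`b' ≠ 0`, `b' ≤ b`: `dg (b - b') = dg b - dg b' ≤ dg b - 1`, so `|w b' m' (b - b')| ≤ M₁ B' r'⁻¹ ^ (dg b - 1) = M₁ B' r' r'⁻¹ ^ dg b` (`r' ≤ 1`). So `|m' b| ≤ δ⁻¹ (B + N M₁ B' r') r'⁻¹ ^ dg b ≤ δ⁻¹ (B + δ B' / 2) r'⁻¹ ^ dg b = B' r'⁻¹ ^ dg b`.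

Sum: for `|h i| < r'` the series `G = ∑ b, m' b h ^ b` converges absolutely (`hasSum_mon` and the bound: `|h i| / r' < 1`). Multiply by `h ^ b'` for `b' ∈ J` (injective shift `b ↦ b + b'`) and add: `d (θ + h) x * G = ∑ b, (∑ b' ∈ J, b' ≤ b, w b' m' (b - b')) h ^ b = ∑ b, m θ x b h ^ b = f (θ + h) x`.
Finally `d (θ + h) x ≠ 0`: `|d (θ + h) x - d θ x| ≤ ∑ b' ∈ J, b' ≠ 0, M₁ r' ≤ δ / 2` (`|h ^ b'| ≤ r' ^ dg b' ≤ r'`). (If `M < 0` then `J` is empty or `S ×ˢ X` is.) -/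
theorem LAX.div {ι Y : Type} [Fintype ι] [DecidableEq ι] [TopologicalSpace Y] {S : Set (ι → ℝ)} {X : Set Y} {r B : ℝ}
    {f : (ι → ℝ) → Y → ℝ} {m : (ι → ℝ) → Y → (ι → ℕ) → ℝ} (h : LAX S X r B f m) (hr : 0 < r) (hB : 0 ≤ B)
    (d : (ι → ℝ) → Y → ℝ) (J : Finset (ι → ℕ)) (w : (ι → ℕ) → (ι → ℝ) → Y → ℝ) {M δ : ℝ} (hδ : 0 < δ)
    (hw : ∀ b ∈ J, ContinuousOn (fun p : (ι → ℝ) × Y => w b p.1 p.2) (S ×ˢ X))
    (hM : ∀ b ∈ J, ∀ θ ∈ S, ∀ x ∈ X, |w b θ x| ≤ M)
    (hd : ∀ θ ∈ S, ∀ x ∈ X, ∀ v : ι → ℝ, d (θ + v) x = ∑ b ∈ J, w b θ x * mon v b)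
    (hδd : ∀ θ ∈ S, ∀ x ∈ X, δ ≤ d θ x) :
    ∃ (r' B' : ℝ) (m' : (ι → ℝ) → Y → (ι → ℕ) → ℝ), 0 < r' ∧ 0 ≤ B' ∧ LAX S X r' B' (fun θ x => f θ x / d θ x) m' ∧
      ∀ θ ∈ S, ∀ x ∈ X, ∀ b, d θ x * m' θ x b = m θ x b -
        ∑ b' ∈ J, if b' ≠ 0 ∧ ∀ i, b' i ≤ b i then w b' θ x * m' θ x (b - b') else 0 := by
  obtain ⟨N, hN⟩ : ∃ N : ℝ, N = (J.card : ℝ) + 1 := ⟨_, rfl⟩
  obtain ⟨M₁, hM₁⟩ : ∃ M₁ : ℝ, M₁ = |M| + 1 := ⟨_, rfl⟩
  have hN0 : 0 < N := by rw [hN]; positivity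
  have hM0 : 0 < M₁ := by rw [hM₁]; positivity
  obtain ⟨r', hr'⟩ : ∃ r' : ℝ, r' = min (min r 1) (δ / (2 * N * M₁)) := ⟨_, rfl⟩
  have hr0 : 0 < r' := by
    rw [hr']
    exact lt_min (lt_min hr one_pos) (by positivity)
  have hrr : r' ≤ r := by
    rw [hr']
    exact (min_le_left _ _).trans (min_le_left _ _)
  have hr1 : r' ≤ 1 := by
    rw [hr']
    exact (min_le_left _ _).trans (min_le_right _ _)
  have hrN : (J.card : ℝ) * M₁ * r' ≤ δ / 2 := by
    have h1 : r' ≤ δ / (2 * N * M₁) := by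
      rw [hr']
      exact min_le_right _ _
    have h2 : (J.card : ℝ) * M₁ * r' ≤ N * M₁ * r' := by
      have h3 : (J.card : ℝ) ≤ N := by rw [hN]; linarith
      exact mul_le_mul_of_nonneg_right (mul_le_mul_of_nonneg_right h3 hM0.le) hr0.le
    have h4 : N * M₁ * r' ≤ N * M₁ * (δ / (2 * N * M₁)) :=
      mul_le_mul_of_nonneg_left h1 (by positivity)
    have h5 : N * M₁ * (δ / (2 * N * M₁)) = δ / 2 := by
      field_simp
    linarith
  have hwM : ∀ θ ∈ S, ∀ x ∈ X, ∀ b ∈ J, |w b θ x| ≤ M₁ := fun θ hθ x hx b hb => by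
    have h1 := hM b hb θ hθ x hx
    have h2 := le_abs_self M
    rw [hM₁]
    linarith
  have hd0 : ∀ θ ∈ S, ∀ x ∈ X, d θ x = ∑ b ∈ J, w b θ x * mon (0 : ι → ℝ) b := fun θ hθ x hx => by
    have h1 := hd θ hθ x hx 0
    rw [add_zero] at h1
    exact h1
  have hcd : ContinuousOn (fun p : (ι → ℝ) × Y => d p.1 p.2) (S ×ˢ X) := by
    have h1 : ContinuousOn (fun p : (ι → ℝ) × Y => ∑ b ∈ J, w b p.1 p.2 * mon (0 : ι → ℝ) b)
        (S ×ˢ X) := continuousOn_finsetSum _ fun b hb => (hw b hb).mul continuousOn_const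
    exact h1.congr fun p hp => hd0 p.1 hp.1 p.2 hp.2
  have hne : ∀ θ ∈ S, ∀ x ∈ X, d θ x ≠ 0 := fun θ hθ x hx => (hδ.trans_le (hδd θ hθ x hx)).ne'
  obtain ⟨m', hm'⟩ : ∃ m' : (ι → ℝ) → Y → (ι → ℕ) → ℝ,
      m' = fun θ x b => blaxQ J (m θ x) (fun b' => w b' θ x) (d θ x) b := ⟨_, rfl⟩
  have heq : ∀ θ ∈ S, ∀ x ∈ X, ∀ b, d θ x * m' θ x b = m θ x b -
      ∑ b' ∈ J, if b' ≠ 0 ∧ ∀ i, b' i ≤ b i then w b' θ x * m' θ x (b - b') else 0 := by
    intro θ hθ x hx b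
    rw [hm']
    change d θ x * blaxQ J (m θ x) (fun b' => w b' θ x) (d θ x) b = m θ x b -
      ∑ b' ∈ J, if b' ≠ 0 ∧ ∀ i, b' i ≤ b i then
        w b' θ x * blaxQ J (m θ x) (fun b' => w b' θ x) (d θ x) (b - b') else 0
    rw [blaxQ_eq J (m θ x) (fun b' => w b' θ x) (d θ x) b]
    exact mul_div_cancel₀ _ (hne θ hθ x hx)
  have hbd : ∀ θ ∈ S, ∀ x ∈ X, ∀ b, |m' θ x b| ≤ 2 * B / δ * r'⁻¹ ^ dg b := by
    intro θ hθ x hx b
    rw [hm']
    refine blaxQ_bound J (m θ x) (fun b' => w b' θ x) hδ (hδd θ hθ x hx) hM0.le hB hr0 hr1 ?_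
      (hwM θ hθ x hx) hrN b
    intro b
    refine ((h.exp θ hθ x hx).bound b).trans (mul_le_mul_of_nonneg_left ?_ hB)
    exact pow_le_pow_left₀ (by positivity) (inv_anti₀ hr0 hrr) _
  refine ⟨r', 2 * B / δ, m', hr0, by positivity, ⟨?_, ?_⟩, heq⟩
  · intro b
    rw [hm']
    exact blaxRec_cont J m w d h.cont hw hcd (fun p hp => hne p.1 hp.1 p.2 hp.2) (dg b + 1) b
  · intro θ hθ x hx
    refine ⟨hbd θ hθ x hx, fun v hv => ?_⟩
    have hs : Summable fun b => m' θ x b * mon v b :=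
      blax_summable hr0 (hbd θ hθ x hx) hv
    obtain ⟨G, hG⟩ := hs
    have h1 : ∀ b' ∈ J, HasSum (fun b => (if ∀ i, b' i ≤ b i then
        w b' θ x * m' θ x (b - b') else 0) * mon v b) (w b' θ x * mon v b' * G) :=
      fun b' _ => blax_shift hG b' (w b' θ x)
    have h2 := hasSum_sum h1
    have h3 : (fun b => ∑ b' ∈ J, (if ∀ i, b' i ≤ b i then
        w b' θ x * m' θ x (b - b') else 0) * mon v b) = fun b => m θ x b * mon v b := by
      funext b
      rw [← Finset.sum_mul]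
      congr 1
      have h4 := heq θ hθ x hx b
      have h5 : d θ x * m' θ x b = ∑ b' ∈ J, if b' = 0 then w b' θ x * m' θ x b else 0 := by
        rw [hd0 θ hθ x hx, Finset.sum_mul]
        refine Finset.sum_congr rfl fun b' _ => ?_
        by_cases hb' : b' = 0
        · rw [if_pos hb', hb', blax_mon_b0, mul_one]
        · rw [if_neg hb', blax_mon_0 hb', mul_zero, zero_mul]
      have h6 : m θ x b = d θ x * m' θ x b + ∑ b' ∈ J, (if b' ≠ 0 ∧ ∀ i, b' i ≤ b i then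
          w b' θ x * m' θ x (b - b') else 0) := by
        rw [h4]
        ring
      rw [h6, h5, ← Finset.sum_add_distrib]
      refine Finset.sum_congr rfl fun b' _ => ?_
      by_cases hb' : b' = 0
      · subst hb'
        have h7 : ∀ i, (0 : ι → ℕ) i ≤ b i := fun i => Nat.zero_le _
        rw [if_pos h7, if_pos rfl, if_neg (fun h8 => h8.1 rfl), add_zero, tsub_zero]
      · rw [if_neg hb', zero_add]
        by_cases h7 : ∀ i, b' i ≤ b i
        · rw [if_pos h7, if_pos ⟨hb', h7⟩]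
        · rw [if_neg h7, if_neg fun h8 => h7 h8.2]
    rw [h3] at h2
    have h8 : ∑ b' ∈ J, w b' θ x * mon v b' * G = d (θ + v) x * G := by
      rw [hd θ hθ x hx v, Finset.sum_mul]
    rw [h8] at h2
    have h9 : f (θ + v) x = d (θ + v) x * G :=
      ((h.exp θ hθ x hx).sum v fun i => (hv i).trans_le hrr).unique h2
    have h10 : |d (θ + v) x - d θ x| ≤ δ / 2 := by
      rw [hd θ hθ x hx v, hd0 θ hθ x hx, ← Finset.sum_sub_distrib]
      refine (Finset.abs_sum_le_sum_abs _ _).trans ?_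
      have h11 : ∀ b' ∈ J, |w b' θ x * mon v b' - w b' θ x * mon (0 : ι → ℝ) b'| ≤ M₁ * r' := by
        intro b' hb'
        by_cases h12 : b' = 0
        · rw [h12, blax_mon_b0, blax_mon_b0, sub_self, abs_zero]
          positivity
        · rw [blax_mon_0 h12, mul_zero, sub_zero, abs_mul]
          refine mul_le_mul (hwM θ hθ x hx b' hb') ?_ (abs_nonneg _) hM0.le
          refine (abs_mon_le (fun i => (hv i).le) b').trans ?_
          have h13 := pow_le_pow_of_le_one hr0.le hr1 (blax_dg_pos h12)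
          rwa [pow_one] at h13
      refine (Finset.sum_le_sum h11).trans ?_
      rw [Finset.sum_const, nsmul_eq_mul, ← mul_assoc]
      exact hrN
    have h14 : 0 < d (θ + v) x := by
      have h15 := (abs_le.1 h10).1
      have h16 := hδd θ hθ x hx
      linarith
    have h17 : f (θ + v) x / d (θ + v) x = G := by
      rw [h9, mul_div_cancel_left₀ _ h14.ne']
    change HasSum (fun b => m' θ x b * mon v b) (f (θ + v) x / d (θ + v) x)
    rw [h17]
    exact hG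

end Pool.Agent.Lib.MP_bbe012_lc.PG
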