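import Pool.Agent.Lib.MP_bbe012_lc.PG.BFam
import Pool.Agent.Lib.MP_bbe012_lc.PP.RedC
import Pool.Agent.Lib.MP_bbe012_lc.PP.Sem

/-!
# The integrals along a segment, and the formal expansions of the stream PP
-/

namespace Pool.Agent.Lib.MP_bbe012_lc.PG

open MvPolynomial MeasureTheory Set PP

/-- `D(e + t (θ - e), x)` as a polynomial in `t = x_0` and `x_1, ..., x_n`. -/
noncomputable def Dt {s n : ℕ} (D : Pz s n) (e θ : Fin s → ℚ) : P1 n :=
  aeval (Sum.elim (fun i => C (e i) + X 0 * C (θ i - e i)) (fun l => X (Fin.succ l))) D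

/-- The product of the `D_k(e + t (θ - e), x)`. -/
noncomputable def Qt {s n μ : ℕ} (D : Fin μ → Pz s n) (e θ : Fin s → ℚ) : P1 n := ∏ k, Dt (D k) e θ

/-- The product over `A` blocks of variables. -/
noncomputable def QB {s n μ : ℕ} (A : ℕ) (D : Fin μ → Pz s n) (e θ : Fin s → ℚ) : P1 (A * n) :=
  ∏ i : Fin A, rename (bidx n A i) (Qt D e θ)

/-- The numerator of the pattern `p` over the denominator `QB ^ A`. -/
noncomputable def Gt {s n μ : ℕ} (A : ℕ) (D : Fin μ → Pz s n) (e θ : Fin s → ℚ) (p : Pat n μ A) : P1 (A * n) :=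
  ∏ i : Fin A, rename (bidx n A i)
    ((∏ l, X (Fin.succ l) ^ ((p i).1 l : ℕ)) * ∏ k, Dt (D k) e θ ^ (A - ((p i).2 k : ℕ)))

/-- The same at `t = 1`. -/
noncomputable def G1 {s n μ : ℕ} (A : ℕ) (D : Fin μ → Pz s n) (θ : Fin s → ℚ) (p : Pat n μ A) : P1 (A * n) :=
  ∏ i : Fin A, rename (bidx n A i) (rename Fin.succ
    ((∏ l, X l ^ ((p i).1 l : ℕ)) * ∏ k, spz (D k) θ ^ (A - ((p i).2 k : ℕ))))

private theorem bLink_aeval {s n : ℕ} (D : Pz s n) (e θ : Fin s → ℚ) (t : ℝ) (x : Fin n → ℝ) :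
    aeval (Fin.cons t x : Fin (n + 1) → ℝ) (Dt D e θ) = vl D (seg (cst e) (cst θ) t) x := by
  unfold Dt vl
  rw [comp_aeval_apply]
  refine congrArg (fun z => aeval z D) (funext fun j => ?_)
  rcases j with j | l
  · rw [Sum.elim_inl, Sum.elim_inl, map_add, map_mul, aeval_C, aeval_C, aeval_X]
    change ((e j : ℚ) : ℝ) + t * ((θ j - e j : ℚ) : ℝ) = (e j : ℝ) + t * ((θ j : ℝ) - (e j : ℝ))
    push_cast
    rfl
  · rw [Sum.elim_inr, Sum.elim_inr, aeval_X]
    rfl

/-- Proof: both sides are algebra homomorphisms in `D` (`comp_aeval`, or induction on `D`); `pt n t x 0 = t`, `pt n t x (Fin.succ l) = x l`. -/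
theorem aeval_Dt {s n : ℕ} (D : Pz s n) (e θ : Fin s → ℚ) (t : ℚ) (x : Fin n → ℝ) :
    aeval (pt n t x) (Dt D e θ) = vl D (seg (cst e) (cst θ) t) x := by
  exact bLink_aeval D e θ t x

/-- The same at a real point `(t, x)`. -/
theorem aeval_Dt' {s n : ℕ} (D : Pz s n) (e θ : Fin s → ℚ) (t : ℝ) (x : Fin n → ℝ) :
    aeval (Fin.cons t x : Fin (n + 1) → ℝ) (Dt D e θ) = vl D (seg (cst e) (cst θ) t) x := by
  exact bLink_aeval D e θ t x

/-- Proof: `atZero` sends `Dt D e θ` to `spz D e` (composition of algebra homomorphisms). -/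
theorem atZero_Dt {s n : ℕ} {D : Pz s n} {e : Fin s → ℚ} (hD : spz D e = 1) (θ : Fin s → ℚ) :
    atZero n (Dt D e θ) = 1 := by
  rw [← hD]
  unfold Dt spz
  rw [comp_aeval_apply]
  refine congrArg (fun z => aeval z D) (funext fun j => ?_)
  rcases j with j | l
  · rw [Sum.elim_inl, Sum.elim_inl, map_add, map_mul]
    unfold atZero
    rw [aeval_C, aeval_X, Fin.cases_zero, zero_mul, add_zero]
    rfl
  · rw [Sum.elim_inr, Sum.elim_inr]
    unfold atZero
    rw [aeval_X, Fin.cases_succ]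

theorem atZero_Qt {s n μ : ℕ} {D : Fin μ → Pz s n} {e : Fin s → ℚ} (hD : ∀ k, spz (D k) e = 1) (θ : Fin s → ℚ) :
    atZero n (Qt D e θ) = 1 := by
  unfold Qt
  rw [map_prod]
  exact Finset.prod_eq_one fun k _ => atZero_Dt (hD k) θ

/-- Proof: `atZero_bidx`, `map_prod`. -/
theorem atZero_QB {s n μ : ℕ} (A : ℕ) {D : Fin μ → Pz s n} {e : Fin s → ℚ} (hD : ∀ k, spz (D k) e = 1) (θ : Fin s → ℚ) :
    atZero (A * n) (QB A D e θ) = 1 := by
  unfold QB
  rw [map_prod]
  exact Finset.prod_eq_one fun i _ => atZero_bidx A i (atZero_Qt hD θ)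

/-- Positivity on `[0,1]^(1 + n)`. -/
theorem Qt_pos {s n μ : ℕ} {D : Fin μ → Pz s n} {e θ : Fin s → ℚ} (hθ : cst θ ∈ Reg D (cst e)) {t : ℝ}
    (ht : t ∈ Icc (0 : ℝ) 1) {x : Fin n → ℝ} (hx : x ∈ Icc (0 : Fin n → ℝ) 1) :
    0 < aeval (Fin.cons t x : Fin (n + 1) → ℝ) (Qt D e θ) := by
  unfold Qt
  rw [map_prod]
  refine Finset.prod_pos fun k _ => ?_
  rw [aeval_Dt']
  exact hθ t ht k x hx

/-- Proof: `aeval_bidx`, `bco_mem`, `Qt_pos`. -/
theorem QB_pos {s n μ : ℕ} (A : ℕ) {D : Fin μ → Pz s n} {e θ : Fin s → ℚ} (hθ : cst θ ∈ Reg D (cst e)) {t : ℚ}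
    (ht0 : 0 ≤ t) (ht1 : t ≤ 1) {x : Fin (A * n) → ℝ} (hx : x ∈ Icc (0 : Fin (A * n) → ℝ) 1) :
    0 < aeval (pt (A * n) t x) (QB A D e θ) := by
  unfold QB
  rw [map_prod]
  refine Finset.prod_pos fun i _ => ?_
  rw [aeval_bidx]
  exact Qt_pos hθ (t := (t : ℝ)) ⟨by exact_mod_cast ht0, by exact_mod_cast ht1⟩ (bco_mem i hx)

private theorem bLink_quot {μ A : ℕ} (N : ℝ) (d : Fin μ → ℝ) (κ : Fin μ → ℕ) (hd : ∀ k, d k ≠ 0)
    (hκ : ∀ k, κ k ≤ A) :
    (N * ∏ k, d k ^ (A - κ k)) / (∏ k, d k) ^ A = N / ∏ k, d k ^ κ k := by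
  have h1 : (∏ k, d k) ^ A = (∏ k, d k ^ (A - κ k)) * ∏ k, d k ^ κ k := by
    rw [← Finset.prod_pow, ← Finset.prod_mul_distrib]
    refine Finset.prod_congr rfl fun k _ => ?_
    rw [← pow_add, Nat.sub_add_cancel (hκ k)]
  have h2 : ∏ k, d k ^ (A - κ k) ≠ 0 := Finset.prod_ne_zero_iff.2 fun k _ => pow_ne_zero _ (hd k)
  rw [h1, mul_comm N, mul_div_mul_left _ _ h2]

/-- The integrals along the segment. Proof: pointwise on the cube, `aeval_bidx`, `aeval_Dt`: the quotient is `∏ i, (∏ l, x ^ a) * (∏ k, D_k ^ (A - κ)) / (∏ k, D_k) ^ A = ∏ i, (∏ l, x ^ a) / ∏ k, D_k ^ κ` (all `D_k ≠ 0`, `κ ≤ A`). -/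
theorem JJ_Gt {s n μ : ℕ} (A : ℕ) {D : Fin μ → Pz s n} {e θ : Fin s → ℚ} (hθ : cst θ ∈ Reg D (cst e)) (p : Pat n μ A)
    {t : ℚ} (ht0 : 0 ≤ t) (ht1 : t ≤ 1) :
    JJ (A * n) (QB A D e θ) (Gt A D e θ p) A t = VV D A p (seg (cst e) (cst θ) t) := by
  unfold JJ VV
  refine setIntegral_congr_fun measurableSet_Icc fun x hx => ?_
  change aeval (pt (A * n) t x) (Gt A D e θ p) / aeval (pt (A * n) t x) (QB A D e θ) ^ A = _
  unfold Gt QB
  rw [map_prod, map_prod, ← Finset.prod_pow, ← Finset.prod_div_distrib]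
  refine Finset.prod_congr rfl fun i _ => ?_
  rw [aeval_bidx, aeval_bidx, map_mul, map_prod, map_prod]
  have h1 : ∀ l : Fin n, aeval (pt n t (bco n A i x)) (X (Fin.succ l) ^ ((p i).1 l : ℕ) : P1 n) =
      bco n A i x l ^ ((p i).1 l : ℕ) := by
    intro l
    rw [map_pow, aeval_X]
    rfl
  have h2 : ∀ k : Fin μ, aeval (pt n t (bco n A i x)) (Dt (D k) e θ ^ (A - ((p i).2 k : ℕ)) : P1 n) =
      vl (D k) (seg (cst e) (cst θ) t) (bco n A i x) ^ (A - ((p i).2 k : ℕ)) := by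
    intro k
    rw [map_pow, aeval_Dt]
  have h3 : aeval (pt n t (bco n A i x)) (Qt D e θ) =
      ∏ k, vl (D k) (seg (cst e) (cst θ) t) (bco n A i x) := by
    unfold Qt
    rw [map_prod]
    exact Finset.prod_congr rfl fun k _ => aeval_Dt (D k) e θ t _
  rw [Finset.prod_congr rfl fun l _ => h1 l, Finset.prod_congr rfl fun k _ => h2 k, h3]
  refine bLink_quot _ _ _ (fun k => ?_) fun k => Nat.lt_succ_iff.1 ((p i).2 k).2
  exact (hθ (t : ℝ) ⟨by exact_mod_cast ht0, by exact_mod_cast ht1⟩ k _ (bco_mem i hx)).ne'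

/-- The integrals at `t = 1`. Proof: the same; or from `JJ_Gt` and `Gt_sub_G1`. -/
theorem JJ_G1 {s n μ : ℕ} (A : ℕ) {D : Fin μ → Pz s n} {e θ : Fin s → ℚ} (hθ : cst θ ∈ Reg D (cst e)) (p : Pat n μ A) :
    JJ (A * n) (QB A D e θ) (G1 A D θ p) A 1 = VV D A p (cst θ) := by
  unfold JJ VV
  refine setIntegral_congr_fun measurableSet_Icc fun x hx => ?_
  change aeval (pt (A * n) 1 x) (G1 A D θ p) / aeval (pt (A * n) 1 x) (QB A D e θ) ^ A = _
  have hseg : seg (cst e) (cst θ) ((1 : ℚ) : ℝ) = cst θ := by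
    funext j
    unfold seg
    push_cast
    ring
  unfold G1 QB
  rw [map_prod, map_prod, ← Finset.prod_pow, ← Finset.prod_div_distrib]
  refine Finset.prod_congr rfl fun i _ => ?_
  rw [aeval_bidx, aeval_bidx, aeval_succ, map_mul, map_prod, map_prod]
  have h1 : ∀ l : Fin n, aeval (bco n A i x) (X l ^ ((p i).1 l : ℕ) : MvPolynomial (Fin n) ℚ) =
      bco n A i x l ^ ((p i).1 l : ℕ) := by
    intro l
    rw [map_pow, aeval_X]
  have h2 : ∀ k : Fin μ, aeval (bco n A i x) (spz (D k) θ ^ (A - ((p i).2 k : ℕ))) =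
      vl (D k) (cst θ) (bco n A i x) ^ (A - ((p i).2 k : ℕ)) := by
    intro k
    rw [map_pow, vl_spz]
  have h3 : aeval (pt n 1 (bco n A i x)) (Qt D e θ) =
      ∏ k, vl (D k) (cst θ) (bco n A i x) := by
    unfold Qt
    rw [map_prod]
    refine Finset.prod_congr rfl fun k _ => ?_
    rw [aeval_Dt, hseg]
  rw [Finset.prod_congr rfl fun l _ => h1 l, Finset.prod_congr rfl fun k _ => h2 k, h3]
  refine bLink_quot _ _ _ (fun k => ?_) fun k => Nat.lt_succ_iff.1 ((p i).2 k).2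
  have h4 := hθ 1 ⟨zero_le_one, le_rfl⟩ k _ (bco_mem i hx)
  have h5 : seg (cst e) (cst θ) 1 = cst θ := by
    funext j
    unfold seg
    ring
  rw [h5] at h4
  exact h4.ne'

private theorem bLink_inT (n : ℕ) (τ : ℚ) (x : Fin n → ℝ) (c : Polynomial ℚ) :
    aeval (pt n τ x) (inT n c) = ((c.eval τ : ℚ) : ℝ) := by
  unfold inT
  induction c using Polynomial.induction_on' with
  | add p q hp hq =>
    rw [map_add, map_add, hp, hq, Polynomial.eval_add, Rat.cast_add]
  | monomial k a =>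
    change aeval (pt n τ x) (Polynomial.aeval (X 0 : P1 n) (Polynomial.monomial k a)) = _
    rw [Polynomial.aeval_monomial, map_mul, map_pow, aeval_X, Polynomial.eval_monomial]
    push_cast
    congr 1
    rw [MvPolynomial.algebraMap_eq, aeval_C]
    rfl

private theorem bLink_cont (n : ℕ) (τ : ℚ) (G : P1 n) :
    Continuous fun x : Fin n → ℝ => (aeval (pt n τ x) G : ℝ) := by
  have h : Continuous fun x : Fin n → ℝ => pt n τ x := by
    refine continuous_pi fun i => ?_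
    refine Fin.cases ?_ (fun l => ?_) i
    · exact continuous_const
    · exact continuous_apply l
  have h1 : (fun x : Fin (n + 1) → ℝ => (aeval x G : ℝ)) =
      fun x => eval x (MvPolynomial.map (algebraMap ℚ ℝ) G) := by
    funext x
    rw [aeval_def, eval₂_eq_eval_map]
  have h2 : Continuous fun x : Fin (n + 1) → ℝ => (aeval x G : ℝ) := by
    rw [h1]
    exact MvPolynomial.continuous_eval _
  exact h2.comp h

/-- Linearity, for coefficients which are polynomials in `t`. Proof: `integral_finset_sum`, `integral_const_mul`; the quotients are continuous on the cube; `aeval (pt n τ x) (inT n c) = c(τ)`. -/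
theorem JJ_sum {n : ℕ} {P : Type} [Fintype P] {Q : P1 n} {τ : ℚ}
    (hQ : ∀ x ∈ Icc (0 : Fin n → ℝ) 1, aeval (pt n τ x) Q ≠ 0) (c : P → Polynomial ℚ) (G : P → P1 n) (K : ℕ) :
    JJ n Q (∑ p, inT n (c p) * G p) K τ = ∑ p, (((c p).eval τ : ℚ) : ℝ) * JJ n Q (G p) K τ := by
  have h1 : ∀ x : Fin n → ℝ, aeval (pt n τ x) (∑ p, inT n (c p) * G p) / aeval (pt n τ x) Q ^ K =
      ∑ p, (((c p).eval τ : ℚ) : ℝ) * (aeval (pt n τ x) (G p) / aeval (pt n τ x) Q ^ K) := by
    intro x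
    rw [map_sum, Finset.sum_div]
    refine Finset.sum_congr rfl fun p _ => ?_
    rw [map_mul, bLink_inT, mul_div_assoc]
  unfold JJ
  simp only [h1]
  rw [integral_finsetSum]
  · refine Finset.sum_congr rfl fun p _ => ?_
    rw [integral_const_mul]
  · intro p _
    refine Integrable.const_mul ?_ _
    refine ContinuousOn.integrableOn_compact isCompact_Icc ?_
    exact (bLink_cont n τ (G p)).continuousOn.div ((bLink_cont n τ Q).pow K).continuousOn
      fun x hx => pow_ne_zero K (hQ x hx)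

/-- the reduction modulo `X 0 - 1` -/
private noncomputable def bLinkφ (m : ℕ) : P1 m →ₐ[ℚ] P1 m ⧸ Ideal.span {(X 0 - C 1 : P1 m)} :=
  Ideal.Quotient.mkₐ ℚ _

private theorem bLink_dvd {m : ℕ} {a b : P1 m} :
    bLinkφ m a = bLinkφ m b ↔ (X 0 - C 1 : P1 m) ∣ a - b := by
  rw [← Ideal.mem_span_singleton]
  exact Ideal.Quotient.eq

private theorem bLink_X (m : ℕ) : bLinkφ m (X 0) = 1 := by
  have h1 : bLinkφ m (X 0) = bLinkφ m (C 1) := bLink_dvd.2 (dvd_refl _)
  exact h1.trans ((congrArg (bLinkφ m) (C_1 : (C 1 : P1 m) = 1)).trans (map_one _))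

private theorem bLink_inTφ (m : ℕ) (c : Polynomial ℚ) :
    bLinkφ m (inT m c) = bLinkφ m (C (c.eval 1)) := by
  unfold inT
  induction c using Polynomial.induction_on' with
  | add p q hp hq =>
    rw [map_add, map_add, hp, hq, Polynomial.eval_add, C_add, map_add]
  | monomial k a =>
    change bLinkφ m (Polynomial.aeval (X 0 : P1 m) (Polynomial.monomial k a)) = _
    rw [Polynomial.aeval_monomial, map_mul, map_pow, bLink_X, Polynomial.eval_monomial, one_pow,
      one_pow, mul_one, mul_one]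
    rfl

private theorem bLink_Dt {s n : ℕ} (A : ℕ) (i : Fin A) (D : Pz s n) (e θ : Fin s → ℚ) :
    bLinkφ (A * n) (rename (bidx n A i) (Dt D e θ)) =
      bLinkφ (A * n) (rename (bidx n A i) (rename Fin.succ (spz D θ))) := by
  have h1 : ((bLinkφ (A * n)).comp (rename (bidx n A i))).comp
      (aeval (Sum.elim (fun j => C (e j) + X 0 * C (θ j - e j)) (fun l => X (Fin.succ l))) :
        Pz s n →ₐ[ℚ] P1 n) =
      (((bLinkφ (A * n)).comp (rename (bidx n A i))).comp (rename Fin.succ)).comp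
        (aeval (Sum.elim (fun j => C (θ j)) X) : Pz s n →ₐ[ℚ] MvPolynomial (Fin n) ℚ) := by
    refine MvPolynomial.algHom_ext fun j => ?_
    rcases j with j | l
    · rw [AlgHom.comp_apply, AlgHom.comp_apply, aeval_X, Sum.elim_inl, AlgHom.comp_apply,
        AlgHom.comp_apply, AlgHom.comp_apply, aeval_X, Sum.elim_inl, map_add, map_mul, rename_C,
        rename_C, rename_X, RedB_bidx_zero, map_add, map_mul, bLink_X, one_mul, ← map_add,
        ← C_add, add_sub_cancel, rename_C, rename_C]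
    · rw [AlgHom.comp_apply, AlgHom.comp_apply, aeval_X, Sum.elim_inr, AlgHom.comp_apply,
        AlgHom.comp_apply, AlgHom.comp_apply, aeval_X, Sum.elim_inr, rename_X, rename_X, rename_X]
  exact congrArg (fun f => f D) h1

private theorem bLink_Gt {s n μ : ℕ} (A : ℕ) (D : Fin μ → Pz s n) (e θ : Fin s → ℚ) (p : Pat n μ A) :
    bLinkφ (A * n) (Gt A D e θ p) = bLinkφ (A * n) (G1 A D θ p) := by
  unfold Gt G1
  rw [map_prod, map_prod]
  refine Finset.prod_congr rfl fun i _ => ?_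
  have h1 : bLinkφ (A * n) (rename (bidx n A i) (∏ k, Dt (D k) e θ ^ (A - ((p i).2 k : ℕ)))) =
      bLinkφ (A * n) (rename (bidx n A i) (rename Fin.succ
        (∏ k, spz (D k) θ ^ (A - ((p i).2 k : ℕ))))) := by
    simp only [map_prod, map_pow]
    refine Finset.prod_congr rfl fun k _ => ?_
    rw [bLink_Dt]
  have h2 : (rename (bidx n A i) (∏ l, X (Fin.succ l) ^ ((p i).1 l : ℕ)) : P1 (A * n)) =
      rename (bidx n A i) (rename Fin.succ (∏ l, X l ^ ((p i).1 l : ℕ))) := by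
    simp only [map_prod, map_pow, rename_X]
  simp only [map_mul] at h1 h2 ⊢
  rw [h1, h2]

/-- Proof: the substitution `X 0 ↦ 1`: both sides are equal modulo `X 0 - C 1` (a polynomial in `P1 n` which is zero after `X 0 ↦ 1` is divisible by `X 0 - C 1`; see `sub_dvd` in PP/RedD.lean; or: `Dt D e θ - rename Fin.succ (spz D θ)` is divisible by `X 0 - 1`
by induction on `D`, and congruences modulo `X 0 - 1` are compatible with products, powers, `rename (bidx n A i)`, which fixes `X 0`). -/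
theorem Gt_sub_G1 {s n μ : ℕ} (A : ℕ) (D : Fin μ → Pz s n) (e θ : Fin s → ℚ) (p : Pat n μ A) :
    (X 0 - C 1 : P1 (A * n)) ∣ Gt A D e θ p - G1 A D θ p := by
  rw [← bLink_dvd]
  exact bLink_Gt A D e θ p

private theorem bLink_small {n : ℕ} (Q : P1 n) : ∃ τ₀ : ℚ, 0 < τ₀ ∧ τ₀ ≤ 1 ∧
    ∀ τ : ℚ, 0 < τ → τ ≤ τ₀ → wn n Q τ ≤ 1 / 2 := by
  obtain ⟨M, hM⟩ : ∃ M : ℚ, M = ∑ m ∈ Q.support with m 0 ≠ 0, |coeff m Q| := ⟨_, rfl⟩
  have hM0 : 0 ≤ M := by
    rw [hM]
    exact Finset.sum_nonneg fun m _ => abs_nonneg _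
  refine ⟨1 / (2 * (M + 1)), by positivity, ?_, ?_⟩
  · rw [div_le_one (by positivity)]
    linarith
  · intro τ h0 h1
    have hτ1 : τ ≤ 1 := by
      refine h1.trans ?_
      rw [div_le_one (by positivity)]
      linarith
    unfold wn
    have h2 : ∑ m ∈ Q.support with m 0 ≠ 0, |coeff m Q| * |τ| ^ m 0 ≤ M * τ := by
      rw [hM, Finset.sum_mul]
      refine Finset.sum_le_sum fun m hm => ?_
      have hm0 : m 0 ≠ 0 := (Finset.mem_filter.1 hm).2
      refine mul_le_mul_of_nonneg_left ?_ (abs_nonneg _)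
      rw [abs_of_pos h0]
      exact pow_le_of_le_one h0.le hτ1 hm0
    refine h2.trans ?_
    have h3 : M * τ ≤ M * (1 / (2 * (M + 1))) := mul_le_mul_of_nonneg_left h1 hM0
    refine h3.trans ?_
    rw [mul_one_div, div_le_div_iff₀ (by positivity) (by norm_num)]
    linarith

private theorem bLink_zero {f : PowerSeries ℚ} {τ₀ : ℚ} (hτ₀ : 0 < τ₀)
    (hsum : Summable fun k => |((PowerSeries.coeff k f : ℚ) : ℝ)| * (τ₀ : ℝ) ^ k)
    (hev : ∀ τ : ℚ, 0 < τ → τ ≤ τ₀ → ev τ f = 0) : f = 0 := by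
  have hτr : (0 : ℝ) < (τ₀ : ℝ) := by exact_mod_cast hτ₀
  have key : ∀ j : ℕ, PowerSeries.coeff j f = 0 := by
    intro j
    induction j using Nat.strong_induction_on with
    | _ j ih =>
      by_contra hne
      obtain ⟨a, ha⟩ : ∃ a : ℕ → ℝ, a = fun k => ((PowerSeries.coeff k f : ℚ) : ℝ) := ⟨_, rfl⟩
      have haj : a j ≠ 0 := by
        rw [ha]
        change ((PowerSeries.coeff j f : ℚ) : ℝ) ≠ 0
        exact_mod_cast hne
      have ha0 : ∀ k < j, a k = 0 := by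
        intro k hk
        rw [ha]
        change ((PowerSeries.coeff k f : ℚ) : ℝ) = 0
        rw [ih k hk, Rat.cast_zero]
      have hs1 : Summable fun k => |a (k + (j + 1))| * (τ₀ : ℝ) ^ (k + (j + 1)) := by
        have h1 := (summable_nat_add_iff (j + 1)).2 hsum
        rw [ha]
        exact h1
      obtain ⟨M, hM⟩ : ∃ M : ℝ, M = ∑' k, |a (k + (j + 1))| * (τ₀ : ℝ) ^ (k + (j + 1)) := ⟨_, rfl⟩
      have hM0 : 0 ≤ M := by
        rw [hM]
        exact tsum_nonneg fun k => by positivity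
      have hmain : ∀ τ : ℚ, 0 < τ → τ ≤ τ₀ → |a j| * (τ₀ : ℝ) ^ (j + 1) ≤ M * τ := by
        intro τ h0 h1
        have h0r : (0 : ℝ) < (τ : ℝ) := by exact_mod_cast h0
        have h1r : (τ : ℝ) ≤ (τ₀ : ℝ) := by exact_mod_cast h1
        have hs2 : Summable fun k => a k * (τ : ℝ) ^ k := by
          refine Summable.of_norm_bounded (g := fun k => |a k| * (τ₀ : ℝ) ^ k) ?_ fun k => ?_
          · rw [ha]
            exact hsum
          · rw [norm_mul, norm_pow, Real.norm_eq_abs, Real.norm_eq_abs, abs_of_pos h0r]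
            exact mul_le_mul_of_nonneg_left (pow_le_pow_left₀ h0r.le h1r k) (abs_nonneg _)
        have h2 : ∑' k, a k * (τ : ℝ) ^ k = 0 := by
          have h3 := hev τ h0 h1
          unfold ev at h3
          rw [ha]
          exact h3
        have h3 := hs2.sum_add_tsum_nat_add (j + 1)
        rw [h2, Finset.sum_range_succ, Finset.sum_eq_zero, zero_add] at h3
        · have h4 : |a j| * (τ : ℝ) ^ j = |∑' k, a (k + (j + 1)) * (τ : ℝ) ^ (k + (j + 1))| := by
            have h5 : a j * (τ : ℝ) ^ j = -∑' k, a (k + (j + 1)) * (τ : ℝ) ^ (k + (j + 1)) := by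
              linarith
            have h6 := congrArg abs h5
            rw [abs_mul, abs_neg, abs_of_pos (pow_pos h0r j)] at h6
            exact h6
          have h5 : |∑' k, a (k + (j + 1)) * (τ : ℝ) ^ (k + (j + 1))| * (τ₀ : ℝ) ^ (j + 1) ≤
              M * (τ : ℝ) ^ (j + 1) := by
            have hb : ‖∑' k, a (k + (j + 1)) * (τ : ℝ) ^ (k + (j + 1))‖ ≤
                ∑' k, |a (k + (j + 1))| * (τ₀ : ℝ) ^ (k + (j + 1)) * ((τ : ℝ) / τ₀) ^ (j + 1) := by
              refine tsum_of_norm_bounded (hs1.mul_right _).hasSum fun k => ?_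
              rw [norm_mul, norm_pow, Real.norm_eq_abs, Real.norm_eq_abs, abs_of_pos h0r, mul_assoc]
              refine mul_le_mul_of_nonneg_left ?_ (abs_nonneg _)
              have h9 : (τ₀ : ℝ) * ((τ : ℝ) / τ₀) = τ := by field_simp
              have h8 : (τ₀ : ℝ) ^ (k + (j + 1)) * ((τ : ℝ) / τ₀) ^ (j + 1) =
                  (τ₀ : ℝ) ^ k * (τ : ℝ) ^ (j + 1) := by
                rw [pow_add, mul_assoc, ← mul_pow, h9]
              rw [h8, pow_add]
              exact mul_le_mul_of_nonneg_right (pow_le_pow_left₀ h0r.le h1r k) (by positivity)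
            rw [tsum_mul_right, ← hM, Real.norm_eq_abs] at hb
            calc |∑' k, a (k + (j + 1)) * (τ : ℝ) ^ (k + (j + 1))| * (τ₀ : ℝ) ^ (j + 1)
                ≤ (M * ((τ : ℝ) / τ₀) ^ (j + 1)) * (τ₀ : ℝ) ^ (j + 1) :=
                  mul_le_mul_of_nonneg_right hb (by positivity)
              _ = M * (τ : ℝ) ^ (j + 1) := by
                  rw [mul_assoc, ← mul_pow, div_mul_cancel₀ _ hτr.ne']
          rw [← h4] at h5
          have h6 : (|a j| * (τ₀ : ℝ) ^ (j + 1)) * (τ : ℝ) ^ j ≤ (M * τ) * (τ : ℝ) ^ j := by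
            rw [pow_succ (τ : ℝ) j] at h5
            nlinarith [h5]
          exact le_of_mul_le_mul_right h6 (pow_pos h0r j)
        · intro k hk
          rw [ha0 k (Finset.mem_range.1 hk), zero_mul]
      have hA : 0 < |a j| * (τ₀ : ℝ) ^ (j + 1) := mul_pos (abs_pos.2 haj) (pow_pos hτr _)
      obtain ⟨τ, hτ0, hτ1⟩ := exists_rat_btwn
        (show (0 : ℝ) < min (τ₀ : ℝ) (|a j| * (τ₀ : ℝ) ^ (j + 1) / (M + 1)) from
          lt_min hτr (by positivity))
      have hτ0' : 0 < τ := by exact_mod_cast hτ0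
      have hτ1' : τ ≤ τ₀ := by
        have h1 := hτ1.le.trans (min_le_left _ _)
        exact_mod_cast h1
      have h1 := hmain τ hτ0' hτ1'
      have h2 : (τ : ℝ) < |a j| * (τ₀ : ℝ) ^ (j + 1) / (M + 1) := hτ1.trans_le (min_le_right _ _)
      rw [lt_div_iff₀ (by positivity)] at h2
      nlinarith
  ext j
  rw [key j, map_zero]

/-- The formal expansion vanishes if the integrals vanish.

Proof. For `τ > 0` small enough `wn n Q τ ≤ 1 / 2` (`wn n Q τ ≤ |τ| ∑ |coeff|` for `|τ| ≤ 1`), so `ev τ (Phi n Q S K) = 0` by `integral_eq_ev` (PP/Sem.lean). The coefficients of `f = Phi n Q S K` satisfy `|coeff k f| ≤ B c ^ k` (see the estimates used in PP/Sem.lean: `SW_ser`, `SW_sinv`, `abs_aeval_le`, `sum_ser_le`;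
or from the summability of `coeff k f τ₀ ^ k` for one `τ₀ > 0`). If `f ≠ 0`, let `j` be the order of `f`: `ev τ f / τ ^ j → coeff j f ≠ 0` as `τ → 0`, a contradiction. -/
theorem Phi_zero_of_JJ {n : ℕ} {Q S : P1 n} {K : ℕ} (hQ : atZero n Q = 1)
    (h : ∀ τ : ℚ, 0 < τ → τ ≤ 1 → JJ n Q S K τ = 0) : PP.Phi n Q S K = 0 := by
  obtain ⟨τ₀, hτ₀, hτ₀1, hw⟩ := bLink_small Q
  obtain ⟨f, hf⟩ : ∃ f, f = PP.Phi n Q S K := ⟨_, rfl⟩
  have hsum : Summable fun k => |((PowerSeries.coeff k f : ℚ) : ℝ)| * (τ₀ : ℝ) ^ k := by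
    have h1 := summable_Phi hQ (hw τ₀ hτ₀ le_rfl) S K
    rw [← hf, abs_of_pos (show (0 : ℝ) < (τ₀ : ℝ) by exact_mod_cast hτ₀)] at h1
    exact h1
  have hev : ∀ τ : ℚ, 0 < τ → τ ≤ τ₀ → ev τ f = 0 := by
    intro τ h1 h2
    have h3 := integral_eq_ev hQ (hw τ h1 h2) S K
    rw [← hf] at h3
    rw [← h3]
    exact h τ h1 (h2.trans hτ₀1)
  rw [← hf]
  exact bLink_zero hτ₀ hsum hev

/-- the substitution along the segment -/
private noncomputable def bLinkS {s : ℕ} (e θ : Fin s → ℚ) : MvPolynomial (Fin s) ℚ →ₐ[ℚ] Polynomial ℚ :=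
  aeval (fun i => Polynomial.C (e i) + Polynomial.X * Polynomial.C (θ i - e i))

private theorem bLinkS_eval {s : ℕ} (e θ : Fin s → ℚ) (q : MvPolynomial (Fin s) ℚ) (τ : ℚ) :
    (((bLinkS e θ q).eval τ : ℚ) : ℝ) = aeval (seg (cst e) (cst θ) (τ : ℝ)) q := by
  induction q using MvPolynomial.induction_on with
  | C a =>
    unfold bLinkS
    rw [aeval_C, aeval_C, Polynomial.algebraMap_eq, Polynomial.eval_C]
    rfl
  | add p q hp hq => rw [map_add, Polynomial.eval_add, Rat.cast_add, hp, hq, map_add]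
  | mul_X p i hp =>
    rw [map_mul, Polynomial.eval_mul, Rat.cast_mul, hp, map_mul, aeval_X]
    congr 1
    unfold bLinkS
    rw [aeval_X, Polynomial.eval_add, Polynomial.eval_mul, Polynomial.eval_C, Polynomial.eval_C,
      Polynomial.eval_X]
    unfold seg cst
    push_cast
    rfl

private theorem bLinkS_one {s : ℕ} (e θ : Fin s → ℚ) (q : MvPolynomial (Fin s) ℚ) :
    (bLinkS e θ q).eval 1 = aeval θ q := by
  induction q using MvPolynomial.induction_on with
  | C a =>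
    unfold bLinkS
    rw [aeval_C, aeval_C, Polynomial.algebraMap_eq, Polynomial.eval_C]
    rfl
  | add p q hp hq => rw [map_add, Polynomial.eval_add, hp, hq, map_add]
  | mul_X p i hp =>
    rw [map_mul, Polynomial.eval_mul, hp, map_mul, aeval_X]
    congr 1
    unfold bLinkS
    rw [aeval_X, Polynomial.eval_add, Polynomial.eval_mul, Polynomial.eval_C, Polynomial.eval_C,
      Polynomial.eval_X]
    ring

/-- A linear relation between the integrals which follows from the generic relations has an algebraic reason.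

Proof. Let `q' : ℚ[t]` be `aeval (fun i => Polynomial.C (e i) + Polynomial.X * Polynomial.C (θ i - e i)) q`, likewise `r' p i`; `q₁ = aeval θ q`, and `S = ∑ p, inT (C (c p / q₁)) * (inT q' * Gt p - ∑ i, inT (r' p i) * Gt (π i))`. For rational `0 < t ≤ 1`, by `JJ_sum` (twice; `QB_pos`), `JJ_Gt` and `hrel` at the point `seg (cst e) (cst θ) t ∈ Reg D (cst e)` (`seg_Reg`),
`JJ (A * n) (QB A D e θ) S A t = 0`; so `Phi ... S A = 0` by `Phi_zero_of_JJ`, `atZero_QB`. Modulo `X 0 - C 1`: `inT q' ≡ C q₁`, `inT (r' p i) ≡ C (aeval θ (r p i))`, `Gt p ≡ G1 p` (`Gt_sub_G1`), so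
`S ≡ ∑ p, C (c p) * G1 p - C q₁⁻¹ * ∑ i, C (∑ p, c p * aeval θ (r p i)) * G1 (π i) = ∑ p, C (c p) * G1 p`. -/
theorem exists_phi {s n μ A ρ : ℕ} {D : Fin μ → Pz s n} {e : Fin s → ℚ} (hD : ∀ k, spz (D k) e = 1)
    {π : Fin ρ → Pat n μ A} {q : MvPolynomial (Fin s) ℚ} {r : Pat n μ A → Fin ρ → MvPolynomial (Fin s) ℚ}
    (hrel : ∀ p, ∀ θ ∈ Reg D (cst e), aeval θ q * VV D A p θ = ∑ i, aeval θ (r p i) * VV D A (π i) θ)
    {θ : Fin s → ℚ} (hθ : cst θ ∈ Reg D (cst e)) (hq : aeval θ q ≠ 0) (c : Pat n μ A → ℚ)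
    (hc : ∀ i, ∑ p, c p * aeval θ (r p i) = 0) :
    ∃ U : P1 (A * n), PP.Phi (A * n) (QB A D e θ) (∑ p, C (c p) * G1 A D θ p + (X 0 - C 1) * U) A = 0 := by
  classical
  obtain ⟨q₁, hq₁⟩ : ∃ q₁ : ℚ, q₁ = aeval θ q := ⟨_, rfl⟩
  have hq₁0 : q₁ ≠ 0 := by
    rw [hq₁]
    exact hq
  let c' : Pat n μ A ⊕ Fin ρ → Polynomial ℚ := Sum.elim
    (fun p => Polynomial.C (c p / q₁) * bLinkS e θ q)
    (fun i => -∑ p, Polynomial.C (c p / q₁) * bLinkS e θ (r p i))
  let G' : Pat n μ A ⊕ Fin ρ → P1 (A * n) := Sum.elim (fun p => Gt A D e θ p)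
    (fun i => Gt A D e θ (π i))
  obtain ⟨S, hS⟩ : ∃ S, S = ∑ x, inT (A * n) (c' x) * G' x := ⟨_, rfl⟩
  have hJ : ∀ τ : ℚ, 0 < τ → τ ≤ 1 → JJ (A * n) (QB A D e θ) S A τ = 0 := by
    intro τ h0 h1
    have hθt : seg (cst e) (cst θ) (τ : ℝ) ∈ Reg D (cst e) :=
      seg_Reg hθ ⟨by exact_mod_cast h0.le, by exact_mod_cast h1⟩
    rw [hS, JJ_sum (fun x hx => (QB_pos A hθ h0.le h1 hx).ne'), Fintype.sum_sum_type]
    have h2 : ∀ p : Pat n μ A, (((c' (Sum.inl p)).eval τ : ℚ) : ℝ) *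
        JJ (A * n) (QB A D e θ) (G' (Sum.inl p)) A τ =
        ∑ i, ((c p / q₁ : ℚ) : ℝ) * (aeval (seg (cst e) (cst θ) (τ : ℝ)) (r p i) *
          VV D A (π i) (seg (cst e) (cst θ) τ)) := by
      intro p
      simp only [c', G', Sum.elim_inl]
      rw [JJ_Gt A hθ p h0.le h1, Polynomial.eval_mul, Polynomial.eval_C, Rat.cast_mul, mul_assoc,
        bLinkS_eval, hrel p _ hθt, Finset.mul_sum]
    have h3 : ∀ i : Fin ρ, (((c' (Sum.inr i)).eval τ : ℚ) : ℝ) *
        JJ (A * n) (QB A D e θ) (G' (Sum.inr i)) A τ =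
        -∑ p, ((c p / q₁ : ℚ) : ℝ) * (aeval (seg (cst e) (cst θ) (τ : ℝ)) (r p i) *
          VV D A (π i) (seg (cst e) (cst θ) τ)) := by
      intro i
      simp only [c', G', Sum.elim_inr]
      rw [JJ_Gt A hθ (π i) h0.le h1, Polynomial.eval_neg, Polynomial.eval_finsetSum, Rat.cast_neg,
        Rat.cast_sum, neg_mul, Finset.sum_mul]
      congr 1
      refine Finset.sum_congr rfl fun p _ => ?_
      rw [Polynomial.eval_mul, Polynomial.eval_C, Rat.cast_mul, mul_assoc, bLinkS_eval]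
    rw [Finset.sum_congr rfl fun p _ => h2 p, Finset.sum_congr rfl fun i _ => h3 i,
      Finset.sum_neg_distrib, Finset.sum_comm, add_neg_cancel]
  have hPhi := Phi_zero_of_JJ (atZero_QB A hD θ) hJ
  have hdvd : (X 0 - C 1 : P1 (A * n)) ∣ S - ∑ p, C (c p) * G1 A D θ p := by
    rw [← bLink_dvd, hS, map_sum, map_sum, Fintype.sum_sum_type]
    have h2 : ∀ p : Pat n μ A, bLinkφ (A * n) (inT (A * n) (c' (Sum.inl p)) * G' (Sum.inl p)) =
        bLinkφ (A * n) (C (c p) * G1 A D θ p) := by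
      intro p
      simp only [c', G', Sum.elim_inl]
      rw [map_mul, bLink_inTφ, map_mul, bLink_Gt, Polynomial.eval_mul, Polynomial.eval_C,
        bLinkS_one, ← hq₁, div_mul_cancel₀ _ hq₁0]
    have h3 : ∀ i : Fin ρ, bLinkφ (A * n) (inT (A * n) (c' (Sum.inr i)) * G' (Sum.inr i)) = 0 := by
      intro i
      simp only [c', G', Sum.elim_inr]
      rw [map_mul, bLink_inTφ, Polynomial.eval_neg, Polynomial.eval_finsetSum]
      have h4 : ∑ p, (Polynomial.C (c p / q₁) * bLinkS e θ (r p i)).eval 1 = 0 := by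
        have h5 : ∀ p, (Polynomial.C (c p / q₁) * bLinkS e θ (r p i)).eval 1 =
            (c p * aeval θ (r p i)) * q₁⁻¹ := by
          intro p
          rw [Polynomial.eval_mul, Polynomial.eval_C, bLinkS_one, div_eq_mul_inv]
          ring
        rw [Finset.sum_congr rfl fun p _ => h5 p, ← Finset.sum_mul, hc i, zero_mul]
      rw [h4, neg_zero, C_0, map_zero, zero_mul]
    rw [Finset.sum_congr rfl fun p _ => h2 p, Finset.sum_congr rfl fun i _ => h3 i,
      Finset.sum_const_zero, add_zero]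
  obtain ⟨U, hU⟩ := hdvd
  refine ⟨U, ?_⟩
  rw [← hU, add_sub_cancel]
  exact hPhi

end Pool.Agent.Lib.MP_bbe012_lc.PG
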