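import Pool.Agent.Lib.MP_bbe012_lc.PG.A3

/-!
# Expansions and power series
-/

namespace Pool.Agent.Lib.MP_bbe012_lc.PG

open MvPolynomial

/-- The coefficients of a power series, as a function on `Fin s → ℕ`. -/
noncomputable def cf {s : ℕ} (F : MvPowerSeries (Fin s) ℝ) (b : Fin s → ℕ) : ℝ :=
  MvPowerSeries.coeff (Finsupp.equivFunOnFinite.symm b) F

private theorem bser_cf_X {s : ℕ} (i : Fin s) (F : MvPowerSeries (Fin s) ℝ) (b : Fin s → ℕ) :
    cf (MvPowerSeries.X i * F) b = if b i = 0 then 0 else cf F (b - Pi.single i 1) := by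
  classical
  unfold cf
  rw [MvPowerSeries.X_def, MvPowerSeries.coeff_monomial_mul]
  by_cases hb : b i = 0
  · rw [if_pos hb, if_neg]
    intro h
    have h1 := h i
    rw [Finsupp.single_eq_same, Finsupp.equivFunOnFinite_symm_apply_apply, hb] at h1
    omega
  · rw [if_neg hb, if_pos, one_mul]
    · refine congrArg (fun m => MvPowerSeries.coeff m F) ?_
      ext j
      rw [Finsupp.tsub_apply, Finsupp.equivFunOnFinite_symm_apply_apply,
        Finsupp.equivFunOnFinite_symm_apply_apply, Pi.sub_apply]
      rcases eq_or_ne j i with rfl | hj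
      · rw [Finsupp.single_eq_same, Pi.single_eq_same]
      · rw [Finsupp.single_eq_of_ne hj, Pi.single_eq_of_ne hj]
    · intro j
      rw [Finsupp.equivFunOnFinite_symm_apply_apply]
      rcases eq_or_ne j i with rfl | hj
      · rw [Finsupp.single_eq_same]
        omega
      · rw [Finsupp.single_eq_of_ne hj]
        exact Nat.zero_le _

private theorem bser_dg_single {s : ℕ} (i : Fin s) : dg (Pi.single i 1 : Fin s → ℕ) = 1 := by
  unfold dg
  rw [Finset.sum_eq_single i]
  · exact Pi.single_eq_same _ _
  · intro j _ hj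
    exact Pi.single_eq_of_ne hj _
  · intro hi
    exact absurd (Finset.mem_univ i) hi

private theorem bser_mon_single {s : ℕ} (k : Fin s → ℝ) (i : Fin s) :
    mon k (Pi.single i 1 : Fin s → ℕ) = k i := by
  unfold mon
  rw [Finset.prod_eq_single i]
  · rw [Pi.single_eq_same, pow_one]
  · intro j _ hj
    rw [Pi.single_eq_of_ne hj, pow_zero]
  · intro hi
    exact absurd (Finset.mem_univ i) hi

private theorem bser_sub_single {s : ℕ} {b : Fin s → ℕ} {i : Fin s} (hb : b i ≠ 0) :
    b = (b - Pi.single i 1) + Pi.single i 1 := by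
  funext j
  rw [Pi.add_apply, Pi.sub_apply]
  rcases eq_or_ne j i with rfl | hj
  · rw [Pi.single_eq_same]
    omega
  · rw [Pi.single_eq_of_ne hj]
    omega

private theorem bser_X {s : ℕ} {r B : ℝ} {θ₀ : Fin s → ℝ} {N : (Fin s → ℝ) → ℝ}
    {F : MvPowerSeries (Fin s) ℝ} (h : Exp r B θ₀ N (cf F)) (hr : 0 < r) (hB : 0 ≤ B) (i : Fin s) :
    Exp r (B * r) θ₀ (fun θ => (θ i - θ₀ i) * N θ) (cf (MvPowerSeries.X i * F)) := by
  refine ⟨fun b => ?_, fun k hk => ?_⟩
  · rw [bser_cf_X]
    by_cases hb : b i = 0
    · rw [if_pos hb, abs_zero]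
      positivity
    · rw [if_neg hb]
      refine (h.bound _).trans (le_of_eq ?_)
      have h3 : b = (b - Pi.single i 1) + Pi.single i 1 := bser_sub_single hb
      have h4 : dg b = dg (b - Pi.single i 1) + 1 := by
        have h5 := dg_add (b - Pi.single i 1) (Pi.single i 1)
        rw [← h3, bser_dg_single] at h5
        exact h5
      rw [h4, pow_succ]
      field_simp
  · have h1 := h.sum k hk
    have h4 : Function.Injective fun b : Fin s → ℕ => b + Pi.single i 1 := add_left_injective _
    have h8 : ((θ₀ + k) i - θ₀ i) * N (θ₀ + k) = k i * N (θ₀ + k) := by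
      rw [Pi.add_apply]
      ring
    change HasSum _ (((θ₀ + k) i - θ₀ i) * N (θ₀ + k))
    rw [h8]
    refine (h4.hasSum_iff ?_).1 ?_
    · intro b hb
      rw [bser_cf_X]
      by_cases hb0 : b i = 0
      · rw [if_pos hb0, zero_mul]
      · exact absurd ⟨b - Pi.single i 1, (bser_sub_single hb0).symm⟩ hb
    · have h5 : ((fun b => cf (MvPowerSeries.X i * F) b * mon k b) ∘
          fun b : Fin s → ℕ => b + Pi.single i 1) = fun b => k i * (cf F b * mon k b) := by
        funext b
        have h6 : (b + Pi.single i 1 : Fin s → ℕ) i ≠ 0 := by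
          rw [Pi.add_apply, Pi.single_eq_same]
          exact Nat.succ_ne_zero _
        change cf (MvPowerSeries.X i * F) (b + Pi.single i 1) * mon k (b + Pi.single i 1) = _
        rw [bser_cf_X, if_neg h6, add_tsub_cancel_right, mon_add, bser_mon_single]
        ring
      rw [h5]
      exact h1.mul_left (k i)

/-- Multiplication by a polynomial in `θ - θ₀`. Proof: induction on `p` (`MvPolynomial.induction_on` or sum of monomials): for constants and sums clear (`Exp.linear`); for the multiplication by `X i`: the function `(θ i - θ₀ i) * N θ` has the shifted series (`Function.Injective.hasSum_iff` for the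
injective map `b ↦ b + Pi.single i 1`; `MvPowerSeries.coeff_X_mul`-like formula, `coeff (b) (X i * F) = coeff (b - e_i) F` if `b i ≥ 1` and `0` otherwise), with the constant `B r`. -/
theorem Exp.mul_poly {s : ℕ} {r B : ℝ} {θ₀ : Fin s → ℝ} {N : (Fin s → ℝ) → ℝ} {F : MvPowerSeries (Fin s) ℝ}
    (h : Exp r B θ₀ N (cf F)) (hr : 0 < r) (hB : 0 ≤ B) (p : MvPolynomial (Fin s) ℝ) :
    ∃ B' : ℝ, 0 ≤ B' ∧ Exp r B' θ₀ (fun θ => eval (fun i => θ i - θ₀ i) p * N θ)
      (cf ((p : MvPowerSeries (Fin s) ℝ) * F)) := by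
  induction p using MvPolynomial.induction_on with
  | C a =>
    refine ⟨|a| * B, by positivity, fun b => ?_, fun k hk => ?_⟩
    · rw [coe_C]
      unfold cf
      rw [MvPowerSeries.coeff_C_mul, abs_mul, mul_assoc]
      exact mul_le_mul_of_nonneg_left (h.bound b) (abs_nonneg _)
    · have h1 := (h.sum k hk).mul_left a
      change HasSum _ (eval _ (C a) * N (θ₀ + k))
      rw [eval_C]
      have h2 : (fun b => cf (((C a : MvPolynomial (Fin s) ℝ) : MvPowerSeries (Fin s) ℝ) * F) b *
          mon k b) = fun b => a * (cf F b * mon k b) := by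
        funext b
        rw [coe_C]
        unfold cf
        rw [MvPowerSeries.coeff_C_mul, mul_assoc]
      rw [h2]
      exact h1
  | add p q hp hq =>
    obtain ⟨B₁, hB₁, h₁⟩ := hp
    obtain ⟨B₂, hB₂, h₂⟩ := hq
    have hc : ∀ b, cf (((p + q : MvPolynomial (Fin s) ℝ) : MvPowerSeries (Fin s) ℝ) * F) b =
        cf ((p : MvPowerSeries (Fin s) ℝ) * F) b + cf ((q : MvPowerSeries (Fin s) ℝ) * F) b := by
      intro b
      rw [coe_add, add_mul]
      unfold cf
      rw [map_add]
    refine ⟨B₁ + B₂, by positivity, fun b => ?_, fun k hk => ?_⟩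
    · rw [hc, add_mul]
      exact (abs_add_le _ _).trans (add_le_add (h₁.bound b) (h₂.bound b))
    · have h1 := (h₁.sum k hk).add (h₂.sum k hk)
      change HasSum _ (eval _ (p + q) * N (θ₀ + k))
      rw [map_add, add_mul]
      have h2 : (fun b => cf (((p + q : MvPolynomial (Fin s) ℝ) : MvPowerSeries (Fin s) ℝ) * F) b *
          mon k b) = fun b => cf ((p : MvPowerSeries (Fin s) ℝ) * F) b * mon k b +
            cf ((q : MvPowerSeries (Fin s) ℝ) * F) b * mon k b := by
        funext b
        rw [hc, add_mul]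
      rw [h2]
      exact h1
  | mul_X p i hp =>
    obtain ⟨B₁, hB₁, h₁⟩ := hp
    refine ⟨B₁ * r, by positivity, ?_⟩
    have h2 := bser_X h₁ hr hB₁ i
    have h3 : (fun θ : Fin s → ℝ => eval (fun i => θ i - θ₀ i) (p * X i) * N θ) =
        fun θ => (θ i - θ₀ i) * (eval (fun i => θ i - θ₀ i) p * N θ) := by
      funext θ
      rw [map_mul, eval_X]
      ring
    have h4 : ((p * X i : MvPolynomial (Fin s) ℝ) : MvPowerSeries (Fin s) ℝ) * F =
        MvPowerSeries.X i * ((p : MvPowerSeries (Fin s) ℝ) * F) := by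
      rw [coe_mul, coe_X]
      ring
    rw [h3, h4]
    exact h2

/-- Uniqueness of the coefficients.

Proof. Fix `v` with `|v i| ≤ 1`. For small `t`: `0 = N (θ₀ + t v) = ∑ b, ν b t ^ dg b mon v b` (`mon_smul`), absolutely convergent, `= ∑ n, t ^ n c_n(v)` with `c_n(v) = ∑ b with dg b = n, ν b mon v b` (`HasSum.sigma` along the fibres of `dg`, which are finite by `finite_dg_lt`); by the uniqueness of
power series in one variable (`HasFPowerSeriesAt.eq_zero` with `hasFPowerSeriesAt_iff`, or the first non zero coefficient argument) `c_n(v) = 0` for all `v` with `|v i| ≤ 1`. This is a polynomial in `v` with the coefficients `ν b`, so they all vanish (`MvPolynomial.funext_set` or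
`MvPolynomial.eq_zero_of_eval_zero_at_prod_finset`). -/
theorem Exp.unique {s : ℕ} {r B : ℝ} {θ₀ : Fin s → ℝ} {N : (Fin s → ℝ) → ℝ} {ν : (Fin s → ℕ) → ℝ}
    (h : Exp r B θ₀ N ν) (hr : 0 < r) (hB : 0 ≤ B) (h0 : ∀ᶠ θ in nhds θ₀, N θ = 0) : ∀ b, ν b = 0 := by
  classical
  have key : ∀ n : ℕ, ∀ b, dg b = n → ν b = 0 := by
    intro n
    induction n using Nat.strong_induction_on with
    | _ n ih =>
      let F : Finset (Fin s → ℕ) := (finite_dg_lt (ι := Fin s) (n + 1)).toFinset
      have hF : ∀ b, b ∈ F ↔ dg b < n + 1 := fun b => by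
        rw [Set.Finite.mem_toFinset]
        rfl
      have hS : ∀ u : Fin s → ℝ, (∀ i, |u i| ≤ 1) → ∑ b ∈ F, ν b * mon u b = 0 := by
        intro u hu
        let K : ℝ := B * 2 ^ Fintype.card (Fin s) * (2 / r) ^ (n + 1)
        have hcont : Filter.Tendsto (fun ℓ : ℝ => θ₀ + fun i => ℓ * u i) (nhds 0) (nhds θ₀) := by
          have h1 : Continuous (fun ℓ : ℝ => θ₀ + fun i => ℓ * u i) :=
            continuous_const.add (continuous_pi fun i => continuous_id.mul continuous_const)
          have h2 := h1.tendsto 0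
          have h3 : (θ₀ + fun i => (0 : ℝ) * u i) = θ₀ := by
            funext i
            rw [Pi.add_apply, zero_mul, add_zero]
          rw [h3] at h2
          exact h2
        have hev : ∀ᶠ ℓ : ℝ in nhdsWithin 0 (Set.Ioi 0), |∑ b ∈ F, ν b * mon u b| ≤ K * ℓ := by
          have h1 : ∀ᶠ ℓ : ℝ in nhdsWithin 0 (Set.Ioi 0), N (θ₀ + fun i => ℓ * u i) = 0 :=
            (hcont.eventually h0).filter_mono nhdsWithin_le_nhds
          have h2 : ∀ᶠ ℓ : ℝ in nhdsWithin 0 (Set.Ioi 0), ℓ < r / 4 :=
            (gt_mem_nhds (by positivity : (0 : ℝ) < r / 4)).filter_mono nhdsWithin_le_nhds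
          filter_upwards [h1, h2, self_mem_nhdsWithin] with ℓ hℓ1 hℓ2 hℓ3
          have hℓ0 : 0 < ℓ := hℓ3
          have h3 := h.approx hr hB hℓ0 (by linarith) hu (n + 1) F fun b hb => (hF b).2 hb
          rw [hℓ1, zero_sub, abs_neg] at h3
          have h4 : ∑ b ∈ F, ν b * ℓ ^ dg b * mon u b = ℓ ^ n * ∑ b ∈ F, ν b * mon u b := by
            rw [Finset.mul_sum]
            refine Finset.sum_congr rfl fun b hb => ?_
            rcases Nat.lt_or_ge (dg b) n with hlt | hge
            · rw [ih (dg b) hlt b rfl]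
              ring
            · have h5 : dg b = n := by
                have := (hF b).1 hb
                omega
              rw [h5]
              ring
          rw [h4, abs_mul, abs_of_pos (pow_pos hℓ0 n)] at h3
          have h6 : B * 2 ^ Fintype.card (Fin s) * (2 * ℓ / r) ^ (n + 1) = ℓ ^ n * (K * ℓ) := by
            have h7 : 2 * ℓ / r = 2 / r * ℓ := by ring
            rw [h7, mul_pow]
            change _ = ℓ ^ n * (B * 2 ^ Fintype.card (Fin s) * (2 / r) ^ (n + 1) * ℓ)
            rw [pow_succ ℓ n]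
            ring
          rw [h6] at h3
          exact le_of_mul_le_mul_left h3 (pow_pos hℓ0 n)
        have hlim : Filter.Tendsto (fun ℓ : ℝ => K * ℓ) (nhdsWithin 0 (Set.Ioi 0)) (nhds 0) := by
          have h1 : Filter.Tendsto (fun ℓ : ℝ => K * ℓ) (nhds 0) (nhds (K * 0)) :=
            (continuous_const.mul continuous_id).tendsto 0
          rw [mul_zero] at h1
          exact h1.mono_left nhdsWithin_le_nhds
        have h1 := ge_of_tendsto hlim hev
        exact abs_nonpos_iff.1 h1
      let P : MvPolynomial (Fin s) ℝ :=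
        ∑ b ∈ F, monomial (Finsupp.equivFunOnFinite.symm b) (ν b)
      have hP : P = 0 := by
        refine funext_set (fun _ => Set.Icc (-1 : ℝ) 1) (fun _ => Set.Icc_infinite (by norm_num)) ?_
        intro u hu
        have hu' : ∀ i, |u i| ≤ 1 := fun i => abs_le.2 (hu i (Set.mem_univ i))
        rw [map_zero, ← hS u hu']
        change eval u (∑ b ∈ F, monomial (Finsupp.equivFunOnFinite.symm b) (ν b)) = _
        rw [map_sum]
        refine Finset.sum_congr rfl fun b _ => ?_
        rw [eval_monomial, Finsupp.prod_fintype _ _ (fun i => pow_zero _)]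
        rfl
      intro b hb
      have h1 : P.coeff (Finsupp.equivFunOnFinite.symm b) = ν b := by
        change (∑ b' ∈ F, monomial (Finsupp.equivFunOnFinite.symm b') (ν b')).coeff _ = _
        rw [coeff_sum, Finset.sum_eq_single b]
        · rw [coeff_monomial, if_pos rfl]
        · intro b' _ hb'
          rw [coeff_monomial, if_neg]
          intro h2
          exact hb' (Finsupp.equivFunOnFinite.symm.injective h2)
        · intro h2
          exact absurd ((hF b).2 (by omega)) h2
      rw [← h1, hP, coeff_zero]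
  exact fun b => key (dg b) b rfl

end Pool.Agent.Lib.MP_bbe012_lc.PG
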