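import Pool.Agent.Lib.MP_bbe012_lc.PG.A11
import Pool.Agent.Lib.MP_bbe012_lc.PG.BFam
import Pool.Agent.Lib.MP_bbe012_lc.PG.BAlg
import Pool.Agent.Lib.MP_bbe012_lc.PG.BSer

/-!
# Generic relations between the integrals
-/

namespace Pool.Agent.Lib.MP_bbe012_lc.PG

open MvPolynomial MeasureTheory Set PP

private theorem bMain_ana {s n μ A : ℕ} {D : Fin μ → Pz s n} (c : Pat n μ A → MvPolynomial (Fin s) ℝ)
    {θ θ' : Fin s → ℝ} (h : ∀ t ∈ Icc (0 : ℝ) 1, seg θ θ' t ∈ Pos D) :
    AnalyticOnNhd ℝ (fun t => ∑ p, eval (seg θ θ' t) (c p) * VV D A p (seg θ θ' t)) (Icc 0 1) := by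
  intro t ht
  refine Finset.analyticAt_fun_sum _ fun p _ => ?_
  exact (segAn_polyR (c p) θ θ' t ht).mul (VV_seg p h t ht)

private theorem bMain_seg_cont {s : ℕ} (θ θ' : Fin s → ℝ) : Continuous fun t => seg θ θ' t := by
  unfold seg
  exact continuous_pi fun i => continuous_const.add (continuous_id.mul continuous_const)

private theorem bMain_seg_zero {s : ℕ} (θ θ' : Fin s → ℝ) : seg θ θ' 0 = θ := by
  funext i
  unfold seg
  rw [zero_mul, add_zero]

private theorem bMain_seg_one {s : ℕ} (θ θ' : Fin s → ℝ) : seg θ θ' 1 = θ' := by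
  funext i
  unfold seg
  ring

private theorem bMain_key {s n μ A : ℕ} {D : Fin μ → Pz s n} (c : Pat n μ A → MvPolynomial (Fin s) ℝ)
    {θ θ' : Fin s → ℝ} (h : ∀ t ∈ Icc (0 : ℝ) 1, seg θ θ' t ∈ Pos D)
    (h0 : ∀ᶠ θ'' in nhds θ, ∑ p, eval θ'' (c p) * VV D A p θ'' = 0) :
    ∑ p, eval θ' (c p) * VV D A p θ' = 0 := by
  have h1 : ∀ᶠ t in nhds (0 : ℝ),
      ∑ p, eval (seg θ θ' t) (c p) * VV D A p (seg θ θ' t) = 0 := by
    have h2 : Filter.Tendsto (fun t => seg θ θ' t) (nhds 0) (nhds θ) := by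
      have h3 := (bMain_seg_cont θ θ').tendsto 0
      rwa [bMain_seg_zero] at h3
    exact h2.eventually h0
  have h2 : ∃ᶠ t in nhdsWithin (0 : ℝ) (Ioi 0),
      ∑ p, eval (seg θ θ' t) (c p) * VV D A p (seg θ θ' t) = 0 :=
    (h1.filter_mono nhdsWithin_le_nhds).frequently
  have h3 := segAn_zero (bMain_ana c h) h2 1 ⟨zero_le_one, le_rfl⟩
  rwa [bMain_seg_one] at h3

/-- A combination with polynomial coefficients which vanishes near the base point vanishes on the whole region.

Proof. For `θ ∈ Reg D (cst e)` the function `g t = (∑ ...) (seg (cst e) θ t)` is analytic on `[0,1]` (`VV_seg`, `segAn_polyR`, sums and products of analytic functions) and vanishes for small `t`; so `g 1 = 0` by `segAn_zero`, and `seg _ θ 1 = θ`. -/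
theorem zero_of_near_base {s n μ A : ℕ} {D : Fin μ → Pz s n} {e : Fin s → ℚ} (c : Pat n μ A → MvPolynomial (Fin s) ℝ)
    (h : ∀ᶠ θ in nhds (cst e), ∑ p, eval θ (c p) * VV D A p θ = 0) :
    ∀ θ ∈ Reg D (cst e), ∑ p, eval θ (c p) * VV D A p θ = 0 := by
  intro θ hθ
  exact bMain_key c hθ h

/-- A combination with polynomial coefficients which vanishes near some point of the region vanishes near the base point.

Proof. The set of the `θ'` such that `seg θ₀ θ' t ∈ Pos D` for all `t ∈ [0,1]` is open (`isOpen_Pos`, continuity of `(t, θ') ↦ seg θ₀ θ' t`, compactness of `[0,1]`), and it contains `cst e` because `seg θ₀ e t = seg e θ₀ (1 - t)` and `θ₀ ∈ Reg D (cst e)`.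
For such `θ'` the function `g t = (∑ ...) (seg θ₀ θ' t)` is analytic on `[0,1]` and vanishes for small `t`, so `g 1 = 0` (`segAn_zero`). -/
theorem near_base_of_near {s n μ A : ℕ} {D : Fin μ → Pz s n} {e : Fin s → ℚ} (c : Pat n μ A → MvPolynomial (Fin s) ℝ)
    {θ₀ : Fin s → ℝ} (hθ : θ₀ ∈ Reg D (cst e)) (h : ∀ᶠ θ in nhds θ₀, ∑ p, eval θ (c p) * VV D A p θ = 0) :
    ∀ᶠ θ in nhds (cst e), ∑ p, eval θ (c p) * VV D A p θ = 0 := by
  have h1 : ∀ t ∈ Icc (0 : ℝ) 1, ∀ᶠ z : (Fin s → ℝ) × ℝ in nhds (cst e, t), seg θ₀ z.1 z.2 ∈ Pos D := by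
    intro t ht
    have h2 : Continuous fun z : (Fin s → ℝ) × ℝ => seg θ₀ z.1 z.2 := by
      unfold seg
      refine continuous_pi fun i => ?_
      exact continuous_const.add (continuous_snd.mul
        (((continuous_apply i).comp continuous_fst).sub continuous_const))
    refine (h2.tendsto (cst e, t)).eventually_mem ?_
    refine (isOpen_Pos D).mem_nhds ?_
    have h3 : seg θ₀ (cst e) t = seg (cst e) θ₀ (1 - t) := by
      funext i
      unfold seg
      ring
    change seg θ₀ (cst e) t ∈ Pos D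
    rw [h3]
    exact hθ (1 - t) ⟨by linarith [ht.2], by linarith [ht.1]⟩
  have h2 : ∀ᶠ θ' in nhds (cst e), ∀ t ∈ Icc (0 : ℝ) 1, seg θ₀ θ' t ∈ Pos D :=
    isCompact_Icc.eventually_forall_of_forall_eventually h1
  filter_upwards [h2] with θ' hθ'
  exact bMain_key c hθ' h

private theorem bMain_coeff {s : ℕ} (F : MvPowerSeries (Fin s) ℝ) (m : Fin s →₀ ℕ) :
    MvPowerSeries.coeff m F = cf F (fun i => m i) := by
  unfold cf
  congr 2
  ext i
  rfl

private theorem bMain_shift {s : ℕ} {K : Type} [CommRing K] (a b : Fin s → K) (hab : ∀ j, b j = - a j)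
    (q : MvPolynomial (Fin s) K) :
    aeval (fun j => X j + C (a j) : Fin s → MvPolynomial (Fin s) K)
      (aeval (fun j => X j + C (b j) : Fin s → MvPolynomial (Fin s) K) q) = q := by
  rw [comp_aeval_apply]
  have h1 : (fun i => aeval (fun j => X j + C (a j) : Fin s → MvPolynomial (Fin s) K)
      (X i + C (b i) : MvPolynomial (Fin s) K)) = fun i => X i := by
    funext i
    rw [map_add, aeval_X, aeval_C, hab, MvPolynomial.algebraMap_eq, map_neg]
    ring
  rw [h1]
  exact aeval_X_left_apply q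

private theorem bMain_eval {s : ℕ} (θ₀ θ : Fin s → ℝ) (q : MvPolynomial (Fin s) ℝ) :
    eval (fun i => θ i - θ₀ i) (aeval (fun j => X j + C (θ₀ j) : Fin s → MvPolynomial (Fin s) ℝ) q) =
      eval θ q := by
  have h1 : ∀ (f : Fin s → ℝ) (p : MvPolynomial (Fin s) ℝ), eval f p = aeval f p := fun f p => rfl
  rw [h1, h1, comp_aeval_apply]
  congr 1
  congr 1
  funext i
  rw [map_add, aeval_X, aeval_C]
  change θ i - θ₀ i + θ₀ i = θ i
  ring

/-- Combinations of functions and combinations of power series: here `N p` has the expansion `F p` at `θ₀`.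

Proof. Let `p_i(h) = c_i(θ₀ + h)`, that is `eval θ (c i) = eval (θ - θ₀) (aeval (fun j => X j + C (θ₀ j)) (c i))`. By `Exp.mul_poly`, `Exp.linear` (with all `x j = 1`; take common constants by `Exp.mono`, `Exp.mono_radius`) the sum has the expansion `cf (∑ ...)`. If the power series is zero, use
`Exp.eq_zero`; if the function vanishes near `θ₀`, use `Exp.unique` (`cf F = 0` implies `F = 0`: `MvPowerSeries.ext`, `Finsupp.equivFunOnFinite`). -/
theorem near_iff_series {s : ℕ} {P : Type} [Fintype P] {θ₀ : Fin s → ℝ} (N : P → (Fin s → ℝ) → ℝ)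
    (F : P → MvPowerSeries (Fin s) ℝ) (hF : ∀ p, ∃ r B : ℝ, 0 < r ∧ 0 ≤ B ∧ Exp r B θ₀ (N p) (cf (F p)))
    (c : P → MvPolynomial (Fin s) ℝ) :
    (∀ᶠ θ in nhds θ₀, ∑ p, eval θ (c p) * N p θ = 0) ↔
      ∑ p, ((aeval (fun j => X j + C (θ₀ j)) (c p) : MvPolynomial (Fin s) ℝ) : MvPowerSeries (Fin s) ℝ) * F p = 0 := by
  choose r B hr hB hE using hF
  obtain ⟨r₀, hr₀, hr₀'⟩ : ∃ r₀ : ℝ, 0 < r₀ ∧ ∀ p, r₀ ≤ r p := by
    by_cases hP : Nonempty P
    · obtain ⟨p₀, hp₀⟩ := Finite.exists_min r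
      exact ⟨r p₀, hr p₀, hp₀⟩
    · exact ⟨1, one_pos, fun p => absurd ⟨p⟩ hP⟩
  have hE' : ∀ p, Exp r₀ (B p) θ₀ (N p) (cf (F p)) := fun p =>
    (hE p).mono_radius hr₀ (hr₀' p) (hB p)
  have hE'' := fun p => Exp.mul_poly (hE' p) hr₀ (hB p)
    (aeval (fun j => X j + C (θ₀ j) : Fin s → MvPolynomial (Fin s) ℝ) (c p))
  choose B' hB' hE3 using hE''
  have hE4 : ∀ p, Exp r₀ (∑ p, B' p) θ₀
      (fun θ => eval (fun i => θ i - θ₀ i)
        (aeval (fun j => X j + C (θ₀ j) : Fin s → MvPolynomial (Fin s) ℝ) (c p)) * N p θ)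
      (cf (((aeval (fun j => X j + C (θ₀ j)) (c p) : MvPolynomial (Fin s) ℝ) :
        MvPowerSeries (Fin s) ℝ) * F p)) := fun p =>
    (hE3 p).mono hr₀ (Finset.single_le_sum (f := B') (fun p _ => hB' p) (Finset.mem_univ p))
  have hE5 := Exp.linear hE4 (fun _ => 1)
  have hB5 : 0 ≤ (∑ _j : P, |(1 : ℝ)|) * ∑ p, B' p :=
    mul_nonneg (Finset.sum_nonneg fun _ _ => abs_nonneg _) (Finset.sum_nonneg fun p _ => hB' p)
  obtain ⟨G, hG⟩ : ∃ G : MvPowerSeries (Fin s) ℝ, G = ∑ p,
      ((aeval (fun j => X j + C (θ₀ j)) (c p) : MvPolynomial (Fin s) ℝ) : MvPowerSeries (Fin s) ℝ) * F p :=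
    ⟨_, rfl⟩
  have hfun : (fun θ => ∑ p, (1 : ℝ) * (eval (fun i => θ i - θ₀ i)
        (aeval (fun j => X j + C (θ₀ j) : Fin s → MvPolynomial (Fin s) ℝ) (c p)) * N p θ)) =
      fun θ => ∑ p, eval θ (c p) * N p θ := by
    funext θ
    exact Finset.sum_congr rfl fun p _ => by rw [one_mul, bMain_eval]
  have hco : ∀ b : Fin s → ℕ, ∑ p, (1 : ℝ) * cf (((aeval (fun j => X j + C (θ₀ j)) (c p) :
      MvPolynomial (Fin s) ℝ) : MvPowerSeries (Fin s) ℝ) * F p) b = cf G b := by
    intro b
    rw [hG]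
    unfold cf
    rw [map_sum]
    exact Finset.sum_congr rfl fun p _ => one_mul _
  rw [hfun] at hE5
  rw [← hG]
  constructor
  · intro h0
    have h1 := Exp.unique hE5 hr₀ hB5 h0
    ext m
    rw [bMain_coeff, ← hco, h1, map_zero]
  · intro h0
    refine Exp.eq_zero hE5 hr₀ fun b => ?_
    rw [hco, h0]
    unfold cf
    exact map_zero _

private theorem bMain_coe_sub {s : ℕ} (a b : MvPolynomial (Fin s) ℝ) :
    ((a - b : MvPolynomial (Fin s) ℝ) : MvPowerSeries (Fin s) ℝ) =
      (a : MvPowerSeries (Fin s) ℝ) - (b : MvPowerSeries (Fin s) ℝ) :=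
  map_sub (MvPolynomial.coeToMvPowerSeries.ringHom (R := ℝ) (σ := Fin s)) a b

private theorem bMain_coe_map {s : ℕ} (q : MvPolynomial (Fin s) ℚ) :
    ((MvPolynomial.map (algebraMap ℚ ℝ) q : MvPolynomial (Fin s) ℝ) : MvPowerSeries (Fin s) ℝ) =
      MvPowerSeries.map (algebraMap ℚ ℝ) (q : MvPowerSeries (Fin s) ℚ) := by
  ext m
  rw [MvPolynomial.coeff_coe, MvPolynomial.coeff_map, MvPowerSeries.coeff_map,
    MvPolynomial.coeff_coe]

private theorem bMain_map_shift {s : ℕ} (a : Fin s → ℚ) (q : MvPolynomial (Fin s) ℚ) :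
    aeval (fun j => X j + C ((a j : ℚ) : ℝ) : Fin s → MvPolynomial (Fin s) ℝ)
      (MvPolynomial.map (algebraMap ℚ ℝ) q) =
      MvPolynomial.map (algebraMap ℚ ℝ)
        (aeval (fun j => X j + C (a j) : Fin s → MvPolynomial (Fin s) ℚ) q) := by
  induction q using MvPolynomial.induction_on with
  | C c =>
    rw [MvPolynomial.map_C, aeval_C, aeval_C, MvPolynomial.algebraMap_eq, MvPolynomial.algebraMap_eq,
      MvPolynomial.map_C]
  | add p q hp hq => rw [map_add, map_add, map_add, map_add, hp, hq]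
  | mul_X p i hp =>
    rw [map_mul, map_mul, map_mul, map_mul, hp, MvPolynomial.map_X, aeval_X, aeval_X, map_add,
      MvPolynomial.map_X, MvPolynomial.map_C]
    rfl

private theorem bMain_eval_map {s : ℕ} (θ : Fin s → ℝ) (q : MvPolynomial (Fin s) ℚ) :
    eval θ (MvPolynomial.map (algebraMap ℚ ℝ) q) = aeval θ q := by
  rw [aeval_def, eval₂_eq_eval_map]

/-- The generic relations between the integrals, and the independence of a subfamily.

Proof. `VV_base` gives `ν_p`; let `F p : MvPowerSeries (Fin s) ℚ` be the power series with the coefficients `ν_p` (`F p = fun b => ν_p b`), so that `VV D A p` has the expansion `cf (map F p)` at `cst e`. `exists_basis` for `F` gives `ρ, π, q₁, r₁`; put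
`q = aeval (fun j => X j - C (e j)) q₁`, `r p i` likewise (so `aeval (θ) q = aeval (θ - e) q₁`; `q ≠ 0` because the substitution `X j ↦ X j + C (e j)` is its inverse). The relation: for fixed `p` take real polynomials `c p' = ` (image of `q` if `p' = p`) `- ∑ i with π i = p'` (image of `r p i`)
(`Finset.sum_comm`, `Finset.sum_ite_eq`); the power series relation of `exists_basis` mapped to `ℝ` gives by `near_iff_series` the vanishing near `cst e`, and then `zero_of_near_base`.
`VHyp`: `la`: `VV_la` and `Reg_sub_Pos`; `indep`: let `P : Fin ρ → MvPolynomial (Fin s) ℝ` and `∑ i, eval θ' (P i) * VV (π i) θ' = 0` near `θ ∈ S`; write it as a sum over all `p` with `c p = ∑ i with π i = p, P i`; `near_base_of_near`; `near_iff_series` for the family `i ↦ VV D A (π i)`; `indep_real` gives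
`aeval (fun j => X j + C (e j)) (P i) = 0`, so `P i = 0`. -/
theorem exists_rel {s n μ : ℕ} (D : Fin μ → Pz s n) (e : Fin s → ℚ) (hD : ∀ k, spz (D k) e = 1) (A : ℕ) :
    ∃ (ρ : ℕ) (π : Fin ρ → Pat n μ A) (q : MvPolynomial (Fin s) ℚ) (r : Pat n μ A → Fin ρ → MvPolynomial (Fin s) ℚ),
      q ≠ 0 ∧ (∀ p, ∀ θ ∈ Reg D (cst e), aeval θ q * VV D A p θ = ∑ i, aeval θ (r p i) * VV D A (π i) θ) ∧
      ∀ S : Set (Fin s → ℝ), IsCompact S → S ⊆ Reg D (cst e) → VHyp S (fun i => VV D A (π i)) := by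
  classical
  choose r B ν hr hB hE using fun p : Pat n μ A => VV_base hD p
  let F : Pat n μ A → MvPowerSeries (Fin s) ℚ := fun p b => ν p (fun i => b i)
  have hcf : ∀ p, cf (MvPowerSeries.map (algebraMap ℚ ℝ) (F p)) = fun b => (ν p b : ℝ) := by
    intro p
    funext b
    rfl
  have hE' : ∀ p : Pat n μ A, ∃ r B : ℝ, 0 < r ∧ 0 ≤ B ∧
      Exp r B (cst e) (VV D A p) (cf (MvPowerSeries.map (algebraMap ℚ ℝ) (F p))) := by
    intro p
    refine ⟨r p, B p, hr p, hB p, ?_⟩
    rw [hcf]
    exact hE p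
  obtain ⟨ρ, π, q₁, r₁, hq₁, hrel, hind⟩ := exists_basis F
  have hsh : ∀ q : MvPolynomial (Fin s) ℚ,
      aeval (fun j => X j + C (e j) : Fin s → MvPolynomial (Fin s) ℚ)
        (aeval (fun j => X j + C (-e j) : Fin s → MvPolynomial (Fin s) ℚ) q) = q := fun q =>
    bMain_shift e (fun j => -e j) (fun _ => rfl) q
  refine ⟨ρ, π, aeval (fun j => X j + C (-e j) : Fin s → MvPolynomial (Fin s) ℚ) q₁,
    fun p i => aeval (fun j => X j + C (-e j) : Fin s → MvPolynomial (Fin s) ℚ) (r₁ p i), ?_, ?_, ?_⟩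
  · intro h0
    apply hq₁
    rw [← hsh q₁, h0, map_zero]
  · intro p θ hθ
    obtain ⟨Q, hQ⟩ : ∃ Q, Q = aeval (fun j => X j + C (-e j) : Fin s → MvPolynomial (Fin s) ℚ) q₁ :=
      ⟨_, rfl⟩
    obtain ⟨R, hR⟩ : ∃ R : Fin ρ → MvPolynomial (Fin s) ℚ, R = fun i =>
        aeval (fun j => X j + C (-e j) : Fin s → MvPolynomial (Fin s) ℚ) (r₁ p i) := ⟨_, rfl⟩
    let c : Pat n μ A → MvPolynomial (Fin s) ℝ := fun p' =>
      (if p' = p then MvPolynomial.map (algebraMap ℚ ℝ) Q else 0) -
        ∑ i, (if π i = p' then MvPolynomial.map (algebraMap ℚ ℝ) (R i) else 0)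
    have hsum : ∀ θ' : Fin s → ℝ, ∑ p', eval θ' (c p') * VV D A p' θ' =
        aeval θ' Q * VV D A p θ' - ∑ i, aeval θ' (R i) * VV D A (π i) θ' := by
      intro θ'
      have h1 : ∀ p', eval θ' (c p') * VV D A p' θ' =
          (if p' = p then aeval θ' Q * VV D A p' θ' else 0) -
            ∑ i, (if π i = p' then aeval θ' (R i) * VV D A p' θ' else 0) := by
        intro p'
        simp only [c]
        rw [map_sub, sub_mul, map_sum, Finset.sum_mul]
        congr 1
        · split_ifs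
          · rw [bMain_eval_map]
          · rw [map_zero, zero_mul]
        · refine Finset.sum_congr rfl fun i _ => ?_
          split_ifs
          · rw [bMain_eval_map]
          · rw [map_zero, zero_mul]
      rw [Finset.sum_congr rfl fun p' _ => h1 p', Finset.sum_sub_distrib, Finset.sum_ite_eq',
        if_pos (Finset.mem_univ _), Finset.sum_comm]
      congr 1
      refine Finset.sum_congr rfl fun i _ => ?_
      rw [Finset.sum_ite_eq, if_pos (Finset.mem_univ _)]
    have hser : ∑ p', ((aeval (fun j => X j + C (cst e j)) (c p') : MvPolynomial (Fin s) ℝ) :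
        MvPowerSeries (Fin s) ℝ) * MvPowerSeries.map (algebraMap ℚ ℝ) (F p') = 0 := by
      have hmq : ∀ q : MvPolynomial (Fin s) ℚ,
          ((aeval (fun j => X j + C (cst e j)) (MvPolynomial.map (algebraMap ℚ ℝ)
            (aeval (fun j => X j + C (-e j) : Fin s → MvPolynomial (Fin s) ℚ) q)) :
              MvPolynomial (Fin s) ℝ) : MvPowerSeries (Fin s) ℝ) =
            MvPowerSeries.map (algebraMap ℚ ℝ) (q : MvPowerSeries (Fin s) ℚ) := by
        intro q
        have h2 := bMain_map_shift e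
          (aeval (fun j => X j + C (-e j) : Fin s → MvPolynomial (Fin s) ℚ) q)
        rw [hsh] at h2
        rw [← bMain_coe_map]
        exact congrArg _ h2
      have h1 : ∀ p', ((aeval (fun j => X j + C (cst e j)) (c p') : MvPolynomial (Fin s) ℝ) :
          MvPowerSeries (Fin s) ℝ) * MvPowerSeries.map (algebraMap ℚ ℝ) (F p') =
          (if p' = p then MvPowerSeries.map (algebraMap ℚ ℝ) (q₁ : MvPowerSeries (Fin s) ℚ) *
            MvPowerSeries.map (algebraMap ℚ ℝ) (F p') else 0) -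
            ∑ i, (if π i = p' then MvPowerSeries.map (algebraMap ℚ ℝ)
              (r₁ p i : MvPowerSeries (Fin s) ℚ) * MvPowerSeries.map (algebraMap ℚ ℝ) (F p') else 0) := by
        intro p'
        simp only [c]
        rw [map_sub, map_sum, bMain_coe_sub, sub_mul]
        congr 1
        · split_ifs
          · rw [hQ, hmq]
          · rw [map_zero, MvPolynomial.coe_zero, zero_mul]
        · have h3 : ((∑ i, aeval (fun j => X j + C (cst e j)) (if π i = p' then
              MvPolynomial.map (algebraMap ℚ ℝ) (R i) else 0) : MvPolynomial (Fin s) ℝ) :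
                MvPowerSeries (Fin s) ℝ) =
              ∑ i, ((aeval (fun j => X j + C (cst e j)) (if π i = p' then
              MvPolynomial.map (algebraMap ℚ ℝ) (R i) else 0) : MvPolynomial (Fin s) ℝ) :
                MvPowerSeries (Fin s) ℝ) :=
            map_sum (MvPolynomial.coeToMvPowerSeries.ringHom (R := ℝ) (σ := Fin s)) _ _
          rw [h3, Finset.sum_mul]
          refine Finset.sum_congr rfl fun i _ => ?_
          split_ifs
          · rw [hR, hmq]
          · rw [map_zero, MvPolynomial.coe_zero, zero_mul]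
      rw [Finset.sum_congr rfl fun p' _ => h1 p', Finset.sum_sub_distrib, Finset.sum_ite_eq',
        if_pos (Finset.mem_univ _), Finset.sum_comm]
      have h4 : ∀ i, ∑ p', (if π i = p' then MvPowerSeries.map (algebraMap ℚ ℝ)
          (r₁ p i : MvPowerSeries (Fin s) ℚ) * MvPowerSeries.map (algebraMap ℚ ℝ) (F p') else 0) =
          MvPowerSeries.map (algebraMap ℚ ℝ) ((r₁ p i : MvPowerSeries (Fin s) ℚ) * F (π i)) := by
        intro i
        rw [Finset.sum_ite_eq, if_pos (Finset.mem_univ _), map_mul]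
      rw [Finset.sum_congr rfl fun i _ => h4 i, ← map_mul, ← map_sum, ← map_sub, hrel p, sub_self,
        map_zero]
    have hnear := (near_iff_series (VV D A) (fun p => MvPowerSeries.map (algebraMap ℚ ℝ) (F p))
      hE' c).2 hser
    have h5 := zero_of_near_base c hnear θ hθ
    rw [hsum, hQ, hR] at h5
    exact sub_eq_zero.1 h5
  · intro S hS hSR
    refine ⟨hS, fun i => VV_la hD hS (hSR.trans Reg_sub_Pos) (π i), ?_⟩
    intro θ hθ P hP
    let c : Pat n μ A → MvPolynomial (Fin s) ℝ := fun p => ∑ i, (if π i = p then P i else 0)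
    have hsum : ∀ θ' : Fin s → ℝ, ∑ p, eval θ' (c p) * VV D A p θ' =
        ∑ i, eval θ' (P i) * VV D A (π i) θ' := by
      intro θ'
      have h1 : ∀ p, eval θ' (c p) * VV D A p θ' =
          ∑ i, (if π i = p then eval θ' (P i) * VV D A p θ' else 0) := by
        intro p
        simp only [c]
        rw [map_sum, Finset.sum_mul]
        refine Finset.sum_congr rfl fun i _ => ?_
        split_ifs
        · rfl
        · rw [map_zero, zero_mul]
      rw [Finset.sum_congr rfl fun p _ => h1 p, Finset.sum_comm]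
      refine Finset.sum_congr rfl fun i _ => ?_
      rw [Finset.sum_ite_eq, if_pos (Finset.mem_univ _)]
    have h1 : ∀ᶠ θ' in nhds θ, ∑ p, eval θ' (c p) * VV D A p θ' = 0 := by
      filter_upwards [hP] with θ' hθ'
      rw [hsum]
      exact hθ'
    have h2 := near_base_of_near c (hSR hθ) h1
    have h3 : ∀ᶠ θ' in nhds (cst e), ∑ i, eval θ' (P i) * VV D A (π i) θ' = 0 := by
      filter_upwards [h2] with θ' hθ'
      rw [← hsum]
      exact hθ'
    have h4 := (near_iff_series (fun i => VV D A (π i))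
      (fun i => MvPowerSeries.map (algebraMap ℚ ℝ) (F (π i))) (fun i => hE' (π i)) P).1 h3
    have h5 := indep_real (fun i => F (π i)) hind _ h4
    intro i
    have h6 := bMain_shift (fun j => -cst e j) (cst e) (fun j => (neg_neg _).symm) (P i)
    rw [← h6, h5 i, map_zero]

end Pool.Agent.Lib.MP_bbe012_lc.PG
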