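import Pool.Agent.Lib.MP_bbe012_lc.PP.RedPrim

/-!
# The certificates of the algorithm

The input `E` is a sum of products of integrals of rational functions over cubes. A certificate consists of the data of a reduction to one
integral of `G / Q ^ K` at `t = τ`, a certificate of the positivity of `Q(t, x)` for `(t, x) ∈ [0,1]^(1 + n)`, the identity `Q(0, x) = 1`, and
a certificate that the integral is zero or that it is not zero.
-/

namespace Pool.Agent.Lib.MP_bbe012_lc.PG

open PP

/-- The code of `∏ i < N, x_i ^ u_i (1 - x_i) ^ v_i`. -/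
def bernC (N : ℕ) (u v : List ℕ) : PCode :=
  pcProdRange N fun i =>
    pcMul (pcPow (pcVar i) (u.getD i 0)) (pcPow (pcNat 1 ++ pcNeg (pcVar i)) (v.getD i 0))

/-- Certificates of positivity on a cube: a positive constant and a list of the `(c, (u, v))`. -/
abbrev PCert := QCode × List (QCode × (List ℕ × List ℕ))

/-- The code of the sum of the `c x ^ u (1 - x) ^ v`. -/
def posSum (N : ℕ) (L : List (QCode × (List ℕ × List ℕ))) : PCode :=
  pcSumRange L.length fun j => pcMul (constC (L.getD j (qnat 0, ([], []))).1)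
    (bernC N (L.getD j (qnat 0, ([], []))).2.1 (L.getD j (qnat 0, ([], []))).2.2)

/-- Verification of a certificate of positivity on the cube `[0,1]^N`. -/
def posC (N : ℕ) (p : PCode) (c : PCert) : Prop :=
  qltP (qnat 0) c.1 ∧ (∀ t ∈ c.2, qleP (qnat 0) t.1) ∧ pcIsZero N (p ++ pcNeg (constC c.1 ++ posSum N c.2))

instance (N : ℕ) (p : PCode) (c : PCert) : Decidable (posC N p c) := by unfold posC; infer_instance

/-- Certificate for a non zero value: `((σ, (a, E)), (U, c))`. -/
abbrev NG := (Bool × (QCode × List PCode)) × (PCode × PCert)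

/-- The code of `± G - (a + ∑ ∂_l (f_l E_l)) Q ^ K + (t - τ) U`. -/
def ngC (n : ℕ) (Q G : PCode) (K : ℕ) (τ : QCode) (x : NG) : PCode :=
  (if x.1.1 = true then G else pcNeg G) ++
    (pcNeg (pcMul (pcPow Q K) (constC x.1.2.1 ++ divEC n x.1.2.2)) ++ pcMul (tC ++ pcNeg (constC τ)) x.2.1)

/-- Verification of the certificate: `a ≥ 0` and the polynomial coded by `ngC` is positive. -/
def checkNG (n : ℕ) (Q G : PCode) (K : ℕ) (τ : QCode) (x : NG) : Prop :=
  qleP (qnat 0) x.1.2.1 ∧ posC (n + 1) (ngC n Q G K τ x) x.2.2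

instance (n : ℕ) (Q G : PCode) (K : ℕ) (τ : QCode) (x : NG) : Decidable (checkNG n Q G K τ x) := by
  unfold checkNG; infer_instance

/-- Verification of the base: `Q = 1 + t V`, `Q > 0` on `[0,1]^(1 + n)`, `0 ≤ τ ≤ 1`. -/
def okG (n : ℕ) (Q : PCode) (τ : QCode) (x : PCode × PCert) : Prop :=
  (qleP (qnat 0) τ ∧ qleP τ (qnat 1)) ∧
    (pcIsZero (n + 1) (Q ++ pcNeg (pcNat 1 ++ pcMul tC x.1)) ∧ posC (n + 1) Q x.2)

instance (n : ℕ) (Q : PCode) (τ : QCode) (x : PCode × PCert) : Decidable (okG n Q τ x) := by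
  unfold okG; infer_instance

/-- Certificates. -/
abbrev GCert := RC × ((PCode × PCert) × (Bool × (ZCert × NG)))

/-- Verification of a certificate. -/
def checkG (E : Ex) (c : GCert) : Prop :=
  rcOK E c.1 ∧ okG c.1.1.1.1 c.1.2.1.1 c.1.2.1.2 c.2.1 ∧
    ((c.2.2.1 = true ∧ checkZ (toCore E c.1).1.1 (toCore E c.1).2.1.1 (toCore E c.1).2.1.2 (toCore E c.1).1.2
        (toCore E c.1).2.2 c.2.2.2.1) ∨
      (c.2.2.1 = false ∧ checkNG (toCore E c.1).1.1 (toCore E c.1).2.1.1 (toCore E c.1).2.1.2 (toCore E c.1).1.2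
        (toCore E c.1).2.2 c.2.2.2.2))

instance (E : Ex) (c : GCert) : Decidable (checkG E c) := by unfold checkG; infer_instance

end Pool.Agent.Lib.MP_bbe012_lc.PG
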