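import Pool.Agent.Lib.MP_bbe012_lc.PG.CPos
import Pool.Agent.Lib.MP_bbe012_lc.PG.CDefs
import Pool.Agent.Lib.MP_bbe012_lc.PP.CodeA

/-!
# What the codes of `CDefs` code
-/

namespace Pool.Agent.Lib.MP_bbe012_lc.PG

open MvPolynomial MeasureTheory Set PP

/-- `pcPoly_prodRange`, `pcPoly_mul`, `pcPoly_pow`, `pcPoly_var`, `pcPoly_append`, `pcPoly_neg`, `pcPoly_nat`. -/
theorem pcPoly_bernC (N : ℕ) (u v : List ℕ) :
    pcPoly N (bernC N u v) = bern (fun i : Fin N => u.getD i 0) (fun i : Fin N => v.getD i 0) := by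
  unfold bernC bern
  rw [pcPoly_prodRange]
  refine Finset.prod_congr rfl fun i _ => ?_
  rw [pcPoly_mul, pcPoly_pow, pcPoly_pow, pcPoly_append, pcPoly_neg, pcPoly_nat, pcPoly_var i.2]
  rw [Nat.cast_one, C_1, ← sub_eq_add_neg]

/-- `pcPoly_sumRange`. -/
theorem pcPoly_posSum (N : ℕ) (L : List (QCode × (List ℕ × List ℕ))) :
    pcPoly N (posSum N L) = (L.map fun t => C (qval t.1) *
      bern (fun i : Fin N => t.2.1.getD i 0) (fun i : Fin N => t.2.2.getD i 0)).sum := by
  unfold posSum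
  rw [pcPoly_sumRange]
  have h1 : ∀ i : Fin L.length, L.getD (i : ℕ) (qnat 0, ([], [])) = L.get i := by
    intro i
    rw [List.getD_eq_getElem _ _ i.2]
    rfl
  have h2 : (L.map fun t => C (qval t.1) *
      bern (fun i : Fin N => t.2.1.getD i 0) (fun i : Fin N => t.2.2.getD i 0)).sum =
      ∑ i : Fin L.length, C (qval (L.get i).1) *
        bern (fun l : Fin N => (L.get i).2.1.getD l 0) (fun l : Fin N => (L.get i).2.2.getD l 0) := by
    conv_lhs => rw [← List.ofFn_get L]
    rw [List.map_ofFn, List.sum_ofFn]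
    rfl
  rw [h2]
  refine Finset.sum_congr rfl fun i _ => ?_
  rw [h1, pcPoly_mul, pcPoly_constC, pcPoly_bernC]

/-- Soundness. `pcIsZero_iff`, `bern_nonneg`, `qleP_iff`, `qltP_iff`. -/
theorem posC_sound {N : ℕ} {p : PCode} {c : PCert} (h : posC N p c) :
    ∀ x ∈ Icc (0 : Fin N → ℝ) 1, 0 < aeval x (pcPoly N p) := by
  intro x hx
  obtain ⟨h1, h2, h3⟩ := h
  rw [qltP_iff, qval_qnat] at h1
  rw [pcIsZero_iff, pcPoly_append, pcPoly_neg, pcPoly_append, pcPoly_constC, pcPoly_posSum,
    ← sub_eq_add_neg, sub_eq_zero] at h3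
  rw [h3, map_add, aeval_C]
  have h4 : (0 : ℝ) < algebraMap ℚ ℝ (qval c.1) := by
    change (0 : ℝ) < ((qval c.1 : ℚ) : ℝ)
    have h5 : (0 : ℚ) < qval c.1 := by
      have h6 := h1
      rwa [Nat.cast_zero] at h6
    exact_mod_cast h5
  have h5 : ∀ L : List (QCode × (List ℕ × List ℕ)), (∀ t ∈ L, qleP (qnat 0) t.1) →
      0 ≤ (aeval x (L.map fun t => C (qval t.1) *
        bern (fun i : Fin N => t.2.1.getD i 0) (fun i : Fin N => t.2.2.getD i 0)).sum : ℝ) := by
    intro L
    induction L with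
    | nil =>
      intro _
      rw [List.map_nil, List.sum_nil, map_zero]
    | cons t L ih =>
      intro hL
      rw [List.map_cons, List.sum_cons, map_add, map_mul, aeval_C]
      have h6 : (0 : ℝ) ≤ algebraMap ℚ ℝ (qval t.1) := by
        have h7 := hL t List.mem_cons_self
        rw [qleP_iff, qval_qnat, Nat.cast_zero] at h7
        change (0 : ℝ) ≤ ((qval t.1 : ℚ) : ℝ)
        exact_mod_cast h7
      exact add_nonneg (mul_nonneg h6 (bern_nonneg _ _ hx))
        (ih fun t ht => hL t (List.mem_cons_of_mem _ ht))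
  exact add_pos_of_pos_of_nonneg h4 (h5 c.2 h2)

/-- Completeness. `exists_bern`; codes of rational numbers: `exists_qval`; the list of the terms: `(Finset.univ.toList).map ...`, `List.ofFn` for the exponents. -/
theorem posC_complete {N : ℕ} {p : PCode} (h : ∀ x ∈ Icc (0 : Fin N → ℝ) 1, 0 < aeval x (pcPoly N p)) :
    ∃ c : PCert, posC N p c := by
  obtain ⟨c₀, M, c, hc₀, hc, hp⟩ := exists_bern (pcPoly N p) h
  obtain ⟨q₀, hq₀⟩ := exists_qval c₀
  choose q hq using fun j => exists_qval (c j)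
  refine ⟨(q₀, (Finset.univ : Finset (Fin N → Fin (M + 1))).toList.map fun j =>
    (q j, (List.ofFn (fun i => (j i : ℕ)), List.ofFn (fun i => M - (j i : ℕ))))), ?_, ?_, ?_⟩
  · rw [qltP_iff, qval_qnat, Nat.cast_zero, hq₀]
    exact hc₀
  · intro t ht
    obtain ⟨j, _, rfl⟩ := List.mem_map.1 ht
    rw [qleP_iff, qval_qnat, Nat.cast_zero]
    change 0 ≤ qval (q j)
    rw [hq]
    exact hc j
  · rw [pcIsZero_iff, pcPoly_append, pcPoly_neg, pcPoly_append, pcPoly_constC, pcPoly_posSum,
      ← sub_eq_add_neg, sub_eq_zero]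
    change pcPoly N p = C (qval q₀) + _
    rw [hq₀]
    refine hp.trans ?_
    congr 1
    rw [List.map_map]
    have h1 : ((fun t : QCode × (List ℕ × List ℕ) => C (qval t.1) *
        bern (fun i : Fin N => t.2.1.getD i 0) (fun i : Fin N => t.2.2.getD i 0)) ∘
        fun j : Fin N → Fin (M + 1) =>
          (q j, (List.ofFn (fun i => (j i : ℕ)), List.ofFn (fun i => M - (j i : ℕ))))) =
        fun j => C (c j) * bern (fun i => (j i : ℕ)) (fun i => M - (j i : ℕ)) := by
      funext j
      change C (qval (q j)) * bern (fun i : Fin N => (List.ofFn (fun i => (j i : ℕ))).getD i 0)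
        (fun i : Fin N => (List.ofFn (fun i => M - (j i : ℕ))).getD i 0) = _
      rw [hq]
      congr 2
      · funext i
        rw [List.getD_eq_getElem _ _ (by rw [List.length_ofFn]; exact i.2), List.getElem_ofFn]
      · funext i
        rw [List.getD_eq_getElem _ _ (by rw [List.length_ofFn]; exact i.2), List.getElem_ofFn]
    rw [h1, Finset.sum_map_toList]

end Pool.Agent.Lib.MP_bbe012_lc.PG
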