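import Pool.Agent.Lib.MP_bbe012_lc.PG.CCode
import Pool.Agent.Lib.MP_bbe012_lc.PP.CodeA
import Pool.Agent.Lib.MP_bbe012_lc.PP.SoundN
import Pool.Agent.Lib.MP_bbe012_lc.PP.CompN

/-!
# Certificates for non zero values
-/

namespace Pool.Agent.Lib.MP_bbe012_lc.PG

open MvPolynomial MeasureTheory Set PP

private noncomputable def cnz_sp (n : ℕ) (τ : ℚ) : P1 n →ₐ[ℚ] MvPolynomial (Fin n) ℚ :=
  aeval (Fin.cases (C τ) (fun l => X l))

private theorem cnz_sp_zero (n : ℕ) (τ : ℚ) : cnz_sp n τ (X 0) = C τ := by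
  rw [cnz_sp, aeval_X]
  rfl

private theorem cnz_sp_succ (n : ℕ) (τ : ℚ) (l : Fin n) : cnz_sp n τ (X l.succ) = X l := by
  rw [cnz_sp, aeval_X]
  rfl

private theorem cnz_sp_C (n : ℕ) (τ a : ℚ) : cnz_sp n τ (C a) = C a := by
  rw [cnz_sp, aeval_C]
  rfl

private theorem cnz_sp_rename (n : ℕ) (τ : ℚ) (p : MvPolynomial (Fin n) ℚ) :
    cnz_sp n τ (rename Fin.succ p) = p := by
  rw [cnz_sp, aeval_rename]
  exact aeval_X_left_apply p

private theorem cnz_dvd (n : ℕ) (τ : ℚ) (G : P1 n) :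
    ∃ U : P1 n, G = rename Fin.succ (cnz_sp n τ G) + (X 0 - C τ) * U := by
  induction G using MvPolynomial.induction_on with
  | C a =>
    refine ⟨0, ?_⟩
    rw [cnz_sp_C, rename_C, mul_zero, add_zero]
  | add p q hp hq =>
    obtain ⟨U, hU⟩ := hp
    obtain ⟨V, hV⟩ := hq
    refine ⟨U + V, ?_⟩
    rw [map_add, map_add]
    linear_combination hU + hV
  | mul_X p i hp =>
    obtain ⟨U, hU⟩ := hp
    refine Fin.cases ?_ (fun l => ?_) i
    · refine ⟨rename Fin.succ (cnz_sp n τ p) + U * X 0, ?_⟩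
      rw [map_mul, map_mul, cnz_sp_zero, rename_C]
      linear_combination (X 0) * hU
    · refine ⟨U * X l.succ, ?_⟩
      rw [map_mul, map_mul, cnz_sp_succ, rename_X]
      linear_combination (X l.succ) * hU

private theorem cnz_aeval (n : ℕ) (τ : ℚ) (x : Fin n → ℝ) (G : P1 n) :
    aeval (pt n τ x) G = aeval x (cnz_sp n τ G) := by
  rw [cnz_sp, comp_aeval_apply]
  congr 2
  funext i
  refine Fin.cases ?_ (fun l => ?_) i
  · change (τ : ℝ) = aeval x (C τ)
    rw [aeval_C]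
    rfl
  · change x l = aeval x (X l)
    rw [aeval_X]

private theorem cnz_aeval_rename (n : ℕ) (τ : ℚ) (x : Fin n → ℝ) (W : MvPolynomial (Fin n) ℚ) :
    aeval (pt n τ x) (rename Fin.succ W) = aeval x W := by
  rw [cnz_aeval, cnz_sp_rename]

private theorem cnz_sp_pderiv (n : ℕ) (τ : ℚ) (l : Fin n) (F : P1 n) :
    cnz_sp n τ (pderiv l.succ F) = pderiv l (cnz_sp n τ F) := by
  induction F using MvPolynomial.induction_on with
  | C a => rw [pderiv_C, map_zero, cnz_sp_C, pderiv_C]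
  | add p q hp hq => rw [map_add, map_add, map_add, map_add, hp, hq]
  | mul_X p i hp =>
    rw [pderiv_mul, map_add, map_mul, map_mul, map_mul, pderiv_mul, hp]
    congr 2
    refine Fin.cases ?_ (fun k => ?_) i
    · rw [cnz_sp_zero, pderiv_C, pderiv_X_of_ne (Fin.succ_ne_zero l).symm, map_zero]
    · rw [cnz_sp_succ]
      by_cases hk : k = l
      · subst hk
        rw [pderiv_X_self, pderiv_X_self, map_one]
      · rw [pderiv_X_of_ne hk, pderiv_X_of_ne (fun h => hk (Fin.succ_injective n h)), map_zero]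

private theorem cnz_cont {m : ℕ} (p : MvPolynomial (Fin m) ℚ) :
    Continuous fun x : Fin m → ℝ => aeval x p := by
  have h : (fun x : Fin m → ℝ => aeval x p) =
      fun x => ∑ d ∈ p.support, algebraMap ℚ ℝ (coeff d p) * ∏ i, x i ^ d i := by
    funext x
    rw [aeval_def, eval₂_eq']
  rw [h]
  fun_prop

private theorem cnz_cont_pt (n : ℕ) (τ : ℚ) (G : P1 n) :
    Continuous fun x : Fin n → ℝ => aeval (pt n τ x) G := by
  have h : Continuous fun x : Fin n → ℝ => pt n τ x := by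
    refine continuous_pi fun i => ?_
    refine Fin.cases ?_ (fun l => ?_) i
    · exact continuous_const
    · exact continuous_apply l
  exact (cnz_cont G).comp h

private theorem cnz_contOn {n : ℕ} {τ : ℚ} {Q : P1 n}
    (hQ : ∀ x ∈ Icc (0 : Fin n → ℝ) 1, 0 < aeval (pt n τ x) Q) (G : P1 n) (K : ℕ) :
    ContinuousOn (fun x => aeval (pt n τ x) G / aeval (pt n τ x) Q ^ K)
      (Icc (0 : Fin n → ℝ) 1) :=
  (cnz_cont_pt n τ G).continuousOn.div ((cnz_cont_pt n τ Q).pow K).continuousOn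
    fun x hx => (pow_pos (hQ x hx) K).ne'

private theorem cnz_vol {n : ℕ} : volume.real (Icc (0 : Fin n → ℝ) 1) = 1 := by
  rw [Measure.real, SoundN_volume, ENNReal.toReal_one]

private theorem cnz_mem {n : ℕ} {τ : ℚ} (h0 : 0 ≤ τ) (h1 : τ ≤ 1) {x : Fin n → ℝ}
    (hx : x ∈ Icc (0 : Fin n → ℝ) 1) : pt n τ x ∈ Icc (0 : Fin (n + 1) → ℝ) 1 := by
  refine ⟨fun i => ?_, fun i => ?_⟩
  · refine Fin.cases ?_ (fun l => ?_) i
    · change (0 : ℝ) ≤ (τ : ℝ)
      exact_mod_cast h0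
    · exact hx.1 l
  · refine Fin.cases ?_ (fun l => ?_) i
    · change (τ : ℝ) ≤ 1
      exact_mod_cast h1
    · exact hx.2 l

private theorem cnz_pos {n : ℕ} {h : (Fin n → ℝ) → ℝ} (hc : ContinuousOn h (Icc 0 1))
    (hp : ∀ x ∈ Icc (0 : Fin n → ℝ) 1, 0 < h x) :
    0 < ∫ x in Icc (0 : Fin n → ℝ) 1, h x := by
  obtain ⟨x₀, hx₀, hmin⟩ := isCompact_Icc.exists_isMinOn
    ⟨(0 : Fin n → ℝ), left_mem_Icc.2 zero_le_one⟩ hc
  have h1 : ∫ _x in Icc (0 : Fin n → ℝ) 1, h x₀ ≤ ∫ x in Icc (0 : Fin n → ℝ) 1, h x :=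
    setIntegral_mono_on (continuousOn_const.integrableOn_compact isCompact_Icc)
      (hc.integrableOn_compact isCompact_Icc) measurableSet_Icc fun x hx => hmin hx
  rw [setIntegral_const, cnz_vol, one_smul] at h1
  exact lt_of_lt_of_le (hp x₀ hx₀) h1

private theorem cnz_ngC (n : ℕ) (Q G : PCode) (K : ℕ) (τ : QCode) (x : NG) (s : ℚ)
    (hs : pcPoly (n + 1) (if x.1.1 = true then G else pcNeg G) = C s * pcPoly (n + 1) G) :
    pcPoly (n + 1) (ngC n Q G K τ x) = C s * pcPoly (n + 1) G -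
      pcPoly (n + 1) Q ^ K * (C (qval x.1.2.1) + ∑ l : Fin n, pderiv l.succ
        (fl n l * pcPoly (n + 1) (x.1.2.2.getD l []))) +
        (X 0 - C (qval τ)) * pcPoly (n + 1) x.2.1 := by
  rw [ngC, pcPoly_append, pcPoly_append, hs, pcPoly_neg, pcPoly_mul, pcPoly_pow, pcPoly_append,
    pcPoly_constC, pcPoly_divEC, pcPoly_mul, pcPoly_append, pcPoly_neg, pcPoly_tC, pcPoly_constC]
  ring

private theorem cnz_val {n : ℕ} (τ s : ℚ) (x : Fin n → ℝ) (G F Q U : P1 n) (K : ℕ) :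
    aeval (pt n τ x) (C s * G - Q ^ K * F + (X 0 - C τ) * U) =
      (s : ℝ) * aeval (pt n τ x) G - aeval (pt n τ x) Q ^ K * aeval (pt n τ x) F := by
  have h4 : pt n τ x 0 = ((τ : ℚ) : ℝ) := rfl
  rw [map_add, map_sub, map_mul, map_mul, map_mul, map_sub, map_pow, aeval_C, aeval_C, aeval_X,
    h4, eq_ratCast, eq_ratCast, sub_self, zero_mul, add_zero]

private theorem cnz_real {N : ℕ} {f : (Fin N → ℝ) → ℝ}
    (hf : ContinuousOn f (Icc (0 : Fin N → ℝ) 1)) {ε : ℝ} (hε : 0 < ε) :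
    ∃ p : MvPolynomial (Fin N) ℝ, ∀ x ∈ Icc (0 : Fin N → ℝ) 1,
      |f x - MvPolynomial.eval x p| ≤ ε := by
  have hcs : CompactSpace (Icc (0 : Fin N → ℝ) 1) := isCompact_iff_compactSpace.1 isCompact_Icc
  obtain ⟨co, hco⟩ : ∃ co : Fin N → C(Icc (0 : Fin N → ℝ) 1, ℝ), ∀ i x, co i x = x.1 i :=
    ⟨fun i => ⟨fun x => x.1 i, (continuous_apply i).comp continuous_subtype_val⟩,
      fun _ _ => rfl⟩
  have hev : ∀ (p : MvPolynomial (Fin N) ℝ) (x : Icc (0 : Fin N → ℝ) 1),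
      (MvPolynomial.aeval co p : C(Icc (0 : Fin N → ℝ) 1, ℝ)) x = MvPolynomial.eval x.1 p := by
    intro p x
    induction p using MvPolynomial.induction_on with
    | C a =>
      rw [aeval_C, eval_C]
      rfl
    | add p q hp hq => rw [map_add, map_add, ContinuousMap.add_apply, hp, hq]
    | mul_X p i hp =>
      rw [map_mul, map_mul, ContinuousMap.mul_apply, hp, aeval_X, eval_X, hco]
  obtain ⟨A, hA⟩ : ∃ A : Subalgebra ℝ C(Icc (0 : Fin N → ℝ) 1, ℝ),
      A = (MvPolynomial.aeval co : MvPolynomial (Fin N) ℝ →ₐ[ℝ] _).range := ⟨_, rfl⟩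
  have hsep : A.SeparatesPoints := by
    intro x y hxy
    obtain ⟨i, hi⟩ : ∃ i, x.1 i ≠ y.1 i := by
      by_contra hcon
      push Not at hcon
      exact hxy (Subtype.ext (funext hcon))
    refine ⟨co i, ⟨co i, ?_, rfl⟩, ?_⟩
    · rw [hA]
      exact ⟨X i, aeval_X _ _⟩
    · rw [hco, hco]
      exact hi
  obtain ⟨g, hg⟩ := ContinuousMap.exists_mem_subalgebra_near_continuous_of_separatesPoints A hsep
    (fun x => f x.1) hf.restrict ε hε
  obtain ⟨g, hgA⟩ := g
  rw [hA] at hgA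
  obtain ⟨p, rfl⟩ := hgA
  refine ⟨p, fun x hx => ?_⟩
  have h1 := hg ⟨x, hx⟩
  rw [abs_sub_comm]
  have h2 : ‖(MvPolynomial.aeval co p : C(Icc (0 : Fin N → ℝ) 1, ℝ)) ⟨x, hx⟩ - f x‖ < ε := h1
  rw [hev, Real.norm_eq_abs] at h2
  exact h2.le

private theorem cnz_rat {N : ℕ} (p : MvPolynomial (Fin N) ℝ) {ε : ℝ} (hε : 0 < ε) :
    ∃ P : MvPolynomial (Fin N) ℚ, ∀ x ∈ Icc (0 : Fin N → ℝ) 1,
      |MvPolynomial.eval x p - aeval x P| ≤ ε := by
  have hd : (0 : ℝ) < ε / ((p.support.card : ℝ) + 1) := by positivity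
  have hq : ∀ m : Fin N →₀ ℕ, ∃ q : ℚ, |coeff m p - (q : ℝ)| < ε / ((p.support.card : ℝ) + 1) :=
    fun m => exists_rat_near (coeff m p) hd
  choose q hq using hq
  refine ⟨∑ m ∈ p.support, monomial m (q m), fun x hx => ?_⟩
  have h1 : MvPolynomial.eval x p - aeval x (∑ m ∈ p.support, monomial m (q m)) =
      ∑ m ∈ p.support, (coeff m p - (q m : ℝ)) * ∏ i, x i ^ m i := by
    rw [eval_eq', map_sum, ← Finset.sum_sub_distrib]
    refine Finset.sum_congr rfl fun m _ => ?_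
    rw [aeval_monomial, Finsupp.prod_fintype _ _ (fun i => pow_zero _), eq_ratCast]
    ring
  rw [h1]
  refine (Finset.abs_sum_le_sum_abs _ _).trans ?_
  have h2 : ∀ m ∈ p.support, |(coeff m p - (q m : ℝ)) * ∏ i, x i ^ m i| ≤
      ε / ((p.support.card : ℝ) + 1) := by
    intro m _
    rw [abs_mul]
    have h3 : |∏ i, x i ^ m i| ≤ 1 := by
      rw [Finset.abs_prod]
      refine Finset.prod_le_one (fun i _ => abs_nonneg _) fun i _ => ?_
      rw [abs_pow]
      refine pow_le_one₀ (abs_nonneg _) ?_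
      rw [abs_of_nonneg (hx.1 i)]
      exact hx.2 i
    calc |coeff m p - (q m : ℝ)| * |∏ i, x i ^ m i| ≤ |coeff m p - (q m : ℝ)| * 1 :=
          mul_le_mul_of_nonneg_left h3 (abs_nonneg _)
      _ ≤ ε / ((p.support.card : ℝ) + 1) := by
          rw [mul_one]
          exact (hq m).le
  refine (Finset.sum_le_card_nsmul _ _ _ h2).trans ?_
  rw [nsmul_eq_mul]
  have h4 : (0 : ℝ) < (p.support.card : ℝ) + 1 := by positivity
  rw [mul_div_assoc', div_le_iff₀ h4]
  nlinarith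

/-- The integral of `a + ∑ ∂_l (f_l E_l)` at `t = τ` is `a`. Proof: see `JJ_ne_zero` in PP/SoundN.lean (`integral_eq_ev` with `Q = 1`, `K = 0`, `SoundN_Phi_exact`; or the specialisation at `t = τ`, `integral_poly` and `Lam_pderiv`). -/
theorem integral_exact (n : ℕ) (τ : ℚ) (a : ℚ) (E : Fin n → P1 n) :
    ∫ x in Icc (0 : Fin n → ℝ) 1, aeval (pt n τ x) (C a + ∑ l, pderiv l.succ (fl n l * E l)) = (a : ℝ) := by
  have h1 : ∀ x : Fin n → ℝ, aeval (pt n τ x) (C a + ∑ l, pderiv l.succ (fl n l * E l)) =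
      aeval x (C a + ∑ l, pderiv l ((X l - X l ^ 2) * cnz_sp n τ (E l))) := by
    intro x
    rw [cnz_aeval]
    congr 1
    rw [map_add, map_sum, cnz_sp_C]
    congr 1
    refine Finset.sum_congr rfl fun l _ => ?_
    rw [cnz_sp_pderiv, map_mul, fl, map_sub, map_pow, cnz_sp_succ]
  simp_rw [h1]
  rw [integral_poly, map_add, Lam_C, map_sum, Finset.sum_eq_zero fun l _ => Lam_pderiv n l _,
    add_zero]

/-- Soundness. Proof. Let `F = C a + ∑ ∂_l (f_l E_l)`, `σ = ± 1`. For `x` in the cube, `(τ, x) ∈ [0,1]^(1 + n)`, so `σ G(τ, x) - F(τ, x) Q(τ, x) ^ K > 0` (`posC_sound`, the term `(t - τ) U` vanishes), so `σ G / Q ^ K > F` at all points of the cube; all functions are continuous on the cube, of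
positive measure, so `σ JJ > ∫ F = a ≥ 0` (`integral_exact`; the strict inequality: the difference is at least a positive constant by compactness, or `setIntegral_pos_iff_support_of_nonneg_ae`). -/
theorem checkNG_sound {n : ℕ} {Q G : PCode} {K : ℕ} {τ : QCode} (hτ0 : 0 ≤ qval τ) (hτ1 : qval τ ≤ 1)
    (hQ : ∀ x ∈ Icc (0 : Fin n → ℝ) 1, 0 < aeval (pt n (qval τ) x) (pcPoly (n + 1) Q)) {x : NG}
    (h : checkNG n Q G K τ x) : JJ n (pcPoly (n + 1) Q) (pcPoly (n + 1) G) K (qval τ) ≠ 0 := by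
  obtain ⟨⟨b, a, E⟩, U, c⟩ := x
  obtain ⟨ha, hpos⟩ := h
  have ha0 : (0 : ℝ) ≤ (qval a : ℝ) := by
    have h1 := (qleP_iff (qnat 0) a).1 ha
    rw [qval_qnat, Nat.cast_zero] at h1
    exact_mod_cast h1
  obtain ⟨s, hs, hs1⟩ : ∃ s : ℚ, (s = 1 ∨ s = -1) ∧
      pcPoly (n + 1) (if b = true then G else pcNeg G) = C s * pcPoly (n + 1) G := by
    by_cases hb : b = true
    · refine ⟨1, Or.inl rfl, ?_⟩
      rw [if_pos hb, C_1, one_mul]
    · refine ⟨-1, Or.inr rfl, ?_⟩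
      rw [if_neg hb, pcPoly_neg, C_neg, C_1, neg_one_mul]
  have hng := cnz_ngC n Q G K τ ((b, (a, E)), (U, c)) s hs1
  obtain ⟨F, hF⟩ : ∃ F : P1 n, F = C (qval a) +
      ∑ l : Fin n, pderiv l.succ (fl n l * pcPoly (n + 1) (E.getD l [])) := ⟨_, rfl⟩
  have hng2 : pcPoly (n + 1) (ngC n Q G K τ ((b, (a, E)), (U, c))) =
      C s * pcPoly (n + 1) G - pcPoly (n + 1) Q ^ K * F +
        (X 0 - C (qval τ)) * pcPoly (n + 1) U := by
    rw [hng, hF]
  have hlt : ∀ x ∈ Icc (0 : Fin n → ℝ) 1,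
      0 < (s : ℝ) * (aeval (pt n (qval τ) x) (pcPoly (n + 1) G) /
        aeval (pt n (qval τ) x) (pcPoly (n + 1) Q) ^ K) - aeval (pt n (qval τ) x) F := by
    intro x hx
    have h1 := posC_sound hpos (pt n (qval τ) x) (cnz_mem hτ0 hτ1 hx)
    rw [hng2, cnz_val] at h1
    have h2 := pow_pos (hQ x hx) K
    have h3 : (s : ℝ) * (aeval (pt n (qval τ) x) (pcPoly (n + 1) G) /
        aeval (pt n (qval τ) x) (pcPoly (n + 1) Q) ^ K) - aeval (pt n (qval τ) x) F =
        ((s : ℝ) * aeval (pt n (qval τ) x) (pcPoly (n + 1) G) -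
          aeval (pt n (qval τ) x) (pcPoly (n + 1) Q) ^ K * aeval (pt n (qval τ) x) F) /
          aeval (pt n (qval τ) x) (pcPoly (n + 1) Q) ^ K := by
      field_simp
    rw [h3]
    exact div_pos h1 h2
  have hcG : ContinuousOn (fun x => aeval (pt n (qval τ) x) (pcPoly (n + 1) G) /
      aeval (pt n (qval τ) x) (pcPoly (n + 1) Q) ^ K) (Icc (0 : Fin n → ℝ) 1) :=
    cnz_contOn hQ _ K
  have hcF : ContinuousOn (fun x => aeval (pt n (qval τ) x) F) (Icc (0 : Fin n → ℝ) 1) :=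
    (cnz_cont_pt n (qval τ) F).continuousOn
  have hI : 0 < ∫ x in Icc (0 : Fin n → ℝ) 1, ((s : ℝ) * (aeval (pt n (qval τ) x)
      (pcPoly (n + 1) G) / aeval (pt n (qval τ) x) (pcPoly (n + 1) Q) ^ K) -
        aeval (pt n (qval τ) x) F) :=
    cnz_pos ((continuousOn_const.mul hcG).sub hcF) hlt
  have hI2 : ∫ x in Icc (0 : Fin n → ℝ) 1, ((s : ℝ) * (aeval (pt n (qval τ) x) (pcPoly (n + 1) G) /
        aeval (pt n (qval τ) x) (pcPoly (n + 1) Q) ^ K) - aeval (pt n (qval τ) x) F) =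
      (s : ℝ) * JJ n (pcPoly (n + 1) Q) (pcPoly (n + 1) G) K (qval τ) - (qval a : ℝ) := by
    rw [integral_sub ((hcG.integrableOn_compact isCompact_Icc).const_mul _)
      (hcF.integrableOn_compact isCompact_Icc), integral_const_mul, hF, integral_exact]
    rfl
  rw [hI2] at hI
  intro h0
  rw [h0, mul_zero] at hI
  linarith

/-- Polynomial approximation with rational coefficients of a continuous function on the cube. Proof: the polynomial functions form a subalgebra which separates points (Stone-Weierstrass: `ContinuousMap.subalgebra_topologicalClosure_eq_top_of_separatesPoints`, on the compact subtype, or Bernstein polynomials), so there is a real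
polynomial within `ε / 2`; change its coefficients slightly to rational numbers. -/
theorem exists_approx {N : ℕ} {f : (Fin N → ℝ) → ℝ} (hf : ContinuousOn f (Icc (0 : Fin N → ℝ) 1)) {ε : ℝ} (hε : 0 < ε) :
    ∃ P : MvPolynomial (Fin N) ℚ, ∀ x ∈ Icc (0 : Fin N → ℝ) 1, |f x - aeval x P| ≤ ε := by
  obtain ⟨p, hp⟩ := cnz_real hf (half_pos hε)
  obtain ⟨P, hP⟩ := cnz_rat p (half_pos hε)
  refine ⟨P, fun x hx => ?_⟩
  have h1 := hp x hx
  have h2 := hP x hx
  have h3 := abs_sub_le (f x) (MvPolynomial.eval x p) (aeval x P)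
  linarith

/-- Completeness. Proof. Let `J = σ JJ > 0`, `σ = ± 1`, and `f(x) = σ G(τ, x) / Q(τ, x) ^ K - J / 2`, continuous on the cube, with integral `J / 2`. By `exists_approx` there is `P ∈ ℚ[x]` with `|f - P| ≤ J / 4` on the cube; so `P ≤ f + J / 4 < σ G / Q ^ K` and `∫ P ≥ J / 4 > 0`. With `a = Lam n P`
(`integral_poly`), `P = C a + ∑ ∂_l ((x_l - x_l ^ 2) E_l)` (`exists_prim` for `P - C a`, see PP/CompN.lean); rename to `P1 n`. The polynomial `σ G - F Q ^ K` is congruent modulo `X 0 - C τ` to `rename Fin.succ H`, `H ∈ ℚ[x]` its specialisation at `t = τ`, which is positive on the cube; choose `U` accordingly;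
`posC_complete` in `n + 1` variables (`x_0` does not occur). Codes: `exists_pcPoly`, `exists_qval`, `exists_list`. (`0 ≤ qval a`.) -/
theorem checkNG_complete {n : ℕ} {Q G : PCode} {K : ℕ} {τ : QCode}
    (hQ : ∀ x ∈ Icc (0 : Fin n → ℝ) 1, 0 < aeval (pt n (qval τ) x) (pcPoly (n + 1) Q))
    (h : JJ n (pcPoly (n + 1) Q) (pcPoly (n + 1) G) K (qval τ) ≠ 0) : ∃ x : NG, checkNG n Q G K τ x := by
  obtain ⟨b, s, hs, hs1, hJ⟩ : ∃ (b : Bool) (s : ℚ), (s = 1 ∨ s = -1) ∧
      pcPoly (n + 1) (if b = true then G else pcNeg G) = C s * pcPoly (n + 1) G ∧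
      0 < (s : ℝ) * JJ n (pcPoly (n + 1) Q) (pcPoly (n + 1) G) K (qval τ) := by
    rcases lt_or_gt_of_ne h with h1 | h1
    · refine ⟨false, -1, Or.inr rfl, ?_, ?_⟩
      · rw [if_neg Bool.false_ne_true, pcPoly_neg, C_neg, C_1, neg_one_mul]
      · push_cast
        linarith
    · refine ⟨true, 1, Or.inl rfl, ?_, ?_⟩
      · rw [if_pos rfl, C_1, one_mul]
      · push_cast
        linarith
  obtain ⟨J, hJd⟩ : ∃ J : ℝ,
      J = (s : ℝ) * JJ n (pcPoly (n + 1) Q) (pcPoly (n + 1) G) K (qval τ) := ⟨_, rfl⟩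
  rw [← hJd] at hJ
  have hcG : ContinuousOn (fun x => aeval (pt n (qval τ) x) (pcPoly (n + 1) G) /
      aeval (pt n (qval τ) x) (pcPoly (n + 1) Q) ^ K) (Icc (0 : Fin n → ℝ) 1) :=
    cnz_contOn hQ _ K
  have hcf : ContinuousOn (fun x => (s : ℝ) * (aeval (pt n (qval τ) x) (pcPoly (n + 1) G) /
      aeval (pt n (qval τ) x) (pcPoly (n + 1) Q) ^ K) - J / 2) (Icc (0 : Fin n → ℝ) 1) :=
    (continuousOn_const.mul hcG).sub continuousOn_const
  obtain ⟨W, hW⟩ := exists_approx hcf (by linarith : 0 < J / 4)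
  have hcW : ContinuousOn (fun x : Fin n → ℝ => aeval x W) (Icc (0 : Fin n → ℝ) 1) :=
    (cnz_cont W).continuousOn
  have hIf : ∫ x in Icc (0 : Fin n → ℝ) 1, ((s : ℝ) * (aeval (pt n (qval τ) x)
      (pcPoly (n + 1) G) / aeval (pt n (qval τ) x) (pcPoly (n + 1) Q) ^ K) - J / 2) = J / 2 := by
    rw [integral_sub ((hcG.integrableOn_compact isCompact_Icc).const_mul _)
      (continuousOn_const.integrableOn_compact isCompact_Icc), integral_const_mul,
      setIntegral_const, cnz_vol, one_smul]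
    have h1 : (s : ℝ) * ∫ x in Icc (0 : Fin n → ℝ) 1, aeval (pt n (qval τ) x)
        (pcPoly (n + 1) G) / aeval (pt n (qval τ) x) (pcPoly (n + 1) Q) ^ K = J := hJd.symm
    rw [h1]
    ring
  have hLam : J / 4 ≤ ((Lam n W : ℚ) : ℝ) := by
    have h1 := norm_setIntegral_le_of_norm_le_const (μ := volume)
      (isCompact_Icc (a := (0 : Fin n → ℝ)) (b := 1)).measure_lt_top
      (f := fun x => ((s : ℝ) * (aeval (pt n (qval τ) x) (pcPoly (n + 1) G) /
        aeval (pt n (qval τ) x) (pcPoly (n + 1) Q) ^ K) - J / 2) - aeval x W) (C := J / 4)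
      (fun x hx => hW x hx)
    rw [integral_sub (hcf.integrableOn_compact isCompact_Icc)
      (hcW.integrableOn_compact isCompact_Icc), hIf, integral_poly, cnz_vol, mul_one,
      Real.norm_eq_abs] at h1
    have h2 := (abs_le.1 h1).2
    linarith
  obtain ⟨E0, hE0⟩ := exists_prim n W
  have hsum : (C (Lam n W) : P1 n) + ∑ l, pderiv l.succ (fl n l * rename Fin.succ (E0 l)) =
      rename Fin.succ W := by
    have h1 : ∀ l : Fin n, pderiv l.succ (fl n l * rename Fin.succ (E0 l)) =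
        rename Fin.succ (pderiv l ((X l - X l ^ 2) * E0 l)) := by
      intro l
      have h2 : fl n l * rename Fin.succ (E0 l) = rename Fin.succ ((X l - X l ^ 2) * E0 l) := by
        rw [fl, map_mul, map_sub, map_pow, rename_X]
      rw [h2, pderiv_rename (Fin.succ_injective n)]
    rw [Finset.sum_congr rfl fun l _ => h1 l, ← map_sum]
    conv_rhs => rw [hE0]
    rw [map_add, rename_C]
  obtain ⟨ac, hac⟩ := exists_qval (Lam n W)
  obtain ⟨El, hEl⟩ := exists_list n fun l => rename Fin.succ (E0 l)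
  obtain ⟨T, hT⟩ : ∃ T : P1 n, T = C s * pcPoly (n + 1) G -
      pcPoly (n + 1) Q ^ K * rename Fin.succ W := ⟨_, rfl⟩
  obtain ⟨U, hU⟩ := cnz_dvd n (qval τ) T
  obtain ⟨u, hu⟩ := exists_pcPoly (-U)
  have hng : ∀ c : PCert, pcPoly (n + 1) (ngC n Q G K τ ((b, (ac, El)), (u, c))) =
      rename Fin.succ (cnz_sp n (qval τ) T) := by
    intro c
    rw [cnz_ngC n Q G K τ ((b, (ac, El)), (u, c)) s hs1]
    have h1 : ∀ l : Fin n, pcPoly (n + 1) (El.getD l []) = rename Fin.succ (E0 l) :=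
      fun l => congrFun hEl l
    have h2 : (C (qval ac) : P1 n) + ∑ l : Fin n, pderiv l.succ
        (fl n l * pcPoly (n + 1) (El.getD l [])) = rename Fin.succ W := by
      rw [← hsum, hac]
      congr 1
      exact Finset.sum_congr rfl fun l _ => by rw [h1 l]
    change C s * pcPoly (n + 1) G - pcPoly (n + 1) Q ^ K * (C (qval ac) + ∑ l : Fin n,
      pderiv l.succ (fl n l * pcPoly (n + 1) (El.getD l []))) +
        (X 0 - C (qval τ)) * pcPoly (n + 1) u = rename Fin.succ (cnz_sp n (qval τ) T)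
    rw [h2, hu, ← hT]
    linear_combination hU
  obtain ⟨c, hc⟩ := posC_complete (N := n + 1)
    (p := ngC n Q G K τ ((b, (ac, El)), (u, (qnat 0, [])))) (by
      intro y hy
      rw [hng, aeval_rename]
      have hx : y ∘ Fin.succ ∈ Icc (0 : Fin n → ℝ) 1 :=
        ⟨fun l => hy.1 l.succ, fun l => hy.2 l.succ⟩
      rw [← cnz_aeval, hT, map_sub, map_mul, map_mul, map_pow, aeval_C, cnz_aeval_rename]
      have h2 := hW _ hx
      have h3 := (abs_le.1 h2).1
      have h4 := pow_pos (hQ _ hx) K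
      obtain ⟨q, hq⟩ : ∃ q : ℝ, q = aeval (pt n (qval τ) (y ∘ Fin.succ))
        (pcPoly (n + 1) Q) ^ K := ⟨_, rfl⟩
      obtain ⟨g, hg⟩ : ∃ g : ℝ, g = aeval (pt n (qval τ) (y ∘ Fin.succ))
        (pcPoly (n + 1) G) := ⟨_, rfl⟩
      obtain ⟨w, hw⟩ : ∃ w : ℝ, w = aeval (y ∘ Fin.succ) W := ⟨_, rfl⟩
      rw [← hq, ← hg, ← hw] at h3
      rw [← hq] at h4
      rw [← hq, ← hg, ← hw, eq_ratCast]
      have h5 : w < (s : ℝ) * (g / q) := by linarith
      have h6 := mul_lt_mul_of_pos_left h5 h4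
      have h7 : q * ((s : ℝ) * (g / q)) = (s : ℝ) * g := by
        field_simp
      rw [h7] at h6
      linarith)
  refine ⟨((b, (ac, El)), (u, c)), ?_, hc⟩
  change qleP (qnat 0) ac
  rw [qleP_iff, qval_qnat, Nat.cast_zero, hac]
  have h1 : (0 : ℝ) ≤ ((Lam n W : ℚ) : ℝ) := by linarith
  exact_mod_cast h1

end Pool.Agent.Lib.MP_bbe012_lc.PG
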