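import Pool.Agent.Lib.MP_bbe012_lc.PG.CDefs

/-!
# The verification is primitive recursive, and the search

See PP/CodePrim.lean and PP/RedPrim.lean for the style and the lemmas.
-/

namespace Pool.Agent.Lib.MP_bbe012_lc.PG

open Primrec PP

instance instPrimcodablePCertA : Primcodable (QCode × (List ℕ × List ℕ)) := inferInstance

instance instPrimcodablePCertB : Primcodable (List (QCode × (List ℕ × List ℕ))) :=
  @Primcodable.list (QCode × (List ℕ × List ℕ)) instPrimcodablePCertA

instance instPrimcodablePCert : Primcodable PCert := @Primcodable.prod _ _ inferInstance instPrimcodablePCertB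

instance instPrimcodableNGA : Primcodable (Bool × (QCode × List PCode)) :=
  @Primcodable.prod _ _ inferInstance instPrimcodableNCertA

instance instPrimcodableNGB : Primcodable (PCode × PCert) := @Primcodable.prod _ _ inferInstance instPrimcodablePCert

instance instPrimcodableNG : Primcodable NG := @Primcodable.prod _ _ instPrimcodableNGA instPrimcodableNGB

instance instPrimcodableGCertA : Primcodable (ZCert × NG) := @Primcodable.prod _ _ instPrimcodableZCert instPrimcodableNG

instance instPrimcodableGCertB : Primcodable (Bool × (ZCert × NG)) := @Primcodable.prod _ _ inferInstance instPrimcodableGCertA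

instance instPrimcodableGCertC : Primcodable ((PCode × PCert) × (Bool × (ZCert × NG))) :=
  @Primcodable.prod _ _ instPrimcodableNGB instPrimcodableGCertB

instance instPrimcodableGCert : Primcodable GCert := @Primcodable.prod _ _ instPrimcodableRC instPrimcodableGCertC

instance instPrimcodableExGCert : Primcodable (Ex × GCert) := @Primcodable.prod _ _ instPrimcodableEx instPrimcodableGCert

section generic

variable {α : Type} [Primcodable α]

theorem pr_bernC {N : α → ℕ} {u v : α → List ℕ} (hN : Primrec N) (hu : Primrec u) (hv : Primrec v) :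
    Primrec fun a => bernC (N a) (u a) (v a) := by
  have hi : Primrec fun q : α × ℕ => pcVar q.2 := pr_var snd
  have hu1 : Primrec fun q : α × ℕ => (u q.1).getD q.2 0 := (list_getD 0).comp (hu.comp fst) snd
  have hv1 : Primrec fun q : α × ℕ => (v q.1).getD q.2 0 := (list_getD 0).comp (hv.comp fst) snd
  exact pr_prodRange (g := fun a i =>
    pcMul (pcPow (pcVar i) ((u a).getD i 0)) (pcPow (pcNat 1 ++ pcNeg (pcVar i)) ((v a).getD i 0))) hN
    (pr_mul (pr_pow hi hu1) (pr_pow (pr_append (pr_nat 1) (pr_neg hi)) hv1)).to₂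

theorem pr_posSum {N : α → ℕ} {L : α → List (QCode × (List ℕ × List ℕ))} (hN : Primrec N) (hL : Primrec L) :
    Primrec fun a => posSum (N a) (L a) := by
  have h1 : Primrec fun q : α × ℕ => (L q.1).getD q.2 (qnat 0, ([], [])) :=
    (list_getD (qnat 0, (([] : List ℕ), ([] : List ℕ)))).comp (hL.comp fst) snd
  have h2 : Primrec fun q : α × ℕ => ((L q.1).getD q.2 (qnat 0, ([], []))).2 := snd.comp h1
  exact pr_sumRange (g := fun a j => pcMul (constC ((L a).getD j (qnat 0, ([], []))).1)
    (bernC (N a) ((L a).getD j (qnat 0, ([], []))).2.1 ((L a).getD j (qnat 0, ([], []))).2.2))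
    (list_length.comp hL)
    (pr_mul (pr_constC (fst.comp h1)) (pr_bernC (hN.comp fst) (fst.comp h2) (snd.comp h2))).to₂

theorem pr_posC {N : α → ℕ} {p : α → PCode} {c : α → PCert} (hN : Primrec N) (hp : Primrec p) (hc : Primrec c) :
    PrimrecPred fun a => posC (N a) (p a) (c a) := by
  have h1 : Primrec fun a => (c a).1 := fst.comp hc
  have h2 : Primrec fun a => (c a).2 := snd.comp hc
  have h3 : PrimrecPred fun a => qltP (qnat 0) (c a).1 := pr_qltP (const (qnat 0)) h1
  have h4 : PrimrecRel fun (t : QCode × (List ℕ × List ℕ)) (_ : α) => qleP (qnat 0) t.1 :=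
    pr_qleP (const (qnat 0)) (fst.comp fst)
  have h5 : PrimrecPred fun a => ∀ t ∈ (c a).2, qleP (qnat 0) t.1 :=
    h4.forall_mem_list.comp h2 Primrec.id
  have h6 : PrimrecPred fun a => pcIsZero (N a) (p a ++ pcNeg (constC (c a).1 ++ posSum (N a) (c a).2)) :=
    pr_isZero hN (pr_append hp (pr_neg (pr_append (pr_constC h1) (pr_posSum hN h2))))
  exact h3.and (h5.and h6)

theorem pr_ngC {n K : α → ℕ} {Q G : α → PCode} {τ : α → QCode} {x : α → NG} (hn : Primrec n) (hQ : Primrec Q)
    (hG : Primrec G) (hK : Primrec K) (hτ : Primrec τ) (hx : Primrec x) :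
    Primrec fun a => ngC (n a) (Q a) (G a) (K a) (τ a) (x a) := by
  have x1 : Primrec fun a => (x a).1 := fst.comp hx
  have xσ : Primrec fun a => (x a).1.1 := fst.comp x1
  have x12 : Primrec fun a => (x a).1.2 := snd.comp x1
  have xa : Primrec fun a => (x a).1.2.1 := fst.comp x12
  have xE : Primrec fun a => (x a).1.2.2 := snd.comp x12
  have x2 : Primrec fun a => (x a).2 := snd.comp hx
  have xU : Primrec fun a => (x a).2.1 := fst.comp x2
  have hσ : PrimrecPred fun a => (x a).1.1 = true := Primrec.eq.comp xσ (const true)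
  have hI : Primrec fun a => if (x a).1.1 = true then G a else pcNeg (G a) :=
    Primrec.ite hσ hG (pr_neg hG)
  exact pr_append hI (pr_append
    (pr_neg (pr_mul (pr_pow hQ hK) (pr_append (pr_constC xa) (pr_divEC hn xE))))
    (pr_mul (pr_append pr_tC (pr_neg (pr_constC hτ))) xU))

theorem pr_checkNG {n K : α → ℕ} {Q G : α → PCode} {τ : α → QCode} {x : α → NG} (hn : Primrec n) (hQ : Primrec Q)
    (hG : Primrec G) (hK : Primrec K) (hτ : Primrec τ) (hx : Primrec x) :
    PrimrecPred fun a => checkNG (n a) (Q a) (G a) (K a) (τ a) (x a) := by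
  have x1 : Primrec fun a => (x a).1 := fst.comp hx
  have x12 : Primrec fun a => (x a).1.2 := snd.comp x1
  have xa : Primrec fun a => (x a).1.2.1 := fst.comp x12
  have x2 : Primrec fun a => (x a).2 := snd.comp hx
  have xc : Primrec fun a => (x a).2.2 := snd.comp x2
  have h1 : PrimrecPred fun a => qleP (qnat 0) (x a).1.2.1 := pr_qleP (const (qnat 0)) xa
  have h2 : PrimrecPred fun a => posC (n a + 1) (ngC (n a) (Q a) (G a) (K a) (τ a) (x a)) (x a).2.2 :=
    pr_posC (succ.comp hn) (pr_ngC hn hQ hG hK hτ hx) xc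
  exact h1.and h2

theorem pr_okG {n : α → ℕ} {Q : α → PCode} {τ : α → QCode} {x : α → PCode × PCert} (hn : Primrec n) (hQ : Primrec Q)
    (hτ : Primrec τ) (hx : Primrec x) : PrimrecPred fun a => okG (n a) (Q a) (τ a) (x a) := by
  have x1 : Primrec fun a => (x a).1 := fst.comp hx
  have x2 : Primrec fun a => (x a).2 := snd.comp hx
  have h1 : PrimrecPred fun a => qleP (qnat 0) (τ a) := pr_qleP (const (qnat 0)) hτ
  have h2 : PrimrecPred fun a => qleP (τ a) (qnat 1) := pr_qleP hτ (const (qnat 1))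
  have h3 : PrimrecPred fun a => pcIsZero (n a + 1) (Q a ++ pcNeg (pcNat 1 ++ pcMul tC (x a).1)) :=
    pr_isZero (succ.comp hn) (pr_append hQ (pr_neg (pr_append (pr_nat 1) (pr_mul pr_tC x1))))
  have h4 : PrimrecPred fun a => posC (n a + 1) (Q a) (x a).2 := pr_posC (succ.comp hn) hQ x2
  exact (h1.and h2).and (h3.and h4)

/-- The proof is part of `primrecPred_checkC` (PP/CodePrim.lean). -/
theorem pr_checkZ {n K : α → ℕ} {Q G : α → PCode} {τ : α → QCode} {x : α → ZCert} (hn : Primrec n) (hQ : Primrec Q)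
    (hG : Primrec G) (hK : Primrec K) (hτ : Primrec τ) (hx : Primrec x) :
    PrimrecPred fun a => checkZ (n a) (Q a) (G a) (K a) (τ a) (x a) := by
  have z1 : Primrec fun a => (x a).1 := fst.comp hx
  have z2 : Primrec fun a => (x a).2 := snd.comp hx
  have z11 : Primrec fun a => (x a).1.1 := fst.comp z1
  have z111 : Primrec fun a => (x a).1.1.1 := fst.comp z11
  have z112 : Primrec fun a => (x a).1.1.2 := snd.comp z11
  have zκ : Primrec fun a => (x a).1.1.1.1 := fst.comp z111
  have zK' : Primrec fun a => (x a).1.1.1.2 := snd.comp z111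
  have zρ : Primrec fun a => (x a).1.1.2.1 := fst.comp z112
  have zL : Primrec fun a => (x a).1.1.2.2 := snd.comp z112
  have zj : Primrec fun a => (x a).1.2 := snd.comp z1
  have z21 : Primrec fun a => (x a).2.1 := fst.comp z2
  have z22 : Primrec fun a => (x a).2.2 := snd.comp z2
  have z211 : Primrec fun a => (x a).2.1.1 := fst.comp z21
  have z212 : Primrec fun a => (x a).2.1.2 := snd.comp z21
  have zz : Primrec fun a => (x a).2.1.1.1 := fst.comp z211
  have zc : Primrec fun a => (x a).2.1.1.2 := snd.comp z211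
  have zg : Primrec fun a => (x a).2.1.2.1 := fst.comp z212
  have zE : Primrec fun a => (x a).2.1.2.2 := snd.comp z212
  have zH : Primrec fun a => (x a).2.2.1 := fst.comp z22
  have zU : Primrec fun a => (x a).2.2.2 := snd.comp z22
  have hS : Primrec fun a => sC (Q a) (G a) (τ a) (x a).1.2 (x a).2.2.2 := pr_sC hQ hG hτ zj zU
  have hKj : Primrec fun a => K a + (x a).1.2 := nat_add.comp hK zj
  have hZ1 : PrimrecPred fun a => K a + (x a).1.2 + (x a).1.1.2.1 ≤ (x a).1.1.1.2 + 1 :=
    nat_le.comp (nat_add.comp hKj zρ) (succ.comp zK')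
  have hZ2 : PrimrecPred fun a => zOK (x a).1.1.2.1 (x a).1.1.2.2 (x a).2.1.1.1 := pr_zOK zρ zL zz
  have hZ3 : PrimrecPred fun a => pcIsZero (n a + 1) (exactC (n a) (Q a)
      (sC (Q a) (G a) (τ a) (x a).1.2 (x a).2.2.2) (K a + (x a).1.2) (x a).1.1.1.1 (x a).1.1.1.2
      (x a).1.1.2.1 (x a).2.1.1.1 (x a).2.1.1.2 (x a).2.1.2.1) :=
    pr_isZero (succ.comp hn) (pr_exactC hn hQ hS hKj zκ zK' zρ zz zc zg)
  have hZ4 : PrimrecPred fun a => pcIsZero (n a + 1) (initC (n a) (Q a)
      (sC (Q a) (G a) (τ a) (x a).1.2 (x a).2.2.2) (K a + (x a).1.2) (x a).1.1.2.2 (x a).2.1.2.2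
      (x a).2.2.1) :=
    pr_isZero (succ.comp hn) (pr_initC hn hQ hS hKj zL zE zH)
  exact hZ1.and (hZ2.and (hZ3.and hZ4))

end generic

theorem primrecPred_checkG : PrimrecPred fun y : Ex × GCert => checkG y.1 y.2 := by
  have hE : Primrec fun y : Ex × GCert => y.1 := fst
  have hc : Primrec fun y : Ex × GCert => y.2 := snd
  have hR : Primrec fun y : Ex × GCert => y.2.1 := fst.comp hc
  have hR1 : Primrec fun y : Ex × GCert => y.2.1.1 := fst.comp hR
  have hR11 : Primrec fun y : Ex × GCert => y.2.1.1.1 := fst.comp hR1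
  have hRn : Primrec fun y : Ex × GCert => y.2.1.1.1.1 := fst.comp hR11
  have hR2 : Primrec fun y : Ex × GCert => y.2.1.2 := snd.comp hR
  have hR21 : Primrec fun y : Ex × GCert => y.2.1.2.1 := fst.comp hR2
  have hRQ : Primrec fun y : Ex × GCert => y.2.1.2.1.1 := fst.comp hR21
  have hRτ : Primrec fun y : Ex × GCert => y.2.1.2.1.2 := snd.comp hR21
  have hc2 : Primrec fun y : Ex × GCert => y.2.2 := snd.comp hc
  have hV : Primrec fun y : Ex × GCert => y.2.2.1 := fst.comp hc2
  have hc22 : Primrec fun y : Ex × GCert => y.2.2.2 := snd.comp hc2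
  have hb : Primrec fun y : Ex × GCert => y.2.2.2.1 := fst.comp hc22
  have hc222 : Primrec fun y : Ex × GCert => y.2.2.2.2 := snd.comp hc22
  have hZ : Primrec fun y : Ex × GCert => y.2.2.2.2.1 := fst.comp hc222
  have hN : Primrec fun y : Ex × GCert => y.2.2.2.2.2 := snd.comp hc222
  have h0 : Primrec fun y : Ex × GCert => (y.1, y.2.1) := pair hE hR
  have hT : Primrec fun y : Ex × GCert => toCore y.1 y.2.1 := primrec_toCore.comp h0
  have hT1 : Primrec fun y : Ex × GCert => (toCore y.1 y.2.1).1 := fst.comp hT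
  have hTn : Primrec fun y : Ex × GCert => (toCore y.1 y.2.1).1.1 := fst.comp hT1
  have hTK : Primrec fun y : Ex × GCert => (toCore y.1 y.2.1).1.2 := snd.comp hT1
  have hT2 : Primrec fun y : Ex × GCert => (toCore y.1 y.2.1).2 := snd.comp hT
  have hT21 : Primrec fun y : Ex × GCert => (toCore y.1 y.2.1).2.1 := fst.comp hT2
  have hTQ : Primrec fun y : Ex × GCert => (toCore y.1 y.2.1).2.1.1 := fst.comp hT21
  have hTG : Primrec fun y : Ex × GCert => (toCore y.1 y.2.1).2.1.2 := snd.comp hT21
  have hTτ : Primrec fun y : Ex × GCert => (toCore y.1 y.2.1).2.2 := snd.comp hT2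
  have h1 : PrimrecPred fun y : Ex × GCert => rcOK y.1 y.2.1 := primrecPred_rcOK.comp h0
  have h2 : PrimrecPred fun y : Ex × GCert => okG y.2.1.1.1.1 y.2.1.2.1.1 y.2.1.2.1.2 y.2.2.1 :=
    pr_okG hRn hRQ hRτ hV
  have h3 : PrimrecPred fun y : Ex × GCert => y.2.2.2.1 = true := Primrec.eq.comp hb (const true)
  have h4 : PrimrecPred fun y : Ex × GCert => y.2.2.2.1 = false := Primrec.eq.comp hb (const false)
  have h5 : PrimrecPred fun y : Ex × GCert => checkZ (toCore y.1 y.2.1).1.1 (toCore y.1 y.2.1).2.1.1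
      (toCore y.1 y.2.1).2.1.2 (toCore y.1 y.2.1).1.2 (toCore y.1 y.2.1).2.2 y.2.2.2.2.1 :=
    pr_checkZ hTn hTQ hTG hTK hTτ hZ
  have h6 : PrimrecPred fun y : Ex × GCert => checkNG (toCore y.1 y.2.1).1.1 (toCore y.1 y.2.1).2.1.1
      (toCore y.1 y.2.1).2.1.2 (toCore y.1 y.2.1).1.2 (toCore y.1 y.2.1).2.2 y.2.2.2.2.2 :=
    pr_checkNG hTn hTQ hTG hTK hTτ hN
  exact h1.and (h2.and ((h3.and h5).or (h4.and h6)))

/-- The decision procedure: search for a certificate. -/
def decideG (E : Ex) : Part Bool :=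
  Nat.rfindOpt fun m => (Encodable.decode (α := GCert) m).bind fun c =>
    if checkG E c then some c.2.2.1 else none

/-- As `partrec_decide0` in PP/RedPrim.lean. -/
theorem partrec_decideG : Partrec decideG := by
  have h : Primrec₂ fun (E : Ex) (m : ℕ) =>
      (Encodable.decode (α := GCert) m).bind fun c => if checkG E c then some c.2.2.1 else none := by
    have h1 : Primrec fun y : Ex × ℕ => (Encodable.decode (α := GCert) y.2) :=
      Primrec.decode.comp snd
    have h2 : PrimrecPred fun z : (Ex × ℕ) × GCert => checkG z.1.1 z.2 :=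
      primrecPred_checkG.comp (pair (fst.comp fst) snd)
    have h3 : Primrec fun z : (Ex × ℕ) × GCert => z.2.2.2.1 :=
      fst.comp (snd.comp (snd.comp snd))
    exact option_bind h1 ((Primrec.ite h2 (option_some.comp h3) (const none)).to₂)
  exact Partrec.rfindOpt h.to_comp

theorem mem_decideG {E : Ex} {b : Bool} (h : b ∈ decideG E) : ∃ c : GCert, checkG E c ∧ b = c.2.2.1 := by
  obtain ⟨m, hm⟩ := Nat.rfindOpt_spec h
  obtain ⟨c, _, h2⟩ := Option.bind_eq_some_iff.mp hm
  split_ifs at h2 with hc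
  exact ⟨c, hc, (Option.some_injective _ h2).symm⟩

theorem dom_decideG {E : Ex} {c : GCert} (hc : checkG E c) : (decideG E).Dom := by
  refine Nat.rfindOpt_dom.mpr ⟨Encodable.encode (c : GCert), c.2.2.1, ?_⟩
  rw [Encodable.encodek]
  change (if checkG E c then some c.2.2.1 else none) = _
  rw [if_pos hc]

end Pool.Agent.Lib.MP_bbe012_lc.PG
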