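import Pool.Agent.Lib.MP_bbe012_lc.PG.BSeg
import Pool.Agent.Lib.MP_bbe012_lc.PP.CodeB
import Pool.Agent.Lib.MP_bbe012_lc.PP.Sem

/-!
# Soundness of the certificates for zero: continuation along `[0,1]`
-/

namespace Pool.Agent.Lib.MP_bbe012_lc.PG

open MvPolynomial MeasureTheory Set PP

/-- The integral of `G / Q ^ K` at the real number `t`. -/
noncomputable def JR (n : ℕ) (Q G : P1 n) (K : ℕ) (t : ℝ) : ℝ :=
  ∫ x in Icc (0 : Fin n → ℝ) 1, aeval (Fin.cons t x : Fin (n + 1) → ℝ) G /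
    aeval (Fin.cons t x : Fin (n + 1) → ℝ) Q ^ K

/-- Proof: unfold; `pt n τ x = Fin.cons (τ : ℝ) x`. -/
theorem JR_eq (n : ℕ) (Q G : P1 n) (K : ℕ) (τ : ℚ) : JR n Q G K (τ : ℝ) = JJ n Q G K τ := by
  rfl

private theorem czero_cont {m : ℕ} (p : MvPolynomial (Fin m) ℚ) :
    Continuous fun w : Fin m → ℂ => aeval w p := by
  have h : (fun w : Fin m → ℂ => aeval w p) =
      fun w => ∑ d ∈ p.support, algebraMap ℚ ℂ (coeff d p) * ∏ i, w i ^ d i := by
    funext w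
    rw [aeval_def, eval₂_eq']
  rw [h]
  fun_prop

private theorem czero_cons (n : ℕ) :
    Continuous fun q : ℂ × (Fin n → ℝ) => (Fin.cons q.1 (fun l => ((q.2 l : ℝ) : ℂ)) : Fin (n + 1) → ℂ) := by
  refine continuous_pi fun i => ?_
  refine Fin.cases ?_ (fun l => ?_) i
  · exact continuous_fst
  · exact Complex.continuous_ofReal.comp ((continuous_apply l).comp continuous_snd)

private theorem czero_diff {n : ℕ} (p : P1 n) (x : Fin n → ℝ) :
    Differentiable ℂ fun z : ℂ => aeval (Fin.cons z (fun l => ((x l : ℝ) : ℂ)) : Fin (n + 1) → ℂ) p := by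
  induction p using MvPolynomial.induction_on with
  | C a =>
    have h : (fun z : ℂ => aeval (Fin.cons z (fun l => ((x l : ℝ) : ℂ)) : Fin (n + 1) → ℂ) (C a : P1 n)) =
        fun _ => algebraMap ℚ ℂ a := by
      funext z
      rw [aeval_C]
    rw [h]
    exact differentiable_const _
  | add p q hp hq =>
    have h : (fun z : ℂ => aeval (Fin.cons z (fun l => ((x l : ℝ) : ℂ)) : Fin (n + 1) → ℂ) (p + q)) =
        fun z => aeval (Fin.cons z (fun l => ((x l : ℝ) : ℂ)) : Fin (n + 1) → ℂ) p +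
          aeval (Fin.cons z (fun l => ((x l : ℝ) : ℂ)) : Fin (n + 1) → ℂ) q := by
      funext z
      rw [map_add]
    rw [h]
    exact hp.add hq
  | mul_X p i hp =>
    have h : (fun z : ℂ => aeval (Fin.cons z (fun l => ((x l : ℝ) : ℂ)) : Fin (n + 1) → ℂ) (p * X i)) =
        fun z => aeval (Fin.cons z (fun l => ((x l : ℝ) : ℂ)) : Fin (n + 1) → ℂ) p *
          (Fin.cons z (fun l => ((x l : ℝ) : ℂ)) : Fin (n + 1) → ℂ) i := by
      funext z
      rw [map_mul, aeval_X]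
    rw [h]
    refine hp.mul ?_
    refine Fin.cases ?_ (fun l => ?_) i
    · exact differentiable_id
    · exact differentiable_const _

private theorem czero_real {n : ℕ} (p : P1 n) (t : ℝ) (x : Fin n → ℝ) :
    aeval (Fin.cons (t : ℂ) (fun l => ((x l : ℝ) : ℂ)) : Fin (n + 1) → ℂ) p =
      ((aeval (Fin.cons t x : Fin (n + 1) → ℝ) p : ℝ) : ℂ) := by
  have h : (Fin.cons (t : ℂ) (fun l => ((x l : ℝ) : ℂ)) : Fin (n + 1) → ℂ) =
      algebraMap ℝ ℂ ∘ (Fin.cons t x : Fin (n + 1) → ℝ) := by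
    funext i
    refine Fin.cases ?_ (fun l => ?_) i
    · rfl
    · rfl
  rw [h, MvPolynomial.aeval_algebraMap_apply]
  rfl

/-- Proof: `segAn_integral` with `A z x = aeval (Fin.cons z (fun l => (x l : ℂ))) G`, `C z x = (aeval (Fin.cons z (fun l => (x l : ℂ))) Q) ^ K` (continuity and differentiability of polynomial functions, by induction on the polynomial; compatibility with the real values: `aeval` and `Complex.ofRealAm`). -/
theorem JR_an {n : ℕ} {Q : P1 n} (hQ : ∀ t ∈ Icc (0 : ℝ) 1, ∀ x ∈ Icc (0 : Fin n → ℝ) 1,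
    0 < aeval (Fin.cons t x : Fin (n + 1) → ℝ) Q) (G : P1 n) (K : ℕ) : AnalyticOnNhd ℝ (JR n Q G K) (Icc 0 1) := by
  refine segAn_integral
    (fun z x => aeval (Fin.cons z (fun l => ((x l : ℝ) : ℂ)) : Fin (n + 1) → ℂ) G)
    (fun z x => aeval (Fin.cons z (fun l => ((x l : ℝ) : ℂ)) : Fin (n + 1) → ℂ) Q ^ K)
    (fun t x => aeval (Fin.cons t x : Fin (n + 1) → ℝ) G)
    (fun t x => aeval (Fin.cons t x : Fin (n + 1) → ℝ) Q ^ K) ?_ ?_ ?_ ?_ ?_ ?_ ?_
  · exact (czero_cont G).comp (czero_cons n)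
  · exact ((czero_cont Q).comp (czero_cons n)).pow K
  · exact fun x => czero_diff G x
  · exact fun x => (czero_diff Q x).pow K
  · exact fun t x => czero_real G t x
  · intro t x
    rw [czero_real Q t x, Complex.ofReal_pow]
  · exact fun t ht x hx => (pow_pos (hQ t ht x hx) K).ne'

private theorem czero_wn (n : ℕ) (Q : P1 n) {τ : ℚ} (hτ0 : 0 ≤ τ) (hτ : τ ≤ 1) :
    wn n Q τ ≤ τ * ∑ m ∈ Q.support with m 0 ≠ 0, |coeff m Q| := by
  unfold wn
  rw [Finset.mul_sum]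
  refine Finset.sum_le_sum fun m hm => ?_
  have hm0 := (Finset.mem_filter.1 hm).2
  rw [abs_of_nonneg hτ0, mul_comm]
  exact mul_le_mul_of_nonneg_right (pow_le_of_le_one hτ0 hτ hm0) (abs_nonneg _)

/-- If the formal expansion vanishes, so do the integrals for all `τ ∈ [0,1]`.

Proof. For `τ = 1 / k`, `k` large, `wn n Q τ ≤ 1 / 2` (it is at most `|τ| ∑ |coeff|`), so `JJ n Q S K τ = ev τ 0 = 0` (`integral_eq_ev`). So `JR n Q S K` vanishes at a sequence of points `> 0` converging to `0`, and it is zero on `[0,1]` by `JR_an` and `segAn_zero`. -/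
theorem JJ_zero_of_Phi {n : ℕ} {Q : P1 n} (h0 : atZero n Q = 1) (hQ : ∀ t ∈ Icc (0 : ℝ) 1, ∀ x ∈ Icc (0 : Fin n → ℝ) 1,
    0 < aeval (Fin.cons t x : Fin (n + 1) → ℝ) Q) {S : P1 n} {K : ℕ} (h : PP.Phi n Q S K = 0) {τ : ℚ}
    (hτ0 : 0 ≤ τ) (hτ1 : τ ≤ 1) : JJ n Q S K τ = 0 := by
  obtain ⟨B, hB⟩ : ∃ B : ℚ, B = ∑ m ∈ Q.support with m 0 ≠ 0, |coeff m Q| := ⟨_, rfl⟩
  have hB0 : 0 ≤ B := by
    rw [hB]
    exact Finset.sum_nonneg fun _ _ => abs_nonneg _
  obtain ⟨k₀, hk₀⟩ := exists_nat_ge (2 * B)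
  have hz : ∀ k : ℕ, k₀ ≤ k → JR n Q S K (1 / ((k : ℝ) + 1)) = 0 := by
    intro k hk
    have hk1 : (0 : ℚ) < (k : ℚ) + 1 := by positivity
    have h1 : (0 : ℚ) ≤ 1 / ((k : ℚ) + 1) := by positivity
    have h2 : 1 / ((k : ℚ) + 1) ≤ 1 := by
      rw [div_le_one hk1]
      linarith [(Nat.cast_nonneg k : (0 : ℚ) ≤ (k : ℚ))]
    have h3 : wn n Q (1 / ((k : ℚ) + 1)) ≤ 1 / 2 := by
      refine (czero_wn n Q h1 h2).trans ?_
      rw [← hB, one_div, inv_mul_le_iff₀ hk1]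
      have h4 : ((k₀ : ℕ) : ℚ) ≤ (k : ℚ) := by exact_mod_cast hk
      linarith
    have h5 : ((1 / ((k : ℚ) + 1) : ℚ) : ℝ) = 1 / ((k : ℝ) + 1) := by
      push_cast
      rfl
    rw [← h5, JR_eq]
    unfold JJ
    rw [integral_eq_ev h0 h3, h]
    unfold ev
    simp
  have hfr : ∃ᶠ t in nhdsWithin (0 : ℝ) (Ioi 0), JR n Q S K t = 0 := by
    have ht : Filter.Tendsto (fun k : ℕ => 1 / ((k : ℝ) + 1)) Filter.atTop (nhdsWithin (0 : ℝ) (Ioi 0)) := by
      refine tendsto_nhdsWithin_iff.2 ⟨tendsto_one_div_add_atTop_nhds_zero_nat, ?_⟩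
      refine Filter.Eventually.of_forall fun k => ?_
      have hk1 : (0 : ℝ) < 1 / ((k : ℝ) + 1) := by positivity
      exact hk1
    refine ht.frequently ?_
    exact (Filter.eventually_atTop.2 ⟨k₀, hz⟩).frequently
  rw [← JR_eq]
  refine segAn_zero (JR_an hQ S K) hfr ((τ : ℚ) : ℝ) ⟨?_, ?_⟩
  · exact_mod_cast hτ0
  · exact_mod_cast hτ1

private theorem czero_foldr (R : ℕ) (F : ℕ → ℕ × ℕ) :
    (List.range R).foldr (fun i acc => (F i).1 + (F i).2 + acc) 0 =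
      ∑ i ∈ Finset.range R, ((F i).1 + (F i).2) := by
  have h : ∀ L : List ℕ, L.foldr (fun i acc => (F i).1 + (F i).2 + acc) 0 =
      (L.map fun i => (F i).1 + (F i).2).sum := by
    intro L
    induction L with
    | nil => rfl
    | cons a L ih => rw [List.foldr_cons, ih, List.map_cons, List.sum_cons]
  rw [h, ← List.sum_toFinset _ (List.nodup_range), List.toFinset_range]

private theorem czero_sC (n : ℕ) (Q G : PCode) (τ : QCode) (j : ℕ) (U : PCode) :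
    pcPoly (n + 1) (sC Q G τ j U) = pcPoly (n + 1) G * pcPoly (n + 1) Q ^ j +
      (X 0 - C (qval τ)) * pcPoly (n + 1) U := by
  rw [sC, pcPoly_append, pcPoly_mul, pcPoly_pow, pcPoly_mul, pcPoly_append, pcPoly_neg, pcPoly_tC,
    pcPoly_constC]
  ring

/-- Soundness of `checkZ`. Proof: as in `checkZ_sound` (PP/CodeB.lean): `Phi_eq_zero` for `S = G * Q ^ j + (X 0 - C τ) * U` and `K + j`, then `JJ_zero_of_Phi` in place of `integral_eq_ev`; at `t = τ` the value of `S` is `G Q ^ j` and `Q ≠ 0`. -/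
theorem checkZ_soundG {n : ℕ} {Q G : PCode} {K : ℕ} {τ : QCode} (h0 : atZero n (pcPoly (n + 1) Q) = 1)
    (hQ : ∀ t ∈ Icc (0 : ℝ) 1, ∀ x ∈ Icc (0 : Fin n → ℝ) 1,
      0 < aeval (Fin.cons t x : Fin (n + 1) → ℝ) (pcPoly (n + 1) Q)) (hτ0 : 0 ≤ qval τ) (hτ1 : qval τ ≤ 1) {x : ZCert}
    (h : checkZ n Q G K τ x) : JJ n (pcPoly (n + 1) Q) (pcPoly (n + 1) G) K (qval τ) = 0 := by
  obtain ⟨⟨⟨⟨κ, K'⟩, ρ, L⟩, j⟩, ⟨⟨z, c⟩, g, E⟩, H, U⟩ := x
  obtain ⟨hle, hz, hex, hin⟩ := h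
  simp only at hle hz hex hin
  have hS := czero_sC n Q G τ j U
  obtain ⟨S, hSd⟩ : ∃ S, S = sC Q G τ j U := ⟨_, rfl⟩
  rw [← hSd] at hS hex hin
  have hcert : IsZeroCert n (pcPoly (n + 1) Q) (pcPoly (n + 1) S) (K + j) κ K' ρ L
      (fun i => ((z.getD i (0, 0)).1 : ℤ) - ((z.getD i (0, 0)).2 : ℤ))
      (fun i => polyOf (c.getD i []))
      (fun l => pcPoly (n + 1) (g.getD l [])) (fun l => pcPoly (n + 1) (E.getD l []))
      (pcPoly (n + 1) H) := by
    refine ⟨hle, ?_, ?_, ?_, ?_⟩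
    · obtain ⟨i, hi, hne⟩ := hz.1
      refine ⟨i, hi, fun h => hne ?_⟩
      exact_mod_cast sub_eq_zero.1 h
    · refine le_trans ?_ hz.2
      rw [czero_foldr (ρ + 1) fun i => z.getD i (0, 0)]
      refine Finset.sum_le_sum fun i _ => ?_
      omega
    · rw [pcIsZero_iff, exactC, pcPoly_append, pcPoly_neg, pcPoly_divfC, pcPoly_mul, pcPoly_pow,
        pcPoly_tC, pcPoly_sumRange, ← sub_eq_add_neg, sub_eq_zero] at hex
      rw [← hex, Finset.sum_range]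
      congr 1
      refine Finset.sum_congr rfl fun i _ => ?_
      rw [pcPoly_mul, pcPoly_mul, pcPoly_append, pcPoly_constC, pcPoly_mul, pcPoly_tC,
        pcPoly_trunc_inT, pcPoly_thetaC, pcPoly_pow]
      have h1 : qval (z.getD i (0, 0), 0) =
          ((((z.getD i (0, 0)).1 : ℤ) - ((z.getD i (0, 0)).2 : ℤ) : ℤ) : ℚ) := by
        unfold qval
        push_cast
        rw [zero_add, div_one]
      rw [h1]
    · rw [pcIsZero_iff, initC, pcPoly_append, pcPoly_neg, pcPoly_append, pcPoly_mul, pcPoly_pow,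
        pcPoly_divEC, pcPoly_mul, pcPoly_pow, pcPoly_tC, ← sub_eq_add_neg, sub_eq_zero] at hin
      exact hin
  have hPhi := Phi_eq_zero h0 hcert
  have hJ : JJ n (pcPoly (n + 1) Q) (pcPoly (n + 1) S) (K + j) (qval τ) = 0 :=
    JJ_zero_of_Phi h0 hQ hPhi hτ0 hτ1
  rw [← hJ]
  unfold JJ
  refine setIntegral_congr_fun measurableSet_Icc fun x hx => ?_
  have hpos : 0 < aeval (pt n (qval τ) x) (pcPoly (n + 1) Q) := by
    refine hQ ((qval τ : ℚ) : ℝ) ⟨?_, ?_⟩ x hx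
    · exact_mod_cast hτ0
    · exact_mod_cast hτ1
  have h4 : pt n (qval τ) x 0 = ((qval τ : ℚ) : ℝ) := rfl
  have h5 : (algebraMap ℚ ℝ) (qval τ) = ((qval τ : ℚ) : ℝ) := rfl
  have h6 : aeval (pt n (qval τ) x) (pcPoly (n + 1) S) =
      aeval (pt n (qval τ) x) (pcPoly (n + 1) G) * aeval (pt n (qval τ) x) (pcPoly (n + 1) Q) ^ j := by
    rw [hS, map_add, map_mul, map_mul, map_pow, map_sub, aeval_C, aeval_X, h4, h5, sub_self,
      zero_mul, add_zero]
  change aeval (pt n (qval τ) x) (pcPoly (n + 1) G) / aeval (pt n (qval τ) x) (pcPoly (n + 1) Q) ^ K =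
    aeval (pt n (qval τ) x) (pcPoly (n + 1) S) / aeval (pt n (qval τ) x) (pcPoly (n + 1) Q) ^ (K + j)
  rw [h6, pow_add, mul_div_mul_right _ _ (pow_pos hpos j).ne']

end Pool.Agent.Lib.MP_bbe012_lc.PG
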