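import Pool.Agent.Lib.MP_bbe012_lc.PG.CRed
import Pool.Agent.Lib.MP_bbe012_lc.PG.CZero
import Pool.Agent.Lib.MP_bbe012_lc.PG.CNz
import Pool.Agent.Lib.MP_bbe012_lc.PG.CPrim
import Pool.Agent.Lib.MP_bbe012_lc.PP.CodeC

/-!
# The algorithm
-/

namespace Pool.Agent.Lib.MP_bbe012_lc.PG

open MvPolynomial MeasureTheory Set PP

private theorem cdec_atZero_X (n : ℕ) : atZero n (X 0) = 0 := by
  rw [atZero, aeval_X]
  rfl

private theorem cdec_div (n : ℕ) (G : P1 n) :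
    ∃ V : P1 n, G = rename Fin.succ (atZero n G) + X 0 * V := by
  have h0 : atZero n (X 0) = 0 := cdec_atZero_X n
  have h1 : ∀ l : Fin n, atZero n (X l.succ) = X l := fun l => by
    rw [atZero, aeval_X]
    rfl
  induction G using MvPolynomial.induction_on with
  | C a =>
    refine ⟨0, ?_⟩
    have h2 : atZero n (C a) = C a := by
      rw [atZero, aeval_C]
      rfl
    rw [h2, rename_C, mul_zero, add_zero]
  | add p q hp hq =>
    obtain ⟨U, hU⟩ := hp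
    obtain ⟨V, hV⟩ := hq
    refine ⟨U + V, ?_⟩
    rw [map_add, map_add]
    linear_combination hU + hV
  | mul_X p i hp =>
    obtain ⟨U, hU⟩ := hp
    refine Fin.cases ?_ (fun l => ?_) i
    · refine ⟨p, ?_⟩
      rw [map_mul, map_mul, h0, map_zero]
      ring
    · refine ⟨U * X l.succ, ?_⟩
      rw [map_mul, map_mul, h1, rename_X]
      linear_combination (X l.succ) * hU

private theorem cdec_one {m : ℕ} : (C ((1 : ℕ) : ℚ) : MvPolynomial (Fin m) ℚ) = 1 := by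
  rw [Nat.cast_one, C_1]

private theorem cdec_cons_mem {n : ℕ} {t : ℝ} (ht : t ∈ Icc (0 : ℝ) 1) {y : Fin n → ℝ}
    (hy : y ∈ Icc (0 : Fin n → ℝ) 1) :
    (Fin.cons t y : Fin (n + 1) → ℝ) ∈ Icc (0 : Fin (n + 1) → ℝ) 1 := by
  constructor
  · intro i
    refine Fin.cases ?_ (fun l => ?_) i
    · exact ht.1
    · exact hy.1 l
  · intro i
    refine Fin.cases ?_ (fun l => ?_) i
    · exact ht.2
    · exact hy.2 l

private theorem cdec_mem_cons {n : ℕ} {x : Fin (n + 1) → ℝ} (hx : x ∈ Icc (0 : Fin (n + 1) → ℝ) 1) :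
    ∃ (t : ℝ) (y : Fin n → ℝ), t ∈ Icc (0 : ℝ) 1 ∧ y ∈ Icc (0 : Fin n → ℝ) 1 ∧
      x = (Fin.cons t y : Fin (n + 1) → ℝ) := by
  refine ⟨x 0, fun l => x l.succ, ⟨hx.1 0, hx.2 0⟩, ⟨fun l => hx.1 l.succ, fun l => hx.2 l.succ⟩, ?_⟩
  funext i
  refine Fin.cases ?_ (fun l => ?_) i
  · rfl
  · rfl

/-- Proof: `pcIsZero_iff`: `Q = 1 + X 0 * V`, so `atZero n Q = 1`; `posC_sound` and `Fin.cons t x ∈ Icc 0 1`. -/
theorem okG_spec {n : ℕ} {Q : PCode} {τ : QCode} {x : PCode × PCert} (h : okG n Q τ x) :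
    0 ≤ qval τ ∧ qval τ ≤ 1 ∧ atZero n (pcPoly (n + 1) Q) = 1 ∧
      ∀ t ∈ Icc (0 : ℝ) 1, ∀ y ∈ Icc (0 : Fin n → ℝ) 1, 0 < aeval (Fin.cons t y : Fin (n + 1) → ℝ) (pcPoly (n + 1) Q) := by
  obtain ⟨⟨h1, h2⟩, h3, h4⟩ := h
  refine ⟨?_, ?_, ?_, ?_⟩
  · rw [qleP_iff, qval_qnat, Nat.cast_zero] at h1
    exact h1
  · rw [qleP_iff, qval_qnat, Nat.cast_one] at h2
    exact h2
  · rw [pcIsZero_iff, pcPoly_append, pcPoly_neg, pcPoly_append, pcPoly_nat, pcPoly_mul,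
      pcPoly_tC, cdec_one] at h3
    have h5 : pcPoly (n + 1) Q = 1 + X 0 * pcPoly (n + 1) x.1 := by
      linear_combination h3
    rw [h5, map_add, map_mul, map_one, cdec_atZero_X, zero_mul, add_zero]
  · intro t ht y hy
    exact posC_sound h4 _ (cdec_cons_mem ht hy)

/-- Proof: the polynomial `V = (Q - 1) / X 0` (see `exists_okBase` in PP/CodeC.lean), `posC_complete`. -/
theorem okG_complete {n : ℕ} {Q : PCode} {τ : QCode} (h0 : 0 ≤ qval τ) (h1 : qval τ ≤ 1)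
    (hQ : atZero n (pcPoly (n + 1) Q) = 1) (hpos : ∀ t ∈ Icc (0 : ℝ) 1, ∀ y ∈ Icc (0 : Fin n → ℝ) 1,
      0 < aeval (Fin.cons t y : Fin (n + 1) → ℝ) (pcPoly (n + 1) Q)) : ∃ x : PCode × PCert, okG n Q τ x := by
  obtain ⟨V, hV⟩ := cdec_div n (pcPoly (n + 1) Q)
  rw [hQ, map_one] at hV
  obtain ⟨v, rfl⟩ := exists_pcPoly V
  have hp : ∀ x ∈ Icc (0 : Fin (n + 1) → ℝ) 1, 0 < aeval x (pcPoly (n + 1) Q) := by
    intro x hx
    obtain ⟨t, y, ht, hy, rfl⟩ := cdec_mem_cons hx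
    exact hpos t ht y hy
  obtain ⟨c, hc⟩ := posC_complete hp
  refine ⟨(v, c), ⟨?_, ?_⟩, ?_, hc⟩
  · rw [qleP_iff, qval_qnat, Nat.cast_zero]
    exact h0
  · rw [qleP_iff, qval_qnat, Nat.cast_one]
    exact h1
  · rw [pcIsZero_iff, pcPoly_append, pcPoly_neg, pcPoly_append, pcPoly_nat, pcPoly_mul,
      pcPoly_tC, cdec_one]
    linear_combination hV

private theorem cdec_aeval_bidx (n δ : ℕ) (i : Fin δ) (t : ℝ) (x : Fin (δ * n) → ℝ) (p : P1 n) :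
    aeval (Fin.cons t x : Fin (δ * n + 1) → ℝ) (rename (bidx n δ i) p) =
      aeval (Fin.cons t (bco n δ i x) : Fin (n + 1) → ℝ) p := by
  rw [aeval_rename]
  refine congrArg (fun z => aeval z p) (funext fun j => ?_)
  refine Fin.cases ?_ (fun l => ?_) j
  · rfl
  · rfl

/-- The product over the blocks. Proof: `pcPoly_QQ`, `atZero_bidx`, `map_prod`; the value at `(t, x)` is the product of the values at `(t, bco n δ i x)` (`aeval_rename`; `aeval_bidx` is the case of rational `t`), `bco_mem`. -/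
theorem QQ_spec {n : ℕ} (δ : ℕ) {Q : PCode} (hQ : atZero n (pcPoly (n + 1) Q) = 1)
    (hpos : ∀ t ∈ Icc (0 : ℝ) 1, ∀ y ∈ Icc (0 : Fin n → ℝ) 1,
      0 < aeval (Fin.cons t y : Fin (n + 1) → ℝ) (pcPoly (n + 1) Q)) :
    atZero (δ * n) (pcPoly (δ * n + 1) (QQ n δ Q)) = 1 ∧
      ∀ t ∈ Icc (0 : ℝ) 1, ∀ y ∈ Icc (0 : Fin (δ * n) → ℝ) 1,
        0 < aeval (Fin.cons t y : Fin (δ * n + 1) → ℝ) (pcPoly (δ * n + 1) (QQ n δ Q)) := by
  rw [pcPoly_QQ]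
  refine ⟨?_, ?_⟩
  · rw [map_prod]
    exact Finset.prod_eq_one fun i _ => atZero_bidx δ i hQ
  · intro t ht y hy
    rw [map_prod]
    refine Finset.prod_pos fun i _ => ?_
    rw [cdec_aeval_bidx]
    exact hpos t ht _ (bco_mem i hy)

private theorem cdec_pt {n : ℕ} {Q : P1 n} {τ : ℚ} (h0 : 0 ≤ τ) (h1 : τ ≤ 1)
    (hpos : ∀ t ∈ Icc (0 : ℝ) 1, ∀ y ∈ Icc (0 : Fin n → ℝ) 1,
      0 < aeval (Fin.cons t y : Fin (n + 1) → ℝ) Q) :
    ∀ x ∈ Icc (0 : Fin n → ℝ) 1, 0 < aeval (pt n τ x) Q := by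
  intro x hx
  refine hpos (τ : ℝ) ⟨?_, ?_⟩ x hx
  · exact_mod_cast h0
  · exact_mod_cast h1

/-- Soundness of the verification. Proof: `okG_spec`, `QQ_spec`, `exVal_eq_JJG`, `checkZ_soundG`, `checkNG_sound`. -/
theorem checkG_sound {E : Ex} {c : GCert} (h : checkG E c) : c.2.2.1 = true ↔ exVal E = 0 := by
  obtain ⟨hrc, hok, h⟩ := h
  obtain ⟨h0, h1, hQ, hpos⟩ := okG_spec hok
  obtain ⟨hQ2, hpos2⟩ := QQ_spec c.1.1.1.2 hQ hpos
  have hJ := exVal_eq_JJG hrc (fun x hx => (cdec_pt h0 h1 hpos x hx).ne')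
  rcases h with ⟨hb, hz⟩ | ⟨hb, hn⟩
  · have hzero : exVal E = 0 := by
      rw [hJ]
      exact checkZ_soundG hQ2 hpos2 h0 h1 hz
    exact ⟨fun _ => hzero, fun _ => hb⟩
  · have hne : exVal E ≠ 0 := by
      rw [hJ]
      exact checkNG_sound h0 h1 (cdec_pt h0 h1 hpos2) hn
    constructor
    · intro hb'
      rw [hb] at hb'
      exact absurd hb' Bool.false_ne_true
    · intro he
      exact absurd he hne

theorem decideG_sound {E : Ex} {b : Bool} (h : b ∈ decideG E) : b = true ↔ exVal E = 0 := by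
  obtain ⟨c, hc, rfl⟩ := mem_decideG h
  exact checkG_sound hc

/-- The algorithm halts. Proof: `okG_complete`; if `exVal E ≠ 0`: `exVal_eq_JJG`, `checkNG_complete` for `toCore E c`; if `exVal E = 0`: `hz` and `checkZ_complete` (PP/CodeC.lean), with `QQ_spec`; `dom_decideG`. -/
theorem decideG_dom {E : Ex} {c : RC} (hrc : rcOK E c) (h0 : 0 ≤ qval c.2.1.2) (h1 : qval c.2.1.2 ≤ 1)
    (hQ : atZero c.1.1.1 (pcPoly (c.1.1.1 + 1) c.2.1.1) = 1)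
    (hpos : ∀ t ∈ Icc (0 : ℝ) 1, ∀ y ∈ Icc (0 : Fin c.1.1.1 → ℝ) 1,
      0 < aeval (Fin.cons t y : Fin (c.1.1.1 + 1) → ℝ) (pcPoly (c.1.1.1 + 1) c.2.1.1))
    (hz : exVal E = 0 → ∃ U : P1 (c.1.1.2 * c.1.1.1),
      PP.Phi (c.1.1.2 * c.1.1.1) (pcPoly (c.1.1.2 * c.1.1.1 + 1) (QQ c.1.1.1 c.1.1.2 c.2.1.1))
        (pcPoly (c.1.1.2 * c.1.1.1 + 1) (GG E c) + (X 0 - C (qval c.2.1.2)) * U) c.1.2 = 0) : (decideG E).Dom := by
  obtain ⟨x, hx⟩ := okG_complete h0 h1 hQ hpos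
  obtain ⟨hQ2, hpos2⟩ := QQ_spec c.1.1.2 hQ hpos
  have hJ := exVal_eq_JJG hrc (fun x hx => (cdec_pt h0 h1 hpos x hx).ne')
  by_cases hE : exVal E = 0
  · obtain ⟨U, hU⟩ := hz hE
    have hU2 : PP.Phi (c.1.1.2 * c.1.1.1) (pcPoly (c.1.1.2 * c.1.1.1 + 1) (QQ c.1.1.1 c.1.1.2 c.2.1.1))
        (pcPoly (c.1.1.2 * c.1.1.1 + 1) (GG E c) *
          pcPoly (c.1.1.2 * c.1.1.1 + 1) (QQ c.1.1.1 c.1.1.2 c.2.1.1) ^ 0 +
            (X 0 - C (qval c.2.1.2)) * U) (c.1.2 + 0) = 0 := by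
      rw [pow_zero, mul_one]
      exact hU
    obtain ⟨z, hzc⟩ := checkZ_complete hQ2 hU2
    refine dom_decideG (c := (c, (x, (true, (z,
      (((true, (((0, 0), 0), [])), ([], (((0, 0), 0), []))) : NG)))))) ?_
    exact ⟨hrc, hx, Or.inl ⟨rfl, hzc⟩⟩
  · have hne : JJ (c.1.1.2 * c.1.1.1) (pcPoly (c.1.1.2 * c.1.1.1 + 1) (QQ c.1.1.1 c.1.1.2 c.2.1.1))
        (pcPoly (c.1.1.2 * c.1.1.1 + 1) (GG E c)) c.1.2 (qval c.2.1.2) ≠ 0 := by
      rw [hJ] at hE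
      exact hE
    obtain ⟨w, hw⟩ := checkNG_complete (cdec_pt h0 h1 hpos2) hne
    refine dom_decideG (c := (c, (x, (false,
      (((((((0, 0), (0, 0)), 0), (([], []), ([], [])), ([], [])) : ZCert), w)))))) ?_
    exact ⟨hrc, hx, Or.inr ⟨rfl, hw⟩⟩

end Pool.Agent.Lib.MP_bbe012_lc.PG
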