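import Mathlib

/-!
# Polynomials which are positive on the cube
-/

namespace Pool.Agent.Lib.MP_bbe012_lc.PG

open MvPolynomial Set

/-- `∏ i, x_i ^ u_i (1 - x_i) ^ v_i`. -/
noncomputable def bern {N : ℕ} (u v : Fin N → ℕ) : MvPolynomial (Fin N) ℚ := ∏ i, (X i ^ u i * (1 - X i) ^ v i)

/-- One variable. Proof: `C(M, j) C(j, a) = C(M, a) C(M - a, j - a)` and the binomial formula for `(x + (1 - x)) ^ (M - a)`. -/
theorem pow_eq_bern {R : Type} [CommRing R] [Algebra ℚ R] (x : R) {a M : ℕ} (h : a ≤ M) :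
    x ^ a = ∑ j : Fin (M + 1), algebraMap ℚ R (((j : ℕ).choose a : ℚ) / (M.choose a : ℚ) * (M.choose j : ℚ)) *
      (x ^ (j : ℕ) * (1 - x) ^ (M - (j : ℕ))) := by
  obtain ⟨n, rfl⟩ := Nat.exists_eq_add_of_le h
  rw [Finset.sum_fin_eq_sum_range]
  have h1 : ∀ j ∈ Finset.range (a + n + 1), (if hj : j < a + n + 1 then
      algebraMap ℚ R ((((⟨j, hj⟩ : Fin (a + n + 1)) : ℕ).choose a : ℚ) / ((a + n).choose a : ℚ) *
        ((a + n).choose ((⟨j, hj⟩ : Fin (a + n + 1)) : ℕ) : ℚ)) *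
      (x ^ (((⟨j, hj⟩ : Fin (a + n + 1)) : ℕ)) * (1 - x) ^ (a + n - ((⟨j, hj⟩ : Fin (a + n + 1)) : ℕ))) else 0) =
      algebraMap ℚ R ((j.choose a : ℚ) / ((a + n).choose a : ℚ) * ((a + n).choose j : ℚ)) *
      (x ^ j * (1 - x) ^ (a + n - j)) := by
    intro j hj
    rw [Finset.mem_range] at hj
    rw [dif_pos hj]
  rw [Finset.sum_congr rfl h1, show a + n + 1 = a + (n + 1) by ring, Finset.sum_range_add]
  have h2 : ∑ j ∈ Finset.range a, algebraMap ℚ R ((j.choose a : ℚ) / ((a + n).choose a : ℚ) *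
      ((a + n).choose j : ℚ)) * (x ^ j * (1 - x) ^ (a + n - j)) = 0 := by
    refine Finset.sum_eq_zero fun j hj => ?_
    rw [Finset.mem_range] at hj
    rw [Nat.choose_eq_zero_of_lt hj]
    simp
  rw [h2, zero_add]
  have h3 : ∀ j ∈ Finset.range (n + 1), algebraMap ℚ R (((a + j).choose a : ℚ) / ((a + n).choose a : ℚ) *
      ((a + n).choose (a + j) : ℚ)) * (x ^ (a + j) * (1 - x) ^ (a + n - (a + j))) =
      x ^ a * (x ^ j * (1 - x) ^ (n - j) * (n.choose j : R)) := by
    intro j hj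
    rw [Finset.mem_range] at hj
    have e1 : (a + n).choose (a + j) * (a + j).choose a = (a + n).choose a * n.choose j := by
      rw [Nat.choose_mul (by omega), Nat.add_sub_cancel_left, Nat.add_sub_cancel_left]
    have e2 : (((a + n).choose a : ℕ) : ℚ) ≠ 0 := by
      have := Nat.choose_pos (n := a + n) (k := a) (by omega)
      positivity
    have e3 : ((a + j).choose a : ℚ) / ((a + n).choose a : ℚ) * ((a + n).choose (a + j) : ℚ) = (n.choose j : ℚ) := by
      rw [div_mul_eq_mul_div, div_eq_iff e2, mul_comm (((a + j).choose a : ℕ) : ℚ)]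
      rw [mul_comm ((n.choose j : ℕ) : ℚ)]
      exact_mod_cast e1
    rw [e3, map_natCast, Nat.add_sub_add_left, pow_add]
    ring
  rw [Finset.sum_congr rfl h3, ← Finset.mul_sum, ← add_pow]
  simp

/-- Proof. `C(j, a) / C(M, a) = ∏ u < a, (j - u) / (M - u)` (as integers; if `j < a` both sides are `0`), every factor is at most `1` in absolute value for `M ≥ 2 a`, and `|(j - u) / (M - u) - j / M| = u (M - j) / (M (M - u)) ≤ a / (M - a)`; so the difference of the products is at most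
`a * a / (M - a)`. -/
theorem choose_ratio (a : ℕ) (ε : ℝ) (hε : 0 < ε) : ∃ M₀ : ℕ, ∀ M : ℕ, M₀ ≤ M → a ≤ M ∧ ∀ j : ℕ, j ≤ M →
    |((j.choose a : ℝ) / (M.choose a : ℝ)) - ((j : ℝ) / M) ^ a| ≤ ε := by
  induction a generalizing ε with
  | zero =>
    refine ⟨0, fun M _ => ⟨Nat.zero_le _, fun j _ => ?_⟩⟩
    simp [hε.le]
  | succ a ih =>
    obtain ⟨M₁, hM₁⟩ := ih (ε / 2) (by positivity)
    obtain ⟨M₂, hM₂⟩ := exists_nat_gt ((a : ℝ) / (ε / 2))
    refine ⟨max M₁ (M₂ + a + 1), fun M hM => ⟨?_, fun j hj => ?_⟩⟩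
    · have := le_trans (le_max_right _ _) hM
      omega
    · have hM1 : M₁ ≤ M := le_trans (le_max_left _ _) hM
      have hM2 : M₂ + a + 1 ≤ M := le_trans (le_max_right _ _) hM
      obtain ⟨haM, h1⟩ := hM₁ M hM1
      have h1 := h1 j hj
      have hMpos : (0 : ℝ) < M := by
        have : 0 < M := by omega
        exact_mod_cast this
      have hMa : (0 : ℝ) < (M : ℝ) - a := by
        have : ((M₂ + a + 1 : ℕ) : ℝ) ≤ M := by exact_mod_cast hM2
        push_cast at this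
        have h0 : (0 : ℝ) ≤ M₂ := Nat.cast_nonneg _
        linarith
      have hj1 : (j : ℝ) / M ≤ 1 := (div_le_one hMpos).2 (by exact_mod_cast hj)
      have hj0 : 0 ≤ (j : ℝ) / M := by positivity
      have hr0 : 0 ≤ (j.choose a : ℝ) / (M.choose a : ℝ) := by positivity
      have hr1 : (j.choose a : ℝ) / (M.choose a : ℝ) ≤ 1 := by
        refine div_le_one_of_le₀ ?_ (by positivity)
        exact_mod_cast Nat.choose_le_choose a hj
      have hc1 : (j.choose (a + 1) : ℝ) * (a + 1) = (j.choose a : ℝ) * ((j - a : ℕ) : ℝ) := by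
        have := Nat.choose_succ_right_eq j a
        exact_mod_cast this
      have hc2 : (M.choose (a + 1) : ℝ) * (a + 1) = (M.choose a : ℝ) * ((M : ℝ) - a) := by
        have := Nat.choose_succ_right_eq M a
        rw [← Nat.cast_sub haM]
        exact_mod_cast this
      have hCM : (0 : ℝ) < (M.choose a : ℝ) := by
        exact_mod_cast Nat.choose_pos haM
      have hCM1 : (0 : ℝ) < (M.choose (a + 1) : ℝ) := by
        have : a + 1 ≤ M := by omega
        exact_mod_cast Nat.choose_pos this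
      have ha1 : (0 : ℝ) < (a : ℝ) + 1 := by positivity
      have hr : (j.choose (a + 1) : ℝ) / (M.choose (a + 1) : ℝ) =
          (j.choose a : ℝ) / (M.choose a : ℝ) * (((j - a : ℕ) : ℝ) / ((M : ℝ) - a)) := by
        rw [div_mul_div_comm, ← hc1, ← hc2]
        rw [mul_div_mul_right _ _ ha1.ne']
      have hfac : |((j - a : ℕ) : ℝ) / ((M : ℝ) - a) - (j : ℝ) / M| ≤ ε / 2 := by
        have hb : (a : ℝ) / ((M : ℝ) - a) ≤ ε / 2 := by
          rw [div_le_iff₀ hMa]
          have h5 : (a : ℝ) / (ε / 2) ≤ (M : ℝ) - a := by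
            have : ((M₂ + a + 1 : ℕ) : ℝ) ≤ M := by exact_mod_cast hM2
            push_cast at this
            linarith
          rw [div_le_iff₀ (by positivity)] at h5
          linarith
        refine le_trans ?_ hb
        rcases le_or_gt a j with haj | haj
        · rw [Nat.cast_sub haj, div_sub_div _ _ hMa.ne' hMpos.ne']
          have hjM : (j : ℝ) ≤ M := by exact_mod_cast hj
          have e : ((j : ℝ) - a) * M - (M - a) * j = - (a * (M - j)) := by ring
          rw [e, abs_div, abs_neg, abs_of_nonneg (mul_nonneg (Nat.cast_nonneg a) (by linarith)),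
            abs_of_pos (mul_pos hMa hMpos), div_le_div_iff₀ (mul_pos hMa hMpos) hMa]
          have h6 : (a : ℝ) * (M - j) ≤ a * M :=
            mul_le_mul_of_nonneg_left (by linarith [Nat.cast_nonneg (α := ℝ) j]) (Nat.cast_nonneg a)
          have h7 := mul_le_mul_of_nonneg_right h6 hMa.le
          linarith [h7]
        · rw [Nat.sub_eq_zero_of_le haj.le]
          simp only [Nat.cast_zero, zero_div, zero_sub, abs_neg]
          rw [abs_of_nonneg hj0]
          have hja : (j : ℝ) ≤ a := by exact_mod_cast haj.le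
          rw [div_le_div_iff₀ hMpos hMa]
          have ha0 : (0 : ℝ) ≤ a := Nat.cast_nonneg a
          nlinarith [mul_le_mul_of_nonneg_right hja hMa.le, mul_nonneg ha0 ha0]
      rw [hr, pow_succ]
      have e : (j.choose a : ℝ) / (M.choose a : ℝ) * (((j - a : ℕ) : ℝ) / ((M : ℝ) - a)) -
          ((j : ℝ) / M) ^ a * ((j : ℝ) / M) =
          (j.choose a : ℝ) / (M.choose a : ℝ) * (((j - a : ℕ) : ℝ) / ((M : ℝ) - a) - (j : ℝ) / M) +
          ((j.choose a : ℝ) / (M.choose a : ℝ) - ((j : ℝ) / M) ^ a) * ((j : ℝ) / M) := by ring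
      rw [e]
      refine (abs_add_le _ _).trans ?_
      rw [abs_mul, abs_mul, abs_of_nonneg hr0, abs_of_nonneg hj0]
      have k1 : (j.choose a : ℝ) / (M.choose a : ℝ) * |((j - a : ℕ) : ℝ) / ((M : ℝ) - a) - (j : ℝ) / M| ≤ 1 * (ε / 2) :=
        mul_le_mul hr1 hfac (abs_nonneg _) zero_le_one
      have k2 : |(j.choose a : ℝ) / (M.choose a : ℝ) - ((j : ℝ) / M) ^ a| * ((j : ℝ) / M) ≤ (ε / 2) * 1 :=
        mul_le_mul h1 hj1 hj0 (by positivity)
      linarith

private theorem CPos_prod_sub {ι : Type*} (s : Finset ι) (f g : ι → ℝ) (hf : ∀ i ∈ s, |f i| ≤ 1)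
    (hg : ∀ i ∈ s, |g i| ≤ 1) : |∏ i ∈ s, f i - ∏ i ∈ s, g i| ≤ ∑ i ∈ s, |f i - g i| := by
  classical
  induction s using Finset.induction_on with
  | empty => simp
  | insert a s ha ih =>
    rw [Finset.prod_insert ha, Finset.prod_insert ha, Finset.sum_insert ha]
    have h1 := ih (fun i hi => hf i (Finset.mem_insert_of_mem hi)) (fun i hi => hg i (Finset.mem_insert_of_mem hi))
    have h2 : |∏ i ∈ s, f i| ≤ 1 := by
      rw [Finset.abs_prod]
      exact Finset.prod_le_one (fun i _ => abs_nonneg _) (fun i hi => hf i (Finset.mem_insert_of_mem hi))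
    have e : f a * ∏ i ∈ s, f i - g a * ∏ i ∈ s, g i =
        (f a - g a) * ∏ i ∈ s, f i + g a * (∏ i ∈ s, f i - ∏ i ∈ s, g i) := by ring
    rw [e]
    refine (abs_add_le _ _).trans ?_
    rw [abs_mul, abs_mul]
    have k1 : |f a - g a| * |∏ i ∈ s, f i| ≤ |f a - g a| * 1 := mul_le_mul_of_nonneg_left h2 (abs_nonneg _)
    have k2 : |g a| * |∏ i ∈ s, f i - ∏ i ∈ s, g i| ≤ 1 * |∏ i ∈ s, f i - ∏ i ∈ s, g i| :=
      mul_le_mul_of_nonneg_right (hg a (Finset.mem_insert_self _ _)) (abs_nonneg _)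
    linarith

/-- The expansion of a polynomial in products of Bernstein polynomials. -/
private theorem CPos_expand {N : ℕ} (p : MvPolynomial (Fin N) ℚ) (M : ℕ) (hM : ∀ m ∈ p.support, ∀ i, m i ≤ M) :
    p = ∑ j : Fin N → Fin (M + 1), C ((∏ i, (M.choose (j i : ℕ) : ℚ)) *
      ∑ m ∈ p.support, p.coeff m * ∏ i, (((j i : ℕ).choose (m i) : ℚ) / (M.choose (m i) : ℚ))) *
        bern (fun i => (j i : ℕ)) (fun i => M - (j i : ℕ)) := by
  have h1 : ∀ m ∈ p.support, monomial m (p.coeff m) = ∑ j : Fin N → Fin (M + 1),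
      C ((∏ i, (M.choose (j i : ℕ) : ℚ)) * (p.coeff m * ∏ i, (((j i : ℕ).choose (m i) : ℚ) / (M.choose (m i) : ℚ)))) *
        bern (fun i => (j i : ℕ)) (fun i => M - (j i : ℕ)) := by
    intro m hm
    have e1 : (∏ i, (X i : MvPolynomial (Fin N) ℚ) ^ m i) = ∑ j : Fin N → Fin (M + 1),
        ∏ i, (C ((((j i : ℕ).choose (m i) : ℚ) / (M.choose (m i) : ℚ)) * (M.choose (j i : ℕ) : ℚ)) *
          (X i ^ (j i : ℕ) * (1 - X i) ^ (M - (j i : ℕ)))) := by
      rw [Finset.prod_congr rfl fun i _ => pow_eq_bern (X i : MvPolynomial (Fin N) ℚ) (hM m hm i)]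
      rw [Finset.prod_univ_sum, Fintype.piFinset_univ]
      rfl
    rw [monomial_eq, Finsupp.prod_fintype _ _ (fun i => pow_zero _), e1, Finset.mul_sum]
    refine Finset.sum_congr rfl fun j _ => ?_
    rw [Finset.prod_mul_distrib, ← map_prod, bern, ← mul_assoc, ← map_mul]
    rw [Finset.prod_mul_distrib]
    congr 2
    ring
  conv_lhs => rw [p.as_sum, Finset.sum_congr rfl h1]
  rw [Finset.sum_comm]
  refine Finset.sum_congr rfl fun j _ => ?_
  rw [← Finset.sum_mul, ← map_sum, Finset.mul_sum]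

/-- A polynomial which is positive on the cube is a positive constant plus a combination with non negative coefficients of products of the `x_i` and the `1 - x_i`.

Proof. By compactness `p ≥ 2 c₀ > 0` on the cube, `c₀` rational (if the cube of dimension `0`: the same). For `p' = p - c₀ ≥ c₀`, `p' = ∑ a ∈ support, p'_a ∏ i, x_i ^ a_i`; for `M` large, by `pow_eq_bern` for each variable and `Finset.prod_univ_sum`,
`p' = ∑ j : Fin N → Fin (M + 1), (∏ i, C(M, j_i)) b_j bern j (M - j)` with `b_j = ∑ a, p'_a ∏ i, C(j_i, a_i) / C(M, a_i)`, and `|b_j - p'(j / M)| ≤ c₀` for `M` large by `choose_ratio` (all factors are in `[-1, 1]`, so the differences of the products are at most the sum of the differences of the factors).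
So `b_j ≥ p'(j / M) - c₀ ≥ 0`. -/
theorem exists_bern {N : ℕ} (p : MvPolynomial (Fin N) ℚ) (hp : ∀ x ∈ Icc (0 : Fin N → ℝ) 1, 0 < aeval x p) :
    ∃ (c₀ : ℚ) (M : ℕ) (c : (Fin N → Fin (M + 1)) → ℚ), 0 < c₀ ∧ (∀ j, 0 ≤ c j) ∧
      p = C c₀ + ∑ j, C (c j) * bern (fun i => (j i : ℕ)) (fun i => M - (j i : ℕ)) := by
  classical
  have hcont : Continuous fun x : Fin N → ℝ => aeval x p := by
    have e : (fun x : Fin N → ℝ => aeval x p) =
        fun x => ∑ m ∈ p.support, algebraMap ℚ ℝ (p.coeff m) * ∏ i, x i ^ m i := by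
      ext x
      rw [aeval_def, eval₂_eq']
    rw [e]
    fun_prop
  obtain ⟨x₀, hx₀, hmin⟩ := (isCompact_Icc (a := (0 : Fin N → ℝ)) (b := 1)).exists_isMinOn
    ⟨0, ⟨le_rfl, zero_le_one⟩⟩ hcont.continuousOn
  have hpos := hp x₀ hx₀
  obtain ⟨c₀, hc0, hc1⟩ := exists_rat_btwn (half_pos hpos)
  have hc0' : 0 < c₀ := by exact_mod_cast hc0
  set q : MvPolynomial (Fin N) ℚ := p - C c₀ with hq
  have hqge : ∀ x ∈ Icc (0 : Fin N → ℝ) 1, (c₀ : ℝ) ≤ aeval x q := by
    intro x hx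
    have h1 : aeval x₀ p ≤ aeval x p := hmin hx
    have h2 : aeval x q = aeval x p - (c₀ : ℝ) := by
      rw [hq, map_sub, aeval_C]
      rfl
    rw [h2]
    linarith
  set B : ℝ := ∑ m ∈ q.support, |((q.coeff m : ℚ) : ℝ)| with hB
  have hB0 : 0 ≤ B := Finset.sum_nonneg fun _ _ => abs_nonneg _
  set ε : ℝ := (c₀ : ℝ) / (B * N + 1) with hε
  have hεpos : 0 < ε := by positivity
  choose F hF using fun a : ℕ => choose_ratio a ε hεpos
  obtain ⟨M, hM⟩ : ∃ M : ℕ, ∀ m ∈ q.support, ∀ i, F (m i) ≤ M := by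
    refine ⟨∑ m ∈ q.support, ∑ i, F (m i), fun m hm i => ?_⟩
    refine le_trans ?_ (Finset.single_le_sum (f := fun m : Fin N →₀ ℕ => ∑ i, F (m i)) (fun _ _ => Nat.zero_le _) hm)
    exact Finset.single_le_sum (f := fun i => F (m i)) (fun _ _ => Nat.zero_le _) (Finset.mem_univ i)
  have hMdeg : ∀ m ∈ q.support, ∀ i, m i ≤ M := fun m hm i => (hF (m i) M (hM m hm i)).1
  refine ⟨c₀, M, fun j => (∏ i, (M.choose (j i : ℕ) : ℚ)) *
      ∑ m ∈ q.support, q.coeff m * ∏ i, (((j i : ℕ).choose (m i) : ℚ) / (M.choose (m i) : ℚ)), hc0', fun j => ?_, ?_⟩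
  · refine mul_nonneg (Finset.prod_nonneg fun i _ => Nat.cast_nonneg _) ?_
    set y : Fin N → ℝ := fun i => ((j i : ℕ) : ℝ) / M with hy
    have hjM : ∀ i, ((j i : ℕ)) ≤ M := fun i => Nat.lt_succ_iff.1 (j i).2
    have hy01 : ∀ i, 0 ≤ y i ∧ y i ≤ 1 := by
      intro i
      refine ⟨by positivity, ?_⟩
      exact div_le_one_of_le₀ (by exact_mod_cast hjM i) (Nat.cast_nonneg _)
    have hymem : y ∈ Icc (0 : Fin N → ℝ) 1 := ⟨fun i => (hy01 i).1, fun i => (hy01 i).2⟩
    have h1 := hqge y hymem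
    have h2 : aeval y q = ∑ m ∈ q.support, ((q.coeff m : ℚ) : ℝ) * ∏ i, y i ^ m i := by
      rw [aeval_def, eval₂_eq']
      rfl
    have h3 : |(∑ m ∈ q.support, ((q.coeff m : ℚ) : ℝ) *
        ∏ i, (((j i : ℕ).choose (m i) : ℝ) / (M.choose (m i) : ℝ))) -
        ∑ m ∈ q.support, ((q.coeff m : ℚ) : ℝ) * ∏ i, y i ^ m i| ≤ c₀ := by
      rw [← Finset.sum_sub_distrib]
      refine (Finset.abs_sum_le_sum_abs _ _).trans ?_
      have h4 : ∀ m ∈ q.support, |((q.coeff m : ℚ) : ℝ) *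
        ∏ i, (((j i : ℕ).choose (m i) : ℝ) / (M.choose (m i) : ℝ)) -
          ((q.coeff m : ℚ) : ℝ) * ∏ i, y i ^ m i| ≤ |((q.coeff m : ℚ) : ℝ)| * (N * ε) := by
        intro m hm
        rw [← mul_sub, abs_mul]
        refine mul_le_mul_of_nonneg_left ?_ (abs_nonneg _)
        refine (CPos_prod_sub Finset.univ _ _ ?_ ?_).trans ?_
        · intro i _
          rw [abs_of_nonneg (by positivity)]
          refine div_le_one_of_le₀ ?_ (by positivity)
          exact_mod_cast Nat.choose_le_choose _ (hjM i)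
        · intro i _
          rw [abs_of_nonneg (pow_nonneg (hy01 i).1 _)]
          exact pow_le_one₀ (hy01 i).1 (hy01 i).2
        · refine (Finset.sum_le_card_nsmul _ _ ε ?_).trans ?_
          · intro i _
            exact (hF (m i) M (hM m hm i)).2 _ (hjM i)
          · simp
      refine (Finset.sum_le_sum h4).trans ?_
      rw [← Finset.sum_mul, ← hB]
      have h5 : B * (N * ε) = (c₀ : ℝ) * ((B * N) / (B * N + 1)) := by
        rw [hε]
        field_simp
      rw [h5]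
      have h6 : (B * N) / (B * N + 1) ≤ 1 := by
        rw [div_le_one (by positivity)]
        linarith
      have hc : (0 : ℝ) ≤ c₀ := hc0.le
      calc (c₀ : ℝ) * ((B * N) / (B * N + 1)) ≤ c₀ * 1 := mul_le_mul_of_nonneg_left h6 hc
        _ = c₀ := mul_one _
    have h7 := (abs_le.1 h3).1
    have h8 : 0 ≤ ∑ m ∈ q.support, ((q.coeff m : ℚ) : ℝ) *
        ∏ i, (((j i : ℕ).choose (m i) : ℝ) / (M.choose (m i) : ℝ)) := by
      rw [h2] at h1
      linarith
    have h9 : ((∑ m ∈ q.support, q.coeff m * ∏ i, (((j i : ℕ).choose (m i) : ℚ) / (M.choose (m i) : ℚ)) : ℚ) : ℝ) =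
        ∑ m ∈ q.support, ((q.coeff m : ℚ) : ℝ) *
        ∏ i, (((j i : ℕ).choose (m i) : ℝ) / (M.choose (m i) : ℝ)) := by
      push_cast
      rfl
    rw [← h9] at h8
    exact_mod_cast h8
  · have h := CPos_expand q M hMdeg
    rw [← h, hq]
    ring

/-- Proof: `0 ≤ x_i ≤ 1`. -/
theorem bern_nonneg {N : ℕ} (u v : Fin N → ℕ) {x : Fin N → ℝ} (hx : x ∈ Icc (0 : Fin N → ℝ) 1) :
    0 ≤ aeval x (bern u v) := by
  rw [bern, map_prod]
  refine Finset.prod_nonneg fun i _ => ?_
  rw [map_mul, map_pow, map_pow, map_sub, map_one, aeval_X]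
  exact mul_nonneg (pow_nonneg (hx.1 i) _) (pow_nonneg (sub_nonneg.2 (hx.2 i)) _)

end Pool.Agent.Lib.MP_bbe012_lc.PG
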