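import Pool.Agent.Lib.MP_bbe012_lc.PP.RedC

/-!
# Soundness of the reduction to one integral, for denominators without zeros
-/

namespace Pool.Agent.Lib.MP_bbe012_lc.PG

open MvPolynomial MeasureTheory Set PP

/-- Soundness of the reduction. The same proof as that of `PP.exVal_eq_JJ`. -/
theorem exVal_eq_JJG {E : Ex} {c : RC} (h : rcOK E c)
    (hQ : ∀ x ∈ Icc (0 : Fin c.1.1.1 → ℝ) 1,
      aeval (pt c.1.1.1 (qval c.2.1.2) x) (pcPoly (c.1.1.1 + 1) c.2.1.1) ≠ 0) :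
    exVal E = JJ (toCore E c).1.1 (pcPoly ((toCore E c).1.1 + 1) (toCore E c).2.1.1)
      (pcPoly ((toCore E c).1.1 + 1) (toCore E c).2.1.2) (toCore E c).1.2 (qval (toCore E c).2.2) := by
  have hfac : ∀ (j : Fin E.length) (i : Fin c.1.1.2), ciVal (item E j i) =
      JJ c.1.1.1 (pcPoly (c.1.1.1 + 1) c.2.1.1) (rename Fin.succ
        (pcPoly c.1.1.1 (pcTrunc (item E j i).1 (item E j i).2.1) *
          pcPoly c.1.1.1 (wit c j i).1)) c.1.2 (qval c.2.1.2) := by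
    intro j i
    obtain ⟨hle, hz⟩ := h.2 j (List.mem_range.2 j.2) i (List.mem_range.2 i.2)
    rw [pcIsZero_iff, pcPoly_append, pcPoly_neg, pcPoly_shift_succ, pcPoly_mul,
      pcPoly_trunc_castLE hle, pcPoly_append, pcPoly_pow, pcPoly_mul, pcPoly_append, pcPoly_neg,
      pcPoly_tC, pcPoly_constC] at hz
    rw [pcPoly_trunc_castLE hle]
    refine ciVal_eq hle (item E j i).2.1 (item E j i).2.2 (pcPoly c.1.1.1 (wit c j i).1)
      (pcPoly (c.1.1.1 + 1) (wit c j i).2) (pcPoly (c.1.1.1 + 1) c.2.1.1) c.1.2 (qval c.2.1.2)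
      hQ ?_
    linear_combination hz
  rw [exVal_eq h.1]
  change _ = JJ (c.1.1.2 * c.1.1.1) (pcPoly (c.1.1.2 * c.1.1.1 + 1) (QQ c.1.1.1 c.1.1.2 c.2.1.1))
    (pcPoly (c.1.1.2 * c.1.1.1 + 1) (GG E c)) c.1.2 (qval c.2.1.2)
  rw [pcPoly_QQ, pcPoly_GG, JJ_blocks _ _ _ _ _ _ hQ]
  exact Finset.sum_congr rfl fun j _ => Finset.prod_congr rfl fun i _ => hfac j i

end Pool.Agent.Lib.MP_bbe012_lc.PG
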