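import Pool.Agent.Lib.MP_bbe012_lc.PG.BDefs

/-!
# The class of sums of products of integrals
-/

namespace Pool.Agent.Lib.MP_bbe012_lc.PG

open MvPolynomial PP

/-- The integral coded by `I = (m, (P, D'))` is one of those considered: `m ≤ n`, the denominator `D'` is the product of the powers
`D_k(θ, x) ^ κ_k`, `κ_k ≤ A`, and the numerator `P` has degree at most `A` and coefficients in `(1 / q) ℤ`, of absolute value at most `T ^ A`. -/
def ItemOK {s n μ : ℕ} (D : Fin μ → Pz s n) (A T q : ℕ) (θ : Fin s → ℚ) (I : CI) : Prop :=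
  ∃ (h : I.1 ≤ n) (κ : Fin μ → ℕ), (∀ k, κ k ≤ A) ∧
    rename (Fin.castLE h) (pcPoly I.1 I.2.2) = ∏ k, spz (D k) θ ^ κ k ∧
    (pcPoly I.1 I.2.1).totalDegree ≤ A ∧
    ∀ b, |coeff b (pcPoly I.1 I.2.1)| ≤ (T : ℚ) ^ A ∧ ∃ z : ℤ, (q : ℚ) * coeff b (pcPoly I.1 I.2.1) = z

/-- `E` is a sum of at most `T ^ A` products of at most `A` integrals as in `ItemOK`, with a common `q ≤ T ^ A`. -/
def InClassG {s n μ : ℕ} (D : Fin μ → Pz s n) (A T : ℕ) (θ : Fin s → ℚ) (E : Ex) : Prop :=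
  E.length ≤ T ^ A ∧ (∀ L ∈ E, L.length ≤ A) ∧
    ∃ q : ℕ, 1 ≤ q ∧ q ≤ T ^ A ∧ ∀ L ∈ E, ∀ I ∈ L, ItemOK D A T q θ I

/-- The rational points of `S` all of whose coordinates have height at most `T`. -/
def PtsT {s : ℕ} (S : Set (Fin s → ℝ)) (T : ℕ) : Set (Fin s → ℚ) :=
  {θ | (∀ i, HLE T (θ i)) ∧ cst θ ∈ S}

end Pool.Agent.Lib.MP_bbe012_lc.PG
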