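import Pool.Agent.Lib.MP_bbe012_lc.PG.A2

/-!
# Heights of the values of polynomials, and counting points
-/

namespace Pool.Agent.Lib.MP_bbe012_lc.PG

open MvPolynomial Set

private theorem dht_div {T : ℕ} (z : ℤ) (b : ℕ) (hb : 0 < b) (hz : z.natAbs ≤ T) (hbT : b ≤ T) :
    HLE T ((z : ℚ) / (b : ℚ)) := by
  have e : (z : ℚ) / (b : ℚ) = Rat.divInt z (b : ℤ) := by
    rw [Rat.divInt_eq_div]
    push_cast
    rfl
  rw [e]
  have hb' : (b : ℤ) ≠ 0 := by exact_mod_cast hb.ne'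
  constructor
  · rcases eq_or_ne z 0 with rfl | h0
    · rw [Rat.zero_divInt]
      simp
    · have h1 := Int.natAbs_dvd_natAbs.2 (Rat.num_dvd z hb')
      exact (Nat.le_of_dvd (Int.natAbs_pos.2 h0) h1).trans hz
  · have h1 := Rat.den_dvd z (b : ℤ)
    have h2 : (Rat.divInt z (b : ℤ)).den ∣ b := by exact_mod_cast h1
    exact (Nat.le_of_dvd hb h2).trans hbT

private theorem dht_abs {T : ℕ} {a : ℚ} (h : HLE T a) : |a| ≤ (T : ℚ) := by
  have h1 : |a| = |(a.num : ℚ)| / (a.den : ℚ) := by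
    conv_lhs => rw [← Rat.num_div_den a]
    rw [abs_div, Nat.abs_cast]
  have h2 : (0 : ℚ) < a.den := by exact_mod_cast a.den_pos
  have h3 : (1 : ℚ) ≤ a.den := by exact_mod_cast a.den_pos
  have h4 : |(a.num : ℚ)| ≤ T := by
    rw [← Int.cast_abs]
    have h5 : |a.num| ≤ (T : ℤ) := by
      rw [Int.abs_eq_natAbs]
      exact_mod_cast h.1
    exact_mod_cast h5
  rw [h1, div_le_iff₀ h2]
  exact h4.trans (le_mul_of_one_le_right ((abs_nonneg _).trans h4) h3)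

private theorem dht_one {s : ℕ} (q : MvPolynomial (Fin s) ℚ) : ∃ B : ℕ, ∀ T : ℕ, 2 ≤ T →
    ∀ θ : Fin s → ℚ, (∀ i, HLE T (θ i)) → ∃ N : ℕ, 1 ≤ N ∧ N ≤ T ^ B ∧
      |aeval θ q| ≤ (T : ℚ) ^ B ∧ ∃ z : ℤ, (N : ℚ) * aeval θ q = z := by
  induction q using MvPolynomial.induction_on with
  | C a =>
    refine ⟨a.den + a.num.natAbs, fun T hT θ _ => ⟨a.den, a.den_pos, ?_, ?_, a.num, ?_⟩⟩
    · have h1 : a.den < 2 ^ a.den := Nat.lt_two_pow_self
      have h2 : 2 ^ a.den ≤ T ^ a.den := Nat.pow_le_pow_left hT _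
      have h3 : T ^ a.den ≤ T ^ (a.den + a.num.natAbs) :=
        Nat.pow_le_pow_right (by omega) (by omega)
      omega
    · rw [aeval_C, eq_ratCast, Rat.cast_id]
      have h0 : HLE (a.den + a.num.natAbs) a := ⟨by omega, by omega⟩
      refine (dht_abs h0).trans ?_
      have h1 : a.den + a.num.natAbs < 2 ^ (a.den + a.num.natAbs) := Nat.lt_two_pow_self
      have h2 : 2 ^ (a.den + a.num.natAbs) ≤ T ^ (a.den + a.num.natAbs) := Nat.pow_le_pow_left hT _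
      exact_mod_cast (h1.le.trans h2)
    · rw [aeval_C, eq_ratCast, Rat.cast_id, mul_comm]
      exact Rat.mul_den_eq_num a
  | add p q hp hq =>
    obtain ⟨B1, h1⟩ := hp
    obtain ⟨B2, h2⟩ := hq
    refine ⟨B1 + B2 + 1, fun T hT θ hθ => ?_⟩
    obtain ⟨N1, a1, a2, a3, z1, a4⟩ := h1 T hT θ hθ
    obtain ⟨N2, b1, b2, b3, z2, b4⟩ := h2 T hT θ hθ
    have hT0 : (1 : ℚ) ≤ T := by exact_mod_cast (by omega : 1 ≤ T)
    have hT2 : (2 : ℚ) ≤ T := by exact_mod_cast hT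
    refine ⟨N1 * N2, Nat.mul_pos a1 b1, ?_, ?_, z1 * N2 + N1 * z2, ?_⟩
    · calc N1 * N2 ≤ T ^ B1 * T ^ B2 := Nat.mul_le_mul a2 b2
        _ = T ^ (B1 + B2) := (pow_add _ _ _).symm
        _ ≤ T ^ (B1 + B2 + 1) := Nat.pow_le_pow_right (by omega) (by omega)
    · rw [map_add]
      have c1 : (T : ℚ) ^ B1 ≤ (T : ℚ) ^ (B1 + B2) := pow_le_pow_right₀ hT0 (by omega)
      have c2 : (T : ℚ) ^ B2 ≤ (T : ℚ) ^ (B1 + B2) := pow_le_pow_right₀ hT0 (by omega)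
      have c3 : (0 : ℚ) ≤ (T : ℚ) ^ (B1 + B2) := by positivity
      calc |aeval θ p + aeval θ q| ≤ |aeval θ p| + |aeval θ q| := abs_add_le _ _
        _ ≤ (T : ℚ) ^ (B1 + B2) + (T : ℚ) ^ (B1 + B2) := add_le_add (a3.trans c1) (b3.trans c2)
        _ = (T : ℚ) ^ (B1 + B2) * 2 := by ring
        _ ≤ (T : ℚ) ^ (B1 + B2) * T := mul_le_mul_of_nonneg_left hT2 c3
        _ = (T : ℚ) ^ (B1 + B2 + 1) := (pow_succ _ _).symm
    · rw [map_add]
      push_cast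
      rw [← a4, ← b4]
      ring
  | mul_X p i hp =>
    obtain ⟨B1, h1⟩ := hp
    refine ⟨B1 + 1, fun T hT θ hθ => ?_⟩
    obtain ⟨N1, a1, a2, a3, z1, a4⟩ := h1 T hT θ hθ
    refine ⟨N1 * (θ i).den, Nat.mul_pos a1 (θ i).den_pos, ?_, ?_, z1 * (θ i).num, ?_⟩
    · rw [pow_succ]
      exact Nat.mul_le_mul a2 (hθ i).2
    · rw [map_mul, aeval_X, abs_mul, pow_succ]
      exact mul_le_mul a3 (dht_abs (hθ i)) (abs_nonneg _) (by positivity)
    · rw [map_mul, aeval_X]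
      push_cast
      rw [← a4, ← Rat.mul_den_eq_num (θ i)]
      ring

/-- Values of finitely many polynomials at points of height at most `T`. -/
theorem poly_heights {s : ℕ} {P : Type} [Finite P] (r : P → MvPolynomial (Fin s) ℚ) : ∃ B : ℕ, ∀ T : ℕ, 2 ≤ T →
    ∀ θ : Fin s → ℚ, (∀ i, HLE T (θ i)) → ∃ N : ℕ, 1 ≤ N ∧ N ≤ T ^ B ∧
      ∀ p, |aeval θ (r p)| ≤ (T : ℚ) ^ B ∧ ∃ z : ℤ, (N : ℚ) * aeval θ (r p) = z := by
  classical
  have : Fintype P := Fintype.ofFinite P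
  choose B hB using fun p => dht_one (r p)
  refine ⟨∑ p, B p, fun T hT θ hθ => ?_⟩
  choose N h1 h2 h3 z h4 using fun p => hB p T hT θ hθ
  refine ⟨∏ p, N p, Nat.one_le_iff_ne_zero.2 (Finset.prod_ne_zero_iff.2 fun p _ => by
    have := h1 p
    omega), ?_, fun p => ⟨?_, ?_⟩⟩
  · rw [← Finset.prod_pow_eq_pow_sum]
    exact Finset.prod_le_prod' fun p _ => h2 p
  · refine (h3 p).trans (pow_le_pow_right₀ (by exact_mod_cast (by omega : 1 ≤ T)) ?_)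
    exact Finset.single_le_sum (f := B) (fun _ _ => Nat.zero_le _) (Finset.mem_univ p)
  · refine ⟨(∏ q ∈ Finset.univ.erase p, (N q : ℤ)) * z p, ?_⟩
    push_cast
    rw [← h4 p, ← Finset.mul_prod_erase Finset.univ (fun q => (N q : ℚ)) (Finset.mem_univ p)]
    ring

/-- Few zeros. -/
theorem few_zeros {s : ℕ} (hs : 0 < s) {q : MvPolynomial (Fin s) ℚ} (hq : q ≠ 0) : ∃ C : ℝ, 0 < C ∧ ∀ T : ℕ, 1 ≤ T →
    ({θ : Fin s → ℚ | (∀ i, HLE T (θ i)) ∧ aeval θ q = 0}.ncard : ℝ) ≤ C * (T : ℝ) ^ (2 * (s : ℝ) - 2) := by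
  classical
  obtain ⟨r, rfl⟩ : ∃ r, s = r + 1 := ⟨s - 1, by omega⟩
  refine ⟨(q.totalDegree + 1) * 3 ^ r, by positivity, fun T hT => ?_⟩
  let X : Finset ℚ := (finite_HLE T).toFinset
  have hX : ∀ a, a ∈ X ↔ HLE T a := fun a => (finite_HLE T).mem_toFinset
  have hX0 : 0 < X.card := by
    refine Finset.card_pos.2 ⟨0, (hX 0).2 ⟨by simp, ?_⟩⟩
    rw [Rat.den_zero]
    exact hT
  have hX1 : X.card ≤ 3 * T ^ 2 := by
    have h1 := ncard_HLE_le hT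
    rw [Set.ncard_eq_toFinset_card _ (finite_HLE T)] at h1
    exact h1
  have hset : {θ : Fin (r + 1) → ℚ | (∀ i, HLE T (θ i)) ∧ aeval θ q = 0} =
      (((Fintype.piFinset fun _ : Fin (r + 1) => X).filter fun f => eval f q = 0 :
        Finset (Fin (r + 1) → ℚ)) : Set (Fin (r + 1) → ℚ)) := by
    ext θ
    rw [Finset.mem_coe, Finset.mem_filter, Fintype.mem_piFinset]
    have h1 : aeval θ q = eval θ q := rfl
    constructor
    · rintro ⟨h2, h3⟩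
      exact ⟨fun i => (hX _).2 (h2 i), h1 ▸ h3⟩
    · rintro ⟨h2, h3⟩
      exact ⟨fun i => (hX _).1 (h2 i), h1.trans h3⟩
  rw [hset, Set.ncard_coe_finset]
  have hsz := schwartz_zippel_totalDegree hq X
  set F := ((Fintype.piFinset fun _ : Fin (r + 1) => X).filter fun f => eval f q = 0) with hF
  have h1 : (F.card : ℝ) * X.card ≤ q.totalDegree * (X.card : ℝ) ^ (r + 1) := by
    have h2 : ((F.card : NNRat) : ℝ) / ((X.card : NNRat) ^ (r + 1) : NNRat) ≤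
        ((q.totalDegree / X.card : NNRat) : ℝ) := by
      exact_mod_cast hsz
    have hX0' : (0 : ℝ) < X.card := by exact_mod_cast hX0
    push_cast at h2
    rw [div_le_div_iff₀ (by positivity) hX0'] at h2
    exact h2
  have hX0' : (0 : ℝ) < X.card := by exact_mod_cast hX0
  have h2 : (F.card : ℝ) ≤ q.totalDegree * (X.card : ℝ) ^ r := by
    rw [pow_succ, ← mul_assoc] at h1
    exact le_of_mul_le_mul_right h1 hX0'
  have h3 : (X.card : ℝ) ^ r ≤ (3 * (T : ℝ) ^ 2) ^ r :=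
    pow_le_pow_left₀ hX0'.le (by exact_mod_cast hX1) r
  have hexp : (T : ℝ) ^ (2 * ((r + 1 : ℕ) : ℝ) - 2) = ((T : ℝ) ^ 2) ^ r := by
    rw [← pow_mul, ← Real.rpow_natCast]
    congr 1
    push_cast
    ring
  rw [hexp]
  calc (F.card : ℝ) ≤ q.totalDegree * (X.card : ℝ) ^ r := h2
    _ ≤ q.totalDegree * (3 * (T : ℝ) ^ 2) ^ r := mul_le_mul_of_nonneg_left h3 (Nat.cast_nonneg _)
    _ = q.totalDegree * 3 ^ r * ((T : ℝ) ^ 2) ^ r := by rw [mul_pow]; ring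
    _ ≤ (q.totalDegree + 1) * 3 ^ r * ((T : ℝ) ^ 2) ^ r := by
        refine mul_le_mul_of_nonneg_right (mul_le_mul_of_nonneg_right ?_ (by positivity))
          (by positivity)
        linarith

/-- Many rational numbers of bounded height near a rational number. -/
theorem many_HLE' (a₀ : ℚ) (δ : ℝ) (hδ : 0 < δ) : ∃ (c : ℝ) (T₀ : ℕ), 0 < c ∧ ∀ T : ℕ, T₀ ≤ T →
    c * (T : ℝ) ^ 2 ≤ ({a : ℚ | HLE T a ∧ |(a : ℝ) - a₀| ≤ δ}.ncard : ℝ) := by
  obtain ⟨c, hc, hcT⟩ := many_HLE 0 ⟨by simp, by simp⟩ δ hδ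
  let c₀ : ℕ := a₀.num.natAbs + a₀.den
  have hc₀ : 1 ≤ c₀ := by
    have := a₀.den_pos
    omega
  have hc₀' : (0 : ℝ) < c₀ := by exact_mod_cast hc₀
  refine ⟨c / (2 * c₀) ^ 2, c₀, by positivity, fun T hT => ?_⟩
  have hT' : 1 ≤ T / c₀ := (Nat.le_div_iff_mul_le (by omega)).2 (by omega)
  have h1 : (T : ℝ) / (2 * c₀) ≤ ((T / c₀ : ℕ) : ℝ) := by
    have h2 : T < c₀ * (T / c₀ + 1) := Nat.lt_mul_div_succ T (by omega)
    have h3 : (T : ℝ) < c₀ * (((T / c₀ : ℕ) : ℝ) + 1) := by exact_mod_cast h2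
    have h4 : (1 : ℝ) ≤ ((T / c₀ : ℕ) : ℝ) := by exact_mod_cast hT'
    rw [div_le_iff₀ (by positivity)]
    nlinarith
  have hsub : (fun x : ℚ => a₀ + x) '' {a : ℚ | HLE (T / c₀) a ∧ |(a : ℝ) - (0 : ℚ)| ≤ δ} ⊆
      {a : ℚ | HLE T a ∧ |(a : ℝ) - a₀| ≤ δ} := by
    rintro _ ⟨x, ⟨hx1, hx2⟩, rfl⟩
    refine ⟨?_, ?_⟩
    · have e1 : a₀ + x = ((a₀.num * x.den + a₀.den * x.num : ℤ) : ℚ) / ((a₀.den * x.den : ℕ) : ℚ) := by
        have d1 : (a₀.den : ℚ) ≠ 0 := by exact_mod_cast a₀.den_pos.ne'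
        have d2 : (x.den : ℚ) ≠ 0 := by exact_mod_cast x.den_pos.ne'
        push_cast
        rw [eq_div_iff (mul_ne_zero d1 d2), ← Rat.mul_den_eq_num a₀, ← Rat.mul_den_eq_num x]
        ring
      have hm : c₀ * (T / c₀) ≤ T := Nat.mul_div_le T c₀
      change HLE T (a₀ + x)
      rw [e1]
      refine dht_div _ _ (Nat.mul_pos a₀.den_pos x.den_pos) ?_ ?_
      · refine le_trans ?_ hm
        refine (Int.natAbs_add_le _ _).trans ?_
        rw [Int.natAbs_mul, Int.natAbs_mul, Int.natAbs_natCast, Int.natAbs_natCast]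
        calc a₀.num.natAbs * x.den + a₀.den * x.num.natAbs
            ≤ a₀.num.natAbs * (T / c₀) + a₀.den * (T / c₀) :=
              Nat.add_le_add (Nat.mul_le_mul_left _ hx1.2) (Nat.mul_le_mul_left _ hx1.1)
          _ = c₀ * (T / c₀) := (Nat.add_mul _ _ _).symm
      · refine le_trans ?_ hm
        exact Nat.mul_le_mul (Nat.le_add_left _ _) hx1.2
    · have e2 : (((a₀ + x : ℚ) : ℝ) - (a₀ : ℝ)) = (x : ℝ) - ((0 : ℚ) : ℝ) := by
        push_cast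
        ring
      change |(((a₀ + x : ℚ) : ℝ) - (a₀ : ℝ))| ≤ δ
      rw [e2]
      exact hx2
  have hfin : {a : ℚ | HLE T a ∧ |(a : ℝ) - a₀| ≤ δ}.Finite :=
    (finite_HLE T).subset fun a ha => ha.1
  have h2 := Set.ncard_le_ncard hsub hfin
  rw [Set.ncard_image_of_injective _ (add_right_injective a₀)] at h2
  calc c / (2 * c₀) ^ 2 * (T : ℝ) ^ 2 = c * ((T : ℝ) / (2 * c₀)) ^ 2 := by
        rw [div_pow]
        ring
    _ ≤ c * ((T / c₀ : ℕ) : ℝ) ^ 2 :=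
        mul_le_mul_of_nonneg_left (pow_le_pow_left₀ (by positivity) h1 2) hc.le
    _ ≤ ({a : ℚ | HLE (T / c₀) a ∧ |(a : ℝ) - (0 : ℚ)| ≤ δ}.ncard : ℝ) := hcT _ hT'
    _ ≤ _ := by exact_mod_cast h2

/-- Many rational points in a set with non empty interior. -/
theorem many_pts {s : ℕ} {S : Set (Fin s → ℝ)} (hS : (interior S).Nonempty) : ∃ (c : ℝ) (T₀ : ℕ), 0 < c ∧
    ∀ T : ℕ, T₀ ≤ T → c * (T : ℝ) ^ (2 * (s : ℝ)) ≤
      ({θ : Fin s → ℚ | (∀ i, HLE T (θ i)) ∧ (fun i => (θ i : ℝ)) ∈ S}.ncard : ℝ) := by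
  classical
  obtain ⟨θ₀, hθ₀⟩ := hS
  obtain ⟨ε, hε, hball⟩ := Metric.isOpen_iff.1 isOpen_interior θ₀ hθ₀
  have hrat : ∀ i, ∃ a : ℚ, |(a : ℝ) - θ₀ i| < ε / 2 := by
    intro i
    obtain ⟨a, ha⟩ := exists_rat_near (θ₀ i) (half_pos hε)
    exact ⟨a, by rwa [abs_sub_comm]⟩
  choose a ha using hrat
  choose c T₀ hc hcT using fun i => many_HLE' (a i) (ε / 4) (by positivity)
  refine ⟨∏ i, c i, Finset.univ.sup T₀, Finset.prod_pos fun i _ => hc i, fun T hT => ?_⟩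
  have hTi : ∀ i, T₀ i ≤ T := fun i => (Finset.le_sup (Finset.mem_univ i)).trans hT
  have hfin : ∀ i, {x : ℚ | HLE T x ∧ |(x : ℝ) - a i| ≤ ε / 4}.Finite := fun i =>
    (finite_HLE T).subset fun x hx => hx.1
  let Y : Fin s → Finset ℚ := fun i => (hfin i).toFinset
  have hY : ∀ i x, x ∈ Y i ↔ HLE T x ∧ |(x : ℝ) - a i| ≤ ε / 4 := fun i x =>
    (hfin i).mem_toFinset
  have hsub : ((Fintype.piFinset Y : Finset (Fin s → ℚ)) : Set (Fin s → ℚ)) ⊆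
      {θ : Fin s → ℚ | (∀ i, HLE T (θ i)) ∧ (fun i => (θ i : ℝ)) ∈ S} := by
    intro θ hθ
    rw [Finset.mem_coe, Fintype.mem_piFinset] at hθ
    refine ⟨fun i => ((hY i _).1 (hθ i)).1, interior_subset (hball ?_)⟩
    rw [Metric.mem_ball, dist_pi_lt_iff hε]
    intro i
    rw [Real.dist_eq]
    have h1 := ((hY i _).1 (hθ i)).2
    have h2 := ha i
    have h3 : |(θ i : ℝ) - θ₀ i| ≤ |(θ i : ℝ) - a i| + |(a i : ℝ) - θ₀ i| := abs_sub_le _ _ _
    linarith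
  have hfin2 : {θ : Fin s → ℚ | (∀ i, HLE T (θ i)) ∧ (fun i => (θ i : ℝ)) ∈ S}.Finite := by
    refine (Finset.finite_toSet (Fintype.piFinset fun _ : Fin s => (finite_HLE T).toFinset)).subset
      fun θ hθ => ?_
    rw [Finset.mem_coe, Fintype.mem_piFinset]
    exact fun i => (finite_HLE T).mem_toFinset.2 (hθ.1 i)
  have h1 := Set.ncard_le_ncard hsub hfin2
  rw [Set.ncard_coe_finset, Fintype.card_piFinset] at h1
  have h2 : ∏ i, (c i * (T : ℝ) ^ 2) ≤ ((∏ i, (Y i).card : ℕ) : ℝ) := by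
    rw [Nat.cast_prod]
    refine Finset.prod_le_prod (fun i _ => by have := hc i; positivity) fun i _ => ?_
    have h3 := hcT i T (hTi i)
    rw [Set.ncard_eq_toFinset_card _ (hfin i)] at h3
    exact h3
  have h3 : ∏ i, (c i * (T : ℝ) ^ 2) = (∏ i, c i) * (T : ℝ) ^ (2 * (s : ℝ)) := by
    rw [Finset.prod_mul_distrib, Finset.prod_const, Finset.card_univ, Fintype.card_fin, ← pow_mul,
      ← Real.rpow_natCast]
    push_cast
    rfl
  rw [← h3]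
  exact h2.trans (by exact_mod_cast h1)

end Pool.Agent.Lib.MP_bbe012_lc.PG
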