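import Pool.Agent.Lib.MP_bbe012_lc.PG.DRed
import Pool.Agent.Lib.MP_bbe012_lc.PG.DHt
import Pool.Agent.Lib.MP_bbe012_lc.PG.CDec

/-!
# The algorithm halts outside of the exceptional set
-/

namespace Pool.Agent.Lib.MP_bbe012_lc.PG

open MvPolynomial MeasureTheory Set PP

private theorem DHalt_inT_C (m : ℕ) (a : ℚ) : inT m (Polynomial.C a) = C a := by
  change Polynomial.aeval (X 0 : P1 m) (Polynomial.C a) = C a
  rw [Polynomial.aeval_C]
  rfl

private theorem DHalt_aeval {s : ℕ} (θ : Fin s → ℚ) (p : MvPolynomial (Fin s) ℚ) :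
    aeval (cst θ) p = ((aeval θ p : ℚ) : ℝ) := by
  have h := MvPolynomial.aeval_algebraMap_apply (R := ℚ) (A := ℚ) ℝ θ p
  exact h

private theorem DHalt_bound {T a : ℕ} {N : ℕ} {x : ℚ} {z : ℤ} {b : ℕ} (hN : N ≤ T ^ a)
    (hx : |x| ≤ (T : ℚ) ^ b) (hz : (N : ℚ) * x = z) : |(z : ℚ)| ≤ (T : ℚ) ^ a * (T : ℚ) ^ b := by
  rw [← hz, abs_mul, Nat.abs_cast]
  have h1 : (N : ℚ) ≤ (T : ℚ) ^ a := by exact_mod_cast hN
  exact mul_le_mul h1 hx (abs_nonneg _) (pow_nonneg (Nat.cast_nonneg _) _)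

/-- The value is a combination of the functions of the patterns. Proof: `exVal_eq_JJG` (positivity: `Qt_pos` at `t = 1`), `pcPoly_QQ` (so the denominator is `QB A D e θ`), `hG`, `JJ_sum` (with constants, `inT (C a) = C a`; `QB_pos`), `JJ_G1`. -/
theorem exVal_eq_sum {s n μ A : ℕ} {D : Fin μ → Pz s n} {e θ : Fin s → ℚ} (hθ : cst θ ∈ Reg D (cst e)) {E : Ex}
    {Q : PCode} {W : List (List (PCode × PCode))} {nn : Pat n μ A → ℚ} (hQ : pcPoly (n + 1) Q = Qt D e θ)
    (hrc : rcOK E (((n, A), A), ((Q, qnat 1), W)))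
    (hG : pcPoly (A * n + 1) (GG E (((n, A), A), ((Q, qnat 1), W))) = ∑ p, C (nn p) * G1 A D θ p) :
    exVal E = ∑ p, (nn p : ℝ) * VV D A p (cst θ) := by
  have hq1 : qval (qnat 1) = 1 := by rw [qval_qnat, Nat.cast_one]
  have hQ' : ∀ x ∈ Icc (0 : Fin n → ℝ) 1,
      aeval (pt n (qval (qnat 1)) x) (pcPoly (n + 1) Q) ≠ 0 := by
    intro x hx
    rw [hQ, hq1]
    have h := Qt_pos hθ (t := 1) ⟨zero_le_one, le_rfl⟩ hx
    unfold pt
    rw [Rat.cast_one]
    exact h.ne'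
  have h1 := exVal_eq_JJG hrc hQ'
  change exVal E = JJ (A * n) (pcPoly (A * n + 1) (QQ n A Q))
    (pcPoly (A * n + 1) (GG E (((n, A), A), ((Q, qnat 1), W)))) A (qval (qnat 1)) at h1
  have hQB : pcPoly (A * n + 1) (QQ n A Q) = QB A D e θ := by
    rw [pcPoly_QQ, hQ]
    rfl
  rw [h1, hQB, hG, hq1]
  have h2 : (∑ p, C (nn p) * G1 A D θ p : P1 (A * n)) =
      ∑ p, inT (A * n) (Polynomial.C (nn p)) * G1 A D θ p := by
    refine Finset.sum_congr rfl fun p _ => ?_
    rw [DHalt_inT_C]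
  rw [h2, JJ_sum (fun x hx => (QB_pos A hθ zero_le_one le_rfl hx).ne')]
  refine Finset.sum_congr rfl fun p _ => ?_
  rw [JJ_G1 A hθ p, Polynomial.eval_C]

/-- The algorithm halts if there is no exceptional relation between the `VV D A (π i)` at `θ`.

Proof. Let `B` be from `poly_heights` for the family `r p i` (`(p, i) ∈ Pat × Fin ρ`) and `A' = B + A * A + card (Pat n μ A) + (A + A * A) + B`. Let `T ≥ 2`, `θ`, `E` be as in the statement; `exists_red` gives `Q, W, nn, N`, and `poly_heights` gives `N'`. Apply `decideG_dom` to `(((n, A), A), ((Q, qnat 1), W))`: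
`atZero_Qt`, `Qt_pos`. Suppose `exVal E = 0`. By `exVal_eq_sum` and `hrel` (`θ` itself: `cst θ ∈ Reg`), `0 = q(θ) ∑ p, nn p VV p = ∑ i, (∑ p, nn p r p i (θ)) VV (π i)`. The numbers `c' i = N N' ∑ p, nn p r p i (θ)` are integers, of absolute value at most
`T ^ (A * A) T ^ B card(Pat) T ^ (A + A * A) T ^ B ≤ T ^ A'` (`card ≤ 2 ^ card ≤ T ^ card`). By `hex` all `c' i = 0`, so `∑ p, nn p r p i (θ) = 0` for all `i`, and `exists_phi` gives `U` (for `qval (qnat 1) = 1`; `pcPoly_QQ`). (`aeval (cst θ) q` is the real number given by `aeval θ q`.) -/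
theorem exists_halt {s n μ A ρ : ℕ} {D : Fin μ → Pz s n} {e : Fin s → ℚ} (hD : ∀ k, spz (D k) e = 1)
    {π : Fin ρ → Pat n μ A} {q : MvPolynomial (Fin s) ℚ} {r : Pat n μ A → Fin ρ → MvPolynomial (Fin s) ℚ}
    (hrel : ∀ p, ∀ θ ∈ Reg D (cst e), aeval θ q * VV D A p θ = ∑ i, aeval θ (r p i) * VV D A (π i) θ) :
    ∃ A' : ℕ, ∀ T : ℕ, 2 ≤ T → ∀ θ : Fin s → ℚ, (∀ i, HLE T (θ i)) → cst θ ∈ Reg D (cst e) → aeval θ q ≠ 0 →
      (∀ c : Fin ρ → ℤ, (∀ i, |c i| ≤ (T : ℤ) ^ A') → ∑ i, (c i : ℝ) * VV D A (π i) (cst θ) = 0 → c = 0) →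
      ∀ E : Ex, InClassG D A T θ E → (decideG E).Dom := by
  classical
  obtain ⟨B, hB⟩ := poly_heights (fun x : Pat n μ A × Fin ρ => r x.1 x.2)
  refine ⟨B + A * A + Fintype.card (Pat n μ A) + (A + A * A) + B,
    fun T hT θ hH hθ hq hex E hE => ?_⟩
  obtain ⟨Q, W, nn, N, hQ, hrc, hG, hN1, hN2, hnn⟩ := exists_red (by omega) hE e
  obtain ⟨N', hN'1, hN'2, hr⟩ := hB T hT θ hH
  have hq1 : qval (qnat 1) = 1 := by rw [qval_qnat, Nat.cast_one]
  refine decideG_dom hrc ?_ ?_ ?_ ?_ ?_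
  · change 0 ≤ qval (qnat 1)
    rw [hq1]
    exact zero_le_one
  · change qval (qnat 1) ≤ 1
    rw [hq1]
  · change atZero n (pcPoly (n + 1) Q) = 1
    rw [hQ]
    exact atZero_Qt hD θ
  · change ∀ t ∈ Icc (0 : ℝ) 1, ∀ y ∈ Icc (0 : Fin n → ℝ) 1,
      0 < aeval (Fin.cons t y : Fin (n + 1) → ℝ) (pcPoly (n + 1) Q)
    intro t ht y hy
    rw [hQ]
    exact Qt_pos hθ ht hy
  · intro h0
    change ∃ U : P1 (A * n), PP.Phi (A * n) (pcPoly (A * n + 1) (QQ n A Q))
      (pcPoly (A * n + 1) (GG E (((n, A), A), ((Q, qnat 1), W))) +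
        (X 0 - C (qval (qnat 1))) * U) A = 0
    have hQB : pcPoly (A * n + 1) (QQ n A Q) = QB A D e θ := by
      rw [pcPoly_QQ, hQ]
      rfl
    rw [hQB, hG, hq1]
    refine exists_phi hD hrel hθ hq nn ?_
    have hval := exVal_eq_sum hθ hQ hrc hG
    rw [h0] at hval
    choose hnb z hz using hnn
    choose hrb y hy using hr
    have hrelθ : ∀ p, ((aeval θ q : ℚ) : ℝ) * VV D A p (cst θ) =
        ∑ i, ((aeval θ (r p i) : ℚ) : ℝ) * VV D A (π i) (cst θ) := by
      intro p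
      have h := hrel p (cst θ) hθ
      rw [DHalt_aeval] at h
      rw [h]
      exact Finset.sum_congr rfl fun i _ => by rw [DHalt_aeval]
    have hsum : ∑ i, (∑ p, (nn p : ℝ) * ((aeval θ (r p i) : ℚ) : ℝ)) * VV D A (π i) (cst θ) = 0 := by
      have h1 : ∑ p, (nn p : ℝ) * (((aeval θ q : ℚ) : ℝ) * VV D A p (cst θ)) = 0 := by
        have h2 : ∑ p, (nn p : ℝ) * (((aeval θ q : ℚ) : ℝ) * VV D A p (cst θ)) =
            ((aeval θ q : ℚ) : ℝ) * ∑ p, (nn p : ℝ) * VV D A p (cst θ) := by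
          rw [Finset.mul_sum]
          exact Finset.sum_congr rfl fun p _ => by ring
        rw [h2, ← hval, mul_zero]
      rw [← h1]
      have h3 : ∀ p, (nn p : ℝ) * (((aeval θ q : ℚ) : ℝ) * VV D A p (cst θ)) =
          ∑ i, (nn p : ℝ) * ((aeval θ (r p i) : ℚ) : ℝ) * VV D A (π i) (cst θ) := by
        intro p
        rw [hrelθ p, Finset.mul_sum]
        exact Finset.sum_congr rfl fun i _ => by ring
      rw [Finset.sum_congr rfl fun p _ => h3 p, Finset.sum_comm]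
      exact Finset.sum_congr rfl fun i _ => by rw [Finset.sum_mul]
    have hc : ∀ i, ((∑ p, z p * y (p, i) : ℤ) : ℚ) =
        ((N : ℚ) * N') * ∑ p, nn p * aeval θ (r p i) := by
      intro i
      rw [Int.cast_sum, Finset.mul_sum]
      refine Finset.sum_congr rfl fun p _ => ?_
      rw [Int.cast_mul, ← hz p, ← hy (p, i)]
      ring
    have hT0 : (0 : ℚ) ≤ (T : ℚ) := Nat.cast_nonneg _
    have hzero : (fun i => ∑ p, z p * y (p, i) : Fin ρ → ℤ) = 0 := by
      refine hex _ ?_ ?_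
      · intro i
        have h1 : |((∑ p, z p * y (p, i) : ℤ) : ℚ)| ≤
            (T : ℚ) ^ (B + A * A + Fintype.card (Pat n μ A) + (A + A * A) + B) := by
          rw [Int.cast_sum]
          refine (Finset.abs_sum_le_sum_abs _ _).trans ?_
          have h2 : ∀ p ∈ (Finset.univ : Finset (Pat n μ A)), |((z p * y (p, i) : ℤ) : ℚ)| ≤
              ((T : ℚ) ^ (A * A) * (T : ℚ) ^ (A + A * A)) * ((T : ℚ) ^ B * (T : ℚ) ^ B) := by
            intro p _
            rw [Int.cast_mul, abs_mul]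
            exact mul_le_mul (DHalt_bound hN2 (hnb p) (hz p)) (DHalt_bound hN'2 (hrb (p, i)) (hy (p, i)))
              (abs_nonneg _) (mul_nonneg (pow_nonneg hT0 _) (pow_nonneg hT0 _))
          refine (Finset.sum_le_card_nsmul _ _ _ h2).trans ?_
          rw [nsmul_eq_mul, Finset.card_univ]
          have h3 : (Fintype.card (Pat n μ A) : ℚ) ≤ (T : ℚ) ^ Fintype.card (Pat n μ A) := by
            have h4 : Fintype.card (Pat n μ A) ≤ T ^ Fintype.card (Pat n μ A) :=
              Nat.lt_two_pow_self.le.trans (Nat.pow_le_pow_left hT _)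
            exact_mod_cast h4
          have h5 : (T : ℚ) ^ (B + A * A + Fintype.card (Pat n μ A) + (A + A * A) + B) =
              (T : ℚ) ^ Fintype.card (Pat n μ A) *
                (((T : ℚ) ^ (A * A) * (T : ℚ) ^ (A + A * A)) * ((T : ℚ) ^ B * (T : ℚ) ^ B)) := by
            rw [← pow_add, ← pow_add, ← pow_add, ← pow_add]
            exact congrArg (fun k => (T : ℚ) ^ k) (by ring)
          rw [h5]
          exact mul_le_mul_of_nonneg_right h3 (mul_nonneg (mul_nonneg (pow_nonneg hT0 _)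
            (pow_nonneg hT0 _)) (mul_nonneg (pow_nonneg hT0 _) (pow_nonneg hT0 _)))
        exact_mod_cast h1
      · have h1 : ∀ i, (((∑ p, z p * y (p, i) : ℤ) : ℤ) : ℝ) =
            ((N : ℝ) * N') * ∑ p, (nn p : ℝ) * ((aeval θ (r p i) : ℚ) : ℝ) := by
          intro i
          have h2 := congrArg (fun w : ℚ => (w : ℝ)) (hc i)
          push_cast at h2
          rw [Int.cast_sum]
          push_cast
          exact h2
        have h2 : ∀ i, (((∑ p, z p * y (p, i) : ℤ) : ℤ) : ℝ) * VV D A (π i) (cst θ) =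
            ((N : ℝ) * N') * ((∑ p, (nn p : ℝ) * ((aeval θ (r p i) : ℚ) : ℝ)) *
              VV D A (π i) (cst θ)) := by
          intro i
          rw [h1 i]
          ring
        rw [Finset.sum_congr rfl fun i _ => h2 i, ← Finset.mul_sum, hsum, mul_zero]
    intro i
    have h1 : ((N : ℚ) * N') * ∑ p, nn p * aeval θ (r p i) = 0 := by
      rw [← hc i]
      have h2 : (∑ p, z p * y (p, i) : ℤ) = 0 := congrFun hzero i
      rw [h2, Int.cast_zero]
    have hN : (N : ℚ) * N' ≠ 0 := by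
      have h2 : (N : ℚ) ≠ 0 := by
        have := hN1
        exact_mod_cast (by omega : N ≠ 0)
      have h3 : (N' : ℚ) ≠ 0 := by
        have := hN'1
        exact_mod_cast (by omega : N' ≠ 0)
      exact mul_ne_zero h2 h3
    exact (mul_eq_zero.1 h1).resolve_left hN

end Pool.Agent.Lib.MP_bbe012_lc.PG
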