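import Pool.Agent.Lib.MP_bbe012_lc.PG.A12
import Pool.Agent.Lib.MP_bbe012_lc.PG.BMain
import Pool.Agent.Lib.MP_bbe012_lc.PG.DHalt

/-!
# The final theorem
-/

namespace Pool.Agent.Lib.MP_bbe012_lc.PG

open MvPolynomial MeasureTheory Set PP

/-- The algorithm halts for almost all parameters.

Proof. `exists_rel`, `exists_halt` give `ρ, π, q, r, A'`; `count_bad` for `VHyp S (VV ∘ π)` and `A'` gives `C₁, η₁`; `few_zeros` gives `C₂`; `many_pts` gives `c, T₀`. Let `T₁ = max T₀ 2`, `η = min η₁ 1`, `C = max (T₁ ^ η) ((C₁ + C₂) / c)`. The set `PtsT S T` is finite (`finite_HLE`, `Set.Finite.pi`).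
For `T ≥ T₁` the exceptional set is contained in the union of the set of `count_bad` and of the set of `few_zeros`, so its cardinality is at most `C₁ T ^ (2 s - η₁) + C₂ T ^ (2 s - 2) ≤ (C₁ + C₂) T ^ (2 s - η) ≤ ((C₁ + C₂) / c) T ^ (- η) card (PtsT S T)`. For `1 ≤ T < T₁` it is at most
`card (PtsT S T) ≤ T₁ ^ η T ^ (- η) card (PtsT S T)`. -/
theorem almost_all {s n μ : ℕ} (hs : 0 < s) (D : Fin μ → Pz s n) (e : Fin s → ℚ) (hD : ∀ k, spz (D k) e = 1)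
    {S : Set (Fin s → ℝ)} (hS : IsCompact S) (hSR : S ⊆ Reg D (cst e)) (hSi : (interior S).Nonempty) (A : ℕ) :
    ∃ C η : ℝ, 0 < η ∧ ∀ T : ℕ, 1 ≤ T →
      ({θ ∈ PtsT S T | ∃ E : Ex, InClassG D A T θ E ∧ ¬ (decideG E).Dom}.ncard : ℝ) ≤
        C * (T : ℝ) ^ (-η) * ((PtsT S T).ncard : ℝ) := by
  classical
  have : Nonempty (Fin s) := ⟨⟨0, hs⟩⟩
  obtain ⟨ρ, π, q, r, hq, hrel, hV⟩ := exists_rel D e hD A
  have hV' := hV S hS hSR
  obtain ⟨A', hA'⟩ := exists_halt hD hrel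
  obtain ⟨C₁, η₁, hC₁, hη₁, H₁⟩ := count_bad hV' A'
  obtain ⟨C₂, hC₂, H₂⟩ := few_zeros hs hq
  obtain ⟨c, T₀, hc, H₃⟩ := many_pts hSi
  obtain ⟨T₁, hT₁⟩ : ∃ T₁ : ℕ, T₁ = max T₀ 2 := ⟨_, rfl⟩
  obtain ⟨η, hη⟩ : ∃ η : ℝ, η = min η₁ 1 := ⟨_, rfl⟩
  have hη0 : 0 < η := by
    rw [hη]
    exact lt_min hη₁ one_pos
  have hηa : η ≤ η₁ := by
    rw [hη]
    exact min_le_left _ _
  have hηb : η ≤ 1 := by
    rw [hη]
    exact min_le_right _ _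
  refine ⟨max ((T₁ : ℝ) ^ η) ((C₁ + C₂) / c), η, hη0, ?_⟩
  intro T hT
  have hT0 : (0 : ℝ) < (T : ℝ) := by exact_mod_cast hT
  have hT1 : (1 : ℝ) ≤ (T : ℝ) := by exact_mod_cast hT
  have hTη : (0 : ℝ) < (T : ℝ) ^ (-η) := Real.rpow_pos_of_pos hT0 _
  have hn0 : (0 : ℝ) ≤ ((PtsT S T).ncard : ℝ) := Nat.cast_nonneg _
  have hfinA : {θ : Fin s → ℚ | ∀ i, HLE T (θ i)}.Finite :=
    Set.Finite.pi' (fun _ : Fin s => finite_HLE T)
  have hfinP : (PtsT S T).Finite := hfinA.subset fun θ hθ => hθ.1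
  obtain ⟨X, hX⟩ : ∃ X : Set (Fin s → ℚ), X = {θ ∈ PtsT S T | ∃ E : Ex, InClassG D A T θ E ∧ ¬ (decideG E).Dom} :=
    ⟨_, rfl⟩
  rw [← hX]
  by_cases hTT : T₁ ≤ T
  · have hT2 : 2 ≤ T := by
      have h1 : 2 ≤ max T₀ 2 := le_max_right _ _
      omega
    have hTT0 : T₀ ≤ T := by
      have h1 : T₀ ≤ max T₀ 2 := le_max_left _ _
      omega
    obtain ⟨hfB, hcB⟩ := H₁ T hT
    obtain ⟨Bad, hBad⟩ : ∃ Bad : Set (Fin s → ℚ), Bad = {σ : Fin s → ℚ | (∀ i, HLE T (σ i)) ∧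
        (fun i => (σ i : ℝ)) ∈ S ∧ ∃ c : Fin ρ → ℤ, c ≠ 0 ∧ (∀ j, |c j| ≤ (T : ℤ) ^ A') ∧
          ∑ j, (c j : ℝ) * (fun i => VV D A (π i)) j (fun i => (σ i : ℝ)) = 0} := ⟨_, rfl⟩
    rw [← hBad] at hfB hcB
    obtain ⟨Zer, hZer⟩ : ∃ Zer : Set (Fin s → ℚ), Zer = {θ : Fin s → ℚ | (∀ i, HLE T (θ i)) ∧ aeval θ q = 0} :=
      ⟨_, rfl⟩
    have hcZ := H₂ T hT
    rw [← hZer] at hcZ
    have hfZ : Zer.Finite := by
      rw [hZer]
      exact hfinA.subset fun θ hθ => hθ.1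
    have hsub : X ⊆ Bad ∪ Zer := by
      intro θ hθ
      rw [hX] at hθ
      obtain ⟨⟨hθ1, hθ2⟩, E, hE1, hE2⟩ := hθ
      by_cases h0 : aeval θ q = 0
      · refine Or.inr ?_
        rw [hZer]
        exact ⟨hθ1, h0⟩
      · refine Or.inl ?_
        by_contra hB
        apply hE2
        refine hA' T hT2 θ hθ1 (hSR hθ2) h0 ?_ E hE1
        intro c' hc' hs'
        by_contra hne
        apply hB
        rw [hBad]
        exact ⟨hθ1, hθ2, c', hne, hc', hs'⟩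
    have h1 : (X.ncard : ℝ) ≤ (Bad.ncard : ℝ) + (Zer.ncard : ℝ) := by
      have h2 := (Set.ncard_le_ncard hsub (hfB.union hfZ)).trans (Set.ncard_union_le Bad Zer)
      exact_mod_cast h2
    have h3 : (T : ℝ) ^ (2 * (Fintype.card (Fin s) : ℝ) - η₁) ≤ (T : ℝ) ^ (2 * (s : ℝ)) * (T : ℝ) ^ (-η) := by
      rw [← Real.rpow_add hT0, Fintype.card_fin]
      exact Real.rpow_le_rpow_of_exponent_le hT1 (by linarith)
    have h4 : (T : ℝ) ^ (2 * (s : ℝ) - 2) ≤ (T : ℝ) ^ (2 * (s : ℝ)) * (T : ℝ) ^ (-η) := by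
      rw [← Real.rpow_add hT0]
      exact Real.rpow_le_rpow_of_exponent_le hT1 (by linarith)
    have h5 : (T : ℝ) ^ (2 * (s : ℝ)) ≤ ((PtsT S T).ncard : ℝ) / c := by
      rw [le_div_iff₀ hc, mul_comm]
      exact H₃ T hTT0
    calc (X.ncard : ℝ) ≤ C₁ * ((T : ℝ) ^ (2 * (s : ℝ)) * (T : ℝ) ^ (-η)) +
          C₂ * ((T : ℝ) ^ (2 * (s : ℝ)) * (T : ℝ) ^ (-η)) := by
            refine h1.trans (add_le_add (hcB.trans ?_) (hcZ.trans ?_))
            · exact mul_le_mul_of_nonneg_left h3 hC₁.le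
            · exact mul_le_mul_of_nonneg_left h4 hC₂.le
      _ = (C₁ + C₂) * (T : ℝ) ^ (-η) * (T : ℝ) ^ (2 * (s : ℝ)) := by ring
      _ ≤ (C₁ + C₂) * (T : ℝ) ^ (-η) * (((PtsT S T).ncard : ℝ) / c) := by
            refine mul_le_mul_of_nonneg_left h5 ?_
            positivity
      _ = (C₁ + C₂) / c * (T : ℝ) ^ (-η) * ((PtsT S T).ncard : ℝ) := by ring
      _ ≤ _ := by
            refine mul_le_mul_of_nonneg_right ?_ hn0
            exact mul_le_mul_of_nonneg_right (le_max_right _ _) hTη.le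
  · have hTle : (T : ℝ) ≤ (T₁ : ℝ) := by
      have h1 : T ≤ T₁ := by omega
      exact_mod_cast h1
    have h1 : (X.ncard : ℝ) ≤ ((PtsT S T).ncard : ℝ) := by
      have h2 : X ⊆ PtsT S T := by
        intro θ hθ
        rw [hX] at hθ
        exact hθ.1
      exact_mod_cast Set.ncard_le_ncard h2 hfinP
    have h2 : (1 : ℝ) ≤ (T₁ : ℝ) ^ η * (T : ℝ) ^ (-η) := by
      have h3 : (T : ℝ) ^ η * (T : ℝ) ^ (-η) = 1 := by
        rw [← Real.rpow_add hT0, add_neg_cancel, Real.rpow_zero]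
      rw [← h3]
      refine mul_le_mul_of_nonneg_right ?_ hTη.le
      exact Real.rpow_le_rpow hT0.le hTle hη0.le
    calc (X.ncard : ℝ) ≤ 1 * ((PtsT S T).ncard : ℝ) := by
            rw [one_mul]
            exact h1
      _ ≤ (T₁ : ℝ) ^ η * (T : ℝ) ^ (-η) * ((PtsT S T).ncard : ℝ) := mul_le_mul_of_nonneg_right h2 hn0
      _ ≤ _ := by
            refine mul_le_mul_of_nonneg_right ?_ hn0
            exact mul_le_mul_of_nonneg_right (le_max_left _ _) hTη.le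

end Pool.Agent.Lib.MP_bbe012_lc.PG
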