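import Pool.Agent.Lib.MP_bbe012_lc.PG.DDefs
import Pool.Agent.Lib.MP_bbe012_lc.PG.BLink
import Pool.Agent.Lib.MP_bbe012_lc.PP.RedB
import Pool.Agent.Lib.MP_bbe012_lc.PP.CodeA

/-!
# Existence of the reduction, and the coefficients of the patterns
-/

namespace Pool.Agent.Lib.MP_bbe012_lc.PG

open MvPolynomial MeasureTheory Set PP

/-- the exponent given by a bounded function -/
private noncomputable def dredE {n A : ℕ} (a : Fin n → Fin (A + 1)) : Fin n →₀ ℕ :=
  Finsupp.equivFunOnFinite.symm fun l => (a l : ℕ)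

private theorem dredE_apply {n A : ℕ} (a : Fin n → Fin (A + 1)) (l : Fin n) :
    dredE a l = (a l : ℕ) := rfl

private theorem dredE_mon {n A : ℕ} (a : Fin n → Fin (A + 1)) (c : ℚ) :
    C c * ∏ l, (X l : MvPolynomial (Fin n) ℚ) ^ (a l : ℕ) = monomial (dredE a) c := by
  rw [monomial_eq, Finsupp.prod_fintype _ _ fun l => pow_zero _]
  rfl

private theorem dred_expand {n A : ℕ} {P : MvPolynomial (Fin n) ℚ} (hP : P.totalDegree ≤ A) :
    P = ∑ a : Fin n → Fin (A + 1), C (coeff (dredE a) P) * ∏ l, X l ^ (a l : ℕ) := by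
  classical
  ext m
  rw [coeff_sum]
  have h1 : ∀ a : Fin n → Fin (A + 1),
      coeff m (C (coeff (dredE a) P) * ∏ l, (X l : MvPolynomial (Fin n) ℚ) ^ (a l : ℕ)) =
        if dredE a = m then coeff (dredE a) P else 0 := fun a => by
    rw [dredE_mon, coeff_monomial]
  rw [Finset.sum_congr rfl fun a _ => h1 a]
  by_cases hm : ∀ l, m l < A + 1
  · have h2 : dredE (fun l => (⟨m l, hm l⟩ : Fin (A + 1))) = m := by
      ext l
      rfl
    rw [Finset.sum_eq_single (fun l => (⟨m l, hm l⟩ : Fin (A + 1)))]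
    · rw [if_pos h2, h2]
    · intro a _ ha
      refine if_neg fun h3 => ha ?_
      funext l
      refine Fin.ext ?_
      exact DFunLike.congr_fun h3 l
    · intro h3
      exact absurd (Finset.mem_univ _) h3
  · rw [Finset.sum_eq_zero]
    · by_contra h3
      obtain ⟨l, hl⟩ := not_forall.1 hm
      apply hl
      have h4 : (m.sum fun _ e => e) ≤ P.totalDegree := le_totalDegree (mem_support_iff.2 h3)
      have h5 : m l ≤ m.sum fun _ e => e := by
        by_cases hi : l ∈ m.support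
        · exact Finset.single_le_sum (f := fun a => m a) (fun _ _ => Nat.zero_le _) hi
        · rw [Finsupp.notMem_support_iff.1 hi]
          exact Nat.zero_le _
      exact Nat.lt_succ_of_le (h5.trans (h4.trans hP))
    · intro a _
      refine if_neg fun h3 => hm fun l => ?_
      rw [← h3, dredE_apply]
      exact (a l).2

private theorem dred_cong {s n : ℕ} (D : Pz s n) (e θ : Fin s → ℚ) :
    Ideal.Quotient.mk (Ideal.span {(X 0 - C 1 : P1 n)}) (rename Fin.succ (spz D θ)) =
      Ideal.Quotient.mk (Ideal.span {(X 0 - C 1 : P1 n)}) (Dt D e θ) := by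
  have h : ((Ideal.Quotient.mkₐ ℚ (Ideal.span {(X 0 - C 1 : P1 n)})).comp
      ((rename (Fin.succ : Fin n → Fin (n + 1)) : MvPolynomial (Fin n) ℚ →ₐ[ℚ] P1 n).comp
        (aeval (Sum.elim (fun i => C (θ i)) X) : Pz s n →ₐ[ℚ] MvPolynomial (Fin n) ℚ))) =
      (Ideal.Quotient.mkₐ ℚ (Ideal.span {(X 0 - C 1 : P1 n)})).comp
        (aeval (Sum.elim (fun i => C (e i) + X 0 * C (θ i - e i)) (fun l => X (Fin.succ l))) :
          Pz s n →ₐ[ℚ] P1 n) := by
    refine MvPolynomial.algHom_ext fun i => ?_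
    rcases i with i | l
    · simp only [AlgHom.comp_apply, aeval_X, Sum.elim_inl, rename_C, Ideal.Quotient.mkₐ_eq_mk]
      rw [Ideal.Quotient.eq, Ideal.mem_span_singleton]
      refine ⟨-C (θ i - e i), ?_⟩
      rw [C_sub, C_1]
      ring
    · simp only [AlgHom.comp_apply, aeval_X, Sum.elim_inr, rename_X]
  exact congrArg (fun f => f D) h

/-- The numerator of one integral over the common denominator.

Proof. `W = ∏ k, spz (D k) θ ^ (A - κ k)`. The polynomial `rename (Fin.castLE h) P` has degree at most `A` (`totalDegree_rename_le`), so it is the sum over `a : Fin n → Fin (A + 1)` of its coefficients times `∏ l, X l ^ a l` (every exponent of the support has all entries `≤ A`); `cc (a, κ') = ` the coefficient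
of `a` if `κ' = κ`, and `0` otherwise (`Fintype.sum_prod_type`, `Finset.sum_ite_eq`). The coefficients of `rename (Fin.castLE h) P` are coefficients of `P` or `0` (`coeff_rename_mapDomain`, `coeff_rename_eq_zero`; the map is injective). -/
theorem item_expand {s n μ A T q : ℕ} {D : Fin μ → Pz s n} {θ : Fin s → ℚ} {I : CI} (hI : ItemOK D A T q θ I)
    (h : I.1 ≤ n) :
    ∃ (W : MvPolynomial (Fin n) ℚ) (cc : (Fin n → Fin (A + 1)) × (Fin μ → Fin (A + 1)) → ℚ),
      rename (Fin.castLE h) (pcPoly I.1 I.2.2) * W = ∏ k, spz (D k) θ ^ A ∧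
      rename (Fin.castLE h) (pcPoly I.1 I.2.1) * W =
        ∑ y, C (cc y) * ((∏ l, X l ^ (y.1 l : ℕ)) * ∏ k, spz (D k) θ ^ (A - (y.2 k : ℕ))) ∧
      ∀ y, |cc y| ≤ (T : ℚ) ^ A ∧ ∃ z : ℤ, (q : ℚ) * cc y = z := by
  classical
  obtain ⟨h', κ, hκ, hden, hdeg, hco⟩ := hI
  obtain ⟨P, hP⟩ : ∃ P : MvPolynomial (Fin n) ℚ, P = rename (Fin.castLE h) (pcPoly I.1 I.2.1) :=
    ⟨_, rfl⟩
  have hPdeg : P.totalDegree ≤ A := by
    rw [hP]
    exact (totalDegree_rename_le _ _).trans hdeg
  have hPco : ∀ b, |coeff b P| ≤ (T : ℚ) ^ A ∧ ∃ z : ℤ, (q : ℚ) * coeff b P = z := by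
    intro b
    by_cases hb : coeff b P = 0
    · rw [hb, abs_zero]
      exact ⟨by positivity, 0, by simp⟩
    · rw [hP] at hb ⊢
      obtain ⟨u, hu, _⟩ := coeff_rename_ne_zero _ _ _ hb
      rw [← hu, coeff_rename_mapDomain _ (Fin.castLE_injective h)]
      exact hco u
  refine ⟨∏ k, spz (D k) θ ^ (A - κ k), fun y => if y.2 = fun k => ⟨κ k, Nat.lt_succ_of_le (hκ k)⟩
    then coeff (dredE y.1) P else 0, ?_, ?_, ?_⟩
  · have h1 : rename (Fin.castLE h) (pcPoly I.1 I.2.2) = ∏ k, spz (D k) θ ^ κ k := hden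
    rw [h1, ← Finset.prod_mul_distrib]
    refine Finset.prod_congr rfl fun k _ => ?_
    rw [← pow_add, Nat.add_sub_cancel' (hκ k)]
  · rw [← hP]
    conv_lhs => rw [dred_expand hPdeg]
    rw [Finset.sum_mul, Fintype.sum_prod_type]
    refine Finset.sum_congr rfl fun a _ => ?_
    rw [Finset.sum_eq_single (fun k => (⟨κ k, Nat.lt_succ_of_le (hκ k)⟩ : Fin (A + 1)))]
    · simp only [if_true]
      rw [mul_assoc]
    · intro κ' _ hne
      simp only [if_neg hne, C_0, zero_mul]
    · intro hne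
      exact absurd (Finset.mem_univ _) hne
  · intro y
    by_cases hy : y.2 = fun k => ⟨κ k, Nat.lt_succ_of_le (hκ k)⟩
    · simp only [if_pos hy]
      exact hPco _
    · simp only [if_neg hy, abs_zero]
      exact ⟨by positivity, 0, by simp⟩

/-- The missing factors. Proof: `κ = 0`, the polynomials are `1`; `1 ≤ T ^ A`. -/
theorem item_default {s n μ A T q : ℕ} (D : Fin μ → Pz s n) (θ : Fin s → ℚ) (hT : 1 ≤ T) :
    ItemOK D A T q θ (0, (pcNat 1, pcNat 1)) := by
  have hp : pcPoly 0 (pcNat 1) = 1 := by rw [pcPoly_nat, Nat.cast_one, C_1]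
  refine ⟨Nat.zero_le n, fun _ => 0, fun _ => Nat.zero_le _, ?_, ?_, fun b => ?_⟩
  · change rename (Fin.castLE (Nat.zero_le n)) (pcPoly 0 (pcNat 1)) = ∏ k, spz (D k) θ ^ 0
    rw [hp, map_one]
    exact (Finset.prod_eq_one fun k _ => pow_zero _).symm
  · change (pcPoly 0 (pcNat 1)).totalDegree ≤ A
    rw [hp, totalDegree_one]
    exact Nat.zero_le _
  · change |coeff b (pcPoly 0 (pcNat 1))| ≤ (T : ℚ) ^ A ∧
      ∃ z : ℤ, (q : ℚ) * coeff b (pcPoly 0 (pcNat 1)) = z
    classical
    rw [hp, coeff_one]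
    by_cases hb : (0 : Fin 0 →₀ ℕ) = b
    · rw [if_pos hb, abs_one, mul_one]
      refine ⟨one_le_pow₀ (by exact_mod_cast hT), (q : ℤ), ?_⟩
      rw [Int.cast_natCast]
    · rw [if_neg hb, abs_zero, mul_zero]
      exact ⟨by positivity, 0, by simp⟩

/-- Proof: `Dt (D k) e θ - rename Fin.succ (spz (D k) θ)` is divisible by `X 0 - C 1` (see `Gt_sub_G1`; here for `Qt D e θ ^ A = ∏ k, Dt (D k) e θ ^ A`). -/
theorem Qt_sub {s n μ : ℕ} (A : ℕ) (D : Fin μ → Pz s n) (e θ : Fin s → ℚ) :
    (X 0 - C 1 : P1 n) ∣ rename Fin.succ (∏ k, spz (D k) θ ^ A) - Qt D e θ ^ A := by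
  rw [← Ideal.mem_span_singleton, ← Ideal.Quotient.eq, Qt, ← Finset.prod_pow, map_prod, map_prod,
    map_prod]
  refine Finset.prod_congr rfl fun k _ => ?_
  rw [map_pow, map_pow, map_pow]
  congr 1
  exact dred_cong (D k) e θ

/-- The data of the reduction.

Proof. `Q` is a code of `Qt D e θ` (`exists_pcPoly`). For `j < E.length`, `i < A` the factor `item E j i` satisfies `ItemOK` (it is in the list `E.getD j []`, or it is the default, `item_default`); `item_expand` gives `W_(j,i)`, `cc_(j,i)`; `Qt_sub` gives `V_(j,i)` with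
`rename succ (D' W) = Q ^ A + (X 0 - C 1) V`; codes (`exists_pcPoly`) and `List.ofFn` (see `exists_rc` in PP/RedD.lean). `pcPoly_GG`, `pcPoly_trunc_castLE`: the numerator is `∑ j, ∏ i, rename (bidx n A i) (rename Fin.succ (∑ y, C (cc_(j,i) y) * R y))`; by `Finset.prod_univ_sum` (and `Fintype.piFinset_univ`) it is
`∑ j, ∑ p : Pat n μ A, C (∏ i, cc_(j,i) (p i)) * G1 A D θ p`, so `nn p = ∑ j, ∏ i, cc_(j,i) (p i)`. The bound: `E.length ≤ T ^ A` terms, each of absolute value at most `(T ^ A) ^ A`; `N = q ^ A`, `q ^ A * ∏ i, cc_i = ∏ i, (q cc_i)` is an integer. -/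
theorem exists_red {s n μ A T : ℕ} {D : Fin μ → Pz s n} {θ : Fin s → ℚ} {E : Ex} (hT : 1 ≤ T)
    (hE : InClassG D A T θ E) (e : Fin s → ℚ) :
    ∃ (Q : PCode) (W : List (List (PCode × PCode))) (nn : Pat n μ A → ℚ) (N : ℕ),
      pcPoly (n + 1) Q = Qt D e θ ∧ rcOK E (((n, A), A), ((Q, qnat 1), W)) ∧
      pcPoly (A * n + 1) (GG E (((n, A), A), ((Q, qnat 1), W))) = ∑ p, C (nn p) * G1 A D θ p ∧
      1 ≤ N ∧ N ≤ T ^ (A * A) ∧ ∀ p, |nn p| ≤ (T : ℚ) ^ (A + A * A) ∧ ∃ z : ℤ, (N : ℚ) * nn p = z := by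
  classical
  obtain ⟨hlen, hL, q, hq1, hqT, hitems⟩ := hE
  have hI : ∀ j i, ItemOK D A T q θ (item E j i) := by
    intro j i
    have key : (item E j i = (0, (pcNat 1, pcNat 1))) ∨ ∃ L ∈ E, item E j i ∈ L := by
      by_cases hj : j < E.length
      · by_cases hi : i < (E.getD j []).length
        · right
          refine ⟨E.getD j [], ?_, ?_⟩
          · rw [List.getD_eq_getElem _ _ hj]
            exact List.getElem_mem hj
          · unfold item
            rw [List.getD_eq_getElem _ _ hi]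
            exact List.getElem_mem hi
        · left
          unfold item
          rw [List.getD_eq_default _ _ (not_lt.1 hi)]
      · left
        unfold item
        rw [List.getD_eq_default E _ (not_lt.1 hj)]
        rfl
    rcases key with h0 | ⟨L, hL', hIL⟩
    · rw [h0]
      exact item_default D θ hT
    · exact hitems L hL' _ hIL
  have hle : ∀ j i, (item E j i).1 ≤ n := fun j i => (hI j i).choose
  choose W0 cc hW0 hcc hccb using fun j i => item_expand (hI j i) (hle j i)
  obtain ⟨Q, hQ⟩ := exists_pcPoly (Qt D e θ)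
  obtain ⟨V0, hV0⟩ := Qt_sub A D e θ
  obtain ⟨V, hV⟩ := exists_pcPoly V0
  choose W hW using fun j i => exists_pcPoly (W0 j i)
  obtain ⟨WL, hWL⟩ : ∃ WL : List (List (PCode × PCode)), WL =
    List.ofFn fun j : Fin E.length => List.ofFn fun i : Fin A => (W j i, V) := ⟨_, rfl⟩
  have hwit : ∀ j < E.length, ∀ i < A, wit (((n, A), A), ((Q, qnat 1), WL)) j i = (W j i, V) := by
    intro j hj i hi
    unfold wit
    dsimp only
    rw [hWL]
    have hA : (List.ofFn fun j : Fin E.length => List.ofFn fun i : Fin A => (W j i, V)).getD j [] =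
        List.ofFn fun i : Fin A => (W j i, V) := by
      rw [List.getD_eq_getElem _ _ (by rw [List.length_ofFn]; exact hj), List.getElem_ofFn]
    rw [hA, List.getD_eq_getElem _ _ (by rw [List.length_ofFn]; exact hi), List.getElem_ofFn]
  refine ⟨Q, WL, fun p => ∑ j : Fin E.length, ∏ i : Fin A, cc j i (p i), q ^ A, hQ, ⟨hL, ?_⟩, ?_,
    Nat.one_le_pow _ _ hq1, ?_, fun p => ⟨?_, ?_⟩⟩
  · intro j hj i hi
    rw [List.mem_range] at hj hi
    refine ⟨hle j i, ?_⟩
    rw [hwit j hj i hi, pcIsZero_iff, pcPoly_append, pcPoly_neg, pcPoly_append, pcPoly_pow,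
      pcPoly_mul, pcPoly_append, pcPoly_neg, pcPoly_tC, pcPoly_constC]
    dsimp only
    rw [pcPoly_shift_succ, pcPoly_mul, pcPoly_trunc_castLE (hle j i), hW, hW0, hQ, hV, qval_qnat,
      Nat.cast_one]
    have h1 : rename Fin.succ (∏ k, spz (D k) θ ^ A) = Qt D e θ ^ A + (X 0 - C 1) * V0 := by
      rw [← hV0]
      ring
    rw [h1]
    ring
  · have h1 := pcPoly_GG E (((n, A), A), ((Q, qnat 1), WL))
    dsimp only at h1
    refine h1.trans ?_
    have h2 : ∀ j : Fin E.length, ∏ i : Fin A, rename (bidx n A i) (rename Fin.succ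
        (pcPoly n (pcTrunc (item E j i).1 (item E j i).2.1) *
          pcPoly n (wit (((n, A), A), ((Q, qnat 1), WL)) j i).1)) =
        ∑ p : Pat n μ A, C (∏ i : Fin A, cc j i (p i)) * G1 A D θ p := by
      intro j
      have h3 : ∀ i : Fin A, rename (bidx n A i) (rename Fin.succ
          (pcPoly n (pcTrunc (item E j i).1 (item E j i).2.1) *
            pcPoly n (wit (((n, A), A), ((Q, qnat 1), WL)) j i).1)) =
          ∑ y : (Fin n → Fin (A + 1)) × (Fin μ → Fin (A + 1)), C (cc j i y) *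
            rename (bidx n A i) (rename Fin.succ
              ((∏ l, X l ^ (y.1 l : ℕ)) * ∏ k, spz (D k) θ ^ (A - (y.2 k : ℕ)))) := by
        intro i
        rw [hwit j j.2 i i.2]
        dsimp only
        rw [pcPoly_trunc_castLE (hle j i), hW, hcc, map_sum, map_sum]
        refine Finset.sum_congr rfl fun y _ => ?_
        rw [map_mul, map_mul, rename_C, rename_C]
      rw [Finset.prod_congr rfl fun i _ => h3 i, Finset.prod_univ_sum, Fintype.piFinset_univ]
      refine Finset.sum_congr rfl fun p _ => ?_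
      rw [Finset.prod_mul_distrib, map_prod]
      rfl
    rw [Finset.sum_congr rfl fun j _ => h2 j, Finset.sum_comm]
    refine Finset.sum_congr rfl fun p _ => ?_
    rw [map_sum, Finset.sum_mul]
  · calc q ^ A ≤ (T ^ A) ^ A := Nat.pow_le_pow_left hqT A
      _ = T ^ (A * A) := (pow_mul T A A).symm
  · have hTA : (0 : ℚ) ≤ (T : ℚ) ^ A := by positivity
    refine (Finset.abs_sum_le_sum_abs _ _).trans ?_
    have h1 : ∀ j : Fin E.length, |∏ i : Fin A, cc j i (p i)| ≤ ((T : ℚ) ^ A) ^ A := by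
      intro j
      rw [Finset.abs_prod]
      have h2 : ∏ i : Fin A, |cc j i (p i)| ≤ ∏ _i : Fin A, (T : ℚ) ^ A :=
        Finset.prod_le_prod (fun i _ => abs_nonneg _) fun i _ => (hccb j i (p i)).1
      refine h2.trans (le_of_eq ?_)
      rw [Finset.prod_const, Finset.card_univ, Fintype.card_fin]
    refine (Finset.sum_le_sum fun j _ => h1 j).trans ?_
    rw [Finset.sum_const, Finset.card_univ, Fintype.card_fin, nsmul_eq_mul, pow_add, pow_mul]
    refine mul_le_mul_of_nonneg_right ?_ (by positivity)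
    exact_mod_cast hlen
  · choose z hz using fun (j : Fin E.length) (i : Fin A) => (hccb j i (p i)).2
    refine ⟨∑ j : Fin E.length, ∏ i : Fin A, z j i, ?_⟩
    rw [Nat.cast_pow, Finset.mul_sum, Int.cast_sum]
    refine Finset.sum_congr rfl fun j _ => ?_
    rw [Int.cast_prod, ← Finset.prod_congr rfl fun i _ => hz j i, Finset.prod_mul_distrib,
      Finset.prod_const, Finset.card_univ, Fintype.card_fin]

end Pool.Agent.Lib.MP_bbe012_lc.PG
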